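import Pool.Agent.DBS.Targets

/-!
# DBS, target AR6: assembly of the arithmetic part on the scale `m ≤ D log log X`
-/

set_option autoImplicit false

namespace Pool.Agent.DBS

open Complex MeasureTheory Set Filter
open Pool.Agent.DBN Pool.Agent.DBC Pool.Agent.DBB
open scoped ENNReal

namespace AR6_

theorem up_small {m t L q W z M μ R : ℝ} (hq : 1 ≤ q) (ht : 0 < t) (hL : 0 < L)
    (hm : m = t * L ^ 2) (hM : 0 < M) (hz : 0 ≤ z) (hμ : m ≤ μ) (hR0 : 0 ≤ R) (hR : R ≤ W * L)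
    (h : (z * M) ^ 2 ≤ Real.exp ((m + R ^ 2 / m) / (2 * q))) :
    z ≤ 1 / M * Real.exp ((μ + W ^ 2 / t) / q) := by
  have hm0 : 0 < m := by
    rw [hm]
    positivity
  have hq0 : 0 < q := by linarith
  have e1 : R ^ 2 / m ≤ W ^ 2 / t := by
    rw [div_le_div_iff₀ hm0 ht, hm]
    have h1 : R ^ 2 ≤ (W * L) ^ 2 := pow_le_pow_left₀ hR0 hR 2
    have h2 := mul_le_mul_of_nonneg_right h1 ht.le
    calc R ^ 2 * t ≤ (W * L) ^ 2 * t := h2
      _ = W ^ 2 * (t * L ^ 2) := by ring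
  obtain ⟨E, hE⟩ : ∃ E : ℝ, E = (μ + W ^ 2 / t) / q := ⟨_, rfl⟩
  rw [← hE]
  have hs : 0 ≤ μ + W ^ 2 / t := by
    have : 0 ≤ W ^ 2 / t := by positivity
    linarith
  have hE0 : 0 ≤ E := by
    rw [hE]
    positivity
  have e2 : (m + R ^ 2 / m) / (2 * q) ≤ 2 * E := by
    have h1 : (m + R ^ 2 / m) / (2 * q) ≤ (μ + W ^ 2 / t) / (2 * q) :=
      div_le_div_of_nonneg_right (by linarith) (by positivity)
    have h2 : (μ + W ^ 2 / t) / (2 * q) = E / 2 := by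
      rw [hE]
      field_simp
    rw [h2] at h1
    linarith
  have e3 : (z * M) ^ 2 ≤ Real.exp E ^ 2 := by
    refine h.trans ((Real.exp_le_exp.2 e2).trans (le_of_eq ?_))
    rw [← Real.exp_nat_mul]
    norm_num
  have e4 : z * M ≤ Real.exp E :=
    (pow_le_pow_iff_left₀ (mul_nonneg hz hM.le) (Real.exp_pos _).le two_ne_zero).1 e3
  rw [one_div, inv_mul_eq_div, le_div_iff₀ hM]
  exact e4

theorem low {m q z M z1 M1 μ R : ℝ} (hq : 1 ≤ q) (hm : 6 * q ≤ m) (hμ : m ≤ μ) (hM1 : 0 < M1)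
    (hz : 0 ≤ z) (hM : 0 ≤ M) (hz1 : 0 ≤ z1) (hR0 : 0 ≤ R) (hR : R ≤ m) (h1 : 1 / 2 ≤ z * M)
    (h2 : 1 / 2 ≤ z1 * M1) (h3 : (z1 * M) ^ 2 ≤ Real.exp ((m + R ^ 2 / m) / (2 * q))) :
    1 / M1 * Real.exp (-(μ / q)) ≤ z := by
  have hq0 : 0 < q := by linarith
  have hm0 : 0 < m := by linarith
  obtain ⟨b, hb⟩ : ∃ b : ℝ, b = m / (2 * q) := ⟨_, rfl⟩
  have hb3 : 3 ≤ b := by
    rw [hb, le_div_iff₀ (by positivity)]
    linarith
  have e1 : R ^ 2 / m ≤ m := by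
    rw [div_le_iff₀ hm0]
    nlinarith
  have e2 : (m + R ^ 2 / m) / (2 * q) ≤ 2 * b := by
    have h4 : (m + R ^ 2 / m) / (2 * q) ≤ (m + m) / (2 * q) :=
      div_le_div_of_nonneg_right (by linarith) (by positivity)
    refine h4.trans (le_of_eq ?_)
    rw [hb]
    ring
  have e3 : (z1 * M) ^ 2 ≤ Real.exp b ^ 2 := by
    refine h3.trans ((Real.exp_le_exp.2 e2).trans (le_of_eq ?_))
    rw [← Real.exp_nat_mul]
    norm_num
  have e4 : z1 * M ≤ Real.exp b :=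
    (pow_le_pow_iff_left₀ (mul_nonneg hz1 hM) (Real.exp_pos _).le two_ne_zero).1 e3
  have e5 : Real.exp (-(μ / q)) ≤ Real.exp (-b) * Real.exp (-b) := by
    rw [← Real.exp_add]
    refine Real.exp_le_exp.2 ?_
    have h4 : m / q ≤ μ / q := div_le_div_of_nonneg_right hμ hq0.le
    have h5 : b + b = m / q := by
      rw [hb]
      field_simp
      ring
    linarith
  have e6 : Real.exp (-b) ≤ 1 / 4 := by
    rw [Real.exp_neg, inv_eq_one_div, div_le_div_iff₀ (Real.exp_pos _) (by norm_num)]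
    linarith [Real.add_one_le_exp b]
  have e7 : 1 / 4 ≤ z * M1 * (z1 * M) := by
    have h4 : (1 / 2 : ℝ) * (1 / 2) ≤ (z * M) * (z1 * M1) :=
      mul_le_mul h1 h2 (by norm_num) (by linarith)
    calc (1 / 4 : ℝ) = 1 / 2 * (1 / 2) := by norm_num
      _ ≤ (z * M) * (z1 * M1) := h4
      _ = _ := by ring
  have e8 : z * M1 * (z1 * M) ≤ z * M1 * Real.exp b :=
    mul_le_mul_of_nonneg_left e4 (mul_nonneg hz hM1.le)
  have e9 : Real.exp (-b) * (1 / 4) ≤ Real.exp (-b) * (z * M1 * Real.exp b) :=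
    mul_le_mul_of_nonneg_left (e7.trans e8) (Real.exp_pos _).le
  have e10 : Real.exp (-b) * (z * M1 * Real.exp b) = z * M1 := by
    calc Real.exp (-b) * (z * M1 * Real.exp b) = (Real.exp (-b) * Real.exp b) * (z * M1) := by
          ring
      _ = z * M1 := by rw [← Real.exp_add, neg_add_cancel, Real.exp_zero, one_mul]
  rw [e10] at e9
  have e11 : Real.exp (-b) * Real.exp (-b) ≤ Real.exp (-b) * (1 / 4) :=
    mul_le_mul_of_nonneg_left e6 (Real.exp_pos _).le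
  rw [one_div, inv_mul_eq_div, div_le_iff₀ hM1]
  linarith

theorem up_large {m t L q W z M μ C X n : ℝ} (hq : 1 ≤ q) (ht : 0 < t) (hL : 0 < L)
    (hX : Real.log X = L) (hX1 : 1 ≤ X) (hm : m = t * L ^ 2) (hM : 0 < M) (hMX : M ≤ X)
    (hμ : m ≤ μ) (hW : 1 / 16 ≤ W) (hmL : 1024 * q * m ≤ L) (hC : 0 < C) (hn : 0 ≤ n)
    (hXC : C * (n + 2) ≤ X) (h : z ≤ C * (2 * X + n)) :
    z ≤ 1 / M * Real.exp ((μ + W ^ 2 / t) / q) := by
  have hm0 : 0 < m := by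
    rw [hm]
    positivity
  have hq0 : 0 < q := by linarith
  have hX0 : 0 < X := by linarith
  have e1 : 4 * L ≤ (μ + W ^ 2 / t) / q := by
    have h1 : 1 / 256 / t ≤ W ^ 2 / t := by
      refine div_le_div_of_nonneg_right ?_ ht.le
      nlinarith
    have h2 : 4 * L * q ≤ 1 / 256 / t := by
      rw [le_div_iff₀ ht]
      have h3 : 1024 * q * (t * L ^ 2) ≤ L := by rwa [← hm]
      have h4 : L * (1024 * q * (t * L)) ≤ L * 1 := by
        calc L * (1024 * q * (t * L)) = 1024 * q * (t * L ^ 2) := by ring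
          _ ≤ L := h3
          _ = L * 1 := by ring
      have h5 := le_of_mul_le_mul_left h4 hL
      calc 4 * L * q * t = (1024 * q * (t * L)) / 256 := by ring
        _ ≤ 1 / 256 := by linarith
    rw [le_div_iff₀ hq0]
    linarith
  have e2 : X ^ 4 ≤ Real.exp ((μ + W ^ 2 / t) / q) := by
    have h1 : X ^ 4 = Real.exp (4 * L) := by
      rw [← hX]
      conv_lhs => rw [← Real.exp_log hX0]
      rw [← Real.exp_nat_mul]
      norm_num
    rw [h1]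
    exact Real.exp_le_exp.2 e1
  have e3 : z ≤ X * X := by
    have h1 : C * (2 * X + n) ≤ C * (n + 2) * X := by
      have h2 : n * 1 ≤ n * X := mul_le_mul_of_nonneg_left hX1 hn
      have h3 := mul_le_mul_of_nonneg_left h2 hC.le
      nlinarith
    have h2 := mul_le_mul_of_nonneg_right hXC hX0.le
    linarith
  have e4 : z * M ≤ X ^ 4 := by
    have h1 : z * M ≤ X * X * M := mul_le_mul_of_nonneg_right e3 hM.le
    have h2 : X * X * M ≤ X * X * X := mul_le_mul_of_nonneg_left hMX (by positivity)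
    have h3 : X * X * X * 1 ≤ X * X * X * X := mul_le_mul_of_nonneg_left hX1 (by positivity)
    calc z * M ≤ X * X * X * 1 := by linarith
      _ ≤ X * X * X * X := h3
      _ = X ^ 4 := by ring
  rw [one_div, inv_mul_eq_div, le_div_iff₀ hM]
  exact e4.trans e2

theorem half_le {a : ℂ} (h : ‖a - 1‖ ≤ 1 / 2) : 1 / 2 ≤ ‖a‖ := by
  have h1 : ‖(1 : ℂ)‖ ≤ ‖a‖ + ‖a - 1‖ := by
    calc ‖(1 : ℂ)‖ = ‖a - (a - 1)‖ := by
          congr 1
          ring
      _ ≤ _ := norm_sub_le _ _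
  rw [norm_one] at h1
  linarith

/-- the pointwise part -/
theorem pw {n Y : ℕ} {t X T C L m δ S : ℝ} (hn : 1 ≤ n) (ht : 0 < t) (hL : Real.log X = L)
    (hL80 : 80 ≤ L) (hm : m = t * L ^ 2) (hm6 : 6 * ((n : ℝ) + 1) ≤ m)
    (hmL : 1024 * ((n : ℝ) + 1) * m ≤ L) (hδ : δ = t * L / (n + 1)) (hS : S = 4 * n * m + 2)
    (hX0 : 0 < X) (hXn : (n : ℝ) + 2 ≤ X) (hC : 0 < C) (hXC : C * ((n : ℝ) + 2) ≤ X)
    (hY : (Y : ℝ) ^ 3 ≤ X) (hMs : ∀ s : ℂ, 0 ≤ s.re → ‖Ms δ Y s‖ ≤ (Y : ℝ) ^ 3)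
    (hZ : ∀ s : ℂ, 1 / 2 ≤ s.re → 2 ≤ s.im → ‖riemannZeta s‖ ≤ C * s.im)
    (hT1 : X ≤ T) (hT2 : T ≤ 2 * X)
    (F1 : ∀ w : ℂ, δ / 2 + 1 / L ≤ w.re → ‖w‖ ≤ S / L →
      ‖riemannZeta (1 / 2 + T * I + w) * Ms δ Y (1 / 2 + T * I + w) - 1‖ ≤ 1 / 2)
    (F2 : ∀ R : ℕ, (R : ℝ) + 2 ≤ L / 8 → ∀ w w' : ℂ, 0 ≤ w.re → ‖w‖ ≤ ((R : ℝ) + 1) / L →
      1 / L ≤ w'.re → ‖w'‖ ≤ S / L →
      ‖riemannZeta (1 / 2 + T * I + w) * Ms δ Y (1 / 2 + T * I + w')‖ ^ 2 ≤
        Real.exp ((m + (R : ℝ) ^ 2 / m) / (2 * (n + 1)))) : RLv n t T := by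
  have hn1 : (1 : ℝ) ≤ n := by exact_mod_cast hn
  have hL0 : 0 < L := by linarith
  have hq : (1 : ℝ) ≤ (n : ℝ) + 1 := by linarith
  have hm0 : 0 < m := by linarith
  have hT0 : 0 < T := by linarith
  have hlT : L ≤ Real.log T := by
    rw [← hL]
    exact Real.log_le_log hX0 hT1
  have hlT2 : Real.log T ≤ L + 1 := by
    have h1 : Real.log T ≤ Real.log (2 * X) := Real.log_le_log hT0 hT2
    rw [Real.log_mul (by norm_num) hX0.ne', hL] at h1
    linarith [Real.log_two_lt_d9]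
  have hμ : m ≤ mt t T := by
    unfold Pool.Agent.DBB.mt
    rw [hm]
    exact mul_le_mul_of_nonneg_left (pow_le_pow_left₀ hL0.le hlT 2) ht.le
  have htL : t * L * L = m := by
    rw [hm]
    ring
  have hδL : δ * L = m / (n + 1) := by
    rw [hδ, ← htL]
    ring
  have hδ0 : 0 < δ := by
    rw [hδ]
    positivity
  have hδ2 : 2 / L ≤ δ := by
    rw [div_le_iff₀ hL0, hδL, le_div_iff₀ (by positivity)]
    linarith
  have hδ3 : δ / 2 + 1 / L ≤ δ := by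
    have h1 : 1 / L = 2 / L / 2 := by ring
    rw [h1]
    linarith
  have hδ4 : δ ≤ t * L := by
    rw [hδ]
    exact div_le_self (by positivity) hq
  have hS0 : 0 ≤ S := by
    rw [hS]
    positivity
  have hmS : m ≤ S := by
    rw [hS]
    nlinarith
  have hmq : 1024 * m ≤ L := by
    nlinarith
  -- the point `w₁`
  obtain ⟨w₁, hw₁⟩ : ∃ w₁ : ℂ, w₁ = ((t * L : ℝ) : ℂ) := ⟨_, rfl⟩
  have hw1r : w₁.re = t * L := by rw [hw₁, ofReal_re]
  have hw1n : ‖w₁‖ = t * L := by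
    rw [hw₁, norm_real, Real.norm_of_nonneg (by positivity)]
  have hw1S : ‖w₁‖ ≤ S / L := by
    rw [hw1n, le_div_iff₀ hL0, htL]
    exact hmS
  have hw1L : 1 / L ≤ w₁.re := by
    rw [hw1r]
    have h1 : 0 < 1 / L := by positivity
    linarith
  have hw1F : δ / 2 + 1 / L ≤ w₁.re := by
    rw [hw1r]
    linarith
  have hP1 := half_le (F1 w₁ hw1F hw1S)
  rw [norm_mul] at hP1
  obtain ⟨M₁, hM₁⟩ : ∃ M₁ : ℝ, M₁ = ‖Ms δ Y (1 / 2 + T * I + w₁)‖ := ⟨_, rfl⟩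
  rw [← hM₁] at hP1
  have hM10 : 0 < M₁ := by
    rcases (norm_nonneg (Ms δ Y (1 / 2 + T * I + w₁))).lt_or_eq with h | h
    · rw [hM₁]
      exact h
    · rw [hM₁, ← h, mul_zero] at hP1
      norm_num at hP1
  have hsre : ∀ w : ℂ, (1 / 2 + T * I + w : ℂ).re = 1 / 2 + w.re := by
    intro w
    simp
  have hsim : ∀ w : ℂ, (1 / 2 + T * I + w : ℂ).im = T + w.im := by
    intro w
    simp
  have hM1X : M₁ ≤ X := by
    rw [hM₁]
    refine (hMs _ ?_).trans hY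
    rw [hsre, hw1r]
    positivity
  refine ⟨ht, ?_, 1 / M₁, ?_, fun w hw0 hwn => ?_, fun w hw1 hw2 hw3 => ?_⟩
  · linarith
  · have h1 : T ^ (-2 : ℝ) = 1 / (T * T) := by
      rw [show (-2 : ℝ) = -((2 : ℕ) : ℝ) by norm_num, Real.rpow_neg hT0.le, Real.rpow_natCast,
        one_div]
      congr 1
      ring
    rw [h1, div_le_div_iff₀ (by positivity) hM10, one_mul, one_mul]
    have h2 : T * 1 ≤ T * T := mul_le_mul_of_nonneg_left (by linarith) hT0.le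
    linarith
  · rcases le_total ‖w‖ (1 / 16) with h16 | h16
    · obtain ⟨R, hR⟩ : ∃ R : ℕ, R = ⌊‖w‖ * L⌋₊ := ⟨_, rfl⟩
      have hwL0 : 0 ≤ ‖w‖ * L := by positivity
      have hR1 : (R : ℝ) ≤ ‖w‖ * L := by
        rw [hR]
        exact Nat.floor_le hwL0
      have hR2 : ‖w‖ * L < (R : ℝ) + 1 := by
        rw [hR]
        exact Nat.lt_floor_add_one _
      have h1 : ‖w‖ * L ≤ 1 / 16 * L := mul_le_mul_of_nonneg_right h16 hL0.le
      have h2 := F2 R (by linarith) w w₁ hw0 (by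
        rw [le_div_iff₀ hL0]
        exact hR2.le) hw1L hw1S
      rw [norm_mul, ← hM₁] at h2
      exact up_small hq ht hL0 hm hM10 (norm_nonneg _) hμ (Nat.cast_nonneg R) hR1 h2
    · refine up_large hq ht hL0 hL (by linarith) hm hM10 hM1X hμ h16 hmL hC
        (Nat.cast_nonneg n) hXC ?_
      have h1 : |w.im| ≤ n := (abs_im_le_norm w).trans hwn
      have h2 := abs_le.1 h1
      refine (hZ _ (by rw [hsre]; linarith) (by rw [hsim]; linarith)).trans ?_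
      rw [hsim]
      refine mul_le_mul_of_nonneg_left ?_ hC.le
      linarith
  · have hwS : ‖w‖ ≤ S / L := by
      have h1 : ‖w‖ ≤ |w.re| + |w.im| := norm_le_abs_re_add_abs_im w
      have h2 : 0 ≤ w.re := by
        refine le_trans ?_ hw1
        have : 0 ≤ Real.log T := by linarith
        positivity
      rw [abs_of_nonneg h2] at h1
      have h3 : ‖w‖ ≤ 2 * (n * (t * Real.log T)) := by linarith
      rw [le_div_iff₀ hL0]
      have h4 : 2 * (n * (t * Real.log T)) ≤ 2 * (n * (t * (L + 1))) := by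
        have := mul_le_mul_of_nonneg_left hlT2 ht.le
        have := mul_le_mul_of_nonneg_left this (Nat.cast_nonneg (α := ℝ) n)
        linarith
      have h5 : ‖w‖ * L ≤ 2 * (n * (t * (L + 1))) * L :=
        mul_le_mul_of_nonneg_right (h3.trans h4) hL0.le
      have h6 : 2 * (n * (t * (L + 1))) * L ≤ 2 * (n * (t * (L + L))) * L := by
        have h7 : t * (L + 1) ≤ t * (L + L) := mul_le_mul_of_nonneg_left (by linarith) ht.le
        have h8 := mul_le_mul_of_nonneg_left h7 (Nat.cast_nonneg (α := ℝ) n)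
        exact mul_le_mul_of_nonneg_right (by linarith) hL0.le
      have h7 : 2 * (n * (t * (L + L))) * L = 4 * n * m := by
        rw [← htL]
        ring
      rw [hS]
      linarith
    have hwδ : δ ≤ w.re := by
      refine le_trans ?_ hw1
      rw [hδ]
      exact div_le_div_of_nonneg_right (mul_le_mul_of_nonneg_left hlT ht.le) (by positivity)
    have hwF : δ / 2 + 1 / L ≤ w.re := hδ3.trans hwδ
    have hP := half_le (F1 w hwF hwS)
    rw [norm_mul] at hP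
    obtain ⟨R, hR⟩ : ∃ R : ℕ, R = ⌊m⌋₊ := ⟨_, rfl⟩
    have hR1 : (R : ℝ) ≤ m := by
      rw [hR]
      exact Nat.floor_le hm0.le
    have hR2 : m < (R : ℝ) + 1 := by
      rw [hR]
      exact Nat.lt_floor_add_one _
    have h2 := F2 R (by linarith) w₁ w (by rw [hw1r]; positivity) (by
      rw [hw1n, le_div_iff₀ hL0, htL]
      exact hR2.le) (by
      have h3 : 0 < δ / 2 := by positivity
      linarith) hwS
    rw [norm_mul] at h2
    exact low hq hm6 hμ hM10 (norm_nonneg _) (norm_nonneg _) (norm_nonneg _)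
      (Nat.cast_nonneg R) hR1 hP hP1 h2

/-- the case `n = 0` -/
theorem zero_case {t X T : ℝ} (ht : 0 < t) (hX : 1 < X) (hT : X ≤ T) : RLv 0 t T := by
  have hT0 : 0 < T := by linarith
  have hl : 0 < Real.log T := Real.log_pos (by linarith)
  have hmt : 0 ≤ mt t T := by
    unfold Pool.Agent.DBB.mt
    positivity
  refine ⟨ht, ?_, max (T ^ (-2 : ℝ)) ‖riemannZeta (1 / 2 + T * I)‖, le_max_left _ _,
    fun w _ hw => ?_, fun w hw1 hw2 _ => ?_⟩
  · rw [Nat.cast_zero]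
    exact hmt
  · rw [Nat.cast_zero] at hw
    have hw0 : w = 0 := norm_le_zero_iff.1 hw
    rw [hw0, add_zero, norm_zero]
    have h1 : (1 : ℝ) ≤ Real.exp ((mt t T + 0 ^ 2 / t) / (((0 : ℕ) : ℝ) + 1)) := by
      refine Real.one_le_exp ?_
      rw [Nat.cast_zero]
      simpa using hmt
    have h2 : 0 ≤ max (T ^ (-2 : ℝ)) ‖riemannZeta (1 / 2 + T * I)‖ :=
      (norm_nonneg _).trans (le_max_right _ _)
    calc ‖riemannZeta (1 / 2 + T * I)‖ ≤ max (T ^ (-2 : ℝ)) ‖riemannZeta (1 / 2 + T * I)‖ :=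
          le_max_right _ _
      _ = max (T ^ (-2 : ℝ)) ‖riemannZeta (1 / 2 + T * I)‖ * 1 := (mul_one _).symm
      _ ≤ _ := mul_le_mul_of_nonneg_left h1 h2
  · exfalso
    rw [Nat.cast_zero, zero_add, div_one] at hw1
    rw [Nat.cast_zero, zero_mul] at hw2
    have : 0 < t * Real.log T := mul_pos ht hl
    linarith

theorem log_small (K : ℝ) (hK : 0 < K) : ∀ L : ℝ, 4 * K ^ 2 + 1 ≤ L → K * Real.log L ≤ L := by
  intro L hL
  have hL0 : 0 < L := by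
    have : 0 ≤ 4 * K ^ 2 := by positivity
    linarith
  have h1 : Real.log (Real.sqrt L) ≤ Real.sqrt L - 1 :=
    Real.log_le_sub_one_of_pos (Real.sqrt_pos.2 hL0)
  rw [Real.log_sqrt hL0.le] at h1
  have h2 : Real.sqrt L * Real.sqrt L = L := Real.mul_self_sqrt hL0.le
  have h3 : 2 * K ≤ Real.sqrt L := by
    refine Real.le_sqrt_of_sq_le ?_
    nlinarith
  have h4 : Real.log L ≤ 2 * Real.sqrt L := by linarith
  have h5 := mul_le_mul_of_nonneg_left h4 hK.le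
  have h6 := mul_le_mul_of_nonneg_right h3 (Real.sqrt_nonneg L)
  linarith

/-- the length of the mollifier -/
theorem leng {X L : ℝ} (hX : 0 < X) (hL : Real.log X = L) (hL80 : 80 ≤ L) :
    Real.exp (L / 80) ≤ (⌊X ^ (1 / 40 : ℝ)⌋₊ : ℝ) ∧ ((⌊X ^ (1 / 40 : ℝ)⌋₊ : ℕ) : ℝ) ^ 40 ≤ X := by
  have h1 : X ^ (1 / 40 : ℝ) = Real.exp (L / 80) * Real.exp (L / 80) := by
    rw [Real.rpow_def_of_pos hX, hL, ← Real.exp_add]
    congr 1
    ring
  have h0 : 0 ≤ X ^ (1 / 40 : ℝ) := Real.rpow_nonneg hX.le _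
  constructor
  · have h2 : X ^ (1 / 40 : ℝ) < (⌊X ^ (1 / 40 : ℝ)⌋₊ : ℝ) + 1 := Nat.lt_floor_add_one _
    have h3 : 2 ≤ Real.exp (L / 80) := by
      have := Real.add_one_le_exp (L / 80)
      linarith
    nlinarith
  · have h2 : (⌊X ^ (1 / 40 : ℝ)⌋₊ : ℝ) ≤ X ^ (1 / 40 : ℝ) := Nat.floor_le h0
    refine (pow_le_pow_left₀ (Nat.cast_nonneg _) h2 40).trans (le_of_eq ?_)
    rw [← Real.rpow_natCast, ← Real.rpow_mul hX.le]
    norm_num

end AR6_

open AR6_ in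
theorem p_AR6 (h1 : T_BSF) (h2 : T_BSM) (h3 : T_ZPB) (h4 : T_MSB) (h5 : T_NUM) : T_AR6 := by
  intro n D η hD hη
  rcases Nat.eq_zero_or_pos n with hn0 | hn
  · subst hn0
    refine ⟨1, 2, one_pos, fun t X hX hm _ => ?_⟩
    have ht : 0 < t := by
      by_contra hc
      have h6 : t * Real.log X ^ 2 ≤ 0 :=
        mul_nonpos_of_nonpos_of_nonneg (not_lt.1 hc) (sq_nonneg _)
      linarith
    have h6 : {T : ℝ | X ≤ T ∧ T ≤ 2 * X ∧ ¬ RLv 0 t T} = ∅ := by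
      ext T
      simp only [mem_empty_iff_false, iff_false]
      rintro ⟨hT, -, hT3⟩
      exact hT3 (zero_case ht (by linarith) hT)
    rw [h6, measure_empty]
    exact bot_le
  obtain ⟨C₁, X₁, hC₁, H1⟩ := h1
  obtain ⟨C₂, X₂, hC₂, H2⟩ := h2
  obtain ⟨C₃, hC₃, H3⟩ := h3
  obtain ⟨C, hC⟩ : ∃ C : ℝ, C = max C₁ C₂ := ⟨_, rfl⟩
  have hCa : C₁ ≤ C := hC ▸ le_max_left _ _
  have hCb : C₂ ≤ C := hC ▸ le_max_right _ _
  have hC0 : 0 < C := hC₁.trans_le hCa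
  obtain ⟨A, hA1, HA⟩ := h5 n C (η / 2) hC0 (by positivity)
  obtain ⟨K, hK⟩ : ∃ K : ℝ, K = 1024 * ((n : ℝ) + 1) * D := ⟨_, rfl⟩
  have hK0 : 0 < K := by
    rw [hK]
    positivity
  refine ⟨max A (80 * ((n : ℝ) + 1)), max (max X₁ X₂) (max (max ((n : ℝ) + 2)
    (C₃ * ((n : ℝ) + 2))) (Real.exp (max 80 (4 * K ^ 2 + 1)))),
    lt_max_of_lt_left (by linarith), fun t X hX hmA hmD => ?_⟩
  have hXa : X₁ ≤ X := ((le_max_left _ _).trans (le_max_left _ _)).trans hX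
  have hXb : X₂ ≤ X := ((le_max_right _ _).trans (le_max_left _ _)).trans hX
  have hXn : (n : ℝ) + 2 ≤ X :=
    (((le_max_left _ _).trans (le_max_left _ _)).trans (le_max_right _ _)).trans hX
  have hXC : C₃ * ((n : ℝ) + 2) ≤ X :=
    (((le_max_right _ _).trans (le_max_left _ _)).trans (le_max_right _ _)).trans hX
  have hXe : Real.exp (max 80 (4 * K ^ 2 + 1)) ≤ X :=
    ((le_max_right _ _).trans (le_max_right _ _)).trans hX
  have hX0 : 0 < X := (Real.exp_pos _).trans_le hXe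
  have hLe : max 80 (4 * K ^ 2 + 1) ≤ Real.log X := (Real.le_log_iff_exp_le hX0).2 hXe
  obtain ⟨L, hL⟩ : ∃ L : ℝ, Real.log X = L := ⟨_, rfl⟩
  rw [hL] at hmA hmD hLe
  have hL80 : 80 ≤ L := (le_max_left _ _).trans hLe
  have hLK : K * Real.log L ≤ L := log_small K hK0 L ((le_max_right _ _).trans hLe)
  have hL0 : 0 < L := by linarith
  obtain ⟨m, hm⟩ : ∃ m : ℝ, m = t * L ^ 2 := ⟨_, rfl⟩
  rw [← hm] at hmA hmD
  have hmA1 : A ≤ m := (le_max_left _ _).trans hmA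
  have hm80 : 80 * ((n : ℝ) + 1) ≤ m := (le_max_right _ _).trans hmA
  have hn0 : (0 : ℝ) ≤ n := Nat.cast_nonneg n
  have hm0 : 0 < m := by linarith
  have ht : 0 < t := by
    by_contra hc
    have h6 : t * L ^ 2 ≤ 0 :=
      mul_nonpos_of_nonpos_of_nonneg (not_lt.1 hc) (sq_nonneg _)
    linarith
  have hmL : 1024 * ((n : ℝ) + 1) * m ≤ L := by
    have h6 : 1024 * ((n : ℝ) + 1) * m ≤ 1024 * ((n : ℝ) + 1) * (D * Real.log L) :=
      mul_le_mul_of_nonneg_left hmD (by positivity)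
    have h7 : 1024 * ((n : ℝ) + 1) * (D * Real.log L) = K * Real.log L := by
      rw [hK]
      ring
    linarith
  have hnm : 0 ≤ (n : ℝ) * m := mul_nonneg hn0 hm0.le
  have hmL' : 1024 * ((n : ℝ) * m) + 1024 * m ≤ L := by
    calc 1024 * ((n : ℝ) * m) + 1024 * m = 1024 * ((n : ℝ) + 1) * m := by ring
      _ ≤ L := hmL
  obtain ⟨Y, hY⟩ : ∃ Y : ℕ, Y = ⌊X ^ (1 / 40 : ℝ)⌋₊ := ⟨_, rfl⟩
  obtain ⟨hY1, hY40⟩ := leng hX0 hL hL80
  rw [← hY] at hY1 hY40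
  have hY2 : (2 : ℝ) ≤ Y := by
    have := Real.add_one_le_exp (L / 80)
    linarith
  have hY2n : 2 ≤ Y := by exact_mod_cast hY2
  have hY3 : (Y : ℝ) ^ 3 ≤ X := (pow_le_pow_right₀ (by linarith) (by norm_num)).trans hY40
  obtain ⟨δ, hδ⟩ : ∃ δ : ℝ, δ = t * L / (n + 1) := ⟨_, rfl⟩
  obtain ⟨S, hS⟩ : ∃ S : ℝ, S = 4 * n * m + 2 := ⟨_, rfl⟩
  have hδ0 : 0 < δ := by
    rw [hδ]
    positivity
  have hδL : δ * L = m / (n + 1) := by
    rw [hδ, hm]
    ring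
  have hδLm : δ * L ≤ m := by
    rw [hδL]
    exact div_le_self hm0.le (by linarith)
  have hδ1 : δ ≤ 1 := by
    have h6 : δ * L ≤ 1 * L := by linarith
    exact le_of_mul_le_mul_right h6 hL0
  have hYδ : Real.exp (m / (80 * (n + 1))) ≤ (Y : ℝ) ^ δ := by
    have h6 : Real.exp (L / 80) ^ δ ≤ (Y : ℝ) ^ δ :=
      Real.rpow_le_rpow (Real.exp_pos _).le hY1 hδ0.le
    refine le_trans (le_of_eq ?_) h6
    rw [← Real.exp_mul]
    congr 1
    calc m / (80 * ((n : ℝ) + 1)) = m / (n + 1) / 80 := by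
          field_simp
      _ = δ * L / 80 := by rw [hδL]
      _ = L / 80 * δ := by ring
  have hYδ2 : 2 ≤ (Y : ℝ) ^ δ := by
    refine le_trans ?_ hYδ
    have h6 : 1 ≤ m / (80 * ((n : ℝ) + 1)) := by
      rw [le_div_iff₀ (by positivity)]
      linarith
    have h7 := Real.add_one_le_exp (m / (80 * ((n : ℝ) + 1)))
    linarith
  have hYδn : (Y : ℝ) ^ (-δ) ≤ Real.exp (-(m / (80 * (n + 1)))) := by
    rw [Real.rpow_neg (by linarith), Real.exp_neg]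
    exact inv_anti₀ (Real.exp_pos _) hYδ
  have hS1 : 1 ≤ S := by
    rw [hS]
    linarith [mul_nonneg (mul_nonneg (by norm_num : (0 : ℝ) ≤ 4) hn0) hm0.le]
  have hS8 : S + 1 ≤ L / 8 := by
    have h6 : S = 4 * ((n : ℝ) * m) + 2 := by
      rw [hS]
      ring
    rw [h6]
    linarith
  obtain ⟨BF, hBF⟩ : ∃ BF : Set ℝ, BF = {T : ℝ | X ≤ T ∧ T ≤ 2 * X ∧ ∃ w : ℂ,
    δ / 2 + 1 / Real.log X ≤ w.re ∧ ‖w‖ ≤ S / Real.log X ∧
    1 / 2 < ‖riemannZeta (1 / 2 + T * I + w) * Ms δ Y (1 / 2 + T * I + w) - 1‖} := ⟨_, rfl⟩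
  obtain ⟨BM, hBM⟩ : ∃ BM : ℕ → Set ℝ, BM = fun R : ℕ => {T : ℝ | X ≤ T ∧ T ≤ 2 * X ∧
    (R : ℝ) + 2 ≤ L / 8 ∧ ∃ w w' : ℂ, 0 ≤ w.re ∧ ‖w‖ ≤ ((R : ℝ) + 1) / Real.log X ∧
    1 / Real.log X ≤ w'.re ∧ ‖w'‖ ≤ S / Real.log X ∧
    Real.exp ((m + (R : ℝ) ^ 2 / m) / (2 * (n + 1))) <
      ‖riemannZeta (1 / 2 + T * I + w) * Ms δ Y (1 / 2 + T * I + w')‖ ^ 2} := ⟨_, rfl⟩
  obtain ⟨f, hf⟩ : ∃ f : ℕ → ℝ, f = fun R : ℕ => C * (1 + m + (R + 1) + (4 * n * m + 2)) ^ C *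
    Real.exp (-((m + (R : ℝ) ^ 2 / m) / (2 * (n + 1)))) := ⟨_, rfl⟩
  have hf0 : ∀ R : ℕ, 0 ≤ f R := by
    intro R
    rw [hf]
    positivity
  have q1 : volume BF ≤ ENNReal.ofReal (X * (η / 2)) := by
    rw [hBF]
    refine (H1 δ Y X S hXa hδ0 hδ1 hY2n hYδ2 hY40 hS1 (by rw [hL]; exact hS8)).trans
      (ENNReal.ofReal_le_ofReal ?_)
    have h6 : C₁ * S ^ 2 * (Y : ℝ) ^ (-δ) ≤
        C * (4 * n * m + 2) ^ 2 * Real.exp (-(m / (80 * (n + 1)))) := by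
      rw [← hS]
      refine mul_le_mul (mul_le_mul_of_nonneg_right hCa (sq_nonneg _)) hYδn
        (Real.rpow_nonneg (by linarith) _) (by positivity)
    have h7 := mul_le_mul_of_nonneg_left (h6.trans (HA m hmA1).1) hX0.le
    calc C₁ * X * S ^ 2 * (Y : ℝ) ^ (-δ) = X * (C₁ * S ^ 2 * (Y : ℝ) ^ (-δ)) := by ring
      _ ≤ X * (η / 2) := h7
  have q2 : ∀ R : ℕ, volume (BM R) ≤ ENNReal.ofReal (X * f R) := by
    intro R
    by_cases hR : (R : ℝ) + 2 ≤ L / 8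
    · have h6 : BM R ⊆ {T : ℝ | X ≤ T ∧ T ≤ 2 * X ∧ ∃ w w' : ℂ, 0 ≤ w.re ∧
          ‖w‖ ≤ ((R : ℝ) + 1) / Real.log X ∧
          1 / Real.log X ≤ w'.re ∧ ‖w'‖ ≤ S / Real.log X ∧
          Real.exp ((m + (R : ℝ) ^ 2 / m) / (2 * (n + 1))) <
          ‖riemannZeta (1 / 2 + T * I + w) * Ms δ Y (1 / 2 + T * I + w')‖ ^ 2} := by
        rw [hBM]
        rintro T ⟨hT1, hT2, -, hT3⟩
        exact ⟨hT1, hT2, hT3⟩
      have hR0 : (0 : ℝ) ≤ R := Nat.cast_nonneg R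
      refine (measure_mono h6).trans ((H2 δ Y X ((R : ℝ) + 1) S _ hXb hδ0 hδ1 hY2n hYδ2 hY40
        (by linarith) (by rw [hL]; linarith) hS1 (by rw [hL]; exact hS8)
        (Real.exp_pos _)).trans (ENNReal.ofReal_le_ofReal ?_))
      rw [hL, div_eq_mul_inv, ← Real.exp_neg, hf]
      have hb1 : 1 ≤ 1 + δ * L + ((R : ℝ) + 1) + S := by
        have : 0 ≤ δ * L := by positivity
        linarith
      have h7 : (1 + δ * L + ((R : ℝ) + 1) + S) ^ C₂ ≤
          (1 + m + ((R : ℝ) + 1) + (4 * n * m + 2)) ^ C := by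
        rw [← hS]
        refine (Real.rpow_le_rpow_of_exponent_le hb1 hCb).trans ?_
        refine Real.rpow_le_rpow (by linarith) ?_ hC0.le
        linarith
      have h8 : C₂ * (1 + δ * L + ((R : ℝ) + 1) + S) ^ C₂ ≤
          C * (1 + m + ((R : ℝ) + 1) + (4 * n * m + 2)) ^ C :=
        mul_le_mul hCb h7 (Real.rpow_nonneg (by linarith) _) hC0.le
      have h9 := mul_le_mul_of_nonneg_right h8
        (Real.exp_pos (-((m + (R : ℝ) ^ 2 / m) / (2 * (n + 1))))).le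
      have h10 := mul_le_mul_of_nonneg_left h9 hX0.le
      refine le_trans (le_of_eq ?_) h10
      ring
    · have h6 : BM R = ∅ := by
        rw [hBM]
        ext T
        simp only [mem_empty_iff_false, iff_false]
        rintro ⟨-, -, hT, -⟩
        exact hR hT
      rw [h6, measure_empty]
      exact bot_le
  obtain ⟨N, hN⟩ : ∃ N : ℕ, N = ⌊L⌋₊ + 1 := ⟨_, rfl⟩
  have hsub : {T : ℝ | X ≤ T ∧ T ≤ 2 * X ∧ ¬ RLv n t T} ⊆ BF ∪ ⋃ R ∈ Finset.range N, BM R := by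
    rintro T ⟨hT1, hT2, hT3⟩
    by_contra hcon
    rw [mem_union, not_or] at hcon
    obtain ⟨hc1, hc2⟩ := hcon
    refine hT3 (pw (C := C₃) (L := L) (m := m) (δ := δ) (S := S) (Y := Y) (X := X) hn ht hL hL80
      hm (by linarith) hmL hδ hS hX0 hXn hC₃ hXC hY3
      (fun s hs => h4 δ Y s hδ0 hδ1 (by omega) hs) H3 hT1 hT2 (fun w hw1 hw2 => ?_)
      (fun R hR w w' ha hb hc hd => ?_))
    · by_contra hcc
      refine hc1 ?_
      rw [hBF]
      exact ⟨hT1, hT2, w, by rw [hL]; exact hw1, by rw [hL]; exact hw2, not_le.1 hcc⟩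
    · by_contra hcc
      refine hc2 ?_
      have hRN : R ∈ Finset.range N := by
        rw [Finset.mem_range, hN, Nat.lt_succ_iff]
        exact Nat.le_floor (by linarith)
      refine mem_biUnion hRN ?_
      rw [hBM]
      exact ⟨hT1, hT2, hR, w, w', ha, by rw [hL]; exact hb, by rw [hL]; exact hc,
        by rw [hL]; exact hd, not_le.1 hcc⟩
  have q3 : volume (⋃ R ∈ Finset.range N, BM R) ≤ ENNReal.ofReal (X * (η / 2)) := by
    refine (measure_biUnion_finset_le _ _).trans ((Finset.sum_le_sum fun R _ => q2 R).trans ?_)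
    rw [← ENNReal.ofReal_sum_of_nonneg fun R _ => mul_nonneg hX0.le (hf0 R), ← Finset.mul_sum]
    refine ENNReal.ofReal_le_ofReal (mul_le_mul_of_nonneg_left ?_ hX0.le)
    rw [hf]
    exact (HA m hmA1).2 N
  have hp : 0 ≤ X * (η / 2) := by positivity
  calc volume {T : ℝ | X ≤ T ∧ T ≤ 2 * X ∧ ¬ RLv n t T} ≤ _ := measure_mono hsub
    _ ≤ _ := measure_union_le _ _
    _ ≤ ENNReal.ofReal (X * (η / 2)) + ENNReal.ofReal (X * (η / 2)) := add_le_add q1 q3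
    _ = ENNReal.ofReal (η * X) := by
        rw [← ENNReal.ofReal_add hp hp]
        congr 1
        ring

end Pool.Agent.DBS
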