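import Pool.Agent.DBS.Targets2
import Pool.Agent.DBS.P_AR6

/-!
# DBS, target AR8: assembly of the arithmetic part on the scale `m ≤ D log log X`, with the
exceptional measure `X exp (-κ m)`
-/

set_option autoImplicit false

namespace Pool.Agent.DBS

open Complex MeasureTheory Set Filter
open Pool.Agent.DBN Pool.Agent.DBC Pool.Agent.DBB
open scoped ENNReal

open AR6_ in
theorem p_AR8 (h1 : T_BSF) (h2 : T_BSM) (h3 : T_ZPB) (h4 : T_MSB) (h5 : T_NU2) : T_AR8 := by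
  intro n D hD
  rcases Nat.eq_zero_or_pos n with hn0 | hn
  · subst hn0
    refine ⟨1, 1, 2, one_pos, one_pos, fun t X hX hm _ => ?_⟩
    have ht : 0 < t := by
      by_contra hc
      have h6 : t * Real.log X ^ 2 ≤ 0 :=
        mul_nonpos_of_nonpos_of_nonneg (not_lt.1 hc) (sq_nonneg _)
      linarith
    have h6 : {T : ℝ | X ≤ T ∧ T ≤ 2 * X ∧ ¬ RLv 0 t T} = ∅ := by
      ext T
      simp only [mem_empty_iff_false, iff_false]
      rintro ⟨hT, -, hT3⟩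
      exact hT3 (zero_case ht (by linarith) hT)
    rw [h6, measure_empty]
    exact bot_le
  obtain ⟨C₁, X₁, hC₁, H1⟩ := h1
  obtain ⟨C₂, X₂, hC₂, H2⟩ := h2
  obtain ⟨C₃, hC₃, H3⟩ := h3
  obtain ⟨C, hC⟩ : ∃ C : ℝ, C = max C₁ C₂ := ⟨_, rfl⟩
  have hCa : C₁ ≤ C := hC ▸ le_max_left _ _
  have hCb : C₂ ≤ C := hC ▸ le_max_right _ _
  have hC0 : 0 < C := hC₁.trans_le hCa
  obtain ⟨A, κ, hA1, hκ, HA⟩ := h5 n C hC0
  obtain ⟨K, hK⟩ : ∃ K : ℝ, K = 1024 * ((n : ℝ) + 1) * D := ⟨_, rfl⟩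
  have hK0 : 0 < K := by
    rw [hK]
    positivity
  refine ⟨max A (80 * ((n : ℝ) + 1)), κ, max (max X₁ X₂) (max (max ((n : ℝ) + 2)
    (C₃ * ((n : ℝ) + 2))) (Real.exp (max 80 (4 * K ^ 2 + 1)))),
    lt_max_of_lt_left (by linarith), hκ, fun t X hX hmA hmD => ?_⟩
  have hXa : X₁ ≤ X := ((le_max_left _ _).trans (le_max_left _ _)).trans hX
  have hXb : X₂ ≤ X := ((le_max_right _ _).trans (le_max_left _ _)).trans hX
  have hXn : (n : ℝ) + 2 ≤ X :=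
    (((le_max_left _ _).trans (le_max_left _ _)).trans (le_max_right _ _)).trans hX
  have hXC : C₃ * ((n : ℝ) + 2) ≤ X :=
    (((le_max_right _ _).trans (le_max_left _ _)).trans (le_max_right _ _)).trans hX
  have hXe : Real.exp (max 80 (4 * K ^ 2 + 1)) ≤ X :=
    ((le_max_right _ _).trans (le_max_right _ _)).trans hX
  have hX0 : 0 < X := (Real.exp_pos _).trans_le hXe
  have hLe : max 80 (4 * K ^ 2 + 1) ≤ Real.log X := (Real.le_log_iff_exp_le hX0).2 hXe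
  obtain ⟨L, hL⟩ : ∃ L : ℝ, Real.log X = L := ⟨_, rfl⟩
  rw [hL] at hmA hmD hLe
  have hL80 : 80 ≤ L := (le_max_left _ _).trans hLe
  have hLK : K * Real.log L ≤ L := log_small K hK0 L ((le_max_right _ _).trans hLe)
  have hL0 : 0 < L := by linarith
  rw [hL]
  obtain ⟨m, hm⟩ : ∃ m : ℝ, m = t * L ^ 2 := ⟨_, rfl⟩
  rw [← hm] at hmA hmD ⊢
  obtain ⟨E, hE⟩ : ∃ E : ℝ, E = Real.exp (-(κ * m)) := ⟨_, rfl⟩
  have hE0 : 0 < E := by
    rw [hE]
    exact Real.exp_pos _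
  rw [← hE]
  have hmA1 : A ≤ m := (le_max_left _ _).trans hmA
  have HE := HA m hmA1
  rw [← hE] at HE
  have hm80 : 80 * ((n : ℝ) + 1) ≤ m := (le_max_right _ _).trans hmA
  have hn0 : (0 : ℝ) ≤ n := Nat.cast_nonneg n
  have hm0 : 0 < m := by linarith
  have ht : 0 < t := by
    by_contra hc
    have h6 : t * L ^ 2 ≤ 0 :=
      mul_nonpos_of_nonpos_of_nonneg (not_lt.1 hc) (sq_nonneg _)
    linarith
  have hmL : 1024 * ((n : ℝ) + 1) * m ≤ L := by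
    have h6 : 1024 * ((n : ℝ) + 1) * m ≤ 1024 * ((n : ℝ) + 1) * (D * Real.log L) :=
      mul_le_mul_of_nonneg_left hmD (by positivity)
    have h7 : 1024 * ((n : ℝ) + 1) * (D * Real.log L) = K * Real.log L := by
      rw [hK]
      ring
    linarith
  have hnm : 0 ≤ (n : ℝ) * m := mul_nonneg hn0 hm0.le
  have hmL' : 1024 * ((n : ℝ) * m) + 1024 * m ≤ L := by
    calc 1024 * ((n : ℝ) * m) + 1024 * m = 1024 * ((n : ℝ) + 1) * m := by ring
      _ ≤ L := hmL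
  obtain ⟨Y, hY⟩ : ∃ Y : ℕ, Y = ⌊X ^ (1 / 40 : ℝ)⌋₊ := ⟨_, rfl⟩
  obtain ⟨hY1, hY40⟩ := leng hX0 hL hL80
  rw [← hY] at hY1 hY40
  have hY2 : (2 : ℝ) ≤ Y := by
    have := Real.add_one_le_exp (L / 80)
    linarith
  have hY2n : 2 ≤ Y := by exact_mod_cast hY2
  have hY3 : (Y : ℝ) ^ 3 ≤ X := (pow_le_pow_right₀ (by linarith) (by norm_num)).trans hY40
  obtain ⟨δ, hδ⟩ : ∃ δ : ℝ, δ = t * L / (n + 1) := ⟨_, rfl⟩
  obtain ⟨S, hS⟩ : ∃ S : ℝ, S = 4 * n * m + 2 := ⟨_, rfl⟩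
  have hδ0 : 0 < δ := by
    rw [hδ]
    positivity
  have hδL : δ * L = m / (n + 1) := by
    rw [hδ, hm]
    ring
  have hδLm : δ * L ≤ m := by
    rw [hδL]
    exact div_le_self hm0.le (by linarith)
  have hδ1 : δ ≤ 1 := by
    have h6 : δ * L ≤ 1 * L := by linarith
    exact le_of_mul_le_mul_right h6 hL0
  have hYδ : Real.exp (m / (80 * (n + 1))) ≤ (Y : ℝ) ^ δ := by
    have h6 : Real.exp (L / 80) ^ δ ≤ (Y : ℝ) ^ δ :=
      Real.rpow_le_rpow (Real.exp_pos _).le hY1 hδ0.le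
    refine le_trans (le_of_eq ?_) h6
    rw [← Real.exp_mul]
    congr 1
    calc m / (80 * ((n : ℝ) + 1)) = m / (n + 1) / 80 := by
          field_simp
      _ = δ * L / 80 := by rw [hδL]
      _ = L / 80 * δ := by ring
  have hYδ2 : 2 ≤ (Y : ℝ) ^ δ := by
    refine le_trans ?_ hYδ
    have h6 : 1 ≤ m / (80 * ((n : ℝ) + 1)) := by
      rw [le_div_iff₀ (by positivity)]
      linarith
    have h7 := Real.add_one_le_exp (m / (80 * ((n : ℝ) + 1)))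
    linarith
  have hYδn : (Y : ℝ) ^ (-δ) ≤ Real.exp (-(m / (80 * (n + 1)))) := by
    rw [Real.rpow_neg (by linarith), Real.exp_neg]
    exact inv_anti₀ (Real.exp_pos _) hYδ
  have hS1 : 1 ≤ S := by
    rw [hS]
    linarith [mul_nonneg (mul_nonneg (by norm_num : (0 : ℝ) ≤ 4) hn0) hm0.le]
  have hS8 : S + 1 ≤ L / 8 := by
    have h6 : S = 4 * ((n : ℝ) * m) + 2 := by
      rw [hS]
      ring
    rw [h6]
    linarith
  obtain ⟨BF, hBF⟩ : ∃ BF : Set ℝ, BF = {T : ℝ | X ≤ T ∧ T ≤ 2 * X ∧ ∃ w : ℂ,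
    δ / 2 + 1 / Real.log X ≤ w.re ∧ ‖w‖ ≤ S / Real.log X ∧
    1 / 2 < ‖riemannZeta (1 / 2 + T * I + w) * Ms δ Y (1 / 2 + T * I + w) - 1‖} := ⟨_, rfl⟩
  obtain ⟨BM, hBM⟩ : ∃ BM : ℕ → Set ℝ, BM = fun R : ℕ => {T : ℝ | X ≤ T ∧ T ≤ 2 * X ∧
    (R : ℝ) + 2 ≤ L / 8 ∧ ∃ w w' : ℂ, 0 ≤ w.re ∧ ‖w‖ ≤ ((R : ℝ) + 1) / Real.log X ∧
    1 / Real.log X ≤ w'.re ∧ ‖w'‖ ≤ S / Real.log X ∧
    Real.exp ((m + (R : ℝ) ^ 2 / m) / (2 * (n + 1))) <
      ‖riemannZeta (1 / 2 + T * I + w) * Ms δ Y (1 / 2 + T * I + w')‖ ^ 2} := ⟨_, rfl⟩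
  obtain ⟨f, hf⟩ : ∃ f : ℕ → ℝ, f = fun R : ℕ => C * (1 + m + (R + 1) + (4 * n * m + 2)) ^ C *
    Real.exp (-((m + (R : ℝ) ^ 2 / m) / (2 * (n + 1)))) := ⟨_, rfl⟩
  have hf0 : ∀ R : ℕ, 0 ≤ f R := by
    intro R
    rw [hf]
    positivity
  have q1 : volume BF ≤ ENNReal.ofReal (X * (E / 4)) := by
    rw [hBF]
    refine (H1 δ Y X S hXa hδ0 hδ1 hY2n hYδ2 hY40 hS1 (by rw [hL]; exact hS8)).trans
      (ENNReal.ofReal_le_ofReal ?_)
    have h6 : C₁ * S ^ 2 * (Y : ℝ) ^ (-δ) ≤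
        C * (4 * n * m + 2) ^ 2 * Real.exp (-(m / (80 * (n + 1)))) := by
      rw [← hS]
      refine mul_le_mul (mul_le_mul_of_nonneg_right hCa (sq_nonneg _)) hYδn
        (Real.rpow_nonneg (by linarith) _) (by positivity)
    have h7 := mul_le_mul_of_nonneg_left (h6.trans HE.1) hX0.le
    calc C₁ * X * S ^ 2 * (Y : ℝ) ^ (-δ) = X * (C₁ * S ^ 2 * (Y : ℝ) ^ (-δ)) := by ring
      _ ≤ X * (E / 4) := h7
  have q2 : ∀ R : ℕ, volume (BM R) ≤ ENNReal.ofReal (X * f R) := by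
    intro R
    by_cases hR : (R : ℝ) + 2 ≤ L / 8
    · have h6 : BM R ⊆ {T : ℝ | X ≤ T ∧ T ≤ 2 * X ∧ ∃ w w' : ℂ, 0 ≤ w.re ∧
          ‖w‖ ≤ ((R : ℝ) + 1) / Real.log X ∧
          1 / Real.log X ≤ w'.re ∧ ‖w'‖ ≤ S / Real.log X ∧
          Real.exp ((m + (R : ℝ) ^ 2 / m) / (2 * (n + 1))) <
          ‖riemannZeta (1 / 2 + T * I + w) * Ms δ Y (1 / 2 + T * I + w')‖ ^ 2} := by
        rw [hBM]
        rintro T ⟨hT1, hT2, -, hT3⟩
        exact ⟨hT1, hT2, hT3⟩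
      have hR0 : (0 : ℝ) ≤ R := Nat.cast_nonneg R
      refine (measure_mono h6).trans ((H2 δ Y X ((R : ℝ) + 1) S _ hXb hδ0 hδ1 hY2n hYδ2 hY40
        (by linarith) (by rw [hL]; linarith) hS1 (by rw [hL]; exact hS8)
        (Real.exp_pos _)).trans (ENNReal.ofReal_le_ofReal ?_))
      rw [hL, div_eq_mul_inv, ← Real.exp_neg, hf]
      have hb1 : 1 ≤ 1 + δ * L + ((R : ℝ) + 1) + S := by
        have : 0 ≤ δ * L := by positivity
        linarith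
      have h7 : (1 + δ * L + ((R : ℝ) + 1) + S) ^ C₂ ≤
          (1 + m + ((R : ℝ) + 1) + (4 * n * m + 2)) ^ C := by
        rw [← hS]
        refine (Real.rpow_le_rpow_of_exponent_le hb1 hCb).trans ?_
        refine Real.rpow_le_rpow (by linarith) ?_ hC0.le
        linarith
      have h8 : C₂ * (1 + δ * L + ((R : ℝ) + 1) + S) ^ C₂ ≤
          C * (1 + m + ((R : ℝ) + 1) + (4 * n * m + 2)) ^ C :=
        mul_le_mul hCb h7 (Real.rpow_nonneg (by linarith) _) hC0.le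
      have h9 := mul_le_mul_of_nonneg_right h8
        (Real.exp_pos (-((m + (R : ℝ) ^ 2 / m) / (2 * (n + 1))))).le
      have h10 := mul_le_mul_of_nonneg_left h9 hX0.le
      refine le_trans (le_of_eq ?_) h10
      ring
    · have h6 : BM R = ∅ := by
        rw [hBM]
        ext T
        simp only [mem_empty_iff_false, iff_false]
        rintro ⟨-, -, hT, -⟩
        exact hR hT
      rw [h6, measure_empty]
      exact bot_le
  obtain ⟨N, hN⟩ : ∃ N : ℕ, N = ⌊L⌋₊ + 1 := ⟨_, rfl⟩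
  have hsub : {T : ℝ | X ≤ T ∧ T ≤ 2 * X ∧ ¬ RLv n t T} ⊆ BF ∪ ⋃ R ∈ Finset.range N, BM R := by
    rintro T ⟨hT1, hT2, hT3⟩
    by_contra hcon
    rw [mem_union, not_or] at hcon
    obtain ⟨hc1, hc2⟩ := hcon
    refine hT3 (pw (C := C₃) (L := L) (m := m) (δ := δ) (S := S) (Y := Y) (X := X) hn ht hL hL80
      hm (by linarith) hmL hδ hS hX0 hXn hC₃ hXC hY3
      (fun s hs => h4 δ Y s hδ0 hδ1 (by omega) hs) H3 hT1 hT2 (fun w hw1 hw2 => ?_)
      (fun R hR w w' ha hb hc hd => ?_))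
    · by_contra hcc
      refine hc1 ?_
      rw [hBF]
      exact ⟨hT1, hT2, w, by rw [hL]; exact hw1, by rw [hL]; exact hw2, not_le.1 hcc⟩
    · by_contra hcc
      refine hc2 ?_
      have hRN : R ∈ Finset.range N := by
        rw [Finset.mem_range, hN, Nat.lt_succ_iff]
        exact Nat.le_floor (by linarith)
      refine mem_biUnion hRN ?_
      rw [hBM]
      exact ⟨hT1, hT2, hR, w, w', ha, by rw [hL]; exact hb, by rw [hL]; exact hc,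
        by rw [hL]; exact hd, not_le.1 hcc⟩
  have q3 : volume (⋃ R ∈ Finset.range N, BM R) ≤ ENNReal.ofReal (X * (E / 4)) := by
    refine (measure_biUnion_finset_le _ _).trans ((Finset.sum_le_sum fun R _ => q2 R).trans ?_)
    rw [← ENNReal.ofReal_sum_of_nonneg fun R _ => mul_nonneg hX0.le (hf0 R), ← Finset.mul_sum]
    refine ENNReal.ofReal_le_ofReal (mul_le_mul_of_nonneg_left ?_ hX0.le)
    rw [hf]
    exact HE.2 N
  have hp : 0 ≤ X * (E / 4) := by positivity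
  calc volume {T : ℝ | X ≤ T ∧ T ≤ 2 * X ∧ ¬ RLv n t T} ≤ _ := measure_mono hsub
    _ ≤ _ := measure_union_le _ _
    _ ≤ ENNReal.ofReal (X * (E / 4)) + ENNReal.ofReal (X * (E / 4)) := add_le_add q1 q3
    _ ≤ ENNReal.ofReal (X * E) := by
        rw [← ENNReal.ofReal_add hp hp]
        refine ENNReal.ofReal_le_ofReal ?_
        nlinarith [mul_pos hX0 hE0]

end Pool.Agent.DBS
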