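import Pool.Agent.DBS.Targets

set_option autoImplicit false

/-! All times between `A / (log X)²` and `c / log X` (target `T_AR7`). -/

namespace Pool.Agent.DBS

open Complex MeasureTheory Set Filter
open Pool.Agent.DBN Pool.Agent.DBC Pool.Agent.DBB
open scoped ENNReal

namespace AR7_

theorem rlv {n : ℕ} {c t X T : ℝ} (hc : 0 < c) (hX : Real.exp 1 ≤ X) (hXT : X ≤ T)
    (hTX : T ≤ 2 * X) (ht : 0 < t) (hn : (n : ℝ) ≤ t * Real.log X ^ 2)
    (htc : t * Real.log X ≤ c)
    (hPE : PE (1 / ((n : ℝ) + 1)) ((n : ℝ) + 2 + 2 * n * c) X (t * Real.log X ^ 2) T) :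
    RLv n t T := by
  have hX0 : 0 < X := lt_of_lt_of_le (Real.exp_pos _) hX
  have hL : 1 ≤ Real.log X := (Real.le_log_iff_exp_le hX0).2 hX
  have hL0 : 0 < Real.log X := by linarith
  have hT0 : 0 < T := lt_of_lt_of_le hX0 hXT
  have hLT : Real.log X ≤ Real.log T := Real.log_le_log hX0 hXT
  have hLT2 : Real.log T ≤ 2 * Real.log X := by
    have h1 : Real.log T ≤ Real.log (2 * X) := Real.log_le_log hT0 hTX
    rw [Real.log_mul (by norm_num) hX0.ne'] at h1
    have h2 : Real.log 2 < 1 := by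
      have := Real.log_two_lt_d9
      linarith
    linarith
  have hX1 : 1 ≤ X := by
    have := Real.add_one_le_exp (1 : ℝ)
    linarith
  have hn0 : (0 : ℝ) ≤ n := Nat.cast_nonneg n
  have hn1 : (0 : ℝ) < (n : ℝ) + 1 := by linarith
  have hnc : 0 ≤ 2 * (n : ℝ) * c := by positivity
  have hmm : t * Real.log X ^ 2 ≤ mt t T := by
    unfold DBB.mt
    exact mul_le_mul_of_nonneg_left (pow_le_pow_left₀ hL0.le hLT 2) ht.le
  have hdiv : 1 / ((n : ℝ) + 1) * (t * Real.log X ^ 2) ≤ mt t T / ((n : ℝ) + 1) := by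
    rw [one_div, inv_mul_eq_div]
    exact div_le_div_of_nonneg_right hmm hn1.le
  have htT : t * Real.log T ≤ 2 * c := by
    have := mul_le_mul_of_nonneg_left hLT2 ht.le
    linarith
  have him : ∀ w : ℂ, ((1 / 2 + T * I + w : ℂ)).im = T + w.im := fun w => by simp
  have hre : ∀ w : ℂ, ((1 / 2 + T * I + w : ℂ)).re = 1 / 2 + w.re := fun w => by simp
  refine ⟨ht, hn.trans hmm, 1, ?_, ?_, ?_⟩
  · exact Real.rpow_le_one_of_one_le_of_nonpos (hX1.trans hXT) (by norm_num)
  · intro w hw1 hw2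
    have hwi : |w.im| ≤ n := (Complex.abs_im_le_norm w).trans hw2
    have hwr : w.re ≤ n := (Complex.re_le_norm w).trans hw2
    obtain ⟨g1, -⟩ := hPE (1 / 2 + T * I + w)
      (by rw [him, add_sub_cancel_left]; linarith) (by rw [hre]; linarith)
    rw [one_mul]
    refine (g1 (by rw [hre]; linarith)).trans (Real.exp_le_exp.2 (hdiv.trans ?_))
    refine div_le_div_of_nonneg_right ?_ hn1.le
    have : 0 ≤ ‖w‖ ^ 2 / t := by positivity
    linarith
  · intro w hw1 hw2 hw3
    have hnt : (n : ℝ) * (t * Real.log T) ≤ 2 * n * c := by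
      have := mul_le_mul_of_nonneg_left htT hn0
      linarith
    obtain ⟨-, g2⟩ := hPE (1 / 2 + T * I + w)
      (by rw [him, add_sub_cancel_left]; linarith) (by rw [hre]; linarith)
    rw [one_mul]
    refine le_trans (Real.exp_le_exp.2 (by linarith)) (g2 ?_)
    rw [hre]
    have h5 : 1 / ((n : ℝ) + 1) * (t * Real.log X ^ 2) / Real.log X =
        t * Real.log X / ((n : ℝ) + 1) := by
      field_simp
    rw [h5]
    have h6 : t * Real.log X / ((n : ℝ) + 1) ≤ t * Real.log T / ((n : ℝ) + 1) :=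
      div_le_div_of_nonneg_right (mul_le_mul_of_nonneg_left hLT ht.le) hn1.le
    linarith

end AR7_

theorem p_AR7 (h1 : T_AR6) (h2 : T_AR4) : T_AR7 := by
  intro n c η hc hη
  have hn0 : (0 : ℝ) ≤ n := Nat.cast_nonneg n
  obtain ⟨A₁, κ, X₁, hA₁, hκ, H₁⟩ := h2 ((n : ℝ) + 2 + 2 * n * c) (1 / ((n : ℝ) + 1)) c
    (by positivity) (by positivity) hc
  obtain ⟨A₂, X₂, hA₂, H₂⟩ := h1 n A₁ η hA₁ hη
  refine ⟨max A₂ (max (n : ℝ) (|Real.log η| / κ)), max X₁ (max X₂ (Real.exp 1)),
    lt_of_lt_of_le hA₂ (le_max_left _ _), ?_⟩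
  intro t X hX hA htc
  have a1 : A₂ ≤ t * Real.log X ^ 2 := (le_max_left _ _).trans hA
  have a2 : (n : ℝ) ≤ t * Real.log X ^ 2 := ((le_max_left _ _).trans (le_max_right _ _)).trans hA
  have a3 : |Real.log η| / κ ≤ t * Real.log X ^ 2 :=
    ((le_max_right _ _).trans (le_max_right _ _)).trans hA
  have x1 : X₁ ≤ X := (le_max_left _ _).trans hX
  have x2 : X₂ ≤ X := ((le_max_left _ _).trans (le_max_right _ _)).trans hX
  have x3 : Real.exp 1 ≤ X := ((le_max_right _ _).trans (le_max_right _ _)).trans hX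
  have hX0 : 0 < X := lt_of_lt_of_le (Real.exp_pos _) x3
  have hL : 1 ≤ Real.log X := (Real.le_log_iff_exp_le hX0).2 x3
  have hL0 : 0 < Real.log X := by linarith
  have ht : 0 < t := by
    by_contra h
    have h3 : t * Real.log X ^ 2 ≤ 0 := mul_nonpos_of_nonpos_of_nonneg (not_lt.1 h) (by positivity)
    linarith
  rcases le_total (A₁ * Real.log (Real.log X)) (t * Real.log X ^ 2) with h3 | h3
  · have h4 : t * Real.log X ^ 2 ≤ c * Real.log X := by
      have := mul_le_mul_of_nonneg_right htc hL0.le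
      nlinarith
    refine (measure_mono ?_).trans ((H₁ X (t * Real.log X ^ 2) x1 h3 h4).trans
      (ENNReal.ofReal_le_ofReal ?_))
    · rintro T ⟨hT1, hT2, hR⟩
      exact ⟨hT1, hT2, fun hPE => hR (AR7_.rlv hc x3 hT1 hT2 ht a2 htc hPE)⟩
    · rw [mul_comm]
      refine mul_le_mul_of_nonneg_right ?_ hX0.le
      rw [← Real.le_log_iff_exp_le hη]
      rw [div_le_iff₀ hκ] at a3
      have h5 := neg_abs_le (Real.log η)
      linarith
  · exact H₂ t X x2 a1 h3

end Pool.Agent.DBS
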