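import Pool.Agent.DBS.Targets2
import Pool.Agent.DBS.P_AR7

set_option autoImplicit false

/-! All times between `A / (log X)²` and `c / log X`, with an exponential bound (`T_AR9`). -/

namespace Pool.Agent.DBS

open Complex MeasureTheory Set Filter
open Pool.Agent.DBN Pool.Agent.DBC Pool.Agent.DBB
open scoped ENNReal

namespace AR9_

theorem exp_mono {κ κ' m X : ℝ} (hX : 0 ≤ X) (hκ : κ ≤ κ') (hm : 0 ≤ m) :
    X * Real.exp (-(κ' * m)) ≤ X * Real.exp (-(κ * m)) := by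
  refine mul_le_mul_of_nonneg_left (Real.exp_le_exp.2 ?_) hX
  have := mul_le_mul_of_nonneg_right hκ hm
  linarith

end AR9_

theorem p_AR9 (h1 : T_AR8) (h2 : T_AR4) : T_AR9 := by
  intro n c hc
  have hn0 : (0 : ℝ) ≤ n := Nat.cast_nonneg n
  obtain ⟨A₁, κ, X₁, hA₁, hκ, H₁⟩ := h2 ((n : ℝ) + 2 + 2 * n * c) (1 / ((n : ℝ) + 1)) c
    (by positivity) (by positivity) hc
  obtain ⟨A₂, κ₂, X₂, hA₂, hκ₂, H₂⟩ := h1 n A₁ hA₁
  refine ⟨max A₂ (n : ℝ), min κ κ₂, max X₁ (max X₂ (Real.exp 1)),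
    lt_of_lt_of_le hA₂ (le_max_left _ _), lt_min hκ hκ₂, ?_⟩
  intro t X hX hA htc
  have a1 : A₂ ≤ t * Real.log X ^ 2 := (le_max_left _ _).trans hA
  have a2 : (n : ℝ) ≤ t * Real.log X ^ 2 := (le_max_right _ _).trans hA
  have x1 : X₁ ≤ X := (le_max_left _ _).trans hX
  have x2 : X₂ ≤ X := ((le_max_left _ _).trans (le_max_right _ _)).trans hX
  have x3 : Real.exp 1 ≤ X := ((le_max_right _ _).trans (le_max_right _ _)).trans hX
  have hX0 : 0 < X := lt_of_lt_of_le (Real.exp_pos _) x3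
  have hL : 1 ≤ Real.log X := (Real.le_log_iff_exp_le hX0).2 x3
  have hL0 : 0 < Real.log X := by linarith
  have hm0 : 0 ≤ t * Real.log X ^ 2 := by linarith
  have ht : 0 < t := by
    by_contra h
    have h3 : t * Real.log X ^ 2 ≤ 0 := mul_nonpos_of_nonpos_of_nonneg (not_lt.1 h) (by positivity)
    linarith
  rcases le_total (A₁ * Real.log (Real.log X)) (t * Real.log X ^ 2) with h3 | h3
  · have h4 : t * Real.log X ^ 2 ≤ c * Real.log X := by
      have := mul_le_mul_of_nonneg_right htc hL0.le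
      nlinarith
    refine (measure_mono ?_).trans ((H₁ X (t * Real.log X ^ 2) x1 h3 h4).trans
      (ENNReal.ofReal_le_ofReal (AR9_.exp_mono hX0.le (min_le_left _ _) hm0)))
    rintro T ⟨hT1, hT2, hR⟩
    exact ⟨hT1, hT2, fun hPE => hR (AR7_.rlv hc x3 hT1 hT2 ht a2 htc hPE)⟩
  · exact (H₂ t X x2 a1 h3).trans
      (ENNReal.ofReal_le_ofReal (AR9_.exp_mono hX0.le (min_le_right _ _) hm0))

end Pool.Agent.DBS
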