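import Pool.Agent.DBS.Targets
import Pool.Agent.DBA.P_NZR

set_option autoImplicit false

/-! The function `ζ Ms - 1` is small at most heights (target `T_BSF`). -/

namespace Pool.Agent.DBS.BSF_

open Complex MeasureTheory Set Filter
open Pool.Agent.DBA (T_DSC T_MRK bx pt NZR_mono NZR_ne NZR_pt_im NZR_pt_re)

/-- the mollified function -/
noncomputable def g (δ : ℝ) (Y : ℕ) (s : ℂ) : ℂ := riemannZeta s * Ms δ Y s - 1

lemma diffMs (δ : ℝ) (Y : ℕ) (s : ℂ) : DifferentiableAt ℂ (Ms δ Y) s := by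
  unfold Ms Pc
  refine DifferentiableAt.fun_sum fun n hn => ?_
  have hn1 : 1 ≤ n := (Finset.mem_Icc.mp hn).1
  have hn0 : (n : ℂ) ≠ 0 := by exact_mod_cast (by omega : n ≠ 0)
  refine DifferentiableAt.const_mul ?_ _
  exact (differentiableAt_id.neg).const_cpow (Or.inl hn0)

lemma diffg (δ : ℝ) (Y : ℕ) (s : ℂ) (hs : s ≠ 1) : DifferentiableAt ℂ (g δ Y) s := by
  unfold g
  exact ((differentiableAt_riemannZeta hs).mul (diffMs δ Y s)).sub_const 1

lemma contg (δ : ℝ) (Y : ℕ) (c : ℝ) (hc : 0 < c) :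
    Continuous (fun p : ℝ × ℝ => ‖g δ Y (pt p.1 (max p.2 c))‖ ^ 2) := by
  rw [continuous_iff_continuousAt]
  intro p
  have h1 : ContinuousAt (fun p : ℝ × ℝ => pt p.1 (max p.2 c)) p := by
    unfold pt
    fun_prop
  have h2 : ContinuousAt (g δ Y) (pt p.1 (max p.2 c)) := by
    refine (diffg δ Y _ (NZR_ne _ ?_)).continuousAt
    rw [NZR_pt_im]
    exact lt_of_lt_of_le hc (le_max_right _ _)
  have h3 : ContinuousAt (fun p : ℝ × ℝ => g δ Y (pt p.1 (max p.2 c))) p :=
    ContinuousAt.comp (f := fun p : ℝ × ℝ => pt p.1 (max p.2 c)) (g := g δ Y) h2 h1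
  exact (h3.norm).pow 2

/-- the integral over the square is at most the integral over the box -/
lemma box (δ : ℝ) (Y : ℕ) (a b K T x y r : ℝ) (hT : 0 < T - K) (hr : 0 < r) (h1 : a ≤ x - r)
    (h2 : x + r ≤ b) (h3 : T - K ≤ y - r) (h4 : y + r ≤ T + K) :
    (∫ u in (x - r)..(x + r), ∫ v in (y - r)..(y + r), ‖g δ Y (pt u v)‖ ^ 2) ≤
      bx (g δ Y) a b K T := by
  unfold bx
  have e1 : ∀ (p q : ℝ), T - K ≤ p → p ≤ q → ∀ u : ℝ,
      (∫ v in p..q, ‖g δ Y (pt u v)‖ ^ 2) =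
        ∫ v in p..q, ‖g δ Y (pt u (max v (T - K)))‖ ^ 2 := by
    intro p q hp hpq u
    refine intervalIntegral.integral_congr fun v hv => ?_
    rw [uIcc_of_le hpq] at hv
    have : max v (T - K) = v := max_eq_left (hp.trans hv.1)
    simp only [this]
  have e2 : ∀ u : ℝ, (∫ v in (y - r)..(y + r), ‖g δ Y (pt u v)‖ ^ 2) =
        ∫ v in (y - r)..(y + r), ‖g δ Y (pt u (max v (T - K)))‖ ^ 2 :=
    e1 _ _ h3 (by linarith)
  have e3 : ∀ u : ℝ, (∫ v in (T - K)..(T + K), ‖g δ Y (pt u v)‖ ^ 2) =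
        ∫ v in (T - K)..(T + K), ‖g δ Y (pt u (max v (T - K)))‖ ^ 2 :=
    e1 _ _ le_rfl (by linarith)
  simp only [e2, e3]
  exact NZR_mono (fun u v => ‖g δ Y (pt u (max v (T - K)))‖ ^ 2) (contg δ Y (T - K) hT)
    (fun _ _ => by positivity) _ _ _ _ _ _ _ _ h1 (by linarith) h2 h3 (by linarith) h4

theorem main (h1 : T_CLS) (h2 : T_DSC) (h3 : T_MRK) : T_BSF := by
  obtain ⟨C0, hC0, HM⟩ := h1
  obtain ⟨CD, hCD, HD⟩ := h2
  refine ⟨192 * C0 * CD, max 256 (Real.exp 8), by positivity, ?_⟩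
  intro δ Y X S hX hδ hδ1 hY2 hYδ hY40 hS hSL
  have hX256 : 256 ≤ X := (le_max_left _ _).trans hX
  have hXe : Real.exp 8 ≤ X := (le_max_right _ _).trans hX
  have hX0 : 0 < X := by linarith
  have hL : 8 ≤ Real.log X := by
    rw [Real.le_log_iff_exp_le hX0]
    exact hXe
  have hL0 : 0 < Real.log X := by linarith
  have hY20 : (Y : ℝ) ^ 20 ≤ X / 2 := by
    have g1 : ((Y : ℝ) ^ 20) ^ 2 ≤ X := by
      calc ((Y : ℝ) ^ 20) ^ 2 = (Y : ℝ) ^ 40 := by ring
        _ ≤ X := hY40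
    have g2 : X ≤ (X / 2) ^ 2 := by nlinarith
    exact le_of_sq_le_sq (g1.trans g2) (by positivity)
  set L : ℝ := Real.log X with hLdef
  set r : ℝ := 1 / L with hr
  have hr0 : 0 < r := by positivity
  have hSr : S / L = S * r := by rw [hr]; ring
  have hK : (S + 1) * r ≤ 1 / 8 := by
    rw [hr, mul_one_div, div_le_iff₀ hL0]
    linarith
  have hr8 : r ≤ 1 / 8 := by nlinarith
  set a : ℝ := (1 + δ) / 2 with ha
  set b : ℝ := 1 / 2 + (S + 1) * r with hb
  set K : ℝ := (S + 1) * r with hKdef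
  have hK0 : 0 < K := by positivity
  by_cases hab : a ≤ b
  swap
  · -- the set is empty
    have hempty : {T : ℝ | X ≤ T ∧ T ≤ 2 * X ∧ ∃ w : ℂ, δ / 2 + 1 / L ≤ w.re ∧
        ‖w‖ ≤ S / L ∧ 1 / 2 < ‖riemannZeta (1 / 2 + T * I + w) *
          Ms δ Y (1 / 2 + T * I + w) - 1‖} = ∅ := by
      rw [Set.eq_empty_iff_forall_notMem]
      rintro T ⟨-, -, w, hw1, hw2, -⟩
      have h5 := (Complex.re_le_norm w).trans hw2
      rw [hSr] at h5
      rw [← hr] at hw1
      apply hab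
      rw [ha, hb]
      nlinarith
    rw [hempty]
    simp
  · set lam : ℝ := r ^ 2 / (4 * CD) with hlam
    have hlam0 : 0 < lam := by positivity
    have hYδ0 : 0 < (Y : ℝ) ^ (-δ) := by
      have : (0 : ℝ) < Y := by exact_mod_cast (by omega : 0 < Y)
      positivity
    set V : ℝ := C0 * (2 * X) * (Y : ℝ) ^ (-δ) with hV
    have hV0 : 0 ≤ V := by positivity
    obtain ⟨B, hBm, hBs, hBv, hB⟩ := h3 (g δ Y) a b K X V lam hab hK0 (by linarith) hlam0 hV0
      (fun s _ _ hs => (diffg δ Y s (NZR_ne s (by linarith))).continuousAt)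
      (fun x hx1 hx2 T hT => by
        have hT1 : X / 2 ≤ T := by rcases hT with h | h | h <;> rw [h] <;> linarith
        have hT2 : T ≤ 2 * X := by rcases hT with h | h | h <;> rw [h] <;> linarith
        refine (HM δ Y T x hδ hδ1 hY2 hYδ (by linarith) (by linarith) hx1 (by linarith)).trans ?_
        rw [hV]
        gcongr)
    refine (measure_mono (t := B) ?_).trans (hBv.trans (ENNReal.ofReal_le_ofReal ?_))
    · rintro T ⟨hT1, hT2, w, hw1, hw2, hw3⟩
      by_contra hTB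
      rw [hSr] at hw2
      have hre : w.re ≤ S * r := (Complex.re_le_norm w).trans hw2
      obtain ⟨him1, him2⟩ := abs_le.mp ((Complex.abs_im_le_norm w).trans hw2)
      obtain ⟨s, hs⟩ : ∃ s : ℂ, s = 1 / 2 + T * I + w := ⟨_, rfl⟩
      have hsre : s.re = 1 / 2 + w.re := by
        rw [hs]
        simp
      have hsim : s.im = T + w.im := by
        rw [hs]
        simp
      rw [← hs] at hw3
      have hf : pt s.re s.im = s := by
        unfold pt
        exact Complex.re_add_im s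
      have k1 := HD (g δ Y) s.re s.im r hr0 (fun z _ hz => by
        obtain ⟨hz1, hz2⟩ := abs_le.mp hz
        exact diffg δ Y z (NZR_ne z (by nlinarith)))
      have k2 := box δ Y a b K T s.re s.im r (by linarith) hr0 (by rw [hsre, ha]; linarith)
        (by rw [hsre, hb]; linarith) (by rw [hsim, hKdef]; linarith)
        (by rw [hsim, hKdef]; linarith)
      have k3 := hB T ⟨hT1, hT2⟩ hTB
      have k4 : CD * bx (g δ Y) a b K T < CD * lam := mul_lt_mul_of_pos_left k3 hCD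
      have k5 : CD * lam = r ^ 2 * (1 / 4) := by
        rw [hlam]
        field_simp
      have k6 := mul_le_mul_of_nonneg_left k2 hCD.le
      rw [hf] at k1
      have k7 : r ^ 2 * ‖g δ Y s‖ ^ 2 < r ^ 2 * (1 / 4) := by linarith
      have k8 : ‖g δ Y s‖ ^ 2 < 1 / 4 := lt_of_mul_lt_mul_left k7 (by positivity)
      have k9 : 1 / 2 < ‖g δ Y s‖ := hw3
      nlinarith
    · have hba : b - a ≤ K := by
        rw [hb, ha]
        linarith
      have hrr : V / lam = 8 * C0 * CD * X * (Y : ℝ) ^ (-δ) / r ^ 2 := by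
        rw [hV, hlam]
        field_simp
        ring
      have hVl : 0 ≤ V / lam := by positivity
      have hS1 : (S + 1) ^ 2 ≤ 4 * S ^ 2 := by nlinarith
      calc 6 * K * (b - a) * V / lam = 6 * K * (V / lam) * (b - a) := by ring
        _ ≤ 6 * K * (V / lam) * K := mul_le_mul_of_nonneg_left hba (by positivity)
        _ = 48 * C0 * CD * X * (Y : ℝ) ^ (-δ) * (S + 1) ^ 2 := by
            rw [hrr, hKdef]
            field_simp
            ring
        _ ≤ 48 * C0 * CD * X * (Y : ℝ) ^ (-δ) * (4 * S ^ 2) :=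
            mul_le_mul_of_nonneg_left hS1 (by positivity)
        _ = 192 * C0 * CD * X * S ^ 2 * (Y : ℝ) ^ (-δ) := by ring

end Pool.Agent.DBS.BSF_

namespace Pool.Agent.DBS

theorem p_BSF (h1 : T_CLS) (h2 : Pool.Agent.DBA.T_DSC) (h3 : Pool.Agent.DBA.T_MRK) : T_BSF :=
  BSF_.main h1 h2 h3

end Pool.Agent.DBS
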