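import Pool.Agent.DBS.Targets

/-!
# DBS, target BSM: products of `ζ` and the mollifier in boxes of size `1 / log X`
-/

set_option autoImplicit false

namespace Pool.Agent.DBS

open Complex MeasureTheory Set Filter
open Pool.Agent.DBN Pool.Agent.DBB
open scoped ENNReal

namespace BSM_

theorem meas_zeta : Measurable riemannZeta := by
  refine measurable_of_continuousOn_compl_singleton 1 fun s hs => ?_
  exact (differentiableAt_riemannZeta hs).continuousAt.continuousWithinAt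

theorem diff_Ms (δ : ℝ) (Y : ℕ) : Differentiable ℂ (Ms δ Y) := by
  unfold Ms Pc
  refine Differentiable.fun_sum fun k hk => ?_
  have hk1 : (k : ℂ) ≠ 0 := by
    have := (Finset.mem_Icc.1 hk).1
    exact_mod_cast (by omega : k ≠ 0)
  intro s
  refine DifferentiableAt.const_mul ?_ _
  exact (differentiableAt_id.neg).const_cpow (Or.inl hk1)

theorem cont_pt : Continuous fun p : ℝ × ℝ => Pool.Agent.DBA.pt p.1 p.2 := by
  unfold Pool.Agent.DBA.pt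
  fun_prop

theorem meas_sq {f : ℂ → ℂ} (hf : Measurable f) (T : ℝ) :
    Measurable fun p : ℝ × ℝ => ‖f (Pool.Agent.DBA.pt p.1 (T + p.2))‖ₑ ^ 2 := by
  have h1 : Measurable fun p : ℝ × ℝ => Pool.Agent.DBA.pt p.1 (T + p.2) := by
    have : Continuous fun p : ℝ × ℝ => Pool.Agent.DBA.pt p.1 (T + p.2) := by
      unfold Pool.Agent.DBA.pt
      fun_prop
    exact this.measurable
  exact (hf.comp h1).enorm.pow_const 2

/-- the mean value inequality over a square, as an upper integral over a box -/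
theorem dsc {C : ℝ} (hC : 0 < C) (hD : ∀ (f : ℂ → ℂ) (x y r : ℝ), 0 < r →
    (∀ s : ℂ, |s.re - x| ≤ r → |s.im - y| ≤ r → DifferentiableAt ℂ f s) →
    r ^ 2 * ‖f (Pool.Agent.DBA.pt x y)‖ ^ 2 ≤
      C * ∫ u in (x - r)..(x + r), ∫ v in (y - r)..(y + r), ‖f (Pool.Agent.DBA.pt u v)‖ ^ 2)
    {f : ℂ → ℂ} (hf : Measurable f) {T x y r a b U : ℝ} (hr : 0 < r)
    (h : ∀ s : ℂ, |s.re - x| ≤ r → |s.im - y| ≤ r → DifferentiableAt ℂ f (s + T * I))
    (h1 : a ≤ x - r) (h2 : x + r ≤ b) (h3 : -U ≤ y - r) (h4 : y + r ≤ U) :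
    ENNReal.ofReal (r ^ 2) * ‖f (Pool.Agent.DBA.pt x (T + y))‖ₑ ^ 2 ≤ ENNReal.ofReal C *
      ∫⁻ p in Icc a b ×ˢ Icc (-U) U, ‖f (Pool.Agent.DBA.pt p.1 (T + p.2))‖ₑ ^ 2 := by
  have hpt : ∀ u v : ℝ, Pool.Agent.DBA.pt u v + T * I = Pool.Agent.DBA.pt u (T + v) := by
    intro u v
    unfold Pool.Agent.DBA.pt
    push_cast
    ring
  have key := hD (fun s => f (s + T * I)) x y r hr (fun s hs1 hs2 => by
    have h5 := h s hs1 hs2
    exact h5.comp s (by fun_prop))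
  simp only [hpt] at key
  have hen : ∀ z : ℂ, ‖f z‖ₑ ^ 2 = ENNReal.ofReal (‖f z‖ ^ 2) := fun z => by
    rw [ENNReal.ofReal_pow (norm_nonneg _), ofReal_norm]
  have e1 : ENNReal.ofReal (r ^ 2) * ‖f (Pool.Agent.DBA.pt x (T + y))‖ₑ ^ 2 =
      ENNReal.ofReal (r ^ 2 * ‖f (Pool.Agent.DBA.pt x (T + y))‖ ^ 2) := by
    rw [hen, ENNReal.ofReal_mul (by positivity)]
  rw [e1]
  refine (ENNReal.ofReal_le_ofReal key).trans ?_
  rw [ENNReal.ofReal_mul hC.le]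
  refine mul_le_mul_right ?_ _
  rw [intervalIntegral.integral_of_le (by linarith)]
  refine (Real.ofReal_le_enorm _).trans ((enorm_integral_le_lintegral_enorm _).trans ?_)
  have e2 : ∀ u : ℝ, ‖∫ v in (y - r)..(y + r), ‖f (Pool.Agent.DBA.pt u (T + v))‖ ^ 2‖ₑ ≤
      ∫⁻ v in Icc (-U) U, ‖f (Pool.Agent.DBA.pt u (T + v))‖ₑ ^ 2 := by
    intro u
    rw [intervalIntegral.integral_of_le (by linarith)]
    refine (enorm_integral_le_lintegral_enorm _).trans ?_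
    refine (lintegral_mono_set (Ioc_subset_Icc_self.trans (Icc_subset_Icc h3 h4))).trans ?_
    refine lintegral_mono fun v => ?_
    rw [enorm_pow, enorm_norm]
  refine (lintegral_mono e2).trans ?_
  refine (lintegral_mono_set (Ioc_subset_Icc_self.trans (Icc_subset_Icc h1 h2))).trans ?_
  rw [Measure.volume_eq_prod, ← Measure.prod_restrict,
    lintegral_prod _ (meas_sq hf T).aemeasurable]

/-- a mean square of MO2, as an upper integral -/
theorem mo {δ : ℝ} {Y : ℕ} {Z V σ σ' y : ℝ} (hZ : 0 < Z)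
    (h : (∫ τ in Z..(2 * Z), ‖riemannZeta (Pool.Agent.DBA.pt σ τ) *
      Ms δ Y (Pool.Agent.DBA.pt σ' (τ + y))‖ ^ 2) ≤ V) :
    ∫⁻ τ in Icc Z (2 * Z), ‖riemannZeta (Pool.Agent.DBA.pt σ τ)‖ₑ ^ 2 *
      ‖Ms δ Y (Pool.Agent.DBA.pt σ' (τ + y))‖ₑ ^ 2 ≤ ENNReal.ofReal V := by
  have hc : ContinuousOn (fun τ : ℝ => ‖riemannZeta (Pool.Agent.DBA.pt σ τ) *
      Ms δ Y (Pool.Agent.DBA.pt σ' (τ + y))‖ ^ 2) (Icc Z (2 * Z)) := by
    refine ((ContinuousOn.mul ?_ ?_).norm).pow 2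
    · intro τ hτ
      have h1 : Pool.Agent.DBA.pt σ τ ≠ 1 := by
        intro h2
        have h3 := congrArg Complex.im h2
        simp [Pool.Agent.DBA.pt] at h3
        linarith [hτ.1]
      have h2 : ContinuousAt (fun τ : ℝ => Pool.Agent.DBA.pt σ τ) τ := by
        unfold Pool.Agent.DBA.pt
        fun_prop
      exact (ContinuousAt.comp (f := fun τ : ℝ => Pool.Agent.DBA.pt σ τ)
        (differentiableAt_riemannZeta h1).continuousAt h2).continuousWithinAt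
    · have h2 : Continuous (fun τ : ℝ => Pool.Agent.DBA.pt σ' (τ + y)) := by
        unfold Pool.Agent.DBA.pt
        fun_prop
      exact ((diff_Ms δ Y).continuous.comp h2).continuousOn
  have hi : IntegrableOn (fun τ : ℝ => ‖riemannZeta (Pool.Agent.DBA.pt σ τ) *
      Ms δ Y (Pool.Agent.DBA.pt σ' (τ + y))‖ ^ 2) (Icc Z (2 * Z)) :=
    hc.integrableOn_compact isCompact_Icc
  rw [intervalIntegral.integral_of_le (by linarith), ← integral_Icc_eq_integral_Ioc] at h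
  have h5 := ofReal_integral_eq_lintegral_ofReal hi
    (Eventually.of_forall fun τ => by positivity)
  have h6 : ∫⁻ τ in Icc Z (2 * Z), ‖riemannZeta (Pool.Agent.DBA.pt σ τ)‖ₑ ^ 2 *
      ‖Ms δ Y (Pool.Agent.DBA.pt σ' (τ + y))‖ₑ ^ 2 =
      ∫⁻ τ in Icc Z (2 * Z), ENNReal.ofReal (‖riemannZeta (Pool.Agent.DBA.pt σ τ) *
        Ms δ Y (Pool.Agent.DBA.pt σ' (τ + y))‖ ^ 2) := by
    refine lintegral_congr fun τ => ?_
    rw [← mul_pow, ← enorm_mul, ENNReal.ofReal_pow (norm_nonneg _), ofReal_norm]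
  rw [h6, ← h5]
  exact ENNReal.ofReal_le_ofReal h

/-- the shifted mean square -/
theorem shift {δ : ℝ} {Y : ℕ} {X V x x' u u' : ℝ} (hX : 2 ≤ X) (hu : |u| ≤ 1)
    (h : ∀ Z : ℝ, (Z = X / 2 ∨ Z = X ∨ Z = 2 * X) →
      (∫ τ in Z..(2 * Z), ‖riemannZeta (Pool.Agent.DBA.pt x τ) *
        Ms δ Y (Pool.Agent.DBA.pt x' (τ + (u' - u)))‖ ^ 2) ≤ V) :
    ∫⁻ T in Icc X (2 * X), ‖riemannZeta (Pool.Agent.DBA.pt x (T + u))‖ₑ ^ 2 *
      ‖Ms δ Y (Pool.Agent.DBA.pt x' (T + u'))‖ₑ ^ 2 ≤ 3 * ENNReal.ofReal V := by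
  set g : ℝ → ℝ≥0∞ := fun τ => ‖riemannZeta (Pool.Agent.DBA.pt x τ)‖ₑ ^ 2 *
      ‖Ms δ Y (Pool.Agent.DBA.pt x' (τ + (u' - u)))‖ₑ ^ 2 with hg
  have e1 : ∀ T : ℝ, ‖riemannZeta (Pool.Agent.DBA.pt x (T + u))‖ₑ ^ 2 *
      ‖Ms δ Y (Pool.Agent.DBA.pt x' (T + u'))‖ₑ ^ 2 = g (T + u) := by
    intro T
    have : T + u + (u' - u) = T + u' := by ring
    simp only [hg, this]
  obtain ⟨hu1, hu2⟩ := abs_le.1 hu
  have e2 : ∫⁻ T in Icc X (2 * X), g (T + u) ≤ ∫⁻ τ in Icc (X / 2) (4 * X), g τ := by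
    rw [← lintegral_indicator measurableSet_Icc, ← lintegral_indicator measurableSet_Icc,
      ← lintegral_add_right_eq_self ((Icc (X / 2) (4 * X)).indicator g) u]
    refine lintegral_mono fun T => ?_
    by_cases hT : T ∈ Icc X (2 * X)
    · rw [indicator_of_mem hT, indicator_of_mem (show T + u ∈ Icc (X / 2) (4 * X) from
        ⟨by linarith [hT.1], by linarith [hT.2]⟩)]
    · rw [indicator_of_notMem hT]
      exact zero_le
  have e3 : Icc (X / 2) (4 * X) ⊆ Icc (X / 2) (2 * (X / 2)) ∪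
      (Icc X (2 * X) ∪ Icc (2 * X) (2 * (2 * X))) := by
    intro τ hτ
    rcases le_total τ X with h1 | h1
    · exact Or.inl ⟨hτ.1, by linarith⟩
    · rcases le_total τ (2 * X) with h2 | h2
      · exact Or.inr (Or.inl ⟨h1, h2⟩)
      · exact Or.inr (Or.inr ⟨h2, by linarith [hτ.2]⟩)
  have e4 : ∫⁻ τ in Icc (X / 2) (4 * X), g τ ≤ ENNReal.ofReal V +
      (ENNReal.ofReal V + ENNReal.ofReal V) := by
    refine (lintegral_mono_set e3).trans ((lintegral_union_le _ _ _).trans ?_)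
    refine add_le_add (mo (by linarith) (h _ (Or.inl rfl))) ?_
    refine (lintegral_union_le _ _ _).trans ?_
    exact add_le_add (mo (by linarith) (h _ (Or.inr (Or.inl rfl))))
      (mo (by linarith) (h _ (Or.inr (Or.inr rfl))))
  simp only [e1]
  refine e2.trans (e4.trans (le_of_eq ?_))
  ring

/-- Tonelli -/
theorem ton {δ : ℝ} {Y : ℕ} {X V a b U a' b' U' : ℝ} (hX : 2 ≤ X) (hab : a ≤ b) (hU : 0 ≤ U)
    (hU1 : U ≤ 1) (hab' : a' ≤ b') (_hU' : 0 ≤ U')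
    (h : ∀ x u x' u' : ℝ, a ≤ x → x ≤ b → |u| ≤ U → a' ≤ x' → x' ≤ b' → |u'| ≤ U' →
      ∀ Z : ℝ, (Z = X / 2 ∨ Z = X ∨ Z = 2 * X) →
      (∫ τ in Z..(2 * Z), ‖riemannZeta (Pool.Agent.DBA.pt x τ) *
        Ms δ Y (Pool.Agent.DBA.pt x' (τ + (u' - u)))‖ ^ 2) ≤ V) :
    ∫⁻ T in Icc X (2 * X),
      (∫⁻ p in Icc a b ×ˢ Icc (-U) U, ‖riemannZeta (Pool.Agent.DBA.pt p.1 (T + p.2))‖ₑ ^ 2) *
      (∫⁻ p in Icc a' b' ×ˢ Icc (-U') U', ‖Ms δ Y (Pool.Agent.DBA.pt p.1 (T + p.2))‖ₑ ^ 2) ≤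
    3 * ENNReal.ofReal V * ENNReal.ofReal ((b - a) * (2 * U) * ((b' - a') * (2 * U'))) := by
  have hz := meas_zeta
  have hM : Measurable (Ms δ Y) := (diff_Ms δ Y).continuous.measurable
  have e1 : ∀ T : ℝ,
      (∫⁻ p in Icc a b ×ˢ Icc (-U) U, ‖riemannZeta (Pool.Agent.DBA.pt p.1 (T + p.2))‖ₑ ^ 2) *
      (∫⁻ p in Icc a' b' ×ˢ Icc (-U') U', ‖Ms δ Y (Pool.Agent.DBA.pt p.1 (T + p.2))‖ₑ ^ 2) =
      ∫⁻ z : (ℝ × ℝ) × (ℝ × ℝ), ‖riemannZeta (Pool.Agent.DBA.pt z.1.1 (T + z.1.2))‖ₑ ^ 2 *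
        ‖Ms δ Y (Pool.Agent.DBA.pt z.2.1 (T + z.2.2))‖ₑ ^ 2
        ∂((volume.restrict (Icc a b ×ˢ Icc (-U) U)).prod
          (volume.restrict (Icc a' b' ×ˢ Icc (-U') U'))) := fun T =>
    (lintegral_prod_mul (meas_sq hz T).aemeasurable (meas_sq hM T).aemeasurable).symm
  simp only [e1]
  have hc1 : Continuous fun q : ℝ × ((ℝ × ℝ) × (ℝ × ℝ)) =>
      Pool.Agent.DBA.pt q.2.1.1 (q.1 + q.2.1.2) := by
    unfold Pool.Agent.DBA.pt
    fun_prop
  have hc2 : Continuous fun q : ℝ × ((ℝ × ℝ) × (ℝ × ℝ)) =>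
      Pool.Agent.DBA.pt q.2.2.1 (q.1 + q.2.2.2) := by
    unfold Pool.Agent.DBA.pt
    fun_prop
  have hm : Measurable (Function.uncurry fun (T : ℝ) (z : (ℝ × ℝ) × (ℝ × ℝ)) =>
      ‖riemannZeta (Pool.Agent.DBA.pt z.1.1 (T + z.1.2))‖ₑ ^ 2 *
        ‖Ms δ Y (Pool.Agent.DBA.pt z.2.1 (T + z.2.2))‖ₑ ^ 2) :=
    ((hz.comp hc1.measurable).enorm.pow_const 2).mul
      ((hM.comp hc2.measurable).enorm.pow_const 2)
  rw [lintegral_lintegral_swap hm.aemeasurable, Measure.prod_restrict]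
  have hms : MeasurableSet ((Icc a b ×ˢ Icc (-U) U) ×ˢ (Icc a' b' ×ˢ Icc (-U') U')) :=
    (measurableSet_Icc.prod measurableSet_Icc).prod (measurableSet_Icc.prod measurableSet_Icc)
  refine (setLIntegral_mono' (g := fun _ => 3 * ENNReal.ofReal V) hms ?_).trans ?_
  · rintro ⟨⟨x, u⟩, ⟨x', u'⟩⟩ hz1
    obtain ⟨⟨hx, hu⟩, ⟨hx', hu'⟩⟩ := hz1
    have hu1 : |u| ≤ U := abs_le.2 hu
    exact shift hX (hu1.trans hU1)
      (h x u x' u' hx.1 hx.2 hu1 hx'.1 hx'.2 (abs_le.2 hu'))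
  · rw [lintegral_const, Measure.restrict_apply_univ, Measure.prod_prod,
      Measure.volume_eq_prod, Measure.prod_prod, Measure.prod_prod, Real.volume_Icc,
      Real.volume_Icc, Real.volume_Icc, Real.volume_Icc, ← ENNReal.ofReal_mul (by linarith),
      ← ENNReal.ofReal_mul (by linarith), ← ENNReal.ofReal_mul (by
        refine mul_nonneg ?_ ?_ <;> linarith)]
    refine le_of_eq ?_
    congr 2
    ring

theorem meas_T {f : ℂ → ℂ} (hf : Measurable f) (B : Set (ℝ × ℝ)) :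
    Measurable fun T : ℝ => ∫⁻ p in B, ‖f (Pool.Agent.DBA.pt p.1 (T + p.2))‖ₑ ^ 2 := by
  have hc : Continuous fun q : ℝ × (ℝ × ℝ) => Pool.Agent.DBA.pt q.2.1 (q.1 + q.2.2) := by
    unfold Pool.Agent.DBA.pt
    fun_prop
  have hm : Measurable fun q : ℝ × (ℝ × ℝ) =>
      ‖f (Pool.Agent.DBA.pt q.2.1 (q.1 + q.2.2))‖ₑ ^ 2 := (hf.comp hc.measurable).enorm.pow_const 2
  exact hm.lintegral_prod_right'

/-- the final numbers -/
theorem fin {C₁ C₂ C X P L R S r lam V vol : ℝ} (hC₁ : 0 < C₁) (hC₂ : 0 < C₂)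
    (hCa : 7680 * C₁ ^ 2 * C₂ * (10 : ℝ) ^ C₂ ≤ C) (hCb : C₂ + 4 ≤ C) (hX : 0 < X) (hL : 0 < L)
    (hR : 1 ≤ R) (hS : 1 ≤ S) (hRP : R + 1 ≤ P) (hSP : S + 1 ≤ P) (hr : r = 1 / (4 * L))
    (hlam : 0 < lam) (hV : V = C₂ * (2 * X) * (10 * P) ^ C₂)
    (hvol : vol = ((R + 1) / L + 1 / (4 * L)) * (2 * ((R + 1) / L)) *
      ((S + 1) / L * (2 * ((S + 1) / L)))) :
    3 * V * vol / (r ^ 4 * lam / C₁ ^ 2) ≤ C * X * P ^ C / lam := by
  have hP : 1 ≤ P := by linarith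
  have hP0 : 0 < P := by linarith
  have h1 : vol / r ^ 4 = 1024 * ((R + 1 + 1 / 4) * (R + 1) * (S + 1) ^ 2) := by
    rw [hvol, hr]
    field_simp
    ring
  have h2 : (R + 1 + 1 / 4) * (R + 1) * (S + 1) ^ 2 ≤ 5 / 4 * P ^ 4 := by
    have e1 : R + 1 + 1 / 4 ≤ 5 / 4 * P := by linarith
    calc (R + 1 + 1 / 4) * (R + 1) * (S + 1) ^ 2 ≤ (5 / 4 * P) * P * P ^ 2 := by gcongr
      _ = 5 / 4 * P ^ 4 := by ring
  have h3 : 3 * V * vol / (r ^ 4 * lam / C₁ ^ 2) = 3 * V * C₁ ^ 2 * (vol / r ^ 4) / lam := by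
    have hr0 : r ≠ 0 := by
      rw [hr]
      positivity
    field_simp
  have hV0 : 0 ≤ V := by
    rw [hV]
    positivity
  rw [h3, h1]
  refine div_le_div_of_nonneg_right ?_ hlam.le
  calc 3 * V * C₁ ^ 2 * (1024 * ((R + 1 + 1 / 4) * (R + 1) * (S + 1) ^ 2))
      ≤ 3 * V * C₁ ^ 2 * (1024 * (5 / 4 * P ^ 4)) := by gcongr
    _ = 7680 * C₁ ^ 2 * C₂ * (10 : ℝ) ^ C₂ * X * (P ^ C₂ * P ^ 4) := by
        rw [hV, Real.mul_rpow (by norm_num) hP0.le]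
        ring
    _ = 7680 * C₁ ^ 2 * C₂ * (10 : ℝ) ^ C₂ * X * P ^ (C₂ + 4) := by
        rw [Real.rpow_add hP0]
        norm_num
    _ ≤ C * X * P ^ C := by
        have e2 : P ^ (C₂ + 4) ≤ P ^ C := Real.rpow_le_rpow_of_exponent_le hP hCb
        have hC0 : 0 < C := by linarith
        gcongr

end BSM_

open BSM_ in
theorem p_BSM (h1 : T_MO2) (h2 : Pool.Agent.DBA.T_DSC) : T_BSM := by
  obtain ⟨C₂, X₂, hC₂, hX₂, hM⟩ := h1
  obtain ⟨C₁, hC₁, hD⟩ := h2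
  refine ⟨max (7680 * C₁ ^ 2 * C₂ * (10 : ℝ) ^ C₂) (C₂ + 4), 2 * X₂, by positivity, ?_⟩
  intro δ Y X R S lam hX hδ hδ1 hY hYδ hYX hR hRL hS hSL hlam
  set C : ℝ := max (7680 * C₁ ^ 2 * C₂ * (10 : ℝ) ^ C₂) (C₂ + 4) with hC
  have hX16 : 16 ≤ X := by linarith
  set L : ℝ := Real.log X with hLdef
  have hL16 : 16 ≤ L := by linarith
  have hL0 : 0 < L := by linarith
  obtain ⟨r, hr⟩ : ∃ r : ℝ, r = 1 / (4 * L) := ⟨_, rfl⟩
  have hr0 : 0 < r := by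
    rw [hr]
    positivity
  have hrL : r * L = 1 / 4 := by
    rw [hr]
    field_simp
  obtain ⟨U, hU⟩ : ∃ U : ℝ, U = (R + 1) / L := ⟨_, rfl⟩
  obtain ⟨U', hU'⟩ : ∃ U' : ℝ, U' = (S + 1) / L := ⟨_, rfl⟩
  have hUL : U * L = R + 1 := by
    rw [hU]
    field_simp
  have hUL' : U' * L = S + 1 := by
    rw [hU']
    field_simp
  have hU0 : 0 < U := by
    rw [hU]
    positivity
  have hU0' : 0 < U' := by
    rw [hU']
    positivity
  have hU8 : U ≤ 1 / 8 := by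
    rw [hU, div_le_iff₀ hL0]
    linarith
  have hU8' : U' ≤ 1 / 8 := by
    rw [hU', div_le_iff₀ hL0]
    linarith
  have hRLe : R / L = U - 4 * r := by
    rw [hU, hr]
    field_simp
    ring
  have hSLe : S / L = U' - 4 * r := by
    rw [hU', hr]
    field_simp
    ring
  have h1L : 1 / L = 4 * r := by
    rw [hr]
    field_simp
  have hrU : r ≤ U := by
    rw [hU, hr, div_le_div_iff₀ (by positivity) hL0]
    nlinarith
  obtain ⟨P, hP⟩ : ∃ P : ℝ, P = 1 + δ * L + R + S := ⟨_, rfl⟩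
  have hδL : 0 < δ * L := by positivity
  have hP1 : 1 ≤ P := by
    rw [hP]
    linarith
  -- the mean square
  have hlog2 : ∀ Z : ℝ, (Z = X / 2 ∨ Z = X ∨ Z = 2 * X) → 0 ≤ Real.log Z ∧
      Real.log Z ≤ 2 * L ∧ X₂ ≤ Z ∧ Z ≤ 2 * X ∧ Real.log (2 * Z) ≤ 2 * L ∧
      0 < Real.log (2 * Z) := by
    intro Z hZ
    have hZ1 : X / 2 ≤ Z ∧ Z ≤ 2 * X := by
      rcases hZ with h | h | h <;> constructor <;> linarith
    have hZ0 : 1 ≤ Z := by linarith [hZ1.1]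
    have hlX : Real.log (4 * X) ≤ 2 * L := by
      rw [Real.log_mul (by norm_num) (by linarith)]
      have : Real.log 4 ≤ 4 - 1 := Real.log_le_sub_one_of_pos (by norm_num)
      linarith
    refine ⟨Real.log_nonneg hZ0, ?_, by linarith [hZ1.1], hZ1.2, ?_, Real.log_pos (by linarith)⟩
    · exact (Real.log_le_log (by linarith) (by linarith [hZ1.2])).trans hlX
    · exact (Real.log_le_log (by linarith) (by linarith [hZ1.2])).trans hlX
  have hY20 : (Y : ℝ) ^ 20 ≤ X / 2 := by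
    by_contra hcon
    push Not at hcon
    have e1 : (Y : ℝ) ^ 40 = (Y : ℝ) ^ 20 * (Y : ℝ) ^ 20 := by ring
    rw [e1] at hYX
    nlinarith
  obtain ⟨V, hV⟩ : ∃ V : ℝ, V = C₂ * (2 * X) * (10 * P) ^ C₂ := ⟨_, rfl⟩
  have hmo : ∀ x u x' u' : ℝ, 1 / 2 - r ≤ x → x ≤ 1 / 2 + U → |u| ≤ U → 1 / 2 ≤ x' →
      x' ≤ 1 / 2 + U' → |u'| ≤ U' → ∀ Z : ℝ, (Z = X / 2 ∨ Z = X ∨ Z = 2 * X) →
      (∫ τ in Z..(2 * Z), ‖riemannZeta (Pool.Agent.DBA.pt x τ) *
        Ms δ Y (Pool.Agent.DBA.pt x' (τ + (u' - u)))‖ ^ 2) ≤ V := by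
    intro x u x' u' hx1 hx2 hu hx'1 hx'2 hu' Z hZ
    obtain ⟨l1, l2, l3, l4, l5, l6⟩ := hlog2 Z hZ
    have hy : |u' - u| ≤ U + U' := by
      have := abs_sub u' u
      linarith
    have hZX : X / 2 ≤ Z := by
      rcases hZ with h | h | h <;> linarith
    have hxr : 1 / 2 - 1 / Real.log (2 * Z) ≤ x := by
      have e1 : r ≤ 1 / Real.log (2 * Z) := by
        rw [hr]
        refine one_div_le_one_div_of_le l6 ?_
        linarith
      linarith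
    have hm := hM δ Y Z x x' (u' - u) l3 hδ hδ1 hY hYδ (hY20.trans hZX) hxr (by linarith) hx'1
      (by linarith) (by linarith)
    refine hm.trans ?_
    rw [hV]
    have hax : |x - 1 / 2| ≤ U := abs_le.2 ⟨by linarith, by linarith⟩
    have hax' : |x' - 1 / 2| ≤ U' := abs_le.2 ⟨by linarith, by linarith⟩
    have hsum : δ + |u' - u| + |x - 1 / 2| + |x' - 1 / 2| ≤ δ + 2 * U + 2 * U' := by linarith
    have hs0 : 0 ≤ δ + |u' - u| + |x - 1 / 2| + |x' - 1 / 2| := by positivity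
    have hbase : 1 + (δ + |u' - u| + |x - 1 / 2| + |x' - 1 / 2|) * Real.log Z ≤ 10 * P := by
      have e1 : (δ + |u' - u| + |x - 1 / 2| + |x' - 1 / 2|) * Real.log Z ≤
          (δ + 2 * U + 2 * U') * (2 * L) :=
        mul_le_mul hsum l2 l1 (by positivity)
      have e2 : (δ + 2 * U + 2 * U') * (2 * L) = 2 * (δ * L) + 4 * (R + 1) + 4 * (S + 1) := by
        rw [← hUL, ← hUL']
        ring
      rw [hP]
      linarith
    have hb0 : 0 ≤ 1 + (δ + |u' - u| + |x - 1 / 2| + |x' - 1 / 2|) * Real.log Z := by positivity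
    have hZ0 : 0 ≤ Z := by linarith
    have hpw := Real.rpow_le_rpow hb0 hbase hC₂.le
    gcongr
  have hton := ton (δ := δ) (Y := Y) (V := V) (X := X) (a := 1 / 2 - r) (b := 1 / 2 + U)
    (U := U) (a' := 1 / 2) (b' := 1 / 2 + U') (U' := U') (by linarith) (by linarith) hU0.le
    (by linarith) (by linarith) hU0'.le hmo
  have hMm : Measurable (Ms δ Y) := (diff_Ms δ Y).continuous.measurable
  set f : ℝ → ℝ≥0∞ := fun T =>
    (∫⁻ p in Icc (1 / 2 - r) (1 / 2 + U) ×ˢ Icc (-U) U,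
      ‖riemannZeta (Pool.Agent.DBA.pt p.1 (T + p.2))‖ₑ ^ 2) *
    (∫⁻ p in Icc (1 / 2) (1 / 2 + U') ×ˢ Icc (-U') U',
      ‖Ms δ Y (Pool.Agent.DBA.pt p.1 (T + p.2))‖ₑ ^ 2) with hf
  have hfm : Measurable f := (meas_T meas_zeta _).mul (meas_T hMm _)
  obtain ⟨e, he⟩ : ∃ e : ℝ, e = r ^ 4 * lam / C₁ ^ 2 := ⟨_, rfl⟩
  have he0 : 0 < e := by
    rw [he]
    positivity
  have hsub : {T : ℝ | X ≤ T ∧ T ≤ 2 * X ∧ ∃ w w' : ℂ, 0 ≤ w.re ∧ ‖w‖ ≤ R / L ∧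
      1 / L ≤ w'.re ∧ ‖w'‖ ≤ S / L ∧
      lam < ‖riemannZeta (1 / 2 + T * I + w) * Ms δ Y (1 / 2 + T * I + w')‖ ^ 2} ⊆
      {T : ℝ | ENNReal.ofReal e ≤ f T} ∩ Icc X (2 * X) := by
    rintro T ⟨hT1, hT2, w, w', hw1, hw2, hw3, hw4, hlt⟩
    refine ⟨?_, hT1, hT2⟩
    have es : 1 / 2 + T * I + w = Pool.Agent.DBA.pt (1 / 2 + w.re) (T + w.im) := by
      unfold Pool.Agent.DBA.pt
      apply Complex.ext <;> simp
    have es' : 1 / 2 + T * I + w' = Pool.Agent.DBA.pt (1 / 2 + w'.re) (T + w'.im) := by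
      unfold Pool.Agent.DBA.pt
      apply Complex.ext <;> simp
    rw [es, es'] at hlt
    have hwr := (abs_le.1 ((Complex.abs_re_le_norm w).trans hw2)).2
    have hwi := abs_le.1 ((Complex.abs_im_le_norm w).trans hw2)
    have hwr' := (abs_le.1 ((Complex.abs_re_le_norm w').trans hw4)).2
    have hwi' := abs_le.1 ((Complex.abs_im_le_norm w').trans hw4)
    rw [hRLe] at hwr hwi
    rw [hSLe] at hwr' hwi'
    rw [h1L] at hw3
    have k1 := dsc (f := riemannZeta) (T := T) (x := 1 / 2 + w.re) (y := w.im) (r := r)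
      (a := 1 / 2 - r) (b := 1 / 2 + U) (U := U) hC₁ hD meas_zeta hr0 (by
        intro s _ hs2
        refine differentiableAt_riemannZeta fun h3 => ?_
        have h4 := congrArg Complex.im h3
        simp at h4
        have h5 := abs_le.1 hs2
        linarith [h5.1, hwi.1]) (by linarith) (by linarith) (by linarith [hwi.1])
        (by linarith [hwi.2])
    have k2 := dsc (f := Ms δ Y) (T := T) (x := 1 / 2 + w'.re) (y := w'.im) (r := r)
      (a := 1 / 2) (b := 1 / 2 + U') (U := U') hC₁ hD hMm hr0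
      (fun s _ _ => (diff_Ms δ Y) _) (by linarith) (by linarith) (by linarith [hwi'.1])
      (by linarith [hwi'.2])
    have k3 : ENNReal.ofReal lam ≤
        ‖riemannZeta (Pool.Agent.DBA.pt (1 / 2 + w.re) (T + w.im))‖ₑ ^ 2 *
        ‖Ms δ Y (Pool.Agent.DBA.pt (1 / 2 + w'.re) (T + w'.im))‖ₑ ^ 2 := by
      rw [← mul_pow, ← enorm_mul, ← ofReal_norm, ← ENNReal.ofReal_pow (norm_nonneg _)]
      exact ENNReal.ofReal_le_ofReal hlt.le
    have k4 := mul_le_mul' k1 k2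
    show ENNReal.ofReal e ≤ f T
    have e1 : ENNReal.ofReal e = ENNReal.ofReal (1 / C₁ ^ 2) *
        (ENNReal.ofReal (r ^ 2) * ENNReal.ofReal (r ^ 2) * ENNReal.ofReal lam) := by
      rw [← ENNReal.ofReal_mul (by positivity), ← ENNReal.ofReal_mul (by positivity),
        ← ENNReal.ofReal_mul (by positivity), he]
      congr 1
      ring
    have e2 : ENNReal.ofReal (1 / C₁ ^ 2) * (ENNReal.ofReal C₁ * ENNReal.ofReal C₁) = 1 := by
      rw [← ENNReal.ofReal_mul hC₁.le, ← ENNReal.ofReal_mul (by positivity)]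
      have : 1 / C₁ ^ 2 * (C₁ * C₁) = 1 := by
        field_simp
      rw [this, ENNReal.ofReal_one]
    rw [e1]
    calc ENNReal.ofReal (1 / C₁ ^ 2) *
          (ENNReal.ofReal (r ^ 2) * ENNReal.ofReal (r ^ 2) * ENNReal.ofReal lam)
        ≤ ENNReal.ofReal (1 / C₁ ^ 2) *
          (ENNReal.ofReal (r ^ 2) * ENNReal.ofReal (r ^ 2) *
            (‖riemannZeta (Pool.Agent.DBA.pt (1 / 2 + w.re) (T + w.im))‖ₑ ^ 2 *
            ‖Ms δ Y (Pool.Agent.DBA.pt (1 / 2 + w'.re) (T + w'.im))‖ₑ ^ 2)) := by gcongr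
      _ = ENNReal.ofReal (1 / C₁ ^ 2) *
          ((ENNReal.ofReal (r ^ 2) *
            ‖riemannZeta (Pool.Agent.DBA.pt (1 / 2 + w.re) (T + w.im))‖ₑ ^ 2) *
          (ENNReal.ofReal (r ^ 2) *
            ‖Ms δ Y (Pool.Agent.DBA.pt (1 / 2 + w'.re) (T + w'.im))‖ₑ ^ 2)) := by ring
      _ ≤ ENNReal.ofReal (1 / C₁ ^ 2) * ((ENNReal.ofReal C₁ *
            ∫⁻ p in Icc (1 / 2 - r) (1 / 2 + U) ×ˢ Icc (-U) U,
              ‖riemannZeta (Pool.Agent.DBA.pt p.1 (T + p.2))‖ₑ ^ 2) *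
          (ENNReal.ofReal C₁ * ∫⁻ p in Icc (1 / 2) (1 / 2 + U') ×ˢ Icc (-U') U',
            ‖Ms δ Y (Pool.Agent.DBA.pt p.1 (T + p.2))‖ₑ ^ 2)) := by gcongr
      _ = ENNReal.ofReal (1 / C₁ ^ 2) * (ENNReal.ofReal C₁ * ENNReal.ofReal C₁) * f T := by
          rw [hf]
          ring
      _ = f T := by rw [e2, one_mul]
  refine (measure_mono hsub).trans ?_
  rw [← Measure.restrict_apply' measurableSet_Icc]
  refine (meas_ge_le_lintegral_div hfm.aemeasurable (by simpa using he0)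
    ENNReal.ofReal_ne_top).trans ?_
  refine (ENNReal.div_le_div_right hton _).trans ?_
  have hV0 : 0 ≤ V := by
    rw [hV]
    have : 0 < P := by linarith
    positivity
  have e3 : (3 : ℝ≥0∞) = ENNReal.ofReal 3 := by simp
  rw [e3, ← ENNReal.ofReal_mul (by norm_num), ← ENNReal.ofReal_mul (by positivity),
    ← ENNReal.ofReal_div_of_pos he0]
  refine ENNReal.ofReal_le_ofReal ?_
  rw [he]
  have hPR : R + 1 ≤ P := by
    rw [hP]
    linarith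
  have hPS : S + 1 ≤ P := by
    rw [hP]
    linarith
  have hfin := fin (C := C) (V := V)
    (vol := (1 / 2 + U - (1 / 2 - r)) * (2 * U) * ((1 / 2 + U' - 1 / 2) * (2 * U')))
    hC₁ hC₂ (le_max_left _ _) (le_max_right _ _) (by linarith : 0 < X) hL0 hR hS hPR hPS hr hlam
    hV (by
      rw [hU, hU', hr]
      ring)
  rw [hP] at hfin
  exact hfin

end Pool.Agent.DBS
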