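import Pool.Agent.DBS.Targets

/-!
# DBS: proof of the target CLO
-/

set_option autoImplicit false

namespace Pool.Agent.DBS

open Complex MeasureTheory Set Filter
open Pool.Agent.DBN Pool.Agent.DBC Pool.Agent.DBB
open scoped ENNReal

namespace CLO_

theorem Jf_pos (δ : ℝ) (hδ : 0 < δ) (r : ℕ) : 0 < Jf δ r := by
  unfold Jf
  refine Finset.prod_pos fun p hp => ?_
  have hp' := Nat.prime_of_mem_primeFactors hp
  have h2 : (1 : ℝ) < p := by exact_mod_cast hp'.one_lt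
  have := Real.one_lt_rpow h2 (by linarith : 0 < 1 + δ)
  linarith

theorem zf_zero (δ : ℝ) (Y r : ℕ) (hr : ¬ Squarefree r) : zf δ Y r = 0 := by
  unfold zf
  rw [ArithmeticFunction.moebius_eq_zero_of_not_squarefree hr]
  simp

theorem la_zero (δ : ℝ) (Y k : ℕ) (hk : ¬ Squarefree k) : la δ Y k = 0 := by
  unfold la
  rw [Finset.sum_eq_zero, mul_zero]
  intro r hr
  rw [zf_zero, mul_zero]
  intro hs
  exact hk (Squarefree.squarefree_of_dvd (Finset.mem_filter.1 hr).2 hs)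

theorem pow_sum (δ : ℝ) (g : ℕ) (hg : Squarefree g) :
    ∑ q ∈ g.divisors, Jf δ q = (g : ℝ) ^ (1 + δ) := by
  have hF := ArithmeticFunction.IsMultiplicative.prodPrimeFactors
    (fun p : ℕ => (p : ℝ) ^ (1 + δ) - 1)
  have h1 := hF.prodPrimeFactors_one_add_of_squarefree hg
  have h2 : ∀ q ∈ g.divisors, Jf δ q =
      ArithmeticFunction.prodPrimeFactors (fun p : ℕ => (p : ℝ) ^ (1 + δ) - 1) q := by
    intro q hq
    have hq0 : q ≠ 0 := (Nat.pos_of_mem_divisors hq).ne'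
    rw [ArithmeticFunction.prodPrimeFactors_apply hq0]
    rfl
  rw [Finset.sum_congr rfl h2, ← h1]
  have h3 : ∀ p ∈ g.primeFactors,
      1 + ArithmeticFunction.prodPrimeFactors (fun p : ℕ => (p : ℝ) ^ (1 + δ) - 1) p =
        (p : ℝ) ^ (1 + δ) := by
    intro p hp
    have hp' := Nat.prime_of_mem_primeFactors hp
    rw [ArithmeticFunction.prodPrimeFactors_apply hp'.ne_zero, Nat.Prime.primeFactors hp',
      Finset.prod_singleton]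
    ring
  rw [Finset.prod_congr rfl h3, Real.finsetProd_rpow _ _ (fun i _ => Nat.cast_nonneg i),
    ← Nat.cast_prod, Nat.prod_primeFactors_of_squarefree hg]

theorem gcd_sum (δ : ℝ) (Y : ℕ) (x : ℕ → ℝ) (hx : ∀ k, ¬ Squarefree k → x k = 0)
    (k l : ℕ) (hk : k ∈ Finset.Icc 1 Y) :
    x k * x l * ((Nat.gcd k l : ℕ) : ℝ) ^ (1 + δ) =
      ∑ q ∈ Finset.Icc 1 Y, Jf δ q * ((if q ∣ k then x k else 0) * (if q ∣ l then x l else 0)) := by
  by_cases hks : Squarefree k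
  · have hg : Squarefree (Nat.gcd k l) :=
      Squarefree.squarefree_of_dvd (Nat.gcd_dvd_left k l) hks
    rw [← pow_sum δ _ hg, Finset.mul_sum]
    have hk' := Finset.mem_Icc.1 hk
    have hd : (Nat.gcd k l).divisors = (Finset.Icc 1 Y).filter (fun q => q ∣ k ∧ q ∣ l) := by
      ext q
      rw [Nat.mem_divisors, Finset.mem_filter, Finset.mem_Icc, Nat.dvd_gcd_iff]
      constructor
      · rintro ⟨⟨h1, h2⟩, h3⟩
        exact ⟨⟨Nat.pos_of_dvd_of_pos h1 (by omega), (Nat.le_of_dvd (by omega) h1).trans hk'.2⟩,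
          h1, h2⟩
      · rintro ⟨_, h1, h2⟩
        exact ⟨⟨h1, h2⟩, (Nat.gcd_pos_of_pos_left l (by omega)).ne'⟩
    rw [hd, Finset.sum_filter]
    refine Finset.sum_congr rfl fun q _ => ?_
    by_cases h1 : q ∣ k <;> by_cases h2 : q ∣ l <;> (simp [h1, h2]; try ring)
  · rw [hx k hks]
    simp

theorem quad (δ : ℝ) (Y : ℕ) (x : ℕ → ℝ) (hx : ∀ k, ¬ Squarefree k → x k = 0) :
    ∑ k ∈ Finset.Icc 1 Y, ∑ l ∈ Finset.Icc 1 Y, x k * x l * ((Nat.gcd k l : ℕ) : ℝ) ^ (1 + δ) =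
      ∑ q ∈ Finset.Icc 1 Y, Jf δ q *
        (∑ k ∈ (Finset.Icc 1 Y).filter (fun k => q ∣ k), x k) ^ 2 := by
  have h1 : ∀ k ∈ Finset.Icc 1 Y, ∑ l ∈ Finset.Icc 1 Y,
      x k * x l * ((Nat.gcd k l : ℕ) : ℝ) ^ (1 + δ) = ∑ q ∈ Finset.Icc 1 Y, ∑ l ∈ Finset.Icc 1 Y,
        Jf δ q * ((if q ∣ k then x k else 0) * (if q ∣ l then x l else 0)) := by
    intro k hk
    rw [Finset.sum_comm]
    exact Finset.sum_congr rfl fun l _ => gcd_sum δ Y x hx k l hk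
  rw [Finset.sum_congr rfl h1, Finset.sum_comm]
  refine Finset.sum_congr rfl fun q _ => ?_
  rw [sq, Finset.sum_filter, Finset.sum_mul_sum, Finset.mul_sum]
  refine Finset.sum_congr rfl fun k _ => ?_
  rw [Finset.mul_sum]

theorem hasSum_mult (δ : ℝ) (hδ : 0 < δ) (m : ℕ) (hm : 1 ≤ m) :
    HasSum (fun n : ℕ => if m ∣ n then (n : ℝ) ^ (-(1 + δ)) else 0)
      ((m : ℝ) ^ (-(1 + δ)) * ∑' n : ℕ, (n : ℝ) ^ (-(1 + δ))) := by
  have hs : Summable (fun n : ℕ => (n : ℝ) ^ (-(1 + δ))) :=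
    Real.summable_nat_rpow.2 (by linarith)
  have h1 := hs.hasSum.mul_left ((m : ℝ) ^ (-(1 + δ)))
  have hinj : Function.Injective (fun n : ℕ => m * n) := fun a b hab =>
    Nat.eq_of_mul_eq_mul_left (by omega) hab
  refine (hinj.hasSum_iff ?_).1 ?_
  · intro n hn
    rw [if_neg]
    rintro ⟨c, hc⟩
    exact hn ⟨c, hc.symm⟩
  · have h2 : ((fun n : ℕ => if m ∣ n then (n : ℝ) ^ (-(1 + δ)) else 0) ∘ fun n : ℕ => m * n) =
        fun n : ℕ => (m : ℝ) ^ (-(1 + δ)) * (n : ℝ) ^ (-(1 + δ)) := by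
      funext n
      simp only [Function.comp]
      rw [if_pos (Dvd.intro n rfl), Nat.cast_mul,
        Real.mul_rpow (Nat.cast_nonneg m) (Nat.cast_nonneg n)]
    rw [h2]
    exact h1

/-- the square of a divisor sum -/
theorem sq_term (δ : ℝ) (Y n : ℕ) (c : ℕ → ℝ) :
    (∑ k ∈ (Finset.Icc 1 Y).filter (fun k => k ∣ n), c k) ^ 2 * (n : ℝ) ^ (-(1 + δ)) =
      ∑ k ∈ Finset.Icc 1 Y, ∑ l ∈ Finset.Icc 1 Y,
        c k * c l * (if Nat.lcm k l ∣ n then (n : ℝ) ^ (-(1 + δ)) else 0) := by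
  rw [sq, Finset.sum_filter, Finset.sum_mul_sum, Finset.sum_mul]
  refine Finset.sum_congr rfl fun k _ => ?_
  rw [Finset.sum_mul]
  refine Finset.sum_congr rfl fun l _ => ?_
  by_cases h1 : k ∣ n
  · by_cases h2 : l ∣ n
    · rw [if_pos h1, if_pos h2, if_pos (Nat.lcm_dvd h1 h2)]
    · rw [if_pos h1, if_neg h2, if_neg (fun h => h2 ((Nat.dvd_lcm_right k l).trans h))]
      ring
  · rw [if_neg h1, if_neg (fun h => h1 ((Nat.dvd_lcm_left k l).trans h))]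
    ring

theorem lcm_rpow (δ : ℝ) (k l : ℕ) (hk : 1 ≤ k) :
    ((Nat.lcm k l : ℕ) : ℝ) ^ (-(1 + δ)) =
      (k : ℝ) ^ (-(1 + δ)) * (l : ℝ) ^ (-(1 + δ)) * ((Nat.gcd k l : ℕ) : ℝ) ^ (1 + δ) := by
  have hg : 0 < Nat.gcd k l := Nat.gcd_pos_of_pos_left l (by omega)
  have hg' : (0 : ℝ) < (Nat.gcd k l : ℕ) := by exact_mod_cast hg
  have h1 : ((Nat.gcd k l : ℕ) : ℝ) * ((Nat.lcm k l : ℕ) : ℝ) = (k : ℝ) * l := by
    exact_mod_cast Nat.gcd_mul_lcm k l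
  have h2 : ((Nat.gcd k l : ℕ) : ℝ) ^ (-(1 + δ)) * ((Nat.lcm k l : ℕ) : ℝ) ^ (-(1 + δ)) =
      (k : ℝ) ^ (-(1 + δ)) * (l : ℝ) ^ (-(1 + δ)) := by
    rw [← Real.mul_rpow hg'.le (Nat.cast_nonneg _), h1,
      Real.mul_rpow (Nat.cast_nonneg k) (Nat.cast_nonneg l)]
  rw [← h2]
  have h3 : ((Nat.gcd k l : ℕ) : ℝ) ^ (-(1 + δ)) * ((Nat.gcd k l : ℕ) : ℝ) ^ (1 + δ) = 1 := by
    rw [← Real.rpow_add hg']
    simp
  calc ((Nat.lcm k l : ℕ) : ℝ) ^ (-(1 + δ)) = (((Nat.gcd k l : ℕ) : ℝ) ^ (-(1 + δ)) *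
        ((Nat.gcd k l : ℕ) : ℝ) ^ (1 + δ)) * ((Nat.lcm k l : ℕ) : ℝ) ^ (-(1 + δ)) := by
        rw [h3, one_mul]
    _ = _ := by ring

/-- INV with `w = 0` -/
theorem y_eq (hI : T_INV) (δ : ℝ) (hδ : 0 < δ) (Y q : ℕ) (hq : q ∈ Finset.Icc 1 Y) :
    ∑ k ∈ (Finset.Icc 1 Y).filter (fun k => q ∣ k), la δ Y k * (k : ℝ) ^ (-(1 + δ)) =
      zf δ Y q := by
  have hq' := Finset.mem_Icc.1 hq
  have h := hI δ Y q 0 hδ hq'.1
  have h1 : ∑ k ∈ (Finset.Icc 1 Y).filter (fun k => q ∣ k),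
      (la δ Y k : ℂ) * (k : ℂ) ^ ((0 : ℂ) - (1 + (δ : ℂ))) =
      ((∑ k ∈ (Finset.Icc 1 Y).filter (fun k => q ∣ k), la δ Y k * (k : ℝ) ^ (-(1 + δ)) : ℝ) :
        ℂ) := by
    rw [Complex.ofReal_sum]
    refine Finset.sum_congr rfl fun k _ => ?_
    rw [Complex.ofReal_mul, Complex.ofReal_cpow (Nat.cast_nonneg k)]
    push_cast
    rw [zero_sub]
  have h2 : ∑ r ∈ (Finset.Icc 1 Y).filter (fun r => q ∣ r), (zf δ Y r : ℂ) *
      ((q : ℂ) ^ (0 : ℂ) * ∏ p ∈ (r / q).primeFactors, ((p : ℂ) ^ (0 : ℂ) - 1)) =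
      (zf δ Y q : ℂ) := by
    rw [Finset.sum_eq_single q]
    · rw [Nat.div_self (by omega)]
      simp
    · intro r hr hrq
      obtain ⟨hr1, c, hc⟩ := Finset.mem_filter.1 hr
      have hr2 := Finset.mem_Icc.1 hr1
      have hc2 : 2 ≤ c := by
        rcases Nat.lt_or_ge c 2 with h3 | h3
        · interval_cases c
          · omega
          · exact absurd (by rw [hc, mul_one]) hrq
        · exact h3
      have h4 : r / q = c := by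
        rw [hc]
        exact Nat.mul_div_cancel_left c (by omega)
      rw [h4]
      obtain ⟨p, hp, hpc⟩ := Nat.exists_prime_and_dvd (by omega : c ≠ 1)
      rw [Finset.prod_eq_zero (i := p) (Nat.mem_primeFactors.2 ⟨hp, hpc, by omega⟩)]
      · simp
      · simp
    · intro h3
      exact absurd (Finset.mem_filter.2 ⟨hq, dvd_rfl⟩) h3
  rw [h1, h2] at h
  exact_mod_cast h

theorem Gf_sum (δ : ℝ) (hδ : 0 < δ) (Y : ℕ) (hG : 0 < Gf δ Y) :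
    ∑ q ∈ Finset.Icc 1 Y, Jf δ q * zf δ Y q ^ 2 = 1 / Gf δ Y := by
  have h1 : ∀ q ∈ Finset.Icc 1 Y, Jf δ q * zf δ Y q ^ 2 =
      ((ArithmeticFunction.moebius q : ℤ) : ℝ) ^ 2 / Jf δ q * (1 / Gf δ Y ^ 2) := by
    intro q _
    have h2 := (Jf_pos δ hδ q).ne'
    have h3 := hG.ne'
    unfold zf
    field_simp
  rw [Finset.sum_congr rfl h1, ← Finset.sum_mul]
  have h4 : ∑ q ∈ Finset.Icc 1 Y, ((ArithmeticFunction.moebius q : ℤ) : ℝ) ^ 2 / Jf δ q =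
      Gf δ Y := rfl
  rw [h4]
  have h3 := hG.ne'
  field_simp

/-- one step of the telescope -/
theorem step (δ : ℝ) (hδ : 0 < δ) (n : ℕ) (hn : 1 ≤ n) :
    ((n + 1 : ℕ) : ℝ) ^ (-(1 + δ)) ≤ ((n : ℝ) ^ (-δ) - ((n + 1 : ℕ) : ℝ) ^ (-δ)) / δ := by
  have hn0 : (0 : ℝ) < n := by exact_mod_cast hn
  have hn1 : (0 : ℝ) < ((n + 1 : ℕ) : ℝ) := by positivity
  have h1 : (n : ℝ) ^ (-δ) = ((n + 1 : ℕ) : ℝ) ^ (-δ) * ((n : ℝ) / ((n + 1 : ℕ) : ℝ)) ^ (-δ) := by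
    rw [← Real.mul_rpow hn1.le (by positivity)]
    congr 1
    field_simp
  have h2 : 1 + δ / ((n + 1 : ℕ) : ℝ) ≤ ((n : ℝ) / ((n + 1 : ℕ) : ℝ)) ^ (-δ) := by
    rw [Real.rpow_def_of_pos (by positivity)]
    have h3 : Real.log ((n : ℝ) / ((n + 1 : ℕ) : ℝ)) ≤ (n : ℝ) / ((n + 1 : ℕ) : ℝ) - 1 :=
      Real.log_le_sub_one_of_pos (by positivity)
    have h4 : (n : ℝ) / ((n + 1 : ℕ) : ℝ) - 1 = -(1 / ((n + 1 : ℕ) : ℝ)) := by
      field_simp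
      push_cast
      ring
    rw [h4] at h3
    have h5 := Real.add_one_le_exp (Real.log ((n : ℝ) / ((n + 1 : ℕ) : ℝ)) * -δ)
    have h6 : δ / ((n + 1 : ℕ) : ℝ) ≤ Real.log ((n : ℝ) / ((n + 1 : ℕ) : ℝ)) * -δ := by
      have := mul_le_mul_of_nonneg_right h3 hδ.le
      have h7 : -(1 / ((n + 1 : ℕ) : ℝ)) * δ = -(δ / ((n + 1 : ℕ) : ℝ)) := by ring
      rw [h7] at this
      linarith
    linarith
  rw [le_div_iff₀ hδ, h1]
  have h8 : ((n + 1 : ℕ) : ℝ) ^ (-(1 + δ)) =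
      ((n + 1 : ℕ) : ℝ) ^ (-δ) * (1 / ((n + 1 : ℕ) : ℝ)) := by
    rw [show -(1 + δ) = -δ + (-1) by ring, Real.rpow_add hn1, Real.rpow_neg_one, one_div]
  rw [h8]
  have h9 : (0 : ℝ) < ((n + 1 : ℕ) : ℝ) ^ (-δ) := Real.rpow_pos_of_pos hn1 _
  have h10 := mul_le_mul_of_nonneg_left h2 h9.le
  have h11 : ((n + 1 : ℕ) : ℝ) ^ (-δ) * (1 + δ / ((n + 1 : ℕ) : ℝ)) = ((n + 1 : ℕ) : ℝ) ^ (-δ) +
      ((n + 1 : ℕ) : ℝ) ^ (-δ) * (1 / ((n + 1 : ℕ) : ℝ)) * δ := by ring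
  rw [h11] at h10
  linarith

theorem tail (δ : ℝ) (hδ : 0 < δ) (Y : ℕ) (hY : 1 ≤ Y) (M : ℕ) :
    ∑ n ∈ Finset.range M, (n : ℝ) ^ (-(1 + δ)) ≤
      ∑ n ∈ Finset.Icc 1 Y, (n : ℝ) ^ (-(1 + δ)) + (Y : ℝ) ^ (-δ) / δ := by
  have h0 : (0 : ℝ) ^ (-(1 + δ)) = 0 := Real.zero_rpow (by linarith)
  have hnn : ∀ n : ℕ, 0 ≤ (n : ℝ) ^ (-(1 + δ)) := fun n => Real.rpow_nonneg (Nat.cast_nonneg n) _
  have hstep : ∀ j : ℕ, ∑ n ∈ Finset.range (Y + 1 + j), (n : ℝ) ^ (-(1 + δ)) ≤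
      ∑ n ∈ Finset.Icc 1 Y, (n : ℝ) ^ (-(1 + δ)) +
        ((Y : ℝ) ^ (-δ) - ((Y + j : ℕ) : ℝ) ^ (-δ)) / δ := by
    intro j
    induction j with
    | zero =>
      rw [add_zero, add_zero, sub_self, zero_div, add_zero, Finset.sum_range_succ',
        Nat.cast_zero, h0, add_zero]
      refine le_of_eq ?_
      rw [Finset.sum_bij (fun n _ => n + 1)]
      · intro n hn
        exact Finset.mem_Icc.2 ⟨by omega, by have := Finset.mem_range.1 hn; omega⟩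
      · intro a _ b _ hab
        exact Nat.succ_injective hab
      · intro b hb
        have := Finset.mem_Icc.1 hb
        exact ⟨b - 1, Finset.mem_range.2 (by omega), by omega⟩
      · intro n _
        rfl
    | succ j ih =>
      rw [← add_assoc, Finset.sum_range_succ]
      have h1 := step δ hδ (Y + j) (by omega)
      have e1 : Y + 1 + j = Y + j + 1 := by omega
      have e2 : Y + (j + 1) = Y + j + 1 := by omega
      rw [e1] at ih ⊢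
      rw [e2]
      have e3 : ((Y : ℝ) ^ (-δ) - ((Y + j + 1 : ℕ) : ℝ) ^ (-δ)) / δ =
          ((Y : ℝ) ^ (-δ) - ((Y + j : ℕ) : ℝ) ^ (-δ)) / δ +
          (((Y + j : ℕ) : ℝ) ^ (-δ) - ((Y + j + 1 : ℕ) : ℝ) ^ (-δ)) / δ := by ring
      rw [e3]
      linarith
  have h2 : ∑ n ∈ Finset.range M, (n : ℝ) ^ (-(1 + δ)) ≤
      ∑ n ∈ Finset.range (Y + 1 + M), (n : ℝ) ^ (-(1 + δ)) :=
    Finset.sum_le_sum_of_subset_of_nonneg (Finset.range_mono (by omega)) fun n _ _ => hnn n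
  refine (h2.trans (hstep M)).trans ?_
  have h3 : 0 ≤ ((Y + M : ℕ) : ℝ) ^ (-δ) := Real.rpow_nonneg (Nat.cast_nonneg _) _
  have h4 : ((Y : ℝ) ^ (-δ) - ((Y + M : ℕ) : ℝ) ^ (-δ)) / δ ≤ (Y : ℝ) ^ (-δ) / δ :=
    div_le_div_of_nonneg_right (by linarith) hδ.le
  linarith

end CLO_

/-- the target CLO -/
theorem p_CLO (h1 : T_LA1) (h2 : T_INV) (h3 : T_GLB) : T_CLO := by
  intro δ Y N hδ hY hYδ
  set s : ℝ := -(1 + δ) with hs
  set Z : ℝ := ∑' n : ℕ, (n : ℝ) ^ s with hZ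
  obtain ⟨hG1, hG2⟩ := h3 δ Y hδ hY
  have hY0 : (0 : ℝ) < Y := by exact_mod_cast hY
  have hYn : (Y : ℝ) ^ (-δ) ≤ 1 / 2 := by
    rw [Real.rpow_neg hY0.le]
    rw [inv_le_comm₀ (by positivity) (by norm_num)]
    simpa using hYδ
  have hYp : 0 < (Y : ℝ) ^ (-δ) := Real.rpow_pos_of_pos hY0 _
  have hδG : 1 / 2 ≤ δ * Gf δ Y := by
    have e1 : (1 - (Y : ℝ) ^ (-δ)) / δ ≤ Gf δ Y := hG2.trans hG1
    rw [div_le_iff₀ hδ] at e1
    linarith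
  have hG : 0 < Gf δ Y := by
    by_contra h
    have := mul_nonpos_of_nonneg_of_nonpos hδ.le (not_lt.1 h)
    linarith
  -- the exact formula
  set a : ℕ → ℝ := fun n => ∑ k ∈ (Finset.Icc 1 Y).filter (fun k => k ∣ n), la δ Y k with ha
  have hsum : HasSum (fun n : ℕ => a n ^ 2 * (n : ℝ) ^ s) (Z / Gf δ Y) := by
    have e1 : HasSum (fun n : ℕ => ∑ k ∈ Finset.Icc 1 Y, ∑ l ∈ Finset.Icc 1 Y,
        la δ Y k * la δ Y l * (if Nat.lcm k l ∣ n then (n : ℝ) ^ s else 0))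
        (∑ k ∈ Finset.Icc 1 Y, ∑ l ∈ Finset.Icc 1 Y,
          la δ Y k * la δ Y l * (((Nat.lcm k l : ℕ) : ℝ) ^ s * Z)) := by
      refine hasSum_sum fun k hk => hasSum_sum fun l hl => ?_
      refine HasSum.mul_left _ (CLO_.hasSum_mult δ hδ _ ?_)
      have hk' := (Finset.mem_Icc.1 hk).1
      have hl' := (Finset.mem_Icc.1 hl).1
      exact Nat.lcm_pos (by omega) (by omega)
    have e2 : (fun n : ℕ => a n ^ 2 * (n : ℝ) ^ s) = fun n : ℕ => ∑ k ∈ Finset.Icc 1 Y,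
        ∑ l ∈ Finset.Icc 1 Y,
          la δ Y k * la δ Y l * (if Nat.lcm k l ∣ n then (n : ℝ) ^ s else 0) := by
      funext n
      exact CLO_.sq_term δ Y n (la δ Y)
    rw [e2]
    have e3 : ∑ k ∈ Finset.Icc 1 Y, ∑ l ∈ Finset.Icc 1 Y,
        la δ Y k * la δ Y l * (((Nat.lcm k l : ℕ) : ℝ) ^ s * Z) = Z / Gf δ Y := by
      have e4 : ∀ k ∈ Finset.Icc 1 Y, ∀ l ∈ Finset.Icc 1 Y,
          la δ Y k * la δ Y l * (((Nat.lcm k l : ℕ) : ℝ) ^ s * Z) =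
          Z * ((la δ Y k * (k : ℝ) ^ s) * (la δ Y l * (l : ℝ) ^ s) *
            ((Nat.gcd k l : ℕ) : ℝ) ^ (1 + δ)) := by
        intro k hk l hl
        rw [hs, CLO_.lcm_rpow δ k l (Finset.mem_Icc.1 hk).1]
        ring
      rw [Finset.sum_congr rfl fun k hk => Finset.sum_congr rfl (e4 k hk)]
      have e5 : ∑ k ∈ Finset.Icc 1 Y, ∑ l ∈ Finset.Icc 1 Y,
          Z * ((la δ Y k * (k : ℝ) ^ s) * (la δ Y l * (l : ℝ) ^ s) *
            ((Nat.gcd k l : ℕ) : ℝ) ^ (1 + δ)) =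
          Z * ∑ k ∈ Finset.Icc 1 Y, ∑ l ∈ Finset.Icc 1 Y,
            ((la δ Y k * (k : ℝ) ^ s) * (la δ Y l * (l : ℝ) ^ s) *
            ((Nat.gcd k l : ℕ) : ℝ) ^ (1 + δ)) := by
        rw [Finset.mul_sum]
        refine Finset.sum_congr rfl fun k _ => ?_
        rw [Finset.mul_sum]
      rw [e5, CLO_.quad δ Y (fun k => la δ Y k * (k : ℝ) ^ s) (fun k hk => by
        show la δ Y k * (k : ℝ) ^ s = 0
        rw [CLO_.la_zero δ Y k hk, zero_mul])]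
      have e6 : ∀ q ∈ Finset.Icc 1 Y, Jf δ q *
          (∑ k ∈ (Finset.Icc 1 Y).filter (fun k => q ∣ k), la δ Y k * (k : ℝ) ^ s) ^ 2 =
          Jf δ q * zf δ Y q ^ 2 := by
        intro q hq
        rw [hs, CLO_.y_eq h2 δ hδ Y q hq]
      rw [Finset.sum_congr rfl e6, CLO_.Gf_sum δ hδ Y hG, mul_one_div]
    rw [← e3]
    exact e1
  -- the bound for `Z`
  have hZle : Z ≤ Gf δ Y + (Y : ℝ) ^ (-δ) / δ := by
    refine Real.tsum_le_of_sum_range_le (fun n => Real.rpow_nonneg (Nat.cast_nonneg n) _)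
      fun M => ?_
    exact (CLO_.tail δ hδ Y hY M).trans (by linarith)
  have hZG : Z / Gf δ Y ≤ 1 + 2 * (Y : ℝ) ^ (-δ) := by
    rw [div_le_iff₀ hG]
    refine hZle.trans ?_
    have e1 : (Y : ℝ) ^ (-δ) / δ ≤ 2 * (Y : ℝ) ^ (-δ) * Gf δ Y := by
      rw [div_le_iff₀ hδ]
      have := mul_le_mul_of_nonneg_left hδG hYp.le
      linarith
    linarith
  -- the finite sum
  have hfin : ∑ n ∈ insert 1 (Finset.Icc 2 N), a n ^ 2 * (n : ℝ) ^ s ≤ Z / Gf δ Y :=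
    sum_le_hasSum _ (fun n _ => mul_nonneg (sq_nonneg _)
      (Real.rpow_nonneg (Nat.cast_nonneg n) _)) hsum
  rw [Finset.sum_insert (fun h => by have := Finset.mem_Icc.1 h; omega)] at hfin
  have ha1 : a 1 = 1 := by
    have e1 : (Finset.Icc 1 Y).filter (fun k => k ∣ 1) = {1} := by
      ext k
      rw [Finset.mem_filter, Finset.mem_Icc, Finset.mem_singleton, Nat.dvd_one]
      constructor
      · exact fun h => h.2
      · rintro rfl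
        exact ⟨⟨le_rfl, hY⟩, rfl⟩
    show ∑ k ∈ (Finset.Icc 1 Y).filter (fun k => k ∣ 1), la δ Y k = 1
    rw [e1, Finset.sum_singleton]
    exact (h1 δ Y hδ hY).1
  rw [ha1, Nat.cast_one, Real.one_rpow] at hfin
  have hterm : ∀ n ∈ Finset.Icc 2 N, ‖al (fun k => (la δ Y k : ℂ)) Y n‖ ^ 2 * (n : ℝ) ^ s =
      a n ^ 2 * (n : ℝ) ^ s := by
    intro n _
    have e1 : al (fun k => (la δ Y k : ℂ)) Y n = ((a n : ℝ) : ℂ) := by
      show ∑ k ∈ (Finset.Icc 1 Y).filter (fun k => k ∣ n), (la δ Y k : ℂ) = _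
      rw [ha, Complex.ofReal_sum]
    rw [e1, Complex.norm_real, Real.norm_eq_abs, sq_abs]
  rw [Finset.sum_congr rfl hterm]
  linarith

end Pool.Agent.DBS
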