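import Pool.Agent.DBS.Targets

/-!
# DBS, block CLS: the mean square of `ζ Ms - 1` to the right of the critical line
-/

set_option autoImplicit false

namespace Pool.Agent.DBS

open Complex MeasureTheory Set Filter
open Pool.Agent.DBN Pool.Agent.DBC Pool.Agent.DBB
open scoped ENNReal

namespace CLS_

lemma pow_exp {a u : ℝ} (ha : 1 ≤ a) (hu : 0 ≤ u) :
    (1 + u) ^ a ≤ (2 * a) ^ a * Real.exp (u / 2) := by
  have ha0 : 0 < a := by linarith
  have h1 : 1 + u ≤ 2 * a * Real.exp (u / (2 * a)) := by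
    have h2 := Real.add_one_le_exp (u / (2 * a))
    have h3 : 2 * a * (u / (2 * a) + 1) ≤ 2 * a * Real.exp (u / (2 * a)) :=
      mul_le_mul_of_nonneg_left h2 (by linarith)
    have h4 : 2 * a * (u / (2 * a) + 1) = u + 2 * a := by field_simp
    linarith
  have h5 := Real.rpow_le_rpow (by linarith) h1 ha0.le
  rw [Real.mul_rpow (by linarith) (Real.exp_pos _).le, ← Real.exp_mul] at h5
  have h6 : u / (2 * a) * a = u / 2 := by field_simp
  rwa [h6] at h5

lemma cv_zero (δ : ℝ) (Y : ℕ) : cv δ Y 0 = fun k => (la δ Y k : ℂ) := by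
  funext k
  unfold cv
  rw [Complex.cpow_zero, mul_one]

end CLS_

open CLS_ in
theorem p_CLS (h1 : T_GMS) (h2 : T_LA1) (h3 : T_CLO) (h4 : T_SSB) : T_CLS := by
  obtain ⟨C₁, hC₁, hG⟩ := h1
  obtain ⟨C₂, hC₂, hS⟩ := h4
  refine ⟨C₁ * (2 + 4 * C₂ * (2 * (C₂ + 2)) ^ (C₂ + 2) + 1), by positivity, ?_⟩
  intro δ Y X σ hδ hδ1 hY hYδ hX hYX hσ hσ2
  have hY1 : 1 ≤ Y := by omega
  have hYr : (1 : ℝ) ≤ Y := by exact_mod_cast hY1
  have hY0 : (0 : ℝ) < Y := by linarith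
  have hX0 : 0 < X := by linarith
  obtain ⟨hla1, hla⟩ := h2 δ Y hδ hY1
  have hσ1 : 1 / 2 ≤ σ := by linarith
  have hc1 : ((la δ Y 1 : ℝ) : ℂ) = 1 := by rw [hla1, Complex.ofReal_one]
  have hck : ∀ k : ℕ, 1 ≤ k → k ≤ Y → ‖((la δ Y k : ℝ) : ℂ)‖ ≤ (Y : ℝ) ^ 3 := by
    intro k hk hkY
    rw [Complex.norm_real, Real.norm_eq_abs]
    refine (hla k hk).trans ?_
    have hkr : (1 : ℝ) ≤ k := by exact_mod_cast hk
    have hkY' : (k : ℝ) ≤ Y := by exact_mod_cast hkY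
    calc (k : ℝ) ^ (1 + δ) ≤ (k : ℝ) ^ ((3 : ℕ) : ℝ) :=
          Real.rpow_le_rpow_of_exponent_le hkr (by push_cast; linarith)
      _ ≤ (Y : ℝ) ^ ((3 : ℕ) : ℝ) := Real.rpow_le_rpow (by linarith) hkY' (by positivity)
      _ = (Y : ℝ) ^ 3 := Real.rpow_natCast _ _
  have hGM := hG (fun k => ((la δ Y k : ℝ) : ℂ)) Y X σ hY1 (by linarith) hYX hσ1 hσ2 hck
  beta_reduce at hGM
  rw [hc1] at hGM
  refine le_trans hGM ?_
  -- logarithms
  have hL1 : 1 ≤ Real.log X := by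
    rw [Real.le_log_iff_exp_le hX0]
    have := Real.exp_one_lt_three
    linarith
  have hLY : 20 * Real.log Y ≤ Real.log X := by
    have h5 := Real.log_le_log (by positivity) hYX
    rw [Real.log_pow] at h5
    exact_mod_cast h5
  have hLY0 : 0 ≤ Real.log Y := Real.log_nonneg hYr
  set L := Real.log X with hL
  have hYe : (Y : ℝ) ^ (-δ) = Real.exp (Real.log Y * (-δ)) := Real.rpow_def_of_pos hY0 _
  have hYp : 0 < (Y : ℝ) ^ (-δ) := Real.rpow_pos_of_pos hY0 _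
  -- the first sum
  have hD : ∑ n ∈ Finset.Icc 2 ⌊2 * X⌋₊, ‖al (fun k => ((la δ Y k : ℝ) : ℂ)) Y n‖ ^ 2 *
      (n : ℝ) ^ (-(2 * σ)) ≤ 2 * (Y : ℝ) ^ (-δ) := by
    refine le_trans (Finset.sum_le_sum fun n hn => ?_) (h3 δ Y ⌊2 * X⌋₊ hδ hY1 hYδ)
    have hn2 : (1 : ℝ) ≤ n := by
      have : 2 ≤ n := (Finset.mem_Icc.mp hn).1
      have h6 : (2 : ℝ) ≤ n := by exact_mod_cast this
      linarith
    exact mul_le_mul_of_nonneg_left
      (Real.rpow_le_rpow_of_exponent_le hn2 (by linarith)) (by positivity)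
  -- the second term
  have hu : 0 ≤ δ * L := by positivity
  have hSS : SS (fun k => ((la δ Y k : ℝ) : ℂ)) Y 0 ≤
      C₂ * δ ^ 2 * (2 * L) * (1 + δ * L) ^ C₂ := by
    have h7 := hS δ Y 0 0 hδ hδ1 hY hYδ le_rfl (by simp)
    rw [cv_zero, norm_zero, zero_add, add_zero] at h7
    refine h7.trans ?_
    have h8 : (1 + δ * Real.log Y) ^ C₂ ≤ (1 + δ * L) ^ C₂ := by
      apply Real.rpow_le_rpow (by positivity) _ hC₂.le
      have : δ * Real.log Y ≤ δ * L := mul_le_mul_of_nonneg_left (by linarith) hδ.le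
      linarith
    have h9 : 1 + Real.log Y ≤ 2 * L := by linarith
    have h10 : 0 ≤ (1 + δ * Real.log Y) ^ C₂ := by positivity
    exact mul_le_mul (mul_le_mul_of_nonneg_left h9 (by positivity)) h8 h10 (by positivity)
  have hXe : X ^ (-δ) = Real.exp (-(δ * L)) := by
    rw [Real.rpow_def_of_pos hX0, ← hL]
    congr 1
    ring
  have hX1 : X ^ (-(2 * σ - 1)) ≤ X ^ (-δ) :=
    Real.rpow_le_rpow_of_exponent_le (by linarith) (by linarith)
  have hSS0 : 0 ≤ SS (fun k => ((la δ Y k : ℝ) : ℂ)) Y 0 := by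
    unfold SS
    exact Finset.sum_nonneg fun q _ => by positivity
  have hT : X ^ (-(2 * σ - 1)) * (1 + L) * SS (fun k => ((la δ Y k : ℝ) : ℂ)) Y 0 ≤
      4 * C₂ * (2 * (C₂ + 2)) ^ (C₂ + 2) * (Y : ℝ) ^ (-δ) := by
    have hp : (1 + δ * L) ^ (C₂ + 2) ≤
        (2 * (C₂ + 2)) ^ (C₂ + 2) * Real.exp (δ * L / 2) := pow_exp (by linarith) hu
    have hq : (δ * L) ^ 2 * (1 + δ * L) ^ C₂ ≤ (1 + δ * L) ^ (C₂ + 2) := by
      rw [Real.rpow_add (by linarith), mul_comm]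
      refine mul_le_mul_of_nonneg_left ?_ (by positivity)
      rw [Real.rpow_two]
      exact pow_le_pow_left₀ hu (by linarith) 2
    calc X ^ (-(2 * σ - 1)) * (1 + L) * SS (fun k => ((la δ Y k : ℝ) : ℂ)) Y 0
        ≤ X ^ (-δ) * (2 * L) * (C₂ * δ ^ 2 * (2 * L) * (1 + δ * L) ^ C₂) := by
          refine mul_le_mul (mul_le_mul hX1 (by linarith) (by linarith) (by positivity)) hSS
            hSS0 (by positivity)
      _ = 4 * C₂ * ((δ * L) ^ 2 * (1 + δ * L) ^ C₂) * X ^ (-δ) := by ring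
      _ ≤ 4 * C₂ * ((2 * (C₂ + 2)) ^ (C₂ + 2) * Real.exp (δ * L / 2)) * X ^ (-δ) := by
          refine mul_le_mul_of_nonneg_right ?_ (by positivity)
          exact mul_le_mul_of_nonneg_left (hq.trans hp) (by positivity)
      _ = 4 * C₂ * (2 * (C₂ + 2)) ^ (C₂ + 2) * Real.exp (-(δ * L / 2)) := by
          rw [hXe]
          have h11 : Real.exp (-(δ * L / 2)) = Real.exp (δ * L / 2) * Real.exp (-(δ * L)) := by
            rw [← Real.exp_add]
            congr 1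
            ring
          rw [h11]
          ring
      _ ≤ 4 * C₂ * (2 * (C₂ + 2)) ^ (C₂ + 2) * (Y : ℝ) ^ (-δ) := by
          refine mul_le_mul_of_nonneg_left ?_ (by positivity)
          rw [hYe]
          apply Real.exp_le_exp.mpr
          have : δ * Real.log Y ≤ δ * (L / 2) := mul_le_mul_of_nonneg_left (by linarith) hδ.le
          linarith
  -- the third term
  have hE : X ^ (-(1 / 2) : ℝ) ≤ (Y : ℝ) ^ (-δ) := by
    rw [Real.rpow_def_of_pos hX0, hYe, ← hL]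
    apply Real.exp_le_exp.mpr
    have : δ * Real.log Y ≤ 1 * Real.log Y := mul_le_mul_of_nonneg_right hδ1 hLY0
    linarith
  have hsum := add_le_add (add_le_add hD hT) hE
  refine (mul_le_mul_of_nonneg_left hsum (by positivity)).trans (le_of_eq ?_)
  ring

end Pool.Agent.DBS
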