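import Pool.Agent.DBS.Targets
import Pool.Agent.DBB.P_COR
import Pool.Agent.DBB.P_HER

/-! DBS, block CRX: the correlation of two sawtooth increments, as an equality. -/

set_option autoImplicit false

namespace Pool.Agent.DBS

open MeasureTheory Set Filter
open Pool.Agent.DBB

namespace CRX_

theorem corr (H : ℝ) (k l : ℕ) (hk : 1 ≤ k) (hl : 1 ≤ l) :
    ∫ x in (0 : ℝ)..(Nat.lcm k l : ℝ), ph H k x * ph H l x = Ps H (Nat.gcd k l) := by
  have hHER : T_HER := p_HER
  obtain ⟨g, hg⟩ : ∃ g, g = Nat.gcd k l := ⟨_, rfl⟩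
  have hgp : 1 ≤ g := by rw [hg]; exact Nat.gcd_pos_of_pos_left _ hk
  have hdl : g ∣ l := hg ▸ Nat.gcd_dvd_right k l
  have hdk : g ∣ k := hg ▸ Nat.gcd_dvd_left k l
  have hmk := COR_.meas H k
  have hml := COR_.meas H l
  have hmg := COR_.meas H g
  have hbd : ∀ (k l : ℕ) (x : ℝ), |ph H k x * ph H l x| ≤ 1 := fun k l x => by
    rw [abs_mul]
    exact mul_le_one₀ (COR_.abs_le H k x) (abs_nonneg _) (COR_.abs_le H l x)
  have elcm : (Nat.lcm k l : ℝ) = ((l / g : ℕ) : ℝ) * (k : ℝ) := by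
    have : Nat.lcm k l = l / g * k := by
      rw [Nat.lcm, ← hg, Nat.mul_comm, Nat.div_mul_right_comm hdl]
    rw [this]; push_cast; ring
  have h1 : ∫ x in (0 : ℝ)..(Nat.lcm k l : ℝ), ph H k x * ph H l x =
      ∫ x in (0 : ℝ)..(k : ℝ), ph H k x * ph H g x := by
    rw [elcm, COR_.ave (fun x => ph H k x * ph H l x) (hmk.mul hml) (hbd k l)]
    refine intervalIntegral.integral_congr fun x _ => ?_
    show ∑ j ∈ Finset.range (l / g), ph H k (x + j * k) * ph H l (x + j * k) = _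
    have h2 := COR_.trp hHER H k l hk hl x
    rw [← hg] at h2
    rw [← h2, Finset.mul_sum]
    exact Finset.sum_congr rfl fun j _ => by rw [COR_.per H k hk x j]
  have ek : (k : ℝ) = ((k / g : ℕ) : ℝ) * (g : ℝ) := by
    have : k = k / g * g := (Nat.div_mul_cancel hdk).symm
    exact_mod_cast this
  have h3 : ∫ x in (0 : ℝ)..(k : ℝ), ph H k x * ph H g x =
      ∫ x in (0 : ℝ)..(g : ℝ), ph H g x ^ 2 := by
    conv_lhs => rw [ek]
    rw [COR_.ave (fun x => ph H k x * ph H g x) (hmk.mul hmg) (hbd k g)]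
    refine intervalIntegral.integral_congr fun x _ => ?_
    show ∑ j ∈ Finset.range (k / g), ph H k (x + j * g) * ph H g (x + j * g) = ph H g x ^ 2
    have h2 := COR_.trp hHER H g k hgp hk x
    have e : Nat.gcd g k = g := Nat.gcd_eq_left hdk
    rw [e] at h2
    have h4 : ∑ j ∈ Finset.range (k / g), ph H k (x + j * g) * ph H g (x + j * g) =
        (∑ j ∈ Finset.range (k / g), ph H k (x + j * g)) * ph H g x := by
      rw [Finset.sum_mul]
      exact Finset.sum_congr rfl fun j _ => by rw [COR_.per H g hgp x j]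
    rw [h4, h2, pow_two]
  rw [h1, h3, ← hg]
  rfl

theorem bounds (H : ℝ) (g : ℕ) (hg : 1 ≤ g) (hH : 0 ≤ H) :
    0 ≤ Ps H g ∧ Ps H g ≤ H ∧ Ps H g ≤ (g : ℝ) := by
  have hgR : (0 : ℝ) < g := by exact_mod_cast hg
  have h0 : Ps H g = g * (Int.fract (H / g) * (1 - Int.fract (H / g))) := COR_.sqi H g hg
  rw [h0]
  have f0 := Int.fract_nonneg (H / (g : ℝ))
  have f1 := Int.fract_lt_one (H / (g : ℝ))
  have f2 : Int.fract (H / (g : ℝ)) ≤ H / g := by
    have h4 : (0 : ℝ) ≤ (⌊H / (g : ℝ)⌋ : ℝ) := by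
      exact_mod_cast Int.floor_nonneg.2 (div_nonneg hH hgR.le)
    have h5 := Int.self_sub_floor (H / (g : ℝ))
    linarith
  have f3 : Int.fract (H / (g : ℝ)) * (1 - Int.fract (H / g)) ≤ Int.fract (H / (g : ℝ)) := by
    nlinarith
  refine ⟨mul_nonneg hgR.le (mul_nonneg f0 (by linarith)), ?_, ?_⟩
  · calc (g : ℝ) * (Int.fract (H / g) * (1 - Int.fract (H / g))) ≤ g * Int.fract (H / g) :=
          mul_le_mul_of_nonneg_left f3 hgR.le
      _ ≤ g * (H / g) := mul_le_mul_of_nonneg_left f2 hgR.le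
      _ = H := by field_simp
  · calc (g : ℝ) * (Int.fract (H / g) * (1 - Int.fract (H / g))) ≤ g * 1 :=
          mul_le_mul_of_nonneg_left (f3.trans f1.le) hgR.le
      _ = g := mul_one _

end CRX_

theorem p_CRX : T_CRX := by
  intro k l H hk hl hH
  have hgp : 1 ≤ Nat.gcd k l := Nat.gcd_pos_of_pos_left _ hk
  exact ⟨CRX_.corr H k l hk hl, CRX_.bounds H _ hgp hH⟩

end Pool.Agent.DBS
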