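import Pool.Agent.DBS.Targets

/-!
# DBS, target DGE: Dirichlet series of the squares of divisor sums, diagonalised
-/

set_option autoImplicit false

namespace Pool.Agent.DBS

open Complex MeasureTheory Set Filter
open scoped ENNReal

namespace DGE_

/-- Jordan's totient with a real exponent. -/
theorem exJ (s : ℝ) (hs : 0 < s) : ∃ J : ℕ → ℝ, (∀ q, 0 ≤ J q) ∧
    (∀ q, 1 ≤ q → J q ≤ (q : ℝ) ^ s) ∧
    ∀ g : ℕ, 1 ≤ g → ∑ q ∈ g.divisors, J q = (g : ℝ) ^ s := by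
  let P : ArithmeticFunction ℝ := ⟨fun n => (n : ℝ) ^ s, by simp [Real.zero_rpow hs.ne']⟩
  have hP : ∀ n : ℕ, P n = (n : ℝ) ^ s := fun n => rfl
  have hPm : P.IsMultiplicative := by
    refine ⟨?_, fun {m n} _ => ?_⟩
    · rw [hP]; simp
    · rw [hP, hP, hP, Nat.cast_mul, Real.mul_rpow (Nat.cast_nonneg _) (Nat.cast_nonneg _)]
  let J : ArithmeticFunction ℝ := (ArithmeticFunction.moebius : ArithmeticFunction ℝ) * P
  have hJm : J.IsMultiplicative :=
    (ArithmeticFunction.isMultiplicative_moebius.intCast).mul hPm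
  have hJz : J * (ArithmeticFunction.zeta : ArithmeticFunction ℝ) = P := by
    show (ArithmeticFunction.moebius : ArithmeticFunction ℝ) * P *
      (ArithmeticFunction.zeta : ArithmeticFunction ℝ) = P
    rw [mul_comm (ArithmeticFunction.moebius : ArithmeticFunction ℝ) P, mul_assoc,
      ArithmeticFunction.coe_moebius_mul_coe_zeta, mul_one]
  have hsum : ∀ g : ℕ, ∑ q ∈ g.divisors, J q = (g : ℝ) ^ s := by
    intro g
    rw [← hP, ← hJz, ArithmeticFunction.coe_mul_zeta_apply]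
  have hpp : ∀ p k : ℕ, p.Prime → 0 ≤ J (p ^ k) := by
    intro p k hp
    cases k with
    | zero => rw [pow_zero, hJm.map_one]; exact zero_le_one
    | succ k =>
      have h1 := hsum (p ^ (k + 1))
      have h2 := hsum (p ^ k)
      rw [Nat.divisors_prime_pow hp, Finset.sum_map, Finset.sum_range_succ] at h1
      rw [Nat.divisors_prime_pow hp, Finset.sum_map] at h2
      rw [h2] at h1
      have h3 : ((p ^ k : ℕ) : ℝ) ^ s ≤ ((p ^ (k + 1) : ℕ) : ℝ) ^ s := by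
        refine Real.rpow_le_rpow (Nat.cast_nonneg _) ?_ hs.le
        exact_mod_cast Nat.pow_le_pow_right hp.pos (Nat.le_succ k)
      have h4 : J (p ^ (k + 1)) = ((p ^ (k + 1) : ℕ) : ℝ) ^ s - ((p ^ k : ℕ) : ℝ) ^ s := by
        rw [← h1]
        simp
      rw [h4]
      linarith
  have hnn : ∀ q, 0 ≤ J q := by
    intro q
    rcases Nat.eq_zero_or_pos q with rfl | hq
    · simp
    · rw [hJm.multiplicative_factorization J hq.ne']
      exact Finset.prod_nonneg fun p hp => hpp p _ (Nat.prime_of_mem_primeFactors (by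
        simpa using hp))
  refine ⟨J, hnn, fun q hq => ?_, fun g _ => hsum g⟩
  rw [← hsum q]
  exact Finset.single_le_sum (f := fun q => J q) (fun i _ => hnn i)
    (Nat.mem_divisors_self q (by omega))

theorem summ (s : ℝ) (hs : 1 < s) : Summable fun n : ℕ => (n : ℝ) ^ (-s) :=
  Real.summable_nat_rpow.2 (by linarith)

theorem hs_mult (s : ℝ) (hs : 1 < s) (L : ℕ) (hL : 1 ≤ L) :
    HasSum (fun n : ℕ => if L ∣ n then (n : ℝ) ^ (-s) else 0)
      ((L : ℝ) ^ (-s) * ∑' n : ℕ, (n : ℝ) ^ (-s)) := by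
  have h1 : HasSum (fun m : ℕ => (L : ℝ) ^ (-s) * (m : ℝ) ^ (-s))
      ((L : ℝ) ^ (-s) * ∑' n : ℕ, (n : ℝ) ^ (-s)) := (summ s hs).hasSum.mul_left _
  have hinj : Function.Injective fun m : ℕ => L * m := fun a b h =>
    Nat.eq_of_mul_eq_mul_left (by omega) h
  refine (hinj.hasSum_iff fun x hx => ?_).1 ?_
  · rw [if_neg]
    rintro ⟨m, rfl⟩
    exact hx ⟨m, rfl⟩
  · have e : ((fun n : ℕ => if L ∣ n then (n : ℝ) ^ (-s) else 0) ∘ fun m : ℕ => L * m) =
        fun m : ℕ => (L : ℝ) ^ (-s) * (m : ℝ) ^ (-s) := by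
      funext m
      simp only [Function.comp]
      rw [if_pos (Dvd.intro m rfl), Nat.cast_mul,
        Real.mul_rpow (Nat.cast_nonneg _) (Nat.cast_nonneg _)]
    rw [e]
    exact h1

theorem zbound (η : ℝ) (hη : 0 < η) : ∑' n : ℕ, (n : ℝ) ^ (-(1 + η)) ≤ 1 + 1 / η := by
  refine (summ (1 + η) (by linarith)).tsum_le_of_sum_range_le fun N => ?_
  have hmono : AntitoneOn (fun x : ℝ => x ^ (-(1 + η))) (Icc 1 (1 + (N : ℕ))) := by
    intro x hx y hy hxy
    exact Real.rpow_le_rpow_of_nonpos (by linarith [hx.1]) hxy (by linarith)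
  have h1 := hmono.sum_le_integral
  have h2 : (∫ x in (1 : ℝ)..1 + (N : ℕ), x ^ (-(1 + η))) ≤ 1 / η := by
    rw [integral_rpow (Or.inr ⟨by linarith, by
      rw [Set.uIcc_of_le (by linarith [Nat.cast_nonneg (α := ℝ) N])]
      intro h
      linarith [h.1]⟩)]
    have e : -(1 + η) + 1 = -η := by ring
    rw [e, Real.one_rpow, div_neg, ← neg_div, neg_sub]
    have h3 : 0 ≤ (1 + (N : ℝ)) ^ (-η) := by positivity
    exact div_le_div_of_nonneg_right (by linarith) hη.le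
  have h3 : ∑ i ∈ Finset.range (N + 2), (i : ℝ) ^ (-(1 + η)) =
      1 + ∑ i ∈ Finset.range N, (1 + ((i + 1 : ℕ) : ℝ)) ^ (-(1 + η)) := by
    rw [Finset.sum_range_succ', Finset.sum_range_succ']
    simp only [Nat.cast_zero, Nat.cast_add, Nat.cast_one]
    rw [Real.zero_rpow (by linarith), zero_add, Real.one_rpow, add_zero, add_comm]
    congr 1
    refine Finset.sum_congr rfl fun i _ => ?_
    congr 1
    ring
  calc ∑ i ∈ Finset.range N, (i : ℝ) ^ (-(1 + η))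
      ≤ ∑ i ∈ Finset.range (N + 2), (i : ℝ) ^ (-(1 + η)) :=
        Finset.sum_le_sum_of_subset_of_nonneg (Finset.range_mono (by omega))
          fun i _ _ => Real.rpow_nonneg (Nat.cast_nonneg _) _
    _ = 1 + ∑ i ∈ Finset.range N, (1 + ((i + 1 : ℕ) : ℝ)) ^ (-(1 + η)) := h3
    _ ≤ 1 + 1 / η := by
        have := h1.trans h2
        linarith

theorem lcm_pow (s : ℝ) (k l : ℕ) (hk : 1 ≤ k) (hl : 1 ≤ l) :
    ((Nat.lcm k l : ℕ) : ℝ) ^ (-s) =
      (k : ℝ) ^ (-s) * (l : ℝ) ^ (-s) * ((Nat.gcd k l : ℕ) : ℝ) ^ s := by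
  have hg : (0 : ℝ) < (Nat.gcd k l : ℕ) := by
    exact_mod_cast Nat.gcd_pos_of_pos_left l (by omega)
  have h1 : ((Nat.gcd k l : ℕ) : ℝ) * ((Nat.lcm k l : ℕ) : ℝ) = (k : ℝ) * l := by
    exact_mod_cast Nat.gcd_mul_lcm k l
  have h2 : ((Nat.gcd k l : ℕ) : ℝ) ^ (-s) * ((Nat.lcm k l : ℕ) : ℝ) ^ (-s) =
      (k : ℝ) ^ (-s) * (l : ℝ) ^ (-s) := by
    rw [← Real.mul_rpow hg.le (Nat.cast_nonneg _), h1,
      Real.mul_rpow (Nat.cast_nonneg _) (Nat.cast_nonneg _)]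
  have h3 : ((Nat.gcd k l : ℕ) : ℝ) ^ (-s) * ((Nat.gcd k l : ℕ) : ℝ) ^ s = 1 := by
    rw [← Real.rpow_add hg, neg_add_cancel, Real.rpow_zero]
  rw [← h2]
  calc ((Nat.lcm k l : ℕ) : ℝ) ^ (-s) = (((Nat.gcd k l : ℕ) : ℝ) ^ (-s) *
        ((Nat.gcd k l : ℕ) : ℝ) ^ s) * ((Nat.lcm k l : ℕ) : ℝ) ^ (-s) := by rw [h3, one_mul]
    _ = _ := by ring

theorem divs (Y k l : ℕ) (hk : 1 ≤ k) (hkY : k ≤ Y) :
    (Nat.gcd k l).divisors = (Finset.Icc 1 Y).filter fun q => q ∣ k ∧ q ∣ l := by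
  ext q
  rw [Nat.mem_divisors, Finset.mem_filter, Finset.mem_Icc, Nat.dvd_gcd_iff]
  constructor
  · rintro ⟨h, -⟩
    exact ⟨⟨Nat.pos_of_dvd_of_pos h.1 (by omega), (Nat.le_of_dvd (by omega) h.1).trans hkY⟩, h⟩
  · rintro ⟨-, h⟩
    exact ⟨h, (Nat.gcd_pos_of_pos_left l (by omega)).ne'⟩

end DGE_

open DGE_ ComplexConjugate in
theorem p_DGE : T_DGE := by
  intro c Y N η hη
  have hs1 : 1 < 1 + η := by linarith
  obtain ⟨J, hJ0, hJ1, hJ2⟩ := exJ (1 + η) (by linarith)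
  set s : ℝ := 1 + η with hs
  set Z : ℝ := ∑' n : ℕ, (n : ℝ) ^ (-s) with hZ
  have hZ0 : 0 ≤ Z := tsum_nonneg fun n => Real.rpow_nonneg (Nat.cast_nonneg _) _
  set K : Finset ℕ := Finset.Icc 1 Y with hK
  have hK1 : ∀ k ∈ K, 1 ≤ k ∧ k ≤ Y := fun k hk => Finset.mem_Icc.1 hk
  set d : ℕ → ℂ := fun k => c k * (((k : ℝ) ^ (-s) : ℝ) : ℂ) with hd
  have hal : ∀ n : ℕ, al c Y n = ∑ k ∈ K, if k ∣ n then c k else 0 := by
    intro n
    unfold al
    rw [Finset.sum_filter]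
  have hyc : ∀ q : ℕ, yc c Y η q = ∑ k ∈ K, if q ∣ k then d k else 0 := by
    intro q
    unfold yc
    rw [Finset.sum_filter]
    refine Finset.sum_congr rfl fun k _ => ?_
    split_ifs
    · rw [hd]
      simp only
      rw [Complex.ofReal_cpow (Nat.cast_nonneg _), hs]
      push_cast
      rfl
    · rfl
  have hS : HasSum (fun n : ℕ => ((‖al c Y n‖ ^ 2 * (n : ℝ) ^ (-s) : ℝ) : ℂ))
      (∑ k ∈ K, ∑ l ∈ K, c k * conj (c l) * ((((Nat.lcm k l : ℕ) : ℝ) ^ (-s) * Z : ℝ) : ℂ)) := by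
    have h1 : (fun n : ℕ => ((‖al c Y n‖ ^ 2 * (n : ℝ) ^ (-s) : ℝ) : ℂ)) =
        fun n : ℕ => ∑ k ∈ K, ∑ l ∈ K, c k * conj (c l) *
          (((if Nat.lcm k l ∣ n then (n : ℝ) ^ (-s) else 0 : ℝ)) : ℂ) := by
      funext n
      rw [Complex.ofReal_mul, Complex.ofReal_pow, ← Complex.mul_conj', hal n, map_sum,
        Finset.sum_mul_sum, Finset.sum_mul]
      refine Finset.sum_congr rfl fun k _ => ?_
      rw [Finset.sum_mul]
      refine Finset.sum_congr rfl fun l _ => ?_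
      by_cases hk : k ∣ n
      · by_cases hl : l ∣ n
        · rw [if_pos hk, if_pos hl, if_pos (Nat.lcm_dvd hk hl)]
        · rw [if_neg hl, if_neg fun h => hl ((Nat.dvd_lcm_right k l).trans h)]
          simp
      · rw [if_neg hk, if_neg fun h => hk ((Nat.dvd_lcm_left k l).trans h)]
        simp
    rw [h1]
    refine hasSum_sum fun k hk => hasSum_sum fun l hl => ?_
    refine HasSum.mul_left _ ?_
    exact Complex.hasSum_ofReal.2 (hs_mult s hs1 _ (Nat.lcm_pos (hK1 k hk).1 (hK1 l hl).1))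
  have hV : (∑ k ∈ K, ∑ l ∈ K, c k * conj (c l) *
      ((((Nat.lcm k l : ℕ) : ℝ) ^ (-s) * Z : ℝ) : ℂ)) =
      ((Z * ∑ q ∈ K, J q * ‖yc c Y η q‖ ^ 2 : ℝ) : ℂ) := by
    have h1 : ∀ k ∈ K, ∀ l ∈ K, c k * conj (c l) *
        ((((Nat.lcm k l : ℕ) : ℝ) ^ (-s) * Z : ℝ) : ℂ) =
        ∑ q ∈ K, (Z : ℂ) * ((J q : ℂ) * ((if q ∣ k then d k else 0) *
          (if q ∣ l then conj (d l) else 0))) := by
      intro k hk l hl
      rw [lcm_pow s k l (hK1 k hk).1 (hK1 l hl).1, ← hJ2 _ (Nat.gcd_pos_of_pos_left l (hK1 k hk).1),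
        divs Y k l (hK1 k hk).1 (hK1 k hk).2, Finset.sum_filter, Complex.ofReal_mul,
        Complex.ofReal_mul, Complex.ofReal_sum, Finset.mul_sum, Finset.sum_mul, Finset.mul_sum]
      refine Finset.sum_congr rfl fun q _ => ?_
      have hc : conj (d l) = conj (c l) * (((l : ℝ) ^ (-s) : ℝ) : ℂ) := by
        rw [hd]
        simp only
        rw [map_mul, Complex.conj_ofReal]
      by_cases hqk : q ∣ k
      · by_cases hql : q ∣ l
        · rw [if_pos ⟨hqk, hql⟩, if_pos hqk, if_pos hql, hc, hd]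
          simp only
          push_cast
          ring
        · rw [if_neg fun h => hql h.2, if_neg hql]
          simp
      · rw [if_neg fun h => hqk h.1, if_neg hqk]
        simp
    rw [Finset.sum_congr rfl fun k hk => Finset.sum_congr rfl fun l hl => h1 k hk l hl]
    rw [Finset.sum_congr rfl fun k (_ : k ∈ K) => Finset.sum_comm, Finset.sum_comm,
      Complex.ofReal_mul, Complex.ofReal_sum, Finset.mul_sum]
    refine Finset.sum_congr rfl fun q _ => ?_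
    rw [Complex.ofReal_mul, Complex.ofReal_pow, ← Complex.mul_conj', hyc q, map_sum,
      Finset.sum_mul_sum, Finset.mul_sum, Finset.mul_sum]
    refine Finset.sum_congr rfl fun k _ => ?_
    rw [Finset.mul_sum, Finset.mul_sum]
    refine Finset.sum_congr rfl fun l _ => ?_
    by_cases hql : q ∣ l
    · rw [if_pos hql, if_pos hql]
    · rw [if_neg hql, if_neg hql, map_zero]
  rw [hV] at hS
  have hR := Complex.hasSum_ofReal.1 hS
  have h1 : ∑ n ∈ Finset.Icc 1 N, ‖al c Y n‖ ^ 2 * (n : ℝ) ^ (-s) ≤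
      Z * ∑ q ∈ K, J q * ‖yc c Y η q‖ ^ 2 :=
    sum_le_hasSum _ (fun n _ => mul_nonneg (sq_nonneg _)
      (Real.rpow_nonneg (Nat.cast_nonneg _) _)) hR
  refine h1.trans ?_
  have h2 : ∑ q ∈ K, J q * ‖yc c Y η q‖ ^ 2 ≤ SS c Y η := by
    unfold SS
    exact Finset.sum_le_sum fun q hq => mul_le_mul_of_nonneg_right (hJ1 q (hK1 q hq).1)
      (sq_nonneg _)
  exact mul_le_mul (zbound η hη) h2
    (Finset.sum_nonneg fun q _ => mul_nonneg (hJ0 q) (sq_nonneg _)) (by positivity)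

end Pool.Agent.DBS
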