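import Pool.Agent.DBS.Targets

/-!
# Project DBS, block EPB

The Euler product of the weights is at most a power of `1 + |w| log Y`.
-/

set_option autoImplicit false

namespace Pool.Agent.DBS

open Complex MeasureTheory Set Filter
open Pool.Agent.DBN Pool.Agent.DBC Pool.Agent.DBB
open scoped ENNReal

namespace EPB_

/-- `|e^z - 1| ≤ |z| e^c` for `Re z ≤ c`, `0 ≤ c` -/
theorem expb {z : ℂ} {c : ℝ} (hc : 0 ≤ c) (hz : z.re ≤ c) :
    ‖Complex.exp z - 1‖ ≤ Real.exp c * ‖z‖ := by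
  have h := Convex.norm_image_sub_le_of_norm_deriv_le (𝕜 := ℂ) (f := Complex.exp)
    (C := Real.exp c) (s := {z : ℂ | z.re ≤ c}) (x := 0) (y := z)
    (fun x _ => Complex.differentiable_exp x)
    (fun x hx => by
      rw [Complex.deriv_exp, Complex.norm_exp]
      exact Real.exp_le_exp.2 hx)
    (convex_halfSpace_re_le c) (by simpa using hc) hz
  simpa using h

theorem term {δ : ℝ} (hδ : 0 < δ) {w : ℂ} (hw : w.re ≤ δ) {p : ℕ} (hp : p.Prime) :
    ‖(p : ℂ) ^ w - 1‖ / ((p : ℝ) ^ (1 + δ) - 1) ≤ 4 * (min (‖w‖ * Real.log p) 1 / (p : ℝ)) := by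
  have hp2 : (2 : ℝ) ≤ p := by exact_mod_cast hp.two_le
  have hp0 : (0 : ℝ) < p := by linarith
  have hpc : (p : ℂ) ≠ 0 := by exact_mod_cast hp.ne_zero
  have hl : 0 ≤ Real.log p := Real.log_nonneg (by linarith)
  have hpd : (1 : ℝ) ≤ (p : ℝ) ^ δ := Real.one_le_rpow (by linarith) hδ.le
  have h1 : ‖(p : ℂ) ^ w - 1‖ ≤ 2 * (p : ℝ) ^ δ := by
    have ha : ‖(p : ℂ) ^ w‖ = (p : ℝ) ^ w.re := by
      have := Complex.norm_cpow_eq_rpow_re_of_pos hp0 w
      simpa using this
    have hb : (p : ℝ) ^ w.re ≤ (p : ℝ) ^ δ :=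
      Real.rpow_le_rpow_of_exponent_le (by linarith) hw
    have hc := norm_sub_le ((p : ℂ) ^ w) 1
    rw [ha, norm_one] at hc
    linarith
  have h2 : ‖(p : ℂ) ^ w - 1‖ ≤ ‖w‖ * Real.log p * (p : ℝ) ^ δ := by
    have he : (p : ℂ) ^ w = Complex.exp (Complex.log p * w) := by
      rw [Complex.cpow_def_of_ne_zero hpc]
    have hlog : Complex.log (p : ℂ) = ((Real.log p : ℝ) : ℂ) := by
      have := Complex.ofReal_log hp0.le
      simpa using this.symm
    have hd : (p : ℝ) ^ δ = Real.exp (Real.log p * δ) := by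
      rw [Real.rpow_def_of_pos hp0]
    have hre : (Complex.log (p : ℂ) * w).re ≤ Real.log p * δ := by
      rw [hlog, Complex.re_ofReal_mul]
      exact mul_le_mul_of_nonneg_left hw hl
    have h3 := expb (mul_nonneg hl hδ.le) hre
    rw [he, hd]
    refine h3.trans (le_of_eq ?_)
    rw [norm_mul, hlog, Complex.norm_real, Real.norm_of_nonneg hl]
    ring
  have h3 : (p : ℝ) ^ (1 + δ) / 2 ≤ (p : ℝ) ^ (1 + δ) - 1 := by
    have : (2 : ℝ) ≤ (p : ℝ) ^ (1 + δ) := by
      rw [Real.rpow_add hp0, Real.rpow_one]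
      nlinarith
    linarith
  have hpe : (p : ℝ) ^ (1 + δ) = p * (p : ℝ) ^ δ := by
    rw [Real.rpow_add hp0, Real.rpow_one]
  have h4 : ‖(p : ℂ) ^ w - 1‖ ≤ 2 * min (‖w‖ * Real.log p) 1 * (p : ℝ) ^ δ := by
    rcases le_total (‖w‖ * Real.log p) 1 with h | h
    · rw [min_eq_left h]
      have : 0 ≤ ‖w‖ * Real.log p * (p : ℝ) ^ δ := by positivity
      linarith
    · rw [min_eq_right h]
      linarith
  have h5 : 0 ≤ min (‖w‖ * Real.log p) 1 := le_min (by positivity) zero_le_one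
  rw [hpe] at h3
  have h6 : 0 < (p : ℝ) * (p : ℝ) ^ δ / 2 := by positivity
  rw [hpe, div_le_iff₀ (by linarith)]
  refine h4.trans ?_
  calc 2 * min (‖w‖ * Real.log p) 1 * (p : ℝ) ^ δ
      = 4 * (min (‖w‖ * Real.log p) 1 / (p : ℝ)) * (p * (p : ℝ) ^ δ / 2) := by
        field_simp
        ring
    _ ≤ 4 * (min (‖w‖ * Real.log p) 1 / (p : ℝ)) * (p * (p : ℝ) ^ δ - 1) := by
        refine mul_le_mul_of_nonneg_left h3 (by positivity)

end EPB_

open EPB_ in
theorem p_EPB (h : T_PSU) : T_EPB := by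
  obtain ⟨C, hC, hP⟩ := h
  refine ⟨Real.exp (4 * C), Real.exp_pos _, fun δ Y w hδ hY hw => ?_⟩
  have hL : 0 ≤ Real.log Y := Real.log_nonneg (by exact_mod_cast (by omega : 1 ≤ Y))
  have hB : 1 ≤ 1 + ‖w‖ * Real.log Y := by
    have : 0 ≤ ‖w‖ * Real.log Y := by positivity
    linarith
  have hB0 : 0 < 1 + ‖w‖ * Real.log Y := by linarith
  have h1 : Ep δ Y w ≤ Real.exp (4 * (C + C * Real.log (1 + ‖w‖ * Real.log Y))) := by
    unfold Ep
    calc ∏ p ∈ (Finset.Icc 1 Y).filter Nat.Prime,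
          (1 + ‖(p : ℂ) ^ w - 1‖ / ((p : ℝ) ^ (1 + δ) - 1))
        ≤ ∏ p ∈ (Finset.Icc 1 Y).filter Nat.Prime,
          Real.exp (4 * (min (‖w‖ * Real.log p) 1 / (p : ℝ))) := by
          refine Finset.prod_le_prod ?_ ?_
          · intro p hp
            have hp' := (Finset.mem_filter.1 hp).2
            have hp2 : (2 : ℝ) ≤ p := by exact_mod_cast hp'.two_le
            have h3 : (1 : ℝ) ≤ (p : ℝ) ^ (1 + δ) :=
              Real.one_le_rpow (by linarith) (by linarith)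
            have h4 : 0 ≤ ‖(p : ℂ) ^ w - 1‖ / ((p : ℝ) ^ (1 + δ) - 1) :=
              div_nonneg (norm_nonneg _) (by linarith)
            linarith
          · intro p hp
            have hp' := (Finset.mem_filter.1 hp).2
            have h3 := term hδ hw hp'
            have h4 := Real.add_one_le_exp (4 * (min (‖w‖ * Real.log p) 1 / (p : ℝ)))
            linarith
      _ = Real.exp (∑ p ∈ (Finset.Icc 1 Y).filter Nat.Prime,
            4 * (min (‖w‖ * Real.log p) 1 / (p : ℝ))) := (Real.exp_sum _ _).symm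
      _ ≤ _ := by
          refine Real.exp_le_exp.2 ?_
          rw [← Finset.mul_sum]
          exact mul_le_mul_of_nonneg_left (hP Y ‖w‖ hY (norm_nonneg _)) (by norm_num)
  refine h1.trans ?_
  have h2 : Real.exp (4 * (C + C * Real.log (1 + ‖w‖ * Real.log Y))) =
      Real.exp (4 * C) * (1 + ‖w‖ * Real.log Y) ^ (4 * C) := by
    rw [Real.rpow_def_of_pos hB0, ← Real.exp_add]
    congr 1
    ring
  rw [h2]
  refine mul_le_mul_of_nonneg_left ?_ (Real.exp_pos _).le
  refine Real.rpow_le_rpow_of_exponent_le hB ?_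
  have := Real.add_one_le_exp (4 * C)
  linarith

end Pool.Agent.DBS
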