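import Pool.Agent.DBS.Targets
import Pool.Agent.DBN.Xi
import Pool.Agent.DBN.Down2
import Pool.Agent.DBN.ZA

/-!
# DBS, FEQ: zeta a little to the left of the critical line
-/

set_option autoImplicit false

namespace Pool.Agent.DBS

open Complex MeasureTheory Set Filter
open Pool.Agent.DBN Pool.Agent.DBC Pool.Agent.DBB

theorem p_FEQ : T_FEQ := by
  obtain ⟨C, hC1, h⟩ := xi_two 2
  have hC0 : 0 < C := by linarith
  refine ⟨C * C * Real.exp 1, 4, by positivity, le_rfl, fun σ τ hτ h1 h2 => ?_⟩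
  have hτ0 : 0 < τ := by linarith
  have hτ1 : 1 ≤ τ := by linarith
  have hlog : 1 ≤ Real.log τ := by
    rw [Real.le_log_iff_exp_le hτ0]
    have := Real.exp_one_lt_d9
    linarith
  have hinv : 1 / Real.log τ ≤ 1 := by
    rw [div_le_one (by linarith)]
    exact hlog
  have hs := size_pos hτ0
  obtain ⟨-, h3⟩ := h σ τ (by rw [abs_le]; constructor <;> linarith) (by linarith)
  obtain ⟨h4, -⟩ := h (1 - σ) τ (by rw [abs_le]; constructor <;> linarith) (by linarith)
  rw [norm_xi_symm] at h4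
  unfold Pool.Agent.DBA.pt
  set Z : ℝ := ‖riemannZeta ((σ : ℂ) + (τ : ℂ) * I)‖ with hZ
  set Z' : ℝ := ‖riemannZeta (((1 - σ : ℝ) : ℂ) + (τ : ℂ) * I)‖ with hZ'
  have hZ0 : 0 ≤ Z' := norm_nonneg _
  have e1 : (1 - σ - 1 / 2) / 2 = (1 / 2 - σ) / 2 := by ring
  rw [e1] at h4
  set a : ℝ := τ ^ ((σ - 1 / 2) / 2) with ha
  set b : ℝ := τ ^ ((1 / 2 - σ) / 2) with hb
  have hb0 : 0 < b := Real.rpow_pos_of_pos hτ0 _
  have hab : b * a = 1 := by
    rw [ha, hb, ← Real.rpow_add hτ0]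
    have : (1 / 2 - σ) / 2 + (σ - 1 / 2) / 2 = 0 := by ring
    rw [this, Real.rpow_zero]
  have hbb : b * b ≤ Real.exp 1 := by
    rw [hb, ← Real.rpow_add hτ0]
    have e2 : (1 / 2 - σ) / 2 + (1 / 2 - σ) / 2 = 1 / 2 - σ := by ring
    rw [e2]
    calc τ ^ (1 / 2 - σ) ≤ τ ^ (1 / Real.log τ) :=
          Real.rpow_le_rpow_of_exponent_le hτ1 (by linarith)
      _ = Real.exp 1 := by
          rw [Real.rpow_def_of_pos hτ0]
          congr 1
          field_simp
  have h5 : a * size τ * Z ≤ C * (C * (b * size τ * Z')) :=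
    h3.trans (mul_le_mul_of_nonneg_left h4 hC0.le)
  have h6 : size τ * Z ≤ size τ * (C * C * (b * b) * Z') := by
    have h7 := mul_le_mul_of_nonneg_left h5 hb0.le
    calc size τ * Z = b * a * (size τ * Z) := by rw [hab, one_mul]
      _ = b * (a * size τ * Z) := by ring
      _ ≤ b * (C * (C * (b * size τ * Z'))) := h7
      _ = size τ * (C * C * (b * b) * Z') := by ring
  have h8 := le_of_mul_le_mul_left h6 hs
  refine h8.trans ?_
  have h9 : C * C * (b * b) ≤ C * C * Real.exp 1 := mul_le_mul_of_nonneg_left hbb (by positivity)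
  exact mul_le_mul_of_nonneg_right h9 hZ0

end Pool.Agent.DBS
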