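import Pool.Agent.DBS.Targets

/-!
# DBS, target GLB: lower bound of Selberg's sum
-/

set_option autoImplicit false

namespace Pool.Agent.DBS

open Complex MeasureTheory Set Filter
open Pool.Agent.DBN Pool.Agent.DBC Pool.Agent.DBB
open scoped ENNReal

namespace GLB_

theorem geo {x : ℝ} (hx0 : 0 < x) (hx1 : x < 1) (Y : ℕ) :
    ∑ a ∈ Finset.Icc 1 Y, x ^ a ≤ x / (1 - x) := by
  have h : (1 - x) * ∑ a ∈ Finset.Icc 1 Y, x ^ a = x - x ^ (Y + 1) := by
    induction Y with
    | zero => simp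
    | succ n ih =>
      rw [Finset.sum_Icc_succ_top (by omega), mul_add, ih]
      ring
  have h1 : 0 < 1 - x := by linarith
  rw [le_div_iff₀ h1, mul_comm, h]
  have : 0 < x ^ (Y + 1) := pow_pos hx0 _
  linarith

/-- the numbers up to `Y` with the set of prime factors `P` -/
theorem fib (s : ℝ) (hs : 0 < s) (Y : ℕ) (P : Finset ℕ) (hP : ∀ p ∈ P, p.Prime) :
    ∑ n ∈ (Finset.Icc 1 Y).filter (fun n => n.primeFactors = P), (n : ℝ) ^ (-s) ≤
      ∏ p ∈ P, 1 / ((p : ℝ) ^ s - 1) := by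
  classical
  have hx0 : ∀ p ∈ P, 0 < (p : ℝ) ^ (-s) := fun p hp =>
    Real.rpow_pos_of_pos (by exact_mod_cast (hP p hp).pos) _
  have hx1 : ∀ p ∈ P, (p : ℝ) ^ (-s) < 1 := fun p hp =>
    Real.rpow_lt_one_of_one_lt_of_neg (by exact_mod_cast (hP p hp).one_lt) (by linarith)
  have h1 : ∏ p ∈ P, ∑ a ∈ Finset.Icc 1 Y, ((p : ℝ) ^ (-s)) ^ a ≤
      ∏ p ∈ P, 1 / ((p : ℝ) ^ s - 1) := by
    refine Finset.prod_le_prod (fun p hp => Finset.sum_nonneg fun a _ =>
      pow_nonneg (hx0 p hp).le _) fun p hp => (geo (hx0 p hp) (hx1 p hp) Y).trans (le_of_eq ?_)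
    have hp0 : 0 < (p : ℝ) ^ s := Real.rpow_pos_of_pos (by exact_mod_cast (hP p hp).pos) _
    have hp1 : 1 < (p : ℝ) ^ s :=
      Real.one_lt_rpow (by exact_mod_cast (hP p hp).one_lt) hs
    have hp2 : (p : ℝ) ^ s - 1 ≠ 0 := by linarith
    rw [Real.rpow_neg (Nat.cast_nonneg p)]
    have hp3 : 1 - ((p : ℝ) ^ s)⁻¹ ≠ 0 := by
      have : ((p : ℝ) ^ s)⁻¹ < 1 := inv_lt_one_of_one_lt₀ hp1
      linarith
    rw [div_eq_div_iff hp3 hp2]
    field_simp
  refine le_trans ?_ h1
  rw [Finset.prod_sum]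
  -- the injection
  set e : ℕ → (∀ p ∈ P, ℕ) := fun n p _ => n.factorization p with he
  have hterm : ∀ n ∈ (Finset.Icc 1 Y).filter (fun n => n.primeFactors = P),
      (n : ℝ) ^ (-s) = ∏ x ∈ P.attach, ((x.1 : ℝ) ^ (-s)) ^ (e n x.1 x.2) := by
    intro n hn
    rw [Finset.mem_filter, Finset.mem_Icc] at hn
    have hn0 : n ≠ 0 := by omega
    have hprod : ∏ p ∈ P, p ^ n.factorization p = n := by
      have := Nat.prod_factorization_pow_eq_self hn0
      rw [Finsupp.prod, Nat.support_factorization, hn.2] at this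
      exact this
    have hcast : (n : ℝ) = ∏ p ∈ P, (p : ℝ) ^ n.factorization p := by
      conv_lhs => rw [← hprod]
      push_cast
      rfl
    have h2 : ∏ x ∈ P.attach, ((x.1 : ℝ) ^ (-s)) ^ (e n x.1 x.2) =
        ∏ p ∈ P, ((p : ℝ) ^ (-s)) ^ n.factorization p := by
      rw [← Finset.prod_attach P (fun p => ((p : ℝ) ^ (-s)) ^ n.factorization p)]
    rw [h2, hcast, ← Real.finsetProd_rpow _ _ (fun p _ => by positivity)]
    refine Finset.prod_congr rfl fun p hp => ?_
    rw [← Real.rpow_natCast, ← Real.rpow_natCast,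
      ← Real.rpow_mul (Nat.cast_nonneg p), ← Real.rpow_mul (Nat.cast_nonneg p), mul_comm]
  rw [Finset.sum_congr rfl hterm]
  have hinj : Set.InjOn e ((Finset.Icc 1 Y).filter (fun n => n.primeFactors = P) : Finset ℕ) := by
    intro m hm n hn hmn
    rw [Finset.mem_coe, Finset.mem_filter, Finset.mem_Icc] at hm hn
    refine Nat.eq_of_factorization_eq (by omega) (by omega) fun p => ?_
    by_cases hp : p ∈ P
    · exact congrFun (congrFun hmn p) hp
    · rw [Finsupp.notMem_support_iff.1 (by rw [Nat.support_factorization, hm.2]; exact hp),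
        Finsupp.notMem_support_iff.1 (by rw [Nat.support_factorization, hn.2]; exact hp)]
  rw [← Finset.sum_image (s := (Finset.Icc 1 Y).filter (fun n => n.primeFactors = P)) (g := e)
    (f := fun q => ∏ x ∈ P.attach, ((x.1 : ℝ) ^ (-s)) ^ (q x.1 x.2)) hinj]
  refine Finset.sum_le_sum_of_subset_of_nonneg ?_ fun q _ _ =>
    Finset.prod_nonneg fun x _ => pow_nonneg (hx0 x.1 x.2).le _
  intro q hq
  rw [Finset.mem_image] at hq
  obtain ⟨n, hn, rfl⟩ := hq
  rw [Finset.mem_filter, Finset.mem_Icc] at hn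
  rw [Finset.mem_pi]
  intro p hp
  rw [Finset.mem_Icc]
  have hpn : p ∈ n.primeFactors := by rw [hn.2]; exact hp
  have hpp := Nat.prime_of_mem_primeFactors hpn
  have hdvd := Nat.dvd_of_mem_primeFactors hpn
  have hn0 : n ≠ 0 := by omega
  refine ⟨hpp.factorization_pos_of_dvd hn0 hdvd, ?_⟩
  exact (Nat.factorization_lt p hn0).le.trans hn.1.2

theorem shift (g : ℝ → ℝ) (Y : ℕ) :
    ∑ i ∈ Finset.range Y, g (1 + (i : ℝ)) = ∑ n ∈ Finset.Icc 1 Y, g (n : ℝ) := by
  induction Y with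
  | zero => simp
  | succ n ih =>
    rw [Finset.sum_range_succ, Finset.sum_Icc_succ_top (by omega), ih]
    congr 2
    push_cast
    ring

/-- the radical -/
def rd (n : ℕ) : ℕ := ∏ p ∈ n.primeFactors, p

theorem rd_sq (n : ℕ) : Squarefree (rd n) := by
  unfold rd
  rw [← Nat.radical_eq_prod_primeFactors]
  exact UniqueFactorizationMonoid.squarefree_radical

theorem rd_pf (n : ℕ) : (rd n).primeFactors = n.primeFactors :=
  Nat.primeFactors_prod_primeFactors n

theorem rd_le {n : ℕ} (hn : n ≠ 0) : rd n ≤ n :=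
  Nat.le_of_dvd (Nat.pos_of_ne_zero hn) (Nat.prod_primeFactors_dvd n)

theorem rd_pos (n : ℕ) : 1 ≤ rd n :=
  Nat.pos_of_ne_zero (rd_sq n).ne_zero

theorem Jf_pos {δ : ℝ} (hδ : 0 < δ) (r : ℕ) : 0 < Jf δ r := by
  unfold Jf
  refine Finset.prod_pos fun p hp => ?_
  have hpp := Nat.prime_of_mem_primeFactors hp
  have : 1 < (p : ℝ) ^ (1 + δ) :=
    Real.one_lt_rpow (by exact_mod_cast hpp.one_lt) (by linarith)
  linarith

end GLB_

open GLB_ in
theorem p_GLB : T_GLB := by
  intro δ Y hδ hY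
  constructor
  · have hmap : ∀ n ∈ Finset.Icc 1 Y, rd n ∈ Finset.Icc 1 Y := by
      intro n hn
      rw [Finset.mem_Icc] at hn ⊢
      exact ⟨rd_pos n, (rd_le (by omega)).trans hn.2⟩
    rw [← Finset.sum_fiberwise_of_maps_to hmap]
    unfold Gf
    refine Finset.sum_le_sum fun r hr => ?_
    by_cases hsq : Squarefree r
    · have hmu : ((ArithmeticFunction.moebius r : ℤ) : ℝ) ^ 2 = 1 := by
        exact_mod_cast ArithmeticFunction.moebius_sq_eq_one_of_squarefree hsq
      rw [hmu]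
      have h1 := fib (1 + δ) (by linarith) Y r.primeFactors
        (fun p hp => Nat.prime_of_mem_primeFactors hp)
      have h2 : ∏ p ∈ r.primeFactors, 1 / ((p : ℝ) ^ (1 + δ) - 1) = 1 / Jf δ r := by
        unfold Jf
        rw [Finset.prod_div_distrib, Finset.prod_const_one]
      rw [h2] at h1
      refine le_trans ?_ h1
      refine Finset.sum_le_sum_of_subset_of_nonneg ?_ fun n _ _ =>
        Real.rpow_nonneg (Nat.cast_nonneg n) _
      intro n hn
      rw [Finset.mem_filter] at hn ⊢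
      exact ⟨hn.1, by rw [← hn.2, rd_pf]⟩
    · have hemp : (Finset.Icc 1 Y).filter (fun n => rd n = r) = ∅ := by
        rw [Finset.filter_eq_empty_iff]
        intro n _ h
        exact hsq (h ▸ rd_sq n)
      rw [hemp, Finset.sum_empty]
      exact div_nonneg (sq_nonneg _) (Jf_pos hδ r).le
  · have hanti : AntitoneOn (fun x : ℝ => x ^ (-(1 + δ))) (Set.Icc 1 (1 + (Y : ℝ))) := by
      intro x hx y hy hxy
      exact Real.rpow_le_rpow_of_nonpos (by linarith [hx.1]) hxy (by linarith)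
    have h1 := hanti.integral_le_sum
    rw [integral_rpow (Or.inr ⟨by linarith, by
      rw [Set.uIcc_of_le (by linarith [(Nat.cast_nonneg Y : (0 : ℝ) ≤ Y)])]
      intro h
      linarith [h.1]⟩)] at h1
    rw [shift (fun x : ℝ => x ^ (-(1 + δ))) Y] at h1
    refine le_trans ?_ h1
    have h3 : (1 + (Y : ℝ)) ^ (-δ) ≤ (Y : ℝ) ^ (-δ) :=
      Real.rpow_le_rpow_of_nonpos (by exact_mod_cast hY) (by linarith) (by linarith)
    have h4 : -(1 + δ) + 1 = -δ := by ring
    rw [h4, Real.one_rpow, div_neg, ← neg_div]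
    exact div_le_div_of_nonneg_right (by linarith) hδ.le

end Pool.Agent.DBS
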