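import Pool.Agent.DBS.Targets
import Pool.Agent.DBB.P_MM2

/-!
# The mean square of `ζ Pc - c 1` on a line (edit of `DBB/P_MM2.lean`)
-/

set_option autoImplicit false

namespace Pool.Agent.DBS

open Complex MeasureTheory Set Filter
open Pool.Agent.DBN Pool.Agent.DBC Pool.Agent.DBB
open scoped ENNReal

namespace GMS_

open Pool.Agent.DBB.MM2_ (exp_low norm_s_le log_bd avg)

/-- the pointwise inequality -/
theorem point (h2 : T_MFC) {σ X θ : ℝ} {c : ℕ → ℂ} {Y : ℕ} (hY : 1 ≤ Y) (hσ : 1 / 2 ≤ σ)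
    (hσ1 : σ < 1) (hX : 1 ≤ X)
    (hθ1 : 1 / (6 * X) ≤ θ) (hθ2 : θ ≤ 2 * (1 / (6 * X))) {t : ℝ} (ht1 : X ≤ t)
    (ht2 : t ≤ 2 * X) :
    ‖riemannZeta (σ + t * I) * Pc c Y (σ + t * I) - c 1‖ₑ ^ 2 ≤ ENNReal.ofReal (3600 * X ^ 2) *
      ‖mellin (fun t : ℝ => Dc c Y θ t) (σ + t * I)‖ₑ ^ 2 := by
  have hX0 : 0 < X := by linarith
  have hθX1 : 1 / 6 ≤ θ * X := by
    rw [div_le_iff₀ (by positivity)] at hθ1
    linarith
  have hθX2 : θ * X ≤ 1 / 3 := by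
    have h3 : 2 * (1 / (6 * X)) * X = 1 / 3 := by
      field_simp
      norm_num
    rw [← h3]
    gcongr
  have hθ0 : 0 < θ := by
    have h3 : 0 < 1 / (6 * X) := by positivity
    linarith
  have hθ3 : θ ≤ 1 := by nlinarith
  obtain ⟨hb1, hb2⟩ := log_bd hθ0.le hθ3
  have hh0 : 0 < Real.log (1 + θ) := by linarith
  obtain ⟨-, hm⟩ := h2 c Y (Real.log (1 + θ)) hY hh0
  have hre : ((σ : ℂ) + t * I).re = σ := by simp
  have hm1 := hm (σ + t * I) (by rw [hre]; linarith) (by rw [hre]; exact hσ1)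
  have hm2 : mellin (fun t : ℝ => Dc c Y θ t) (σ + t * I) =
      (exp ((Real.log (1 + θ) : ℝ) * (σ + t * I)) - 1) *
        ((riemannZeta (σ + t * I) * Pc c Y (σ + t * I) - c 1) / (σ + t * I)) := hm1
  rw [hm2]
  have ht0 : 0 < t := by linarith
  have hne : ((σ : ℂ) + t * I) ≠ 0 := by
    intro h
    have := congrArg Complex.re h
    rw [hre] at this
    simp at this
    linarith
  have hlow : 1 / 20 ≤ ‖exp (((Real.log (1 + θ) : ℝ) : ℂ) * (σ + t * I)) - 1‖ := by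
    refine exp_low hh0.le (by linarith) ?_ ?_
    · have e1 : θ / 2 * X ≤ Real.log (1 + θ) * t := by gcongr
      linarith
    · have e1 : Real.log (1 + θ) * t ≤ θ * (2 * X) := by gcongr
      linarith
  have hs := norm_s_le hX (by linarith) hσ1.le ht0.le ht2
  set F : ℂ := riemannZeta (σ + t * I) * Pc c Y (σ + t * I) - c 1 with hF
  set E : ℂ := exp (((Real.log (1 + θ) : ℝ) : ℂ) * (σ + t * I)) - 1 with hE
  have hsn : 0 < ‖((σ : ℂ) + t * I)‖ := norm_pos_iff.2 hne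
  have hkey : ‖F‖ ≤ 60 * X * ‖E * (F / (σ + t * I))‖ := by
    rw [norm_mul, norm_div]
    have h3 : ‖F‖ = 20 * ‖((σ : ℂ) + t * I)‖ * (1 / 20 * (‖F‖ / ‖((σ : ℂ) + t * I)‖)) := by
      field_simp
    have h4 : 1 / 20 * (‖F‖ / ‖((σ : ℂ) + t * I)‖) ≤ ‖E‖ * (‖F‖ / ‖((σ : ℂ) + t * I)‖) :=
      mul_le_mul_of_nonneg_right hlow (by positivity)
    calc ‖F‖ = 20 * ‖((σ : ℂ) + t * I)‖ * (1 / 20 * (‖F‖ / ‖((σ : ℂ) + t * I)‖)) := h3
      _ ≤ 60 * X * (‖E‖ * (‖F‖ / ‖((σ : ℂ) + t * I)‖)) := by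
          refine mul_le_mul (by linarith) h4 (by positivity) (by positivity)
  have h5 : ‖F‖ ^ 2 ≤ 3600 * X ^ 2 * ‖E * (F / (σ + t * I))‖ ^ 2 := by
    calc ‖F‖ ^ 2 ≤ (60 * X * ‖E * (F / (σ + t * I))‖) ^ 2 :=
          pow_le_pow_left₀ (norm_nonneg _) hkey 2
      _ = _ := by ring
  rw [← ofReal_norm, ← ofReal_norm, ← ENNReal.ofReal_pow (norm_nonneg _),
    ← ENNReal.ofReal_pow (norm_nonneg _), ← ENNReal.ofReal_mul (by positivity)]
  exact ENNReal.ofReal_le_ofReal h5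

/-- the bound for a fixed ratio -/
theorem each (h1 : Y_PL) (h2 : T_MFC) {σ X θ : ℝ} {c : ℕ → ℂ} {Y : ℕ} (hY : 1 ≤ Y)
    (hσ : 1 / 2 ≤ σ) (hσ1 : σ < 1)
    (hX : 1 ≤ X) (hθ1 : 1 / (6 * X) ≤ θ) (hθ2 : θ ≤ 2 * (1 / (6 * X))) :
    ∫⁻ t in Icc X (2 * X), ‖riemannZeta (σ + t * I) * Pc c Y (σ + t * I) - c 1‖ₑ ^ 2 ≤
      ENNReal.ofReal (7200 * Real.pi * X ^ 2) *
        ∫⁻ t in Ioi (0 : ℝ), ENNReal.ofReal (t ^ (2 * σ - 1) * ‖Dc c Y θ t‖ ^ 2) := by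
  have hX0 : 0 < X := by linarith
  have hpi := Real.pi_pos
  have hθ0 : 0 < θ := by
    have h3 : 0 < 1 / (6 * X) := by positivity
    linarith
  have hh0 : 0 < Real.log (1 + θ) := Real.log_pos (by linarith)
  obtain ⟨hadm, -⟩ := h2 c Y (Real.log (1 + θ)) hY hh0
  have hP := h1 σ (by linarith) hσ1 _ hadm
  have hP' : ∫⁻ τ : ℝ, ‖mellin (fun t : ℝ => Dc c Y θ t) (σ + τ * I)‖ₑ ^ 2 =
      ENNReal.ofReal (2 * Real.pi) * ∫⁻ t in Ioi (0 : ℝ), ENNReal.ofReal (t ^ (2 * σ - 1)) *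
        ‖Dc c Y θ t‖ₑ ^ 2 := hP
  have hJ : ∫⁻ t in Ioi (0 : ℝ), ENNReal.ofReal (t ^ (2 * σ - 1)) *
        ‖Dc c Y θ t‖ₑ ^ 2 =
      ∫⁻ t in Ioi (0 : ℝ), ENNReal.ofReal (t ^ (2 * σ - 1) * ‖Dc c Y θ t‖ ^ 2) := by
    refine setLIntegral_congr_fun measurableSet_Ioi fun t ht => ?_
    have ht0 : 0 ≤ t ^ (2 * σ - 1) := Real.rpow_nonneg (le_of_lt ht) _
    show ENNReal.ofReal (t ^ (2 * σ - 1)) * ‖Dc c Y θ t‖ₑ ^ 2 =
      ENNReal.ofReal (t ^ (2 * σ - 1) * ‖Dc c Y θ t‖ ^ 2)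
    rw [ENNReal.ofReal_mul ht0, ← ofReal_norm, ← ENNReal.ofReal_pow (norm_nonneg _)]
  calc ∫⁻ t in Icc X (2 * X), ‖riemannZeta (σ + t * I) * Pc c Y (σ + t * I) - c 1‖ₑ ^ 2
      ≤ ∫⁻ t in Icc X (2 * X), ENNReal.ofReal (3600 * X ^ 2) *
        ‖mellin (fun t : ℝ => Dc c Y θ t) (σ + t * I)‖ₑ ^ 2 :=
        setLIntegral_mono' measurableSet_Icc fun t ht =>
          point h2 hY hσ hσ1 hX hθ1 hθ2 ht.1 ht.2
    _ ≤ ∫⁻ t : ℝ, ENNReal.ofReal (3600 * X ^ 2) *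
        ‖mellin (fun t : ℝ => Dc c Y θ t) (σ + t * I)‖ₑ ^ 2 :=
        setLIntegral_le_lintegral _ _
    _ = ENNReal.ofReal (3600 * X ^ 2) * ∫⁻ t : ℝ,
        ‖mellin (fun t : ℝ => Dc c Y θ t) (σ + t * I)‖ₑ ^ 2 :=
        lintegral_const_mul' _ _ ENNReal.ofReal_ne_top
    _ = ENNReal.ofReal (7200 * Real.pi * X ^ 2) *
        ∫⁻ t in Ioi (0 : ℝ), ENNReal.ofReal (t ^ (2 * σ - 1) * ‖Dc c Y θ t‖ ^ 2) := by
        rw [hP', hJ, ← mul_assoc, ← ENNReal.ofReal_mul (by positivity)]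
        congr 2
        ring

theorem yc_le (c : ℕ → ℂ) (Y : ℕ) (hY : 1 ≤ Y) : ‖yc c Y 0 1‖ ^ 2 ≤ SS c Y 0 := by
  unfold SS
  have h1 : (1 : ℕ) ∈ Finset.Icc 1 Y := Finset.mem_Icc.2 ⟨le_rfl, hY⟩
  have h2 := Finset.single_le_sum
    (f := fun q : ℕ => (q : ℝ) ^ ((1 : ℝ) + 0) * ‖yc c Y 0 q‖ ^ 2)
    (fun q _ => mul_nonneg (Real.rpow_nonneg (Nat.cast_nonneg q) _) (sq_nonneg _)) h1
  simpa using h2

/-- the final inequality -/
theorem fin_le {C₁ C₂ X σ y D S : ℝ} (hC₁ : 0 < C₁) (hC₂ : 0 < C₂) (hX : 4 ≤ X)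
    (hD : 0 ≤ D) (hS : 0 ≤ S) (hy : 0 ≤ y) (hyX : y ^ 20 ≤ X) :
    7200 * Real.pi * X ^ 2 * (C₁ * (X⁻¹ * D + S * X⁻¹ ^ 2 * X ^ (2 - 2 * σ)) +
      C₂ * (1 / (6 * X) * X ^ (1 - 2 * σ) * (1 + Real.log X) * S + y ^ 10 / X ^ 2)) ≤
    7200 * Real.pi * (C₁ + C₂) * X *
      (D + X ^ (-(2 * σ - 1)) * (1 + Real.log X) * S + X ^ (-(1 / 2) : ℝ)) := by
  have hX0 : 0 < X := by linarith
  have hpi := Real.pi_pos
  have hlX : 0 ≤ Real.log X := Real.log_nonneg (by linarith)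
  have hl1 : 1 ≤ 1 + Real.log X := by linarith
  set l : ℝ := 1 + Real.log X with hl
  set Q : ℝ := X ^ (-(2 * σ - 1)) with hQ
  have hQ0 : 0 < Q := by rw [hQ]; positivity
  have e1 : X ^ (2 - 2 * σ) = X * Q := by
    rw [hQ, show 2 - 2 * σ = 1 + -(2 * σ - 1) by ring, Real.rpow_add hX0, Real.rpow_one]
  have e2 : X ^ (1 - 2 * σ) = Q := by
    rw [hQ]
    ring_nf
  set H : ℝ := X ^ (-(1 / 2) : ℝ) with hH
  have hH0 : 0 < H := by rw [hH]; positivity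
  have e3 : y ^ 10 ≤ X * H := by
    have e4 : X * H = X ^ ((1 : ℝ) / 2) := by
      rw [hH]
      nth_rewrite 1 [← Real.rpow_one X]
      rw [← Real.rpow_add hX0]
      norm_num
    have e5 : (X * H) ^ 2 = X := by
      rw [e4, ← Real.rpow_natCast, ← Real.rpow_mul hX0.le]
      norm_num
    have e6 : (y ^ 10) ^ 2 ≤ (X * H) ^ 2 := by
      rw [e5, ← pow_mul]
      exact hyX
    exact le_of_sq_le_sq e6 (by positivity)
  rw [e1, e2]
  have t1 : X ^ 2 * (X⁻¹ * D) = X * D := by field_simp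
  have t2 : X ^ 2 * (S * X⁻¹ ^ 2 * (X * Q)) ≤ X * (Q * l * S) := by
    calc X ^ 2 * (S * X⁻¹ ^ 2 * (X * Q)) = X * (Q * 1 * S) := by field_simp
      _ ≤ X * (Q * l * S) := by gcongr
  have t3 : X ^ 2 * (1 / (6 * X) * Q * l * S) ≤ X * (Q * l * S) := by
    have h0 : 0 ≤ X * (Q * l * S) := by positivity
    calc X ^ 2 * (1 / (6 * X) * Q * l * S) = 1 / 6 * (X * (Q * l * S)) := by field_simp
      _ ≤ X * (Q * l * S) := by linarith
  have t4 : X ^ 2 * (y ^ 10 / X ^ 2) ≤ X * H := by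
    calc X ^ 2 * (y ^ 10 / X ^ 2) = y ^ 10 := by field_simp
      _ ≤ X * H := e3
  have hXD : 0 ≤ X * D := by positivity
  have hXH : 0 ≤ X * H := by positivity
  calc 7200 * Real.pi * X ^ 2 * (C₁ * (X⁻¹ * D + S * X⁻¹ ^ 2 * (X * Q)) +
        C₂ * (1 / (6 * X) * Q * l * S + y ^ 10 / X ^ 2))
      = 7200 * Real.pi * (C₁ * (X ^ 2 * (X⁻¹ * D) + X ^ 2 * (S * X⁻¹ ^ 2 * (X * Q))) +
        C₂ * (X ^ 2 * (1 / (6 * X) * Q * l * S) + X ^ 2 * (y ^ 10 / X ^ 2))) := by ring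
    _ ≤ 7200 * Real.pi * (C₁ * (X * D + X * (Q * l * S) + X * H) +
        C₂ * (X * D + X * (Q * l * S) + X * H)) := by
        have u1 : X ^ 2 * (X⁻¹ * D) + X ^ 2 * (S * X⁻¹ ^ 2 * (X * Q)) ≤
            X * D + X * (Q * l * S) + X * H := by linarith
        have u2 : X ^ 2 * (1 / (6 * X) * Q * l * S) + X ^ 2 * (y ^ 10 / X ^ 2) ≤
            X * D + X * (Q * l * S) + X * H := by linarith
        gcongr
    _ = 7200 * Real.pi * (C₁ + C₂) * X * (D + Q * l * S + H) := by ring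

lemma continuous_Pc (c : ℕ → ℂ) (Y : ℕ) : Continuous (Pc c Y) := by
  unfold Pc
  refine continuous_finsetSum _ fun n hn => ?_
  have hn1 : 1 ≤ n := (Finset.mem_Icc.mp hn).1
  refine continuous_const.mul ?_
  have hn0 : (n : ℂ) ≠ 0 := by exact_mod_cast (by omega : n ≠ 0)
  exact continuous_neg.const_cpow (Or.inl hn0)

lemma continuous_F (c : ℕ → ℂ) (Y : ℕ) (σ : ℝ) (hσ : σ ≠ 1) :
    Continuous (fun u : ℝ => riemannZeta (σ + u * I) * Pc c Y (σ + u * I) - c 1) := by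
  have h1 : Continuous (fun u : ℝ => (σ : ℂ) + u * I) := by fun_prop
  have h2 : Continuous (fun u : ℝ => riemannZeta (σ + u * I)) := by
    rw [continuous_iff_continuousAt]
    intro u
    have hne : (σ : ℂ) + u * I ≠ 1 := by
      intro h
      have h4 := congrArg Complex.re h
      simp at h4
      exact hσ h4
    exact ContinuousAt.comp (f := fun u : ℝ => (σ : ℂ) + u * I)
      (differentiableAt_riemannZeta hne).continuousAt h1.continuousAt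
  exact (h2.mul ((continuous_Pc c Y).comp h1)).sub continuous_const

end GMS_

open GMS_ in
open Pool.Agent.DBB.MM2_ (avg) in
theorem p_GMS (h1 : Pool.Agent.DBC.Y_PL) (h2 : T_MFC) (h3 : T_LTC) (h4 : T_LTD) : T_GMS := by
  obtain ⟨C₁, hC₁, hL1⟩ := h3
  obtain ⟨C₂, hC₂, hL2⟩ := h4
  have hpi := Real.pi_pos
  refine ⟨7200 * Real.pi * (C₁ + C₂), by positivity, ?_⟩
  intro c Y X σ hY hX hYX hσ hσ1 hck
  have hX0 : 0 < X := by linarith
  have hY1 : (1 : ℝ) ≤ Y := by exact_mod_cast hY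
  have hlX : 0 ≤ Real.log X := Real.log_nonneg (by linarith)
  have hS2 := yc_le c Y hY
  set S : ℝ := SS c Y 0 with hS
  have hS0 : 0 ≤ S := le_trans (sq_nonneg _) hS2
  set D : ℝ := ∑ n ∈ Finset.Icc 2 ⌊2 * X⌋₊, ‖al c Y n‖ ^ 2 * (n : ℝ) ^ (-(2 * σ)) with hD
  have hD0 : 0 ≤ D := Finset.sum_nonneg fun n _ =>
    mul_nonneg (sq_nonneg _) (Real.rpow_nonneg (Nat.cast_nonneg n) _)
  have hA : ∫⁻ t in Icc X (2 * X), ‖riemannZeta (σ + t * I) * Pc c Y (σ + t * I) - c 1‖ₑ ^ 2 ≤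
      ENNReal.ofReal (7200 * Real.pi * X ^ 2 *
        (C₁ * (X⁻¹ * D + S * X⁻¹ ^ 2 * X ^ (2 - 2 * σ)) +
        C₂ * (1 / (6 * X) * X ^ (1 - 2 * σ) * (1 + Real.log X) * S +
          (Y : ℝ) ^ 10 / X ^ 2))) := by
    refine avg (X := X) (θ₀ := 1 / (6 * X)) (by positivity) (by positivity) (by positivity)
      (by positivity) _ (fun θ t => ENNReal.ofReal (t ^ (2 * σ - 1) * ‖Dc c Y θ t‖ ^ 2))
      (fun θ hθ => each h1 h2 hY hσ (by linarith) (by linarith) hθ.1 hθ.2)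
      (fun θ hθ => ?_) ?_
    · have hθ0 : 0 < θ := lt_of_lt_of_le (by positivity) hθ.1
      have hθX : θ ≤ X⁻¹ := by
        refine hθ.2.trans ?_
        rw [inv_eq_one_div, ← mul_div_assoc, div_le_div_iff₀ (by positivity) hX0]
        linarith
      have h3X : 3 * θ * X ≤ 1 := by
        have e1 : 3 * (2 * (1 / (6 * X))) * X = 1 := by
          field_simp
          norm_num
        rw [← e1]
        have := hθ.2
        gcongr
      refine (hL1 c Y X θ σ hY (by linarith) hθ0 h3X hσ hσ1).trans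
        (ENNReal.ofReal_le_ofReal ?_)
      refine mul_le_mul_of_nonneg_left (add_le_add ?_ ?_) hC₁.le
      · gcongr
      · gcongr
    · have h6 : 1 / (6 * X) ≤ 1 := by
        rw [div_le_one (by positivity)]
        linarith
      refine (hL2 c Y X (1 / (6 * X)) σ hY (by linarith) (by positivity) h6 hσ hσ1 hck).trans
        (le_of_eq ?_)
      congr 1
      ring
  have hfin := hA.trans (ENNReal.ofReal_le_ofReal
    (fin_le hC₁ hC₂ hX hD0 hS0 (by linarith) hYX))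
  have hcont := continuous_F c Y σ (by linarith)
  have hgoal : (∫ τ in X..(2 * X), ‖riemannZeta (σ + τ * I) * Pc c Y (σ + τ * I) - c 1‖ ^ 2) ≤
      7200 * Real.pi * (C₁ + C₂) * X *
        (D + X ^ (-(2 * σ - 1)) * (1 + Real.log X) * S + X ^ (-(1 / 2) : ℝ)) := by
    have hm : Continuous (fun τ : ℝ =>
        ‖riemannZeta (σ + τ * I) * Pc c Y (σ + τ * I) - c 1‖ ^ 2) := hcont.norm.pow 2
    rw [intervalIntegral.integral_of_le (by linarith), integral_eq_lintegral_of_nonneg_ae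
      (Eventually.of_forall fun τ => sq_nonneg _) hm.aestronglyMeasurable]
    refine ENNReal.toReal_le_of_le_ofReal (by positivity) (le_trans ?_ hfin)
    refine (lintegral_mono_set Ioc_subset_Icc_self).trans (le_of_eq ?_)
    refine lintegral_congr fun τ => ?_
    rw [← ofReal_norm, ENNReal.ofReal_pow (norm_nonneg _)]
  exact hgoal

end Pool.Agent.DBS
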