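import Pool.Agent.DBS.Targets

/-!
# DBS, target `T_GXD`: the difference of `Gc c Y` for the ratio `1 + θ`
-/

set_option autoImplicit false

namespace Pool.Agent.DBS

open Complex MeasureTheory Set Filter
open Pool.Agent.DBN Pool.Agent.DBC Pool.Agent.DBB
open scoped ENNReal

namespace GXD_

/-- the linear coefficient -/
noncomputable def cC (c : ℕ → ℂ) (Y : ℕ) : ℂ := ∑ k ∈ Finset.Icc 1 Y, c k / k

theorem yc_eq (c : ℕ → ℂ) (Y : ℕ) : yc c Y 0 1 = cC c Y := by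
  unfold yc cC
  rw [Finset.filter_true_of_mem (fun k _ => one_dvd k)]
  refine Finset.sum_congr rfl fun k _ => ?_
  have e : (-(1 + ((0 : ℝ) : ℂ))) = -1 := by simp
  rw [e, Complex.cpow_neg_one, div_eq_mul_inv]

theorem al_one (c : ℕ → ℂ) {Y : ℕ} (hY : 1 ≤ Y) : al c Y 1 = c 1 := by
  unfold al
  have h : (Finset.Icc 1 Y).filter (fun d => d ∣ 1) = {1} := by
    ext d
    simp only [Finset.mem_filter, Finset.mem_Icc, Nat.dvd_one, Finset.mem_singleton]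
    constructor
    · exact fun h => h.2
    · rintro rfl
      exact ⟨⟨le_rfl, hY⟩, rfl⟩
  rw [h, Finset.sum_singleton]

theorem sum_al (c : ℕ → ℂ) (Y N : ℕ) : ∑ n ∈ Finset.Icc 1 N, al c Y n =
    ∑ k ∈ Finset.Icc 1 Y, c k * ((N / k : ℕ) : ℂ) := by
  unfold al
  simp only [Finset.sum_filter]
  rw [Finset.sum_comm]
  refine Finset.sum_congr rfl fun k _ => ?_
  rw [← Finset.sum_filter, Finset.sum_const, nsmul_eq_mul, mul_comm]
  congr 2
  rw [← Nat.Ioc_filter_dvd_card_eq_div]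
  congr 1

theorem Gc_eq (c : ℕ → ℂ) {Y : ℕ} {x : ℝ} (hY : 1 ≤ Y) (hx : 0 < x) :
    Gc c Y (1 / x) = -(cC c Y * x) + ∑ n ∈ Finset.Icc 2 ⌊x⌋₊, al c Y n := by
  have h1 : ∑ k ∈ Finset.Icc 1 Y, c k * ((Int.fract (1 / (k * (1 / x))) : ℝ) : ℂ) =
      cC c Y * x - ∑ n ∈ Finset.Icc 1 ⌊x⌋₊, al c Y n := by
    rw [sum_al, cC, Finset.sum_mul, ← Finset.sum_sub_distrib]
    refine Finset.sum_congr rfl fun k hk => ?_
    rw [Finset.mem_Icc] at hk
    have hk0 : (0 : ℝ) < k := by exact_mod_cast hk.1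
    have e1 : 1 / ((k : ℝ) * (1 / x)) = x / k := by
      field_simp
    have e2 : ((⌊x / (k : ℝ)⌋ : ℤ) : ℝ) = ((⌊x⌋₊ / k : ℕ) : ℝ) := by
      rw [← natCast_floor_eq_intCast_floor (by positivity), Nat.floor_div_natCast]
    have e3 : ((Int.fract (1 / (k * (1 / x))) : ℝ) : ℂ) =
        (x : ℂ) / k - ((⌊x⌋₊ / k : ℕ) : ℂ) := by
      rw [e1, Int.fract, e2]
      push_cast
      rfl
    rw [e3]
    ring
  unfold Gc
  rw [h1]
  by_cases hx1 : x < 1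
  · have h2 : ¬ (1 / x ≤ 1) := by
      rw [not_le, one_lt_div hx]
      exact hx1
    have h3 : ⌊x⌋₊ = 0 := Nat.floor_eq_zero.2 hx1
    rw [if_neg h2, h3]
    simp
  · push Not at hx1
    have h2 : 1 / x ≤ 1 := by
      rw [div_le_one hx]
      exact hx1
    have h3 : 1 ≤ ⌊x⌋₊ := (Nat.one_le_floor_iff x).2 hx1
    have h4 : Finset.Icc 1 ⌊x⌋₊ = insert 1 (Finset.Icc 2 ⌊x⌋₊) := by
      ext n
      simp only [Finset.mem_Icc, Finset.mem_insert]
      omega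
    rw [if_pos h2, h4, Finset.sum_insert (by simp), al_one c hY]
    ring

theorem norm_add_sq_le (a b : ℂ) : ‖a + b‖ ^ 2 ≤ 2 * ‖a‖ ^ 2 + 2 * ‖b‖ ^ 2 := by
  have h1 := norm_add_le a b
  have h2 : ‖a + b‖ ^ 2 ≤ (‖a‖ + ‖b‖) ^ 2 := pow_le_pow_left₀ (norm_nonneg _) h1 2
  nlinarith [sq_nonneg (‖a‖ - ‖b‖)]

end GXD_

open GXD_ in
theorem p_GXD : T_GXD := by
  intro c Y X θ t hY hX hh0 hh ht
  have hX0 : 0 < X := by linarith
  have ht0 : 0 < t := lt_of_lt_of_le (by positivity) ht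
  obtain ⟨x, hx⟩ : ∃ x : ℝ, x = 1 / t := ⟨_, rfl⟩
  obtain ⟨x', hx'⟩ : ∃ x' : ℝ, x' = x * (1 + θ) := ⟨_, rfl⟩
  have hx0 : 0 < x := by
    rw [hx]
    positivity
  have hxX : x ≤ X := by
    rw [hx, div_le_iff₀ ht0]
    rw [div_le_iff₀ hX0] at ht
    linarith
  have hx'0 : 0 < x' := by
    rw [hx']
    positivity
  have hd : x' - x = θ * x := by
    rw [hx']
    ring
  have hd0 : 0 ≤ x' - x := by
    rw [hd]
    positivity
  have hθx : θ * x ≤ θ * X := mul_le_mul_of_nonneg_left hxX hh0.le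
  have hd2 : x' - x ≤ 1 / 3 := by
    rw [hd]
    linarith
  have e1 : t = 1 / x := by
    rw [hx]
    field_simp
  have e2 : Real.exp (-Real.log (1 + θ)) * t = 1 / x' := by
    rw [hx', Real.exp_neg, Real.exp_log (by linarith), e1]
    field_simp
  have e3 : Gc c Y t = -(cC c Y * x) + ∑ n ∈ Finset.Icc 2 ⌊x⌋₊, al c Y n := by
    rw [e1]
    exact Gc_eq c hY hx0
  have e4 : Gc c Y (Real.exp (-Real.log (1 + θ)) * t) =
      -(cC c Y * x') + ∑ n ∈ Finset.Icc 2 ⌊x'⌋₊, al c Y n := by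
    rw [e2]
    exact Gc_eq c hY hx'0
  obtain ⟨a, ha⟩ : ∃ a : ℂ, a = ∑ n ∈ Finset.Icc 2 ⌊x'⌋₊, al c Y n -
      ∑ n ∈ Finset.Icc 2 ⌊x⌋₊, al c Y n := ⟨_, rfl⟩
  have e5 : Dc c Y θ t = a + -(cC c Y * ((x' - x : ℝ) : ℂ)) := by
    rw [Dc, e3, e4, ha]
    push_cast
    ring
  have hb : ‖-(cC c Y * ((x' - x : ℝ) : ℂ))‖ ^ 2 = (‖yc c Y 0 1‖ * θ / t) ^ 2 := by
    congr 1
    rw [norm_neg, norm_mul, Complex.norm_real, Real.norm_eq_abs, abs_of_nonneg hd0, hd, yc_eq, hx]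
    ring
  have hsum0 : ∀ n ∈ Finset.Icc 2 ⌊2 * X⌋₊, 0 ≤ ‖al c Y n‖ ^ 2 *
      (if 1 / (n : ℝ) < t ∧ t ≤ (1 + θ) / n then (1 : ℝ) else 0) := by
    intro n _
    split_ifs <;> positivity
  have haa : ‖a‖ ^ 2 ≤ ∑ n ∈ Finset.Icc 2 ⌊2 * X⌋₊, ‖al c Y n‖ ^ 2 *
      (if 1 / (n : ℝ) < t ∧ t ≤ (1 + θ) / n then 1 else 0) := by
    have hf1 : ⌊x⌋₊ ≤ ⌊x'⌋₊ := Nat.floor_le_floor (by linarith)
    have hf2 : ⌊x'⌋₊ ≤ ⌊x⌋₊ + 1 := by
      have g1 : x' < ((⌊x⌋₊ + 1 + 1 : ℕ) : ℝ) := by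
        have := Nat.lt_floor_add_one x
        push_cast
        linarith
      have g2 := (Nat.floor_lt hx'0.le).2 g1
      omega
    rcases Nat.lt_or_ge ⌊x⌋₊ ⌊x'⌋₊ with hlt | hge
    · have hN : ⌊x'⌋₊ = ⌊x⌋₊ + 1 := by omega
      rcases Nat.eq_zero_or_pos ⌊x⌋₊ with h0 | h0
      · have ha0 : a = 0 := by
          rw [ha, hN, h0]
          simp
        rw [ha0]
        have := Finset.sum_nonneg hsum0
        simpa using this
      · have ha1 : a = al c Y (⌊x⌋₊ + 1) := by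
          rw [ha, hN, Finset.sum_Icc_succ_top (by omega)]
          ring
        have hn1 : ((⌊x⌋₊ + 1 : ℕ) : ℝ) ≤ x' := by
          rw [← hN]
          exact Nat.floor_le hx'0.le
        have hn2 : x < ((⌊x⌋₊ + 1 : ℕ) : ℝ) := by
          have := Nat.lt_floor_add_one x
          push_cast
          exact this
        have hn0 : (0 : ℝ) < ((⌊x⌋₊ + 1 : ℕ) : ℝ) := by positivity
        have hmem : ⌊x⌋₊ + 1 ∈ Finset.Icc 2 ⌊2 * X⌋₊ := by
          rw [Finset.mem_Icc]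
          refine ⟨by omega, Nat.le_floor ?_⟩
          linarith
        have hc : 1 / ((⌊x⌋₊ + 1 : ℕ) : ℝ) < t ∧ t ≤ (1 + θ) / ((⌊x⌋₊ + 1 : ℕ) : ℝ) := by
          constructor
          · rw [e1]
            exact one_div_lt_one_div_of_lt hx0 hn2
          · rw [e1, div_le_div_iff₀ hx0 hn0, one_mul]
            rw [hx'] at hn1
            linarith
        have hs := Finset.single_le_sum hsum0 hmem
        rw [if_pos hc, mul_one] at hs
        rw [ha1]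
        exact hs
    · have hN : ⌊x'⌋₊ = ⌊x⌋₊ := le_antisymm hge hf1
      have ha0 : a = 0 := by
        rw [ha, hN]
        ring
      rw [ha0]
      have := Finset.sum_nonneg hsum0
      simpa using this
  rw [e5]
  refine (norm_add_sq_le _ _).trans ?_
  rw [hb]
  linarith

end Pool.Agent.DBS
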