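import Pool.Agent.DBS.Targets

/-!
# DBS: the inversion of Selberg's weights (`T_INV`)
-/

set_option autoImplicit false

namespace Pool.Agent.DBS

namespace INV_

/-- `μ(k) k^w` -/
noncomputable def D (w : ℂ) : ArithmeticFunction ℂ :=
  ⟨fun k => ((ArithmeticFunction.moebius k : ℤ) : ℂ) * (k : ℂ) ^ w, by simp⟩

lemma D_apply (w : ℂ) (k : ℕ) :
    D w k = ((ArithmeticFunction.moebius k : ℤ) : ℂ) * (k : ℂ) ^ w := rfl

lemma D_mult (w : ℂ) : (D w).IsMultiplicative := by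
  refine ⟨by simp [D_apply], ?_⟩
  intro m n h
  rw [D_apply, D_apply, D_apply,
    ArithmeticFunction.isMultiplicative_moebius.map_mul_of_coprime h]
  push_cast
  rw [Complex.natCast_mul_natCast_cpow]
  ring

lemma mu_sf (n : ℕ) (hn : Squarefree n) :
    ((ArithmeticFunction.moebius n : ℤ) : ℂ) = ∏ _p ∈ n.primeFactors, (-1 : ℂ) := by
  rw [ArithmeticFunction.moebius_apply_of_squarefree hn, Finset.prod_const]
  push_cast
  congr 1
  rw [← ArithmeticFunction.cardDistinctFactors_eq_cardFactors_iff_squarefree hn.ne_zero |>.mpr hn]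
  rfl

lemma dsum (w : ℂ) (n : ℕ) (hn : Squarefree n) :
    ∑ d ∈ n.divisors, ((ArithmeticFunction.moebius (n / d) : ℤ) : ℂ) * (d : ℂ) ^ w =
      ∏ p ∈ n.primeFactors, ((p : ℂ) ^ w - 1) := by
  have h1 := (D_mult w).prodPrimeFactors_one_add_of_squarefree hn
  have h2 : ∏ p ∈ n.primeFactors, ((p : ℂ) ^ w - 1) =
      ((ArithmeticFunction.moebius n : ℤ) : ℂ) * ∏ p ∈ n.primeFactors, (1 + D w p) := by
    rw [mu_sf n hn, ← Finset.prod_mul_distrib]
    apply Finset.prod_congr rfl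
    intro p hp
    rw [D_apply, ArithmeticFunction.moebius_apply_prime (Nat.prime_of_mem_primeFactors hp)]
    push_cast
    ring
  rw [h2, h1, Finset.mul_sum]
  apply Finset.sum_congr rfl
  intro d hd
  obtain ⟨e, rfl⟩ := Nat.dvd_of_mem_divisors hd
  have hd0 : 0 < d := Nat.pos_of_mem_divisors hd
  have hco : Nat.Coprime d e := Nat.coprime_of_squarefree_mul hn
  have hsd : Squarefree d := hn.of_mul_left
  have hsq : ((ArithmeticFunction.moebius d : ℤ) : ℂ) * ((ArithmeticFunction.moebius d : ℤ) : ℂ)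
      = 1 := by
    have h3 : (ArithmeticFunction.moebius d : ℤ) * (ArithmeticFunction.moebius d : ℤ) = 1 := by
      rw [← sq]
      exact ArithmeticFunction.moebius_sq_eq_one_of_squarefree hsd
    exact_mod_cast h3
  rw [D_apply, ArithmeticFunction.isMultiplicative_moebius.map_mul_of_coprime hco,
    Nat.mul_div_cancel_left e hd0]
  push_cast
  linear_combination (-((ArithmeticFunction.moebius e : ℤ) : ℂ) * (d : ℂ) ^ w) * hsq

lemma inner (w : ℂ) (Y q r : ℕ) (hq : 1 ≤ q) (hr1 : 1 ≤ r) (hrY : r ≤ Y) (hqr : q ∣ r)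
    (hr : Squarefree r) :
    ∑ k ∈ (Finset.Icc 1 Y).filter (fun k => q ∣ k ∧ k ∣ r),
      ((ArithmeticFunction.moebius (r / k) : ℤ) : ℂ) * (k : ℂ) ^ w =
    (q : ℂ) ^ w * ∏ p ∈ (r / q).primeFactors, ((p : ℂ) ^ w - 1) := by
  obtain ⟨n, rfl⟩ := hqr
  have hq0 : 0 < q := hq
  have hn0 : n ≠ 0 := by
    rintro rfl
    simp at hr1
  rw [Nat.mul_div_cancel_left n hq0, ← dsum w n hr.of_mul_right, Finset.mul_sum]
  symm
  apply Finset.sum_bij (fun d _ => q * d)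
  · intro d hd
    have hdn := Nat.dvd_of_mem_divisors hd
    have hd0 := Nat.pos_of_mem_divisors hd
    rw [Finset.mem_filter, Finset.mem_Icc]
    refine ⟨⟨Nat.mul_pos hq0 hd0, ?_⟩, Dvd.intro d rfl, Nat.mul_dvd_mul_left q hdn⟩
    exact (Nat.mul_le_mul_left q (Nat.le_of_dvd (Nat.pos_of_ne_zero hn0) hdn)).trans hrY
  · intro a _ b _ hab
    exact Nat.eq_of_mul_eq_mul_left hq0 hab
  · intro k hk
    rw [Finset.mem_filter] at hk
    obtain ⟨d, rfl⟩ := hk.2.1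
    refine ⟨d, ?_, rfl⟩
    rw [Nat.mem_divisors]
    exact ⟨Nat.dvd_of_mul_dvd_mul_left hq0 hk.2.2, hn0⟩
  · intro d _
    rw [Nat.mul_div_mul_left n d hq0]
    push_cast
    rw [Complex.natCast_mul_natCast_cpow]
    ring

lemma zf_zero (δ : ℝ) (Y r : ℕ) (hr : ¬ Squarefree r) : zf δ Y r = 0 := by
  unfold zf
  rw [ArithmeticFunction.moebius_eq_zero_of_not_squarefree hr]
  simp

lemma term (δ : ℝ) (Y k : ℕ) (w : ℂ) (hk : 1 ≤ k) :
    (la δ Y k : ℂ) * (k : ℂ) ^ (w - (1 + (δ : ℂ))) =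
      ∑ r ∈ (Finset.Icc 1 Y).filter (fun r => k ∣ r),
        (zf δ Y r : ℂ) * (((ArithmeticFunction.moebius (r / k) : ℤ) : ℂ) * (k : ℂ) ^ w) := by
  have hk0 : (k : ℂ) ≠ 0 := by
    exact_mod_cast (by omega : k ≠ 0)
  have h1 : (((k : ℝ) ^ (1 + δ) : ℝ) : ℂ) * (k : ℂ) ^ (w - (1 + (δ : ℂ))) = (k : ℂ) ^ w := by
    rw [Complex.ofReal_cpow (Nat.cast_nonneg k)]
    push_cast
    rw [← Complex.cpow_add _ _ hk0]
    congr 1
    ring
  unfold la
  rw [Complex.ofReal_mul, mul_right_comm, h1, Complex.ofReal_sum, Finset.mul_sum]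
  apply Finset.sum_congr rfl
  intro r _
  push_cast
  ring

end INV_

theorem p_INV : T_INV := by
  intro δ Y q w _ hq
  have h1 : ∑ k ∈ (Finset.Icc 1 Y).filter (fun k => q ∣ k),
      (la δ Y k : ℂ) * (k : ℂ) ^ (w - (1 + (δ : ℂ))) =
      ∑ k ∈ (Finset.Icc 1 Y).filter (fun k => q ∣ k),
        ∑ r ∈ (Finset.Icc 1 Y).filter (fun r => k ∣ r),
        (zf δ Y r : ℂ) * (((ArithmeticFunction.moebius (r / k) : ℤ) : ℂ) * (k : ℂ) ^ w) := by
    apply Finset.sum_congr rfl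
    intro k hk
    rw [Finset.mem_filter, Finset.mem_Icc] at hk
    exact INV_.term δ Y k w hk.1.1
  have h2 : ∑ k ∈ (Finset.Icc 1 Y).filter (fun k => q ∣ k),
        ∑ r ∈ (Finset.Icc 1 Y).filter (fun r => k ∣ r),
        (zf δ Y r : ℂ) * (((ArithmeticFunction.moebius (r / k) : ℤ) : ℂ) * (k : ℂ) ^ w) =
      ∑ r ∈ (Finset.Icc 1 Y).filter (fun r => q ∣ r),
        ∑ k ∈ (Finset.Icc 1 Y).filter (fun k => q ∣ k ∧ k ∣ r),
        (zf δ Y r : ℂ) * (((ArithmeticFunction.moebius (r / k) : ℤ) : ℂ) * (k : ℂ) ^ w) := by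
    apply Finset.sum_comm'
    intro k r
    simp only [Finset.mem_filter]
    constructor
    · rintro ⟨⟨h1, h2⟩, h3, h4⟩
      exact ⟨⟨h1, h2, h4⟩, h3, h2.trans h4⟩
    · rintro ⟨⟨h1, h2, h4⟩, h3, _⟩
      exact ⟨⟨h1, h2⟩, h3, h4⟩
  rw [h1, h2]
  apply Finset.sum_congr rfl
  intro r hr
  rw [Finset.mem_filter, Finset.mem_Icc] at hr
  rw [← Finset.mul_sum]
  by_cases hs : Squarefree r
  · rw [INV_.inner w Y q r hq hr.1.1 hr.1.2 hr.2 hs]
  · rw [INV_.zf_zero δ Y r hs]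
    simp

end Pool.Agent.DBS
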