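import Pool.Agent.DBS.Targets

/-!
# Selberg's weights: the first weight and a bound

(MP_4e5e8a_nt, project DBS, target LA1.)
-/

set_option autoImplicit false

namespace Pool.Agent.DBS

open Complex MeasureTheory Set Filter

namespace LA1_

lemma Jf_pos {δ : ℝ} (hδ : 0 < δ) (r : ℕ) : 0 < Jf δ r := by
  unfold Jf
  refine Finset.prod_pos fun p hp => ?_
  have h1 : (1 : ℝ) < p := by exact_mod_cast (Nat.prime_of_mem_primeFactors hp).one_lt
  have h2 := Real.one_lt_rpow h1 (by linarith : (0 : ℝ) < 1 + δ)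
  linarith

lemma term_nonneg {δ : ℝ} (hδ : 0 < δ) (r : ℕ) :
    0 ≤ ((ArithmeticFunction.moebius r : ℤ) : ℝ) ^ 2 / Jf δ r :=
  div_nonneg (sq_nonneg _) (Jf_pos hδ r).le

lemma Gf_ge {δ : ℝ} (hδ : 0 < δ) {Y : ℕ} (hY : 1 ≤ Y) : 1 ≤ Gf δ Y := by
  unfold Gf
  have h1 := Finset.single_le_sum (s := Finset.Icc 1 Y)
    (f := fun r : ℕ => ((ArithmeticFunction.moebius r : ℤ) : ℝ) ^ 2 / Jf δ r)
    (fun r _ => term_nonneg hδ r) (Finset.mem_Icc.2 ⟨le_rfl, hY⟩)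
  have h2 : ((ArithmeticFunction.moebius 1 : ℤ) : ℝ) ^ 2 / Jf δ 1 = 1 := by
    unfold Jf
    simp
  linarith

lemma abs_mu (r : ℕ) : |((ArithmeticFunction.moebius r : ℤ) : ℝ)| =
    ((ArithmeticFunction.moebius r : ℤ) : ℝ) ^ 2 := by
  rcases ArithmeticFunction.moebius_eq_or r with h | h | h <;> simp [h]

lemma abs_mu_le (r : ℕ) : |((ArithmeticFunction.moebius r : ℤ) : ℝ)| ≤ 1 := by
  rcases ArithmeticFunction.moebius_eq_or r with h | h | h <;> simp [h]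

/-- The absolute value of `zf`. -/
lemma abs_zf {δ : ℝ} (hδ : 0 < δ) {Y : ℕ} (hY : 1 ≤ Y) (r : ℕ) :
    |zf δ Y r| = ((ArithmeticFunction.moebius r : ℤ) : ℝ) ^ 2 / Jf δ r / Gf δ Y := by
  have h1 := Jf_pos hδ r
  have h2 : 0 < Gf δ Y := lt_of_lt_of_le one_pos (Gf_ge hδ hY)
  unfold zf
  rw [abs_div, abs_mu, abs_of_pos (mul_pos h1 h2), div_div]

lemma sum_abs_zf {δ : ℝ} (hδ : 0 < δ) {Y : ℕ} (hY : 1 ≤ Y) :
    ∑ r ∈ Finset.Icc 1 Y, |zf δ Y r| = 1 := by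
  rw [Finset.sum_congr rfl fun r _ => abs_zf hδ hY r, ← Finset.sum_div]
  exact div_self (lt_of_lt_of_le one_pos (Gf_ge hδ hY)).ne'

end LA1_

open LA1_ in
theorem p_LA1 : T_LA1 := by
  intro δ Y hδ hY
  constructor
  · unfold la
    have h1 : ∀ r ∈ (Finset.Icc 1 Y).filter (fun r => 1 ∣ r),
        ((ArithmeticFunction.moebius (r / 1) : ℤ) : ℝ) * zf δ Y r = |zf δ Y r| := by
      intro r _
      rw [abs_zf hδ hY, Nat.div_one]
      unfold zf
      rw [div_div]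
      ring
    rw [Finset.sum_congr rfl h1, Finset.filter_true_of_mem fun r _ => one_dvd r,
      sum_abs_zf hδ hY]
    simp
  · intro k _
    unfold la
    have hk : 0 ≤ (k : ℝ) ^ (1 + δ) := Real.rpow_nonneg (Nat.cast_nonneg _) _
    rw [abs_mul, abs_of_nonneg hk]
    have h1 : |∑ r ∈ (Finset.Icc 1 Y).filter (fun r => k ∣ r),
        ((ArithmeticFunction.moebius (r / k) : ℤ) : ℝ) * zf δ Y r| ≤ 1 := by
      refine (Finset.abs_sum_le_sum_abs _ _).trans ?_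
      have h2 : ∑ r ∈ (Finset.Icc 1 Y).filter (fun r => k ∣ r),
          |((ArithmeticFunction.moebius (r / k) : ℤ) : ℝ) * zf δ Y r| ≤
          ∑ r ∈ (Finset.Icc 1 Y).filter (fun r => k ∣ r), |zf δ Y r| := by
        refine Finset.sum_le_sum fun r _ => ?_
        rw [abs_mul]
        exact mul_le_of_le_one_left (abs_nonneg _) (abs_mu_le _)
      refine h2.trans ((Finset.sum_le_sum_of_subset_of_nonneg (Finset.filter_subset _ _)
        fun r _ _ => abs_nonneg _).trans (sum_abs_zf hδ hY).le)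
    calc (k : ℝ) ^ (1 + δ) * |∑ r ∈ (Finset.Icc 1 Y).filter (fun r => k ∣ r),
        ((ArithmeticFunction.moebius (r / k) : ℤ) : ℝ) * zf δ Y r| ≤ (k : ℝ) ^ (1 + δ) * 1 :=
          mul_le_mul_of_nonneg_left h1 hk
      _ = (k : ℝ) ^ (1 + δ) := mul_one _

end Pool.Agent.DBS
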