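import Pool.Agent.DBS.Targets
import Pool.Agent.DBB.P_LT3

/-!
# Target LTD: the mean square for small `t`
-/

set_option autoImplicit false

namespace Pool.Agent.DBS

open Complex MeasureTheory Set Filter
open Pool.Agent.DBN Pool.Agent.DBC Pool.Agent.DBB
open scoped ENNReal

namespace LTD_

/-- the sum over `k` -/
noncomputable def EC (c : ℕ → ℂ) (Y : ℕ) (H x : ℝ) : ℂ :=
  ∑ k ∈ Finset.Icc 1 Y, c k * (ph H k x : ℂ)

theorem meas_EC {α : Type} [MeasurableSpace α] (c : ℕ → ℂ) (Y : ℕ) {f g : α → ℝ}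
    (hf : Measurable f) (hg : Measurable g) : Measurable fun a => ‖EC c Y (f a) (g a)‖ ^ 2 := by
  refine Measurable.pow_const (Measurable.norm ?_) 2
  unfold EC ph
  refine Finset.measurable_sum _ fun k _ => ?_
  refine Measurable.const_mul ?_ _
  refine measurable_ofReal.comp ?_
  exact (measurable_fract.comp ((hg.add hf).div_const _)).sub
    (measurable_fract.comp (hg.div_const _))

theorem sum_c_le {c : ℕ → ℂ} {Y : ℕ} (hc : ∀ k : ℕ, 1 ≤ k → k ≤ Y → ‖c k‖ ≤ (Y : ℝ) ^ 3) :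
    ∑ k ∈ Finset.Icc 1 Y, ‖c k‖ ≤ (Y : ℝ) ^ 4 := by
  have h : ∀ k ∈ Finset.Icc 1 Y, ‖c k‖ ≤ (Y : ℝ) ^ 3 := by
    intro k hk
    rw [Finset.mem_Icc] at hk
    exact hc k hk.1 hk.2
  refine (Finset.sum_le_sum h).trans (le_of_eq ?_)
  rw [Finset.sum_const, Nat.card_Icc, nsmul_eq_mul, Nat.add_sub_cancel]
  ring

theorem norm_EC_le {c : ℕ → ℂ} {Y : ℕ} (hc : ∀ k : ℕ, 1 ≤ k → k ≤ Y → ‖c k‖ ≤ (Y : ℝ) ^ 3)
    (H x : ℝ) : ‖EC c Y H x‖ ≤ (Y : ℝ) ^ 4 := by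
  unfold EC
  refine (norm_sum_le _ _).trans (le_trans (Finset.sum_le_sum fun k _ => ?_) (sum_c_le hc))
  rw [norm_mul, Complex.norm_real, Real.norm_eq_abs]
  calc ‖c k‖ * |ph H k x| ≤ ‖c k‖ * 1 :=
        mul_le_mul_of_nonneg_left (Pool.Agent.DBB.LT3_.abs_ph_le H k x) (norm_nonneg _)
    _ = ‖c k‖ := mul_one _

theorem vblock (h1 : T_VAC) {c : ℕ → ℂ} {Y : ℕ}
    (hc : ∀ k : ℕ, 1 ≤ k → k ≤ Y → ‖c k‖ ≤ (Y : ℝ) ^ 3) (H Z : ℝ) (hH : 0 ≤ H) (hZ : 0 ≤ Z) :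
    ∫⁻ x in Icc Z (2 * Z), ENNReal.ofReal (‖EC c Y H x‖ ^ 2) ≤
      ENNReal.ofReal (Z * H * SS c Y 0 + 2 * (Y : ℝ) ^ 10) := by
  have hm : Measurable fun x => ‖EC c Y H x‖ ^ 2 := meas_EC c Y measurable_const measurable_id
  have hint : IntegrableOn (fun x => ‖EC c Y H x‖ ^ 2) (Icc Z (2 * Z)) := by
    refine Measure.integrableOn_of_bounded (M := ((Y : ℝ) ^ 4) ^ 2) ?_ hm.aestronglyMeasurable ?_
    · exact isCompact_Icc.measure_lt_top.ne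
    · refine Eventually.of_forall fun x => ?_
      rw [Real.norm_eq_abs, abs_of_nonneg (by positivity)]
      exact pow_le_pow_left₀ (norm_nonneg _) (norm_EC_le hc H x) 2
  rw [← ofReal_integral_eq_lintegral_ofReal hint (Eventually.of_forall fun x => by positivity)]
  refine ENNReal.ofReal_le_ofReal ?_
  have h2 := h1 c Y H Z hH hZ
  rw [intervalIntegral.integral_of_le (by linarith), ← integral_Icc_eq_integral_Ioc] at h2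
  refine h2.trans ?_
  have h3 := sum_c_le hc
  have h4 : 0 ≤ ∑ k ∈ Finset.Icc 1 Y, ‖c k‖ := Finset.sum_nonneg fun k _ => norm_nonneg _
  have h5 := pow_le_pow_left₀ h4 h3 2
  have h6 : 2 * (Y : ℝ) ^ 2 * (∑ k ∈ Finset.Icc 1 Y, ‖c k‖) ^ 2 ≤
      2 * (Y : ℝ) ^ 2 * ((Y : ℝ) ^ 4) ^ 2 := mul_le_mul_of_nonneg_left h5 (by positivity)
  have h7 : 2 * (Y : ℝ) ^ 2 * ((Y : ℝ) ^ 4) ^ 2 = 2 * (Y : ℝ) ^ 10 := by ring
  linarith

theorem SS_nonneg (c : ℕ → ℂ) (Y : ℕ) (η : ℝ) : 0 ≤ SS c Y η := by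
  unfold SS
  exact Finset.sum_nonneg fun q _ => by positivity

theorem block (h1 : T_VAC) {c : ℕ → ℂ} {Y : ℕ}
    (hc : ∀ k : ℕ, 1 ≤ k → k ≤ Y → ‖c k‖ ≤ (Y : ℝ) ^ 3) (θ₀ σ Z : ℝ) (h0 : 0 < θ₀) (hZ : 0 < Z)
    (hσ : 1 / 2 ≤ σ) :
    ∫⁻ x in Icc Z (2 * Z), ∫⁻ θ in Icc θ₀ (2 * θ₀),
      ENNReal.ofReal (x ^ (-(2 * σ) - 1) * ‖EC c Y (θ * x) x‖ ^ 2) ≤
    ENNReal.ofReal (16 * θ₀ ^ 2 * SS c Y 0 * Z ^ (1 - 2 * σ) +
      8 * θ₀ * (Y : ℝ) ^ 10 * Z ^ (-(2 * σ) - 1)) := by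
  have hS := SS_nonneg c Y 0
  have hW : 0 < Z ^ (-(2 * σ) - 1) := Real.rpow_pos_of_pos hZ _
  -- the weight
  have a1 : ∫⁻ x in Icc Z (2 * Z), ∫⁻ θ in Icc θ₀ (2 * θ₀),
      ENNReal.ofReal (x ^ (-(2 * σ) - 1) * ‖EC c Y (θ * x) x‖ ^ 2) ≤
      ENNReal.ofReal (Z ^ (-(2 * σ) - 1)) * ∫⁻ x in Icc Z (2 * Z), ∫⁻ θ in Icc θ₀ (2 * θ₀),
        ENNReal.ofReal (‖EC c Y (θ * x) x‖ ^ 2) := by
    rw [← lintegral_const_mul' _ _ ENNReal.ofReal_ne_top]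
    refine setLIntegral_mono' measurableSet_Icc fun x hx => ?_
    rw [← lintegral_const_mul' _ _ ENNReal.ofReal_ne_top]
    refine lintegral_mono fun θ => ?_
    rw [← ENNReal.ofReal_mul hW.le]
    refine ENNReal.ofReal_le_ofReal (mul_le_mul_of_nonneg_right ?_ (by positivity))
    exact Real.rpow_le_rpow_of_nonpos hZ hx.1 (by linarith)
  -- scaling, Tonelli, variance
  have a2 : ENNReal.ofReal Z * ∫⁻ x in Icc Z (2 * Z), ∫⁻ θ in Icc θ₀ (2 * θ₀),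
        ENNReal.ofReal (‖EC c Y (θ * x) x‖ ^ 2) ≤
      ENNReal.ofReal Z * ENNReal.ofReal (4 * θ₀ * (4 * θ₀ * Z ^ 2 * SS c Y 0 +
        2 * (Y : ℝ) ^ 10)) := by
    calc ENNReal.ofReal Z * ∫⁻ x in Icc Z (2 * Z), ∫⁻ θ in Icc θ₀ (2 * θ₀),
          ENNReal.ofReal (‖EC c Y (θ * x) x‖ ^ 2)
        = ∫⁻ x in Icc Z (2 * Z), ENNReal.ofReal Z * ∫⁻ θ in Icc θ₀ (2 * θ₀),
          ENNReal.ofReal (‖EC c Y (θ * x) x‖ ^ 2) := by
          rw [lintegral_const_mul' _ _ ENNReal.ofReal_ne_top]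
      _ ≤ ∫⁻ x in Icc Z (2 * Z), ∫⁻ H in Icc 0 (4 * θ₀ * Z),
          ENNReal.ofReal (‖EC c Y H x‖ ^ 2) := by
          refine setLIntegral_mono' measurableSet_Icc fun x hx => ?_
          exact Pool.Agent.DBB.LT3_.scale θ₀ Z x h0 hZ hx
            fun H => ENNReal.ofReal (‖EC c Y H x‖ ^ 2)
      _ = ∫⁻ H in Icc 0 (4 * θ₀ * Z), ∫⁻ x in Icc Z (2 * Z),
          ENNReal.ofReal (‖EC c Y H x‖ ^ 2) := by
          refine lintegral_lintegral_swap ?_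
          exact ((meas_EC c Y measurable_snd measurable_fst).ennreal_ofReal).aemeasurable
      _ ≤ ∫⁻ H in Icc 0 (4 * θ₀ * Z), ENNReal.ofReal (4 * θ₀ * Z ^ 2 * SS c Y 0 +
        2 * (Y : ℝ) ^ 10) := by
          refine setLIntegral_mono' measurableSet_Icc fun H hH => ?_
          refine (vblock h1 hc H Z hH.1 hZ.le).trans (ENNReal.ofReal_le_ofReal ?_)
          have h4 : Z * H ≤ 4 * θ₀ * Z ^ 2 := by
            calc Z * H ≤ Z * (4 * θ₀ * Z) := mul_le_mul_of_nonneg_left hH.2 hZ.le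
              _ = 4 * θ₀ * Z ^ 2 := by ring
          have := mul_le_mul_of_nonneg_right h4 hS
          linarith
      _ = ENNReal.ofReal Z * ENNReal.ofReal (4 * θ₀ * (4 * θ₀ * Z ^ 2 * SS c Y 0 +
        2 * (Y : ℝ) ^ 10)) := by
          rw [setLIntegral_const, Real.volume_Icc, ← ENNReal.ofReal_mul (by positivity),
            ← ENNReal.ofReal_mul hZ.le]
          congr 1
          ring
  have a3 : ∫⁻ x in Icc Z (2 * Z), ∫⁻ θ in Icc θ₀ (2 * θ₀),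
        ENNReal.ofReal (‖EC c Y (θ * x) x‖ ^ 2) ≤
      ENNReal.ofReal (4 * θ₀ * (4 * θ₀ * Z ^ 2 * SS c Y 0 + 2 * (Y : ℝ) ^ 10)) :=
    (ENNReal.mul_le_mul_iff_right (by simpa using hZ) ENNReal.ofReal_ne_top).1 a2
  refine a1.trans ((mul_le_mul' le_rfl a3).trans ?_)
  rw [← ENNReal.ofReal_mul hW.le]
  refine ENNReal.ofReal_le_ofReal (le_of_eq ?_)
  have h5 : Z ^ (1 - 2 * σ) = Z ^ (-(2 * σ) - 1) * Z ^ 2 := by
    rw [← Real.rpow_natCast, ← Real.rpow_add hZ]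
    congr 1
    push_cast
    ring
  rw [h5]
  ring

theorem inner (h2 : T_GXC) (c : ℕ → ℂ) (Y : ℕ) (X θ σ : ℝ) (hX : 1 ≤ X) (hθ : 0 ≤ θ) :
    ∫⁻ t in Ioo 0 (1 / X), ENNReal.ofReal (t ^ (2 * σ - 1) * ‖Dc c Y θ t‖ ^ 2) =
      ∫⁻ x in Ioi X, ENNReal.ofReal (x ^ (-(2 * σ) - 1) * ‖EC c Y (θ * x) x‖ ^ 2) := by
  have hX0 : 0 < X := by linarith
  have himg : (fun x : ℝ => x⁻¹) '' Ioi X = Ioo 0 (1 / X) := by
    ext t
    constructor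
    · rintro ⟨x, hx, rfl⟩
      have hx0 : 0 < x := hX0.trans hx
      refine ⟨inv_pos.2 hx0, ?_⟩
      rw [one_div]
      exact (inv_lt_inv₀ hx0 hX0).2 hx
    · rintro ⟨h3, h4⟩
      refine ⟨t⁻¹, ?_, inv_inv t⟩
      rw [one_div] at h4
      exact (lt_inv_comm₀ h3 hX0).1 h4
  have key := lintegral_image_eq_lintegral_abs_deriv_mul (s := Ioi X)
    (f := fun x : ℝ => x⁻¹) (f' := fun x => -(x ^ 2)⁻¹) measurableSet_Ioi
    (fun x hx => (hasDerivAt_inv (hX0.trans hx).ne').hasDerivWithinAt)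
    (fun a _ b _ h => inv_injective h)
    (fun t => ENNReal.ofReal (t ^ (2 * σ - 1) * ‖Dc c Y θ t‖ ^ 2))
  rw [himg] at key
  rw [key]
  refine setLIntegral_congr_fun measurableSet_Ioi fun x hx => ?_
  have hx0 : 0 < x := hX0.trans hx
  have hx1 : 1 ≤ x := hX.trans (le_of_lt hx)
  have h3 : ‖Dc c Y θ x⁻¹‖ = ‖EC c Y (θ * x) x‖ := by
    have := h2 c Y θ x hθ hx1
    rw [one_div] at this
    rw [this, norm_neg, EC]
  simp only [h3]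
  rw [← ENNReal.ofReal_mul (abs_nonneg _)]
  congr 1
  rw [abs_neg, abs_of_pos (by positivity), Real.inv_rpow hx0.le, ← mul_assoc]
  congr 1
  rw [← Real.rpow_natCast, ← mul_inv, ← Real.rpow_add hx0, ← Real.rpow_neg hx0.le]
  congr 1
  push_cast
  ring

theorem cover (X : ℝ) (n : ℕ) (hX : 1 ≤ X) (hn : X < 2 ^ (n + 1)) :
    Ioi X ⊆ (⋃ j : Fin (n + 1), Icc (2 ^ (j : ℕ) * X) (2 * (2 ^ (j : ℕ) * X))) ∪ Ioi (X ^ 2) := by
  intro x hx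
  have hx' : X < x := hx
  have hX0 : 0 < X := by linarith
  by_cases hx2 : X ^ 2 < x
  · exact Or.inr hx2
  · left
    push Not at hx2
    have h1 : 1 ≤ x / X := (one_le_div hX0).2 hx'.le
    obtain ⟨m, h2, h3⟩ := exists_nat_pow_near h1 (one_lt_two : (1 : ℝ) < 2)
    have h4 : x / X ≤ X := by
      rw [div_le_iff₀ hX0]
      nlinarith
    have h5 : (2 : ℝ) ^ m < 2 ^ (n + 1) := lt_of_le_of_lt (h2.trans h4) hn
    have h6 : m < n + 1 := (pow_lt_pow_iff_right₀ (one_lt_two : (1 : ℝ) < 2)).1 h5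
    refine mem_iUnion.2 ⟨⟨m, h6⟩, (le_div_iff₀ hX0).1 h2, ?_⟩
    rw [div_lt_iff₀ hX0, pow_succ] at h3
    show x ≤ 2 * (2 ^ m * X)
    linarith

/-- the tail -/
theorem tail {c : ℕ → ℂ} {Y : ℕ} (hc : ∀ k : ℕ, 1 ≤ k → k ≤ Y → ‖c k‖ ≤ (Y : ℝ) ^ 3)
    (X θ₀ σ : ℝ) (hX : 1 ≤ X) (h0 : 0 < θ₀) (hσ : 1 / 2 ≤ σ) :
    ∫⁻ x in Ioi (X ^ 2), ∫⁻ θ in Icc θ₀ (2 * θ₀),
      ENNReal.ofReal (x ^ (-(2 * σ) - 1) * ‖EC c Y (θ * x) x‖ ^ 2) ≤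
    ENNReal.ofReal (θ₀ * ((Y : ℝ) ^ 8 / X ^ 2)) := by
  have hX2 : 0 < X ^ 2 := by positivity
  have hX1 : 1 ≤ X ^ 2 := one_le_pow₀ hX
  have a1 : ∫⁻ x in Ioi (X ^ 2), ∫⁻ θ in Icc θ₀ (2 * θ₀),
      ENNReal.ofReal (x ^ (-(2 * σ) - 1) * ‖EC c Y (θ * x) x‖ ^ 2) ≤
      ∫⁻ x in Ioi (X ^ 2), ENNReal.ofReal (θ₀ * (Y : ℝ) ^ 8) * ENNReal.ofReal (x ^ (-2 : ℝ)) := by
    refine setLIntegral_mono' measurableSet_Ioi fun x hx => ?_
    have hx1 : 1 ≤ x := hX1.trans (le_of_lt hx)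
    have hx0 : 0 < x := by linarith
    have hp : 0 < x ^ (-2 : ℝ) := Real.rpow_pos_of_pos hx0 _
    calc ∫⁻ θ in Icc θ₀ (2 * θ₀),
        ENNReal.ofReal (x ^ (-(2 * σ) - 1) * ‖EC c Y (θ * x) x‖ ^ 2)
        ≤ ∫⁻ _ in Icc θ₀ (2 * θ₀), ENNReal.ofReal (x ^ (-2 : ℝ) * (Y : ℝ) ^ 8) := by
          refine lintegral_mono fun θ => ENNReal.ofReal_le_ofReal ?_
          refine mul_le_mul ?_ ?_ (by positivity) hp.le
          · exact Real.rpow_le_rpow_of_exponent_le hx1 (by linarith)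
          · calc ‖EC c Y (θ * x) x‖ ^ 2 ≤ ((Y : ℝ) ^ 4) ^ 2 :=
                  pow_le_pow_left₀ (norm_nonneg _) (norm_EC_le hc _ _) 2
              _ = (Y : ℝ) ^ 8 := by ring
      _ = ENNReal.ofReal (θ₀ * (Y : ℝ) ^ 8) * ENNReal.ofReal (x ^ (-2 : ℝ)) := by
          rw [setLIntegral_const, Real.volume_Icc, ← ENNReal.ofReal_mul (by positivity),
            ← ENNReal.ofReal_mul (by positivity)]
          congr 1
          ring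
  refine a1.trans ?_
  rw [lintegral_const_mul' _ _ ENNReal.ofReal_ne_top]
  have hi : IntegrableOn (fun x : ℝ => x ^ (-2 : ℝ)) (Ioi (X ^ 2)) :=
    integrableOn_Ioi_rpow_of_lt (by norm_num) hX2
  rw [← ofReal_integral_eq_lintegral_ofReal hi ((ae_restrict_iff' measurableSet_Ioi).2
    (Eventually.of_forall fun x hx => Real.rpow_nonneg (hX2.trans hx).le _)),
    integral_Ioi_rpow_of_lt (by norm_num) hX2, ← ENNReal.ofReal_mul (by positivity)]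
  refine ENNReal.ofReal_le_ofReal (le_of_eq ?_)
  have e1 : ((X ^ 2 : ℝ)) ^ ((-2 : ℝ) + 1) = (X ^ 2)⁻¹ := by
    rw [show (-2 : ℝ) + 1 = -1 by norm_num, Real.rpow_neg_one]
  rw [e1]
  field_simp
  norm_num

/-- the sum over the blocks -/
theorem sums (A B X σ : ℝ) (n : ℕ) (hA : 0 ≤ A) (hB : 0 ≤ B) (hX : 1 ≤ X) (hσ : 1 / 2 ≤ σ) :
    ∑ j : Fin (n + 1), ENNReal.ofReal (A * (2 ^ (j : ℕ) * X) ^ (1 - 2 * σ) +
      B * (2 ^ (j : ℕ) * X) ^ (-(2 * σ) - 1)) ≤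
    ENNReal.ofReal (A * X ^ (1 - 2 * σ) * (n + 1) + B / X ^ 2 * (4 / 3)) := by
  have hX0 : 0 < X := by linarith
  have hb : ∀ j : ℕ, A * (2 ^ j * X) ^ (1 - 2 * σ) + B * (2 ^ j * X) ^ (-(2 * σ) - 1) ≤
      A * X ^ (1 - 2 * σ) + B / X ^ 2 * (1 / 4) ^ j := by
    intro j
    have h2 : (1 : ℝ) ≤ 2 ^ j := one_le_pow₀ (by norm_num)
    have h3 : X ≤ 2 ^ j * X := by nlinarith
    have h4 : 1 ≤ 2 ^ j * X := hX.trans h3
    have h5 : (2 ^ j * X) ^ (1 - 2 * σ) ≤ X ^ (1 - 2 * σ) :=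
      Real.rpow_le_rpow_of_nonpos hX0 h3 (by linarith)
    have h6 : (2 ^ j * X) ^ (-(2 * σ) - 1) ≤ (2 ^ j * X) ^ (-2 : ℝ) :=
      Real.rpow_le_rpow_of_exponent_le h4 (by linarith)
    have h7 : (2 ^ j * X) ^ (-2 : ℝ) = (1 / 4) ^ j / X ^ 2 := by
      rw [Real.rpow_neg (by positivity), show ((2 : ℝ)) = ((2 : ℕ) : ℝ) by norm_num,
        Real.rpow_natCast]
      push_cast
      rw [mul_pow, ← pow_mul, mul_comm j 2, pow_mul, one_div, inv_pow,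
        show ((2 : ℝ) ^ 2) = 4 by norm_num, mul_inv, div_eq_mul_inv]
    rw [h7] at h6
    have h8 := mul_le_mul_of_nonneg_left h5 hA
    have h9 := mul_le_mul_of_nonneg_left h6 hB
    have h10 : B * ((1 / 4) ^ j / X ^ 2) = B / X ^ 2 * (1 / 4) ^ j := by ring
    linarith
  have hnn : ∀ j : ℕ, 0 ≤ A * (2 ^ j * X) ^ (1 - 2 * σ) +
      B * (2 ^ j * X) ^ (-(2 * σ) - 1) := fun j => by positivity
  rw [← ENNReal.ofReal_sum_of_nonneg fun (j : Fin (n + 1)) _ => hnn (j : ℕ)]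
  refine ENNReal.ofReal_le_ofReal ?_
  refine (Finset.sum_le_sum fun (j : Fin (n + 1)) _ => hb j).trans ?_
  rw [Finset.sum_add_distrib, Finset.sum_const, Finset.card_univ, Fintype.card_fin,
    ← Finset.mul_sum, nsmul_eq_mul, Fin.sum_univ_eq_sum_range fun j => (1 / 4 : ℝ) ^ j]
  have h11 : ∑ j ∈ Finset.range (n + 1), (1 / 4 : ℝ) ^ j ≤ 4 / 3 := by
    rw [geom_sum_eq (by norm_num)]
    have : (0 : ℝ) ≤ (1 / 4) ^ (n + 1) := by positivity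
    rw [div_le_iff_of_neg (by norm_num)]
    linarith
  have h12 : 0 ≤ B / X ^ 2 := by positivity
  have h13 := mul_le_mul_of_nonneg_left h11 h12
  push_cast
  linarith

theorem num_blocks {X : ℝ} {n : ℕ} (hX : 1 ≤ X) (hn : 2 ^ n ≤ X) :
    (n : ℝ) + 1 ≤ 2 * (1 + Real.log X) := by
  have h1 : Real.log (2 ^ n) ≤ Real.log X := Real.log_le_log (by positivity) hn
  rw [Real.log_pow] at h1
  have h2 := Real.log_two_gt_d9
  have h3 : (0 : ℝ) ≤ n := Nat.cast_nonneg n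
  have h4 := Real.log_nonneg hX
  nlinarith

end LTD_

open LTD_ in
theorem p_LTD (h1 : T_VAC) (h2 : T_GXC) : T_LTD := by
  refine ⟨48, by norm_num, fun c Y X θ₀ σ hY hX h0 _ hσ hσ2 hc => ?_⟩
  have hX0 : 0 < X := by linarith
  have hS := SS_nonneg c Y 0
  have s1 : ∫⁻ θ in Icc θ₀ (2 * θ₀), ∫⁻ t in Ioo 0 (1 / X),
      ENNReal.ofReal (t ^ (2 * σ - 1) * ‖Dc c Y θ t‖ ^ 2) =
      ∫⁻ θ in Icc θ₀ (2 * θ₀), ∫⁻ x in Ioi X,
        ENNReal.ofReal (x ^ (-(2 * σ) - 1) * ‖EC c Y (θ * x) x‖ ^ 2) :=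
    setLIntegral_congr_fun measurableSet_Icc fun θ hθ =>
      inner h2 c Y X θ σ hX (h0.le.trans hθ.1)
  have s2 : ∫⁻ θ in Icc θ₀ (2 * θ₀), ∫⁻ x in Ioi X,
        ENNReal.ofReal (x ^ (-(2 * σ) - 1) * ‖EC c Y (θ * x) x‖ ^ 2) =
      ∫⁻ x in Ioi X, ∫⁻ θ in Icc θ₀ (2 * θ₀),
        ENNReal.ofReal (x ^ (-(2 * σ) - 1) * ‖EC c Y (θ * x) x‖ ^ 2) := by
    refine lintegral_lintegral_swap ?_
    have m1 : Measurable fun z : ℝ × ℝ => z.2 ^ (-(2 * σ) - 1) :=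
      measurable_snd.pow_const _
    have m2 : Measurable fun z : ℝ × ℝ => ‖EC c Y (z.1 * z.2) z.2‖ ^ 2 :=
      meas_EC c Y (measurable_fst.mul measurable_snd) measurable_snd
    exact ((m1.mul m2).ennreal_ofReal).aemeasurable
  obtain ⟨n, hn1, hn2⟩ := exists_nat_pow_near hX (one_lt_two : (1 : ℝ) < 2)
  have hnb := num_blocks hX hn1
  rw [s1, s2]
  refine (lintegral_mono_set (cover X n hX hn2)).trans ((lintegral_union_le _ _ _).trans ?_)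
  have b1 : ∫⁻ x in ⋃ j : Fin (n + 1), Icc (2 ^ (j : ℕ) * X) (2 * (2 ^ (j : ℕ) * X)),
      ∫⁻ θ in Icc θ₀ (2 * θ₀),
        ENNReal.ofReal (x ^ (-(2 * σ) - 1) * ‖EC c Y (θ * x) x‖ ^ 2) ≤
      ENNReal.ofReal (16 * θ₀ ^ 2 * SS c Y 0 * X ^ (1 - 2 * σ) * (n + 1) +
        8 * θ₀ * (Y : ℝ) ^ 10 / X ^ 2 * (4 / 3)) := by
    refine (lintegral_iUnion_le _ _).trans ?_
    rw [tsum_fintype]
    refine (Finset.sum_le_sum fun (j : Fin (n + 1)) _ =>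
      block h1 hc θ₀ σ (2 ^ (j : ℕ) * X) h0 (by positivity) hσ).trans ?_
    exact sums _ _ X σ n (by positivity) (by positivity) hX hσ
  have b2 := tail hc X θ₀ σ hX h0 hσ
  refine (add_le_add b1 b2).trans ?_
  have hXp1 : 0 < X ^ (1 - 2 * σ) := Real.rpow_pos_of_pos hX0 _
  rw [← ENNReal.ofReal_add (by positivity) (by positivity)]
  refine ENNReal.ofReal_le_ofReal ?_
  have hY1 : (1 : ℝ) ≤ Y := by exact_mod_cast hY
  have e1 : 16 * θ₀ ^ 2 * SS c Y 0 * X ^ (1 - 2 * σ) * (n + 1) ≤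
      16 * θ₀ ^ 2 * SS c Y 0 * X ^ (1 - 2 * σ) * (2 * (1 + Real.log X)) :=
    mul_le_mul_of_nonneg_left hnb (by positivity)
  have e2 : (Y : ℝ) ^ 8 / X ^ 2 ≤ (Y : ℝ) ^ 10 / X ^ 2 := by
    have : (Y : ℝ) ^ 8 ≤ (Y : ℝ) ^ 10 := pow_le_pow_right₀ hY1 (by norm_num)
    gcongr
  have e3 := mul_le_mul_of_nonneg_left e2 h0.le
  have e4 : 0 ≤ θ₀ * ((Y : ℝ) ^ 10 / X ^ 2) := by positivity
  have e5 : 0 ≤ θ₀ ^ 2 * SS c Y 0 * X ^ (1 - 2 * σ) * (1 + Real.log X) := by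
    have := Real.log_nonneg hX
    positivity
  have e6 : 8 * θ₀ * (Y : ℝ) ^ 10 / X ^ 2 * (4 / 3) = 32 / 3 * (θ₀ * ((Y : ℝ) ^ 10 / X ^ 2)) := by
    ring
  have e7 : 48 * θ₀ * (θ₀ * X ^ (1 - 2 * σ) * (1 + Real.log X) * SS c Y 0 +
      (Y : ℝ) ^ 10 / X ^ 2) = 48 * (θ₀ ^ 2 * SS c Y 0 * X ^ (1 - 2 * σ) * (1 + Real.log X)) +
      48 * (θ₀ * ((Y : ℝ) ^ 10 / X ^ 2)) := by
    ring
  rw [e7]
  linarith

end Pool.Agent.DBS
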