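import Pool.Agent.DBS.Targets

set_option autoImplicit false

/-! # MO2: the mean square at two points (MP_4e5e8a_nt, helper2) -/

namespace Pool.Agent.DBS

open Complex MeasureTheory Set Filter
open Pool.Agent.DBN Pool.Agent.DBC Pool.Agent.DBB

namespace MO2_

lemma cont_z {X : ℝ} (hX : 0 < X) (σ : ℝ) :
    ContinuousOn (fun τ : ℝ => riemannZeta (Pool.Agent.DBA.pt σ τ)) (Set.uIcc X (2 * X)) := by
  intro τ hτ
  rw [Set.uIcc_of_le (by linarith)] at hτ
  have hne : Pool.Agent.DBA.pt σ τ ≠ 1 := by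
    intro h
    have := congrArg Complex.im h
    simp [Pool.Agent.DBA.pt] at this
    linarith [hτ.1]
  have h1 : ContinuousAt riemannZeta (Pool.Agent.DBA.pt σ τ) :=
    (differentiableAt_riemannZeta hne).continuousAt
  have h2 : ContinuousAt (fun τ : ℝ => Pool.Agent.DBA.pt σ τ) τ := by
    unfold Pool.Agent.DBA.pt
    fun_prop
  exact (ContinuousAt.comp (f := fun τ : ℝ => Pool.Agent.DBA.pt σ τ) h1 h2).continuousWithinAt

lemma cont_m (δ : ℝ) (Y : ℕ) (σ y : ℝ) :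
    Continuous (fun τ : ℝ => Ms δ Y (Pool.Agent.DBA.pt σ (τ + y))) := by
  unfold Ms Pc
  refine continuous_finsetSum _ fun k hk => continuous_const.mul ?_
  have hk0 : (k : ℂ) ≠ 0 := by
    have := (Finset.mem_Icc.1 hk).1
    exact_mod_cast (by omega : k ≠ 0)
  refine Continuous.const_cpow ?_ (Or.inl hk0)
  unfold Pool.Agent.DBA.pt
  fun_prop

lemma cont_f {X : ℝ} (hX : 0 < X) (δ : ℝ) (Y : ℕ) (σ σ' y : ℝ) :
    ContinuousOn (fun τ : ℝ => ‖riemannZeta (Pool.Agent.DBA.pt σ τ) *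
      Ms δ Y (Pool.Agent.DBA.pt σ' (τ + y))‖ ^ 2) (Set.uIcc X (2 * X)) :=
  (((cont_z hX σ).mul (cont_m δ Y σ' y).continuousOn).norm).pow 2

/-- the bounds of the powers -/
lemma pow_bd {C B B' : ℝ} (hC : 0 < C) (hB : 0 ≤ B) (h : B ≤ 2 * (1 + B')) (hB' : 0 ≤ B') :
    (B : ℝ) ^ C ≤ 2 ^ C * (1 + B') ^ C := by
  rw [← Real.mul_rpow (by norm_num) (by linarith)]
  exact Real.rpow_le_rpow hB h hC.le

lemma exp_bd {C C' B' : ℝ} (h : C ≤ C') (hB' : 0 ≤ B') : (1 + B') ^ C ≤ (1 + B') ^ C' :=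
  Real.rpow_le_rpow_of_exponent_le (by linarith) h

end MO2_

open MO2_ in
theorem p_MO2 (h1 : T_MOM) (h2 : T_FEQ) : T_MO2 := by
  obtain ⟨C, hC, hM⟩ := h1
  obtain ⟨K, τ₀, hK, hτ₀, hF⟩ := h2
  -- MOM in the form we need
  have key : ∀ (δ : ℝ) (Y : ℕ) (X s σ' y : ℝ), 8 ≤ X → 0 < δ → δ ≤ 1 → 2 ≤ Y →
      2 ≤ (Y : ℝ) ^ δ → (Y : ℝ) ^ 20 ≤ X → 1 / 2 ≤ s → s ≤ 3 / 4 → 1 / 2 ≤ σ' → σ' ≤ 3 / 4 →
      |y| ≤ 1 / 2 →
      (∫ τ in X..(2 * X), ‖riemannZeta (Pool.Agent.DBA.pt s τ) *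
        Ms δ Y (Pool.Agent.DBA.pt σ' (τ + y))‖ ^ 2) ≤
        C * X * (2 ^ C * (1 + (δ + |y| + |s - 1 / 2| + |σ' - 1 / 2|) * Real.log X) ^ C) := by
    intro δ Y X s σ' y hX hδ hδ1 hY hYδ hYX hs hs1 hσ hσ1 hy
    have hL : 0 ≤ Real.log X := Real.log_nonneg (by linarith)
    set v : ℂ := ((s - σ' : ℝ) : ℂ) - (y : ℂ) * I with hv
    have hvn : ‖v‖ ≤ |s - 1 / 2| + |σ' - 1 / 2| + |y| := by
      have e1 : ‖v‖ ≤ ‖((s - σ' : ℝ) : ℂ)‖ + ‖(y : ℂ) * I‖ := norm_sub_le _ _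
      rw [norm_mul, Complex.norm_I, mul_one, Complex.norm_real, Complex.norm_real,
        Real.norm_eq_abs, Real.norm_eq_abs] at e1
      have e2 : |s - σ'| ≤ |s - 1 / 2| + |σ' - 1 / 2| := by
        have := abs_sub (s - 1 / 2) (σ' - 1 / 2)
        rwa [show s - 1 / 2 - (σ' - 1 / 2) = s - σ' by ring] at this
      linarith
    have a1 : |s - 1 / 2| = s - 1 / 2 := abs_of_nonneg (by linarith)
    have a2 : |σ' - 1 / 2| = σ' - 1 / 2 := abs_of_nonneg (by linarith)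
    have hv1 : ‖v‖ ≤ 1 := by
      rw [a1, a2] at hvn
      linarith
    have hvre : v.re ≤ s - 1 / 2 := by
      have : v.re = s - σ' := by simp [hv]
      rw [this]
      linarith
    have h3 := hM δ Y X s v hδ hδ1 hY hYδ hX hYX hs hs1 hv1 hvre
    have e4 : ∀ τ : ℝ, Pool.Agent.DBA.pt s τ - v = Pool.Agent.DBA.pt σ' (τ + y) := by
      intro τ
      simp only [Pool.Agent.DBA.pt, hv]
      push_cast
      ring
    simp only [e4] at h3
    refine h3.trans (mul_le_mul_of_nonneg_left ?_ (by positivity))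
    refine pow_bd hC ?_ ?_ ?_
    · have : 0 ≤ (‖v‖ + δ + (s - 1 / 2)) * Real.log X :=
        mul_nonneg (by linarith [norm_nonneg v]) hL
      linarith
    · have h5 : ‖v‖ + δ + (s - 1 / 2) ≤ 2 * (δ + |y| + |s - 1 / 2| + |σ' - 1 / 2|) := by
        have h7 := hvn
        rw [a1, a2] at h7
        rw [a1, a2]
        linarith [abs_nonneg y, hδ.le]
      have h6 := mul_le_mul_of_nonneg_right h5 hL
      linarith
    · positivity
  refine ⟨C * 2 ^ C + K ^ 2 * (C * 2 ^ C) + C, max τ₀ 64, by positivity,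
    le_trans (by norm_num) (le_max_right _ _), ?_⟩
  intro δ Y X σ σ' y hX hδ hδ1 hY hYδ hYX hs hs1 hσ hσ1 hy
  have hX64 : 64 ≤ X := (le_max_right _ _).trans hX
  have hXτ : τ₀ ≤ X := (le_max_left _ _).trans hX
  have hX0 : 0 < X := by linarith
  have hL : 0 ≤ Real.log X := Real.log_nonneg (by linarith)
  have hB : 0 ≤ (δ + |y| + |σ - 1 / 2| + |σ' - 1 / 2|) * Real.log X := by positivity
  have hCe : C ≤ C * 2 ^ C + K ^ 2 * (C * 2 ^ C) + C := by
    have : 0 ≤ C * 2 ^ C + K ^ 2 * (C * 2 ^ C) := by positivity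
    linarith
  have hE := exp_bd hCe hB
  have hE0 : 0 ≤ (1 + (δ + |y| + |σ - 1 / 2| + |σ' - 1 / 2|) * Real.log X) ^ C := by positivity
  have fin : ∀ A : ℝ, 0 ≤ A → A ≤ C * 2 ^ C + K ^ 2 * (C * 2 ^ C) + C →
      A * (X * (1 + (δ + |y| + |σ - 1 / 2| + |σ' - 1 / 2|) * Real.log X) ^ C) ≤
      (C * 2 ^ C + K ^ 2 * (C * 2 ^ C) + C) * X *
        (1 + (δ + |y| + |σ - 1 / 2| + |σ' - 1 / 2|) * Real.log X) ^
          (C * 2 ^ C + K ^ 2 * (C * 2 ^ C) + C) := by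
    intro A hA hA1
    have h1 := mul_le_mul_of_nonneg_left hE hX0.le
    have h2 := mul_le_mul hA1 h1 (mul_nonneg hX0.le hE0) (by positivity)
    linarith
  rcases le_total (1 / 2) σ with h3 | h3
  · refine (key δ Y X σ σ' y (by linarith) hδ hδ1 hY hYδ hYX h3 hs1 hσ hσ1 hy).trans ?_
    refine le_trans (le_of_eq ?_) (fin (C * 2 ^ C) (by positivity) ?_)
    · ring
    · have : 0 ≤ K ^ 2 * (C * 2 ^ C) := by positivity
      linarith
  · have hl4 : 4 ≤ Real.log (2 * X) := by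
      rw [Real.le_log_iff_exp_le (by linarith)]
      have e1 : Real.exp 4 = Real.exp 1 ^ 4 := by
        rw [← Real.exp_nat_mul]
        norm_num
      have e2 := Real.exp_one_lt_d9
      rw [e1]
      have e3 : Real.exp 1 ^ 4 ≤ (2.7182818286 : ℝ) ^ 4 :=
        pow_le_pow_left₀ (Real.exp_pos 1).le e2.le 4
      refine e3.trans ?_
      norm_num
      linarith
    have h5 : 1 / Real.log (2 * X) ≤ 1 / 4 := one_div_le_one_div_of_le (by norm_num) hl4
    have h6 := key δ Y X (1 - σ) σ' y (by linarith) hδ hδ1 hY hYδ hYX (by linarith)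
      (by linarith) hσ hσ1 hy
    have e7 : |1 - σ - 1 / 2| = |σ - 1 / 2| := by
      rw [← abs_neg]
      congr 1
      ring
    rw [e7] at h6
    have h8 : (∫ τ in X..(2 * X), ‖riemannZeta (Pool.Agent.DBA.pt σ τ) *
        Ms δ Y (Pool.Agent.DBA.pt σ' (τ + y))‖ ^ 2) ≤
        ∫ τ in X..(2 * X), K ^ 2 * ‖riemannZeta (Pool.Agent.DBA.pt (1 - σ) τ) *
          Ms δ Y (Pool.Agent.DBA.pt σ' (τ + y))‖ ^ 2 := by
      refine intervalIntegral.integral_mono_on (by linarith)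
        (cont_f hX0 δ Y σ σ' y).intervalIntegrable
        ((cont_f hX0 δ Y (1 - σ) σ' y).intervalIntegrable.const_mul _) fun τ hτ => ?_
      have hlog : Real.log τ ≤ Real.log (2 * X) :=
        Real.log_le_log (by linarith [hτ.1]) hτ.2
      have hlog0 : 0 < Real.log τ := Real.log_pos (by linarith [hτ.1])
      have h9 : 1 / Real.log (2 * X) ≤ 1 / Real.log τ := one_div_le_one_div_of_le hlog0 hlog
      have h10 := hF σ τ (by linarith [hτ.1]) (by linarith) h3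
      have h11 := pow_le_pow_left₀ (norm_nonneg _) h10 2
      rw [mul_pow] at h11
      have h12 := mul_le_mul_of_nonneg_right h11
        (sq_nonneg ‖Ms δ Y (Pool.Agent.DBA.pt σ' (τ + y))‖)
      rw [norm_mul, norm_mul, mul_pow, mul_pow]
      linarith
    refine h8.trans ?_
    rw [intervalIntegral.integral_const_mul]
    refine (mul_le_mul_of_nonneg_left h6 (sq_nonneg K)).trans ?_
    refine le_trans (le_of_eq ?_) (fin (K ^ 2 * (C * 2 ^ C)) (by positivity) ?_)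
    · ring
    · have : 0 ≤ C * 2 ^ C := by positivity
      linarith

end Pool.Agent.DBS
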