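import Pool.Agent.DBS.Targets

/-!
# MOM: the mean square of `ζ (s) Ms (s - v)`
-/

set_option autoImplicit false

namespace Pool.Agent.DBS

open Complex MeasureTheory Set Filter
open Pool.Agent.DBN Pool.Agent.DBC Pool.Agent.DBB
open scoped ENNReal

namespace MOM_

theorem pc_eq (δ : ℝ) (Y : ℕ) (v s : ℂ) : Pc (cv δ Y v) Y s = Ms δ Y (s - v) := by
  unfold Ms Pc cv
  refine Finset.sum_congr rfl fun k hk => ?_
  have hk1 : 1 ≤ k := (Finset.mem_Icc.1 hk).1
  have hk0 : (k : ℂ) ≠ 0 := by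
    exact_mod_cast (by omega : k ≠ 0)
  rw [mul_assoc, ← Complex.cpow_add _ _ hk0]
  congr 2
  ring

theorem pt_cont (σ : ℝ) : Continuous (fun τ : ℝ => Pool.Agent.DBA.pt σ τ) := by
  unfold Pool.Agent.DBA.pt
  fun_prop

theorem pc_cont (c : ℕ → ℂ) (Y : ℕ) (σ : ℝ) :
    Continuous (fun τ : ℝ => Pc c Y (Pool.Agent.DBA.pt σ τ)) := by
  unfold Pc
  refine continuous_finsetSum _ fun k hk => ?_
  have hk1 : 1 ≤ k := (Finset.mem_Icc.1 hk).1
  have hk0 : (k : ℂ) ≠ 0 := by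
    exact_mod_cast (by omega : k ≠ 0)
  exact continuous_const.mul ((pt_cont σ).neg.const_cpow (Or.inl hk0))

theorem f_cont (c : ℕ → ℂ) (Y : ℕ) (σ X : ℝ) (hX : 0 < X) :
    ContinuousOn (fun τ : ℝ => riemannZeta (Pool.Agent.DBA.pt σ τ) *
      Pc c Y (Pool.Agent.DBA.pt σ τ)) (Set.uIcc X (2 * X)) := by
  refine ContinuousOn.mul ?_ (pc_cont c Y σ).continuousOn
  intro t ht
  rw [Set.uIcc_of_le (by linarith)] at ht
  have hne : Pool.Agent.DBA.pt σ t ≠ 1 := by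
    intro h
    have h1 := congrArg Complex.im h
    simp [Pool.Agent.DBA.pt] at h1
    linarith [ht.1]
  have h1 : ContinuousAt riemannZeta (Pool.Agent.DBA.pt σ t) :=
    (differentiableAt_riemannZeta hne).continuousAt
  exact (ContinuousAt.comp (f := fun τ : ℝ => Pool.Agent.DBA.pt σ τ) h1
    (pt_cont σ).continuousAt).continuousWithinAt

/-- the passage from `F - 1` to `F` -/
theorem split (F : ℝ → ℂ) (X : ℝ) (hX : 0 < X) (hF : ContinuousOn F (Set.uIcc X (2 * X))) :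
    (∫ τ in X..(2 * X), ‖F τ‖ ^ 2) ≤ 2 * (∫ τ in X..(2 * X), ‖F τ - 1‖ ^ 2) + 2 * X := by
  have i1 : IntervalIntegrable (fun τ => ‖F τ‖ ^ 2) volume X (2 * X) :=
    (hF.norm.pow 2).intervalIntegrable
  have i2 : IntervalIntegrable (fun τ => ‖F τ - 1‖ ^ 2) volume X (2 * X) :=
    ((hF.sub continuousOn_const).norm.pow 2).intervalIntegrable
  have i3 : IntervalIntegrable (fun τ => 2 * ‖F τ - 1‖ ^ 2) volume X (2 * X) := i2.const_mul 2
  have i4 : IntervalIntegrable (fun _ : ℝ => (2 : ℝ)) volume X (2 * X) := by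
    exact intervalIntegrable_const
  calc (∫ τ in X..(2 * X), ‖F τ‖ ^ 2)
      ≤ ∫ τ in X..(2 * X), (2 * ‖F τ - 1‖ ^ 2 + 2) := by
        refine intervalIntegral.integral_mono_on (by linarith) i1 (i3.add i4) fun τ _ => ?_
        have h1 : ‖F τ‖ ≤ ‖F τ - 1‖ + 1 := by
          calc ‖F τ‖ = ‖(F τ - 1) + 1‖ := by rw [sub_add_cancel]
            _ ≤ ‖F τ - 1‖ + ‖(1 : ℂ)‖ := norm_add_le _ _
            _ = ‖F τ - 1‖ + 1 := by rw [norm_one]
        nlinarith [norm_nonneg (F τ), norm_nonneg (F τ - 1), sq_nonneg (‖F τ - 1‖ - 1)]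
    _ = 2 * (∫ τ in X..(2 * X), ‖F τ - 1‖ ^ 2) + 2 * X := by
        rw [intervalIntegral.integral_add i3 i4, intervalIntegral.integral_const_mul,
          intervalIntegral.integral_const]
        simp only [smul_eq_mul]
        ring

/-- the coefficients -/
theorem cv_bound {δ : ℝ} {Y : ℕ} {v : ℂ} (hδ1 : δ ≤ 1) (hv : v.re ≤ 1)
    (h : ∀ k : ℕ, 1 ≤ k → |la δ Y k| ≤ (k : ℝ) ^ (1 + δ)) (k : ℕ) (hk : 1 ≤ k) (hkY : k ≤ Y) :
    ‖cv δ Y v k‖ ≤ (Y : ℝ) ^ 3 := by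
  have hk1 : (1 : ℝ) ≤ k := by exact_mod_cast hk
  have hkY' : (k : ℝ) ≤ Y := by exact_mod_cast hkY
  unfold cv
  rw [norm_mul, Complex.norm_natCast_cpow_of_pos (by omega), Complex.norm_real, Real.norm_eq_abs]
  calc |la δ Y k| * (k : ℝ) ^ v.re ≤ (k : ℝ) ^ (2 : ℝ) * (k : ℝ) ^ (1 : ℝ) := by
        refine mul_le_mul ((h k hk).trans ?_) ?_ (by positivity) (by positivity)
        · exact Real.rpow_le_rpow_of_exponent_le hk1 (by linarith)
        · exact Real.rpow_le_rpow_of_exponent_le hk1 hv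
    _ = (k : ℝ) ^ 3 := by
        rw [Real.rpow_one, Real.rpow_two]
        ring
    _ ≤ (Y : ℝ) ^ 3 := by gcongr

end MOM_

open MOM_

theorem p_MOM (hGMS : T_GMS) (hLA1 : T_LA1) (hDGE : T_DGE) (hSSB : T_SSB) (hSSP : T_SSP) :
    T_MOM := by
  obtain ⟨C1, hC1, h1⟩ := hGMS
  obtain ⟨C2, hC2, h2⟩ := hSSB
  obtain ⟨C3, hC3, h3⟩ := hSSP
  obtain ⟨K, hK⟩ : ∃ K : ℝ, K = 4 * Real.exp 2 * C2 * 2 ^ C2 := ⟨_, rfl⟩
  have hK0 : 0 < K := by rw [hK]; positivity
  obtain ⟨C, hC⟩ : ∃ C : ℝ, C = 2 * C1 * (K + 4 * C2 + 4 * C3 + 1) + 2 + C2 + C3 + 2 := ⟨_, rfl⟩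
  have hCpos : 0 < C := by rw [hC]; positivity
  have hCco : 2 * C1 * (K + 4 * C2 + 4 * C3 + 1) + 2 ≤ C := by rw [hC]; linarith
  have hCC : 0 ≤ 2 * C1 * (K + 4 * C2 + 4 * C3 + 1) := by positivity
  refine ⟨C, hCpos, ?_⟩
  intro δ Y X σ v hδ hδ1 hY hYδ hX hYX hσ hσ1 hv1 hvre
  obtain ⟨L, hL⟩ : ∃ L : ℝ, L = Real.log X := ⟨_, rfl⟩
  have hX0 : 0 < X := by linarith
  have hL1 : 1 ≤ L := by
    rw [hL, Real.le_log_iff_exp_le hX0]
    have := Real.exp_one_lt_d9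
    linarith
  have hY1 : (1 : ℝ) ≤ Y := by exact_mod_cast (by omega : 1 ≤ Y)
  have hYX' : (Y : ℝ) ≤ X := (le_self_pow₀ hY1 (by norm_num)).trans hYX
  have hlY0 : 0 ≤ Real.log Y := Real.log_nonneg hY1
  have hlY : Real.log Y ≤ L := by
    rw [hL]
    exact Real.log_le_log (by linarith) hYX'
  obtain ⟨η, hη⟩ : ∃ η : ℝ, η = 2 * σ - 1 + 1 / L := ⟨_, rfl⟩
  have hL0 : 0 < L := by linarith
  have hiL : 0 < 1 / L := by positivity
  have hη0 : 0 < η := by rw [hη]; linarith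
  have hηL : 1 / η ≤ L := by
    rw [div_le_iff₀ hη0, hη]
    have h5 : L * (1 / L) = 1 := by field_simp
    have h6 : 0 ≤ L * (2 * σ - 1) := mul_nonneg hL0.le (by linarith)
    nlinarith
  obtain ⟨B, hB⟩ : ∃ B : ℝ, B = 1 + (‖v‖ + δ + (σ - 1 / 2)) * L := ⟨_, rfl⟩
  have hB1 : 1 ≤ B := by
    rw [hB]
    have : 0 ≤ (‖v‖ + δ + (σ - 1 / 2)) * L :=
      mul_nonneg (by linarith [norm_nonneg v]) hL0.le
    linarith
  have hB0 : 0 < B := by linarith
  have hδB : δ * L ≤ B := by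
    rw [hB]
    nlinarith [mul_nonneg (norm_nonneg v) hL0.le, mul_nonneg (by linarith : 0 ≤ σ - 1 / 2) hL0.le]
  -- the powers of `B`
  have hpow : ∀ e : ℝ, e + 2 ≤ C → B ^ 2 * B ^ e ≤ B ^ C := by
    intro e he
    rw [← Real.rpow_two, ← Real.rpow_add hB0]
    exact Real.rpow_le_rpow_of_exponent_le hB1 (by linarith)
  have hBC1 : 1 ≤ B ^ C := Real.one_le_rpow hB1 hCpos.le
  -- `δ² (1 + L) (1 + log Y)`
  have hdd : δ ^ 2 * (1 + Real.log Y) * (1 + L) ≤ 4 * B ^ 2 := by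
    calc δ ^ 2 * (1 + Real.log Y) * (1 + L) ≤ δ ^ 2 * (2 * L) * (2 * L) := by
          gcongr <;> linarith
      _ = 4 * (δ * L) ^ 2 := by ring
      _ ≤ 4 * B ^ 2 := by gcongr
  -- the three terms
  obtain ⟨hla1, hlak⟩ := hLA1 δ Y hδ (by omega)
  have hc1 : cv δ Y v 1 = 1 := by
    unfold cv
    rw [hla1]
    simp
  have hcb := cv_bound (δ := δ) (Y := Y) (v := v) hδ1 (by linarith) hlak
  have g1 := h1 (cv δ Y v) Y X σ (by omega) (by linarith) hYX hσ hσ1 hcb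
  rw [hc1] at g1
  obtain ⟨N, hN⟩ : ∃ N : ℕ, N = ⌊2 * X⌋₊ := ⟨_, rfl⟩
  rw [← hN, ← hL] at g1
  have s1 : ∑ n ∈ Finset.Icc 2 N, ‖al (cv δ Y v) Y n‖ ^ 2 * (n : ℝ) ^ (-(2 * σ)) ≤ K * B ^ C := by
    have t1 : ∑ n ∈ Finset.Icc 2 N, ‖al (cv δ Y v) Y n‖ ^ 2 * (n : ℝ) ^ (-(2 * σ)) ≤
        Real.exp 2 * ∑ n ∈ Finset.Icc 1 N, ‖al (cv δ Y v) Y n‖ ^ 2 * (n : ℝ) ^ (-(1 + η)) := by
      rw [Finset.mul_sum]
      calc ∑ n ∈ Finset.Icc 2 N, ‖al (cv δ Y v) Y n‖ ^ 2 * (n : ℝ) ^ (-(2 * σ))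
          ≤ ∑ n ∈ Finset.Icc 2 N,
            Real.exp 2 * (‖al (cv δ Y v) Y n‖ ^ 2 * (n : ℝ) ^ (-(1 + η))) := by
            refine Finset.sum_le_sum fun n hn => ?_
            obtain ⟨hn1, hn2⟩ := Finset.mem_Icc.1 hn
            have hn0 : (0 : ℝ) < n := by exact_mod_cast (by omega : 0 < n)
            have hnX : (n : ℝ) ≤ 2 * X := by
              rw [hN] at hn2
              exact (Nat.le_floor_iff (by linarith)).1 hn2
            have e1 : (n : ℝ) ^ (-(2 * σ)) = (n : ℝ) ^ (-(1 + η)) * (n : ℝ) ^ (1 / L) := by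
              rw [← Real.rpow_add hn0]
              congr 1
              rw [hη]
              ring
            have e2 : (n : ℝ) ^ (1 / L) ≤ Real.exp 2 := by
              rw [Real.rpow_def_of_pos hn0]
              refine Real.exp_le_exp.2 ?_
              have e3 : Real.log n ≤ 2 * L := by
                have e4 : Real.log n ≤ Real.log (2 * X) := Real.log_le_log hn0 hnX
                rw [Real.log_mul (by norm_num) hX0.ne', ← hL] at e4
                have e5 : Real.log 2 ≤ 1 := by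
                  have := Real.log_two_lt_d9
                  linarith
                linarith
              rw [mul_one_div, div_le_iff₀ hL0]
              exact e3
            rw [e1]
            have e6 : 0 ≤ ‖al (cv δ Y v) Y n‖ ^ 2 * (n : ℝ) ^ (-(1 + η)) := by positivity
            calc ‖al (cv δ Y v) Y n‖ ^ 2 * ((n : ℝ) ^ (-(1 + η)) * (n : ℝ) ^ (1 / L))
                = (n : ℝ) ^ (1 / L) * (‖al (cv δ Y v) Y n‖ ^ 2 * (n : ℝ) ^ (-(1 + η))) := by ring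
              _ ≤ Real.exp 2 * (‖al (cv δ Y v) Y n‖ ^ 2 * (n : ℝ) ^ (-(1 + η))) :=
                mul_le_mul_of_nonneg_right e2 e6
        _ ≤ ∑ n ∈ Finset.Icc 1 N,
            Real.exp 2 * (‖al (cv δ Y v) Y n‖ ^ 2 * (n : ℝ) ^ (-(1 + η))) := by
            refine Finset.sum_le_sum_of_subset_of_nonneg ?_ fun n _ _ => by positivity
            exact Finset.Icc_subset_Icc (by norm_num) le_rfl
    have t2 := hDGE (cv δ Y v) Y N η hη0
    have t3 := h2 δ Y v η hδ hδ1 hY hYδ hη0.le (by rw [hη]; linarith)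
    have t4 : 1 + (‖v‖ + δ + η) * Real.log Y ≤ 2 * B := by
      have u1 : (‖v‖ + δ + η) * Real.log Y ≤ (‖v‖ + δ + η) * L :=
        mul_le_mul_of_nonneg_left hlY (by linarith [norm_nonneg v])
      have u2 : η * L = 2 * (σ - 1 / 2) * L + 1 := by
        rw [hη]
        field_simp
      rw [hB]
      nlinarith [mul_nonneg (norm_nonneg v) hL0.le, mul_nonneg hδ.le hL0.le]
    have t5 : (1 + (‖v‖ + δ + η) * Real.log Y) ^ C2 ≤ 2 ^ C2 * B ^ C2 := by
      rw [← Real.mul_rpow (by norm_num) hB0.le]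
      refine Real.rpow_le_rpow ?_ t4 hC2.le
      have : 0 ≤ (‖v‖ + δ + η) * Real.log Y :=
        mul_nonneg (by linarith [norm_nonneg v]) hlY0
      linarith
    have hSS0 : 0 ≤ SS (cv δ Y v) Y η := by
      unfold SS
      exact Finset.sum_nonneg fun q _ => by positivity
    calc ∑ n ∈ Finset.Icc 2 N, ‖al (cv δ Y v) Y n‖ ^ 2 * (n : ℝ) ^ (-(2 * σ))
        ≤ Real.exp 2 * ((1 + 1 / η) * SS (cv δ Y v) Y η) :=
          t1.trans (mul_le_mul_of_nonneg_left t2 (Real.exp_pos 2).le)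
      _ ≤ Real.exp 2 * ((1 + L) * (C2 * δ ^ 2 * (1 + Real.log Y) * (2 ^ C2 * B ^ C2))) := by
          refine mul_le_mul_of_nonneg_left ?_ (Real.exp_pos 2).le
          refine mul_le_mul (by linarith) (t3.trans ?_) hSS0 (by linarith)
          refine mul_le_mul_of_nonneg_left t5 ?_
          have : 0 ≤ 1 + Real.log Y := by linarith
          positivity
      _ = Real.exp 2 * C2 * 2 ^ C2 * (δ ^ 2 * (1 + Real.log Y) * (1 + L)) * B ^ C2 := by ring
      _ ≤ Real.exp 2 * C2 * 2 ^ C2 * (4 * B ^ 2) * B ^ C2 := by gcongr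
      _ = K * (B ^ 2 * B ^ C2) := by rw [hK]; ring
      _ ≤ K * B ^ C := mul_le_mul_of_nonneg_left (hpow C2 (by linarith)) hK0.le
  have hb0 : 1 + (‖v‖ + δ) * Real.log Y ≤ B := by
    have u1 : (‖v‖ + δ) * Real.log Y ≤ (‖v‖ + δ) * L :=
      mul_le_mul_of_nonneg_left hlY (by linarith [norm_nonneg v])
    rw [hB]
    nlinarith [mul_nonneg (by linarith : 0 ≤ σ - 1 / 2) hL0.le]
  have hb1 : 0 ≤ 1 + (‖v‖ + δ) * Real.log Y := by
    have : 0 ≤ (‖v‖ + δ) * Real.log Y := mul_nonneg (by linarith [norm_nonneg v]) hlY0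
    linarith
  have hXσ0 : 0 ≤ X ^ (-(2 * σ - 1)) := by positivity
  have s2 : X ^ (-(2 * σ - 1)) * (1 + L) * SS (cv δ Y v) Y 0 ≤ (4 * C2 + 4 * C3) * B ^ C := by
    rcases le_total v.re 0 with hv0 | hv0
    · have t3 := h2 δ Y v 0 hδ hδ1 hY hYδ le_rfl (by linarith)
      rw [add_zero] at t3
      have hXσ : X ^ (-(2 * σ - 1)) ≤ 1 :=
        Real.rpow_le_one_of_one_le_of_nonpos (by linarith) (by linarith)
      have hSS0 : 0 ≤ SS (cv δ Y v) Y 0 := by
        unfold SS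
        exact Finset.sum_nonneg fun q _ => by positivity
      calc X ^ (-(2 * σ - 1)) * (1 + L) * SS (cv δ Y v) Y 0
          ≤ 1 * (1 + L) * (C2 * δ ^ 2 * (1 + Real.log Y) * B ^ C2) := by
            refine mul_le_mul (mul_le_mul_of_nonneg_right hXσ (by linarith)) (t3.trans ?_) hSS0
              (by linarith)
            refine mul_le_mul_of_nonneg_left (Real.rpow_le_rpow hb1 hb0 hC2.le) ?_
            have : 0 ≤ 1 + Real.log Y := by linarith
            positivity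
        _ = C2 * (δ ^ 2 * (1 + Real.log Y) * (1 + L)) * B ^ C2 := by ring
        _ ≤ C2 * (4 * B ^ 2) * B ^ C2 := by gcongr
        _ = 4 * C2 * (B ^ 2 * B ^ C2) := by ring
        _ ≤ 4 * C2 * B ^ C := mul_le_mul_of_nonneg_left (hpow C2 (by linarith)) (by positivity)
        _ ≤ (4 * C2 + 4 * C3) * B ^ C := by
            have : 0 ≤ 4 * C3 * B ^ C := by positivity
            linarith
    · have t3 := h3 δ Y v hδ hδ1 hY hYδ hv0
      have hXY : X ^ (-(2 * σ - 1)) * (Y : ℝ) ^ (2 * v.re) ≤ 1 := by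
        calc X ^ (-(2 * σ - 1)) * (Y : ℝ) ^ (2 * v.re)
            ≤ X ^ (-(2 * σ - 1)) * X ^ (2 * σ - 1) := by
              refine mul_le_mul_of_nonneg_left ?_ hXσ0
              calc (Y : ℝ) ^ (2 * v.re) ≤ X ^ (2 * v.re) :=
                    Real.rpow_le_rpow (by linarith) hYX' (by linarith)
                _ ≤ X ^ (2 * σ - 1) :=
                    Real.rpow_le_rpow_of_exponent_le (by linarith) (by linarith)
          _ = 1 := by
              rw [← Real.rpow_add hX0]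
              simp
      have hlY1 : 0 ≤ 1 + Real.log Y := by linarith
      calc X ^ (-(2 * σ - 1)) * (1 + L) * SS (cv δ Y v) Y 0
          ≤ X ^ (-(2 * σ - 1)) * (1 + L) *
            (C3 * δ ^ 2 * (1 + Real.log Y) * B ^ C3 * (Y : ℝ) ^ (2 * v.re)) := by
            refine mul_le_mul_of_nonneg_left (t3.trans ?_) (mul_nonneg hXσ0 (by linarith))
            refine mul_le_mul_of_nonneg_right ?_ (by positivity)
            exact mul_le_mul_of_nonneg_left (Real.rpow_le_rpow hb1 hb0 hC3.le) (by positivity)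
        _ = (X ^ (-(2 * σ - 1)) * (Y : ℝ) ^ (2 * v.re)) *
            (C3 * (δ ^ 2 * (1 + Real.log Y) * (1 + L)) * B ^ C3) := by ring
        _ ≤ 1 * (C3 * (4 * B ^ 2) * B ^ C3) := by
            refine mul_le_mul hXY ?_ (by positivity) (by norm_num)
            gcongr
        _ = 4 * C3 * (B ^ 2 * B ^ C3) := by ring
        _ ≤ 4 * C3 * B ^ C := mul_le_mul_of_nonneg_left (hpow C3 (by linarith)) (by positivity)
        _ ≤ (4 * C2 + 4 * C3) * B ^ C := by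
            have : 0 ≤ 4 * C2 * B ^ C := by positivity
            linarith
  have s3 : X ^ (-(1 / 2) : ℝ) ≤ 1 * B ^ C := by
    have : X ^ (-(1 / 2) : ℝ) ≤ 1 :=
      Real.rpow_le_one_of_one_le_of_nonpos (by linarith) (by norm_num)
    linarith
  have g2 : (∫ τ in X..(2 * X), ‖riemannZeta (Pool.Agent.DBA.pt σ τ) *
      Pc (cv δ Y v) Y (Pool.Agent.DBA.pt σ τ) - 1‖ ^ 2) ≤
      C1 * X * ((K + 4 * C2 + 4 * C3 + 1) * B ^ C) := by
    refine g1.trans (mul_le_mul_of_nonneg_left ?_ (by positivity))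
    linarith
  have g3 := split (fun τ : ℝ => riemannZeta (Pool.Agent.DBA.pt σ τ) *
      Pc (cv δ Y v) Y (Pool.Agent.DBA.pt σ τ)) X hX0 (f_cont (cv δ Y v) Y σ X hX0)
  simp only [pc_eq] at g2 g3
  rw [← hL, ← hB]
  calc (∫ τ in X..(2 * X), ‖riemannZeta (Pool.Agent.DBA.pt σ τ) *
        Ms δ Y (Pool.Agent.DBA.pt σ τ - v)‖ ^ 2)
      ≤ 2 * (C1 * X * ((K + 4 * C2 + 4 * C3 + 1) * B ^ C)) + 2 * X := by linarith
    _ ≤ 2 * (C1 * X * ((K + 4 * C2 + 4 * C3 + 1) * B ^ C)) + 2 * X * B ^ C := by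
        have : 2 * X * 1 ≤ 2 * X * B ^ C := mul_le_mul_of_nonneg_left hBC1 (by positivity)
        linarith
    _ = (2 * C1 * (K + 4 * C2 + 4 * C3 + 1) + 2) * (X * B ^ C) := by ring
    _ ≤ C * (X * B ^ C) := mul_le_mul_of_nonneg_right hCco (by positivity)
    _ = C * X * B ^ C := by ring

end Pool.Agent.DBS
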