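import Pool.Agent.DBS.Targets3

/-!
# Proof of `T_MON`: the bounds for a time give bounds for all times up to its double
-/

set_option autoImplicit false

namespace Pool.Agent.DBS

open Complex MeasureTheory Set Filter
open Pool.Agent.DBN Pool.Agent.DBC Pool.Agent.DBB

namespace MON_

/-- The division by `n + 1` and `4 n + 5`. -/
theorem div_mono {n : ℕ} {x y c : ℝ} (hc : 0 ≤ c) (hc2 : c ≤ 2) (hx : x ≤ c * y) (hy : 0 ≤ y) :
    x / (4 * (n : ℝ) + 4 + 1) ≤ y / (n + 1) := by
  have hn : (0 : ℝ) ≤ n := Nat.cast_nonneg n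
  rw [div_le_div_iff₀ (by linarith) (by linarith)]
  have h1 : x * (n + 1) ≤ 2 * y * (n + 1) :=
    mul_le_mul_of_nonneg_right (hx.trans (mul_le_mul_of_nonneg_right hc2 hy)) (by linarith)
  have h2 : 0 ≤ y * n := mul_nonneg hy hn
  nlinarith

end MON_

open MON_ in
theorem p_MON : T_MON := by
  intro n s t T hT hst hts h
  obtain ⟨hs, hm, ν, hν, hup, hlo⟩ := h
  have hn : (0 : ℝ) ≤ n := Nat.cast_nonneg n
  have hL : 0 ≤ Real.log T := Real.log_nonneg hT
  have ht : 0 < t := hs.trans_le hst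
  have hT0 : 0 < T := by linarith
  have hν0 : 0 < ν := (Real.rpow_pos_of_pos hT0 _).trans_le hν
  have hmm : mt s T ≤ mt t T := mul_le_mul_of_nonneg_right hst (sq_nonneg _)
  push_cast at hm hup hlo
  have hmt0 : 0 ≤ mt t T := by linarith
  refine ⟨ht, by linarith, ν, hν, fun w hw hwn => ?_, fun w h1 h2 h3 => ?_⟩
  · refine (hup w hw (by linarith)).trans ?_
    refine mul_le_mul_of_nonneg_left (Real.exp_le_exp.2 ?_) hν0.le
    have hq : ‖w‖ ^ 2 / s ≤ 2 * (‖w‖ ^ 2 / t) := by
      rw [← mul_div_assoc, div_le_div_iff₀ hs ht]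
      nlinarith [sq_nonneg ‖w‖]
    refine div_mono (c := 2) (by norm_num) le_rfl ?_ (by positivity)
    linarith
  · have hsL : s * Real.log T ≤ t * Real.log T := mul_le_mul_of_nonneg_right hst hL
    have htL : t * Real.log T ≤ 2 * (s * Real.log T) := by
      rw [← mul_assoc]
      exact mul_le_mul_of_nonneg_right hts hL
    have hsL0 : 0 ≤ s * Real.log T := mul_nonneg hs.le hL
    have htL0 : 0 ≤ t * Real.log T := mul_nonneg ht.le hL
    have hbox : (n : ℝ) * (t * Real.log T) ≤ (4 * n + 4) * (s * Real.log T) := by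
      have := mul_le_mul_of_nonneg_left htL hn
      nlinarith [mul_nonneg hn hsL0]
    refine le_trans ?_ (hlo w ((div_mono (c := 1) (by norm_num) (by norm_num) (by linarith)
      htL0).trans h1) (h2.trans hbox) (h3.trans hbox))
    refine mul_le_mul_of_nonneg_left (Real.exp_le_exp.2 (neg_le_neg ?_)) hν0.le
    exact div_mono (c := 1) (by norm_num) (by norm_num) (by linarith) hmt0

end Pool.Agent.DBS
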