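import Pool.Agent.DBS.Targets

/-!
# DBS, target MSB: the trivial bound for the mollifier
-/

set_option autoImplicit false

namespace Pool.Agent.DBS

open Complex MeasureTheory Set Filter
open Pool.Agent.DBN Pool.Agent.DBC Pool.Agent.DBB

theorem p_MSB (h1 : T_LA1) : T_MSB := by
  intro δ Y s hδ hδ1 hY hs
  obtain ⟨-, hla⟩ := h1 δ Y hδ hY
  unfold Ms Pc
  have key : ∀ k ∈ Finset.Icc 1 Y, ‖((la δ Y k : ℝ) : ℂ) * (k : ℂ) ^ (-s)‖ ≤ (Y : ℝ) ^ 2 := by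
    intro k hk
    obtain ⟨hk1, hk2⟩ := Finset.mem_Icc.1 hk
    have hk1' : (1 : ℝ) ≤ k := by exact_mod_cast hk1
    have hkY : (k : ℝ) ≤ Y := by exact_mod_cast hk2
    rw [norm_mul, Complex.norm_real, Real.norm_eq_abs]
    have e1 : ‖(k : ℂ) ^ (-s)‖ ≤ 1 := by
      rw [Complex.norm_natCast_cpow_of_pos (by omega)]
      exact Real.rpow_le_one_of_one_le_of_nonpos hk1' (by simpa using hs)
    have e2 : |la δ Y k| ≤ (Y : ℝ) ^ 2 := by
      refine (hla k hk1).trans ?_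
      calc (k : ℝ) ^ (1 + δ) ≤ (k : ℝ) ^ (2 : ℝ) :=
            Real.rpow_le_rpow_of_exponent_le hk1' (by linarith)
        _ = (k : ℝ) ^ 2 := by norm_cast
        _ ≤ (Y : ℝ) ^ 2 := by gcongr
    calc |la δ Y k| * ‖(k : ℂ) ^ (-s)‖ ≤ (Y : ℝ) ^ 2 * 1 := by gcongr
      _ = (Y : ℝ) ^ 2 := mul_one _
  refine (norm_sum_le _ _).trans ((Finset.sum_le_sum key).trans (le_of_eq ?_))
  rw [Finset.sum_const, Nat.card_Icc, nsmul_eq_mul, Nat.add_sub_cancel]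
  ring

end Pool.Agent.DBS
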