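import Pool.Agent.DBS.Targets

/-!
# Proof of `T_NUM` (job 17386): `m + R²/m ≥ m/2 + R`, so the sum is at most
`C (4 + m + 4 n m)^C exp (-m/(4 (n + 1))) ∑_R (1 + R)^C exp (-R/(2 (n + 1)))`.
-/

set_option autoImplicit false

namespace Pool.Agent.DBS

open Filter

namespace NUM_

lemma ev (s b K η : ℝ) (hb : 0 < b) (hη : 0 < η) :
    ∀ᶠ m : ℝ in atTop, K * (m ^ s * Real.exp (-b * m)) ≤ η := by
  have h := (tendsto_rpow_mul_exp_neg_mul_atTop_nhds_zero s b hb).const_mul K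
  rw [mul_zero] at h
  exact h.eventually_le_const hη

lemma sumB (C a : ℝ) (ha : 0 < a) : ∃ B : ℝ, ∀ N : ℕ,
    ∑ R ∈ Finset.range N, (((R : ℝ) + 1) ^ C * Real.exp (-a * R)) ≤ B := by
  set k : ℕ := ⌈C⌉₊ with hk
  have hCk : C ≤ (k : ℝ) := Nat.le_ceil C
  have h1 := (summable_nat_add_iff 1).2 (Real.summable_pow_mul_exp_neg_nat_mul k ha)
  have h2 : Summable (fun R : ℕ => ((R : ℝ) + 1) ^ C * Real.exp (-a * R)) := by
    refine Summable.of_nonneg_of_le (fun R => by positivity) (fun R => ?_)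
      (h1.mul_left (Real.exp a))
    have e1 : ((R : ℝ) + 1) ^ C ≤ ((R : ℝ) + 1) ^ k := by
      rw [← Real.rpow_natCast]
      exact Real.rpow_le_rpow_of_exponent_le (by linarith [(Nat.cast_nonneg R : (0 : ℝ) ≤ R)]) hCk
    have e2 : Real.exp (-a * R) = Real.exp a * Real.exp (-a * ((R : ℝ) + 1)) := by
      rw [← Real.exp_add]; congr 1; ring
    push_cast
    rw [e2]
    have e3 : 0 ≤ Real.exp a * Real.exp (-a * ((R : ℝ) + 1)) := by positivity
    calc ((R : ℝ) + 1) ^ C * (Real.exp a * Real.exp (-a * ((R : ℝ) + 1)))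
        ≤ ((R : ℝ) + 1) ^ k * (Real.exp a * Real.exp (-a * ((R : ℝ) + 1))) :=
          mul_le_mul_of_nonneg_right e1 e3
      _ = Real.exp a * (((R : ℝ) + 1) ^ k * Real.exp (-a * ((R : ℝ) + 1))) := by ring
  exact ⟨_, fun N => h2.sum_le_tsum _ (fun R _ => by positivity)⟩

lemma expo (m R a : ℝ) (hm : 1 ≤ m) (ha : 0 ≤ a) :
    -(a * (m + R ^ 2 / m)) ≤ -(a / 2) * m + -a * R := by
  have hm0 : 0 < m := by linarith
  have h : m / 2 + R ≤ m + R ^ 2 / m := by
    have e : m + R ^ 2 / m - (m / 2 + R) = ((m - R) ^ 2 + R ^ 2) / (2 * m) := by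
      field_simp; ring
    have : 0 ≤ ((m - R) ^ 2 + R ^ 2) / (2 * m) := by positivity
    linarith
  have := mul_le_mul_of_nonneg_left h ha
  nlinarith

end NUM_

open NUM_ in
theorem p_NUM : T_NUM := by
  intro n C η hC hη
  have hn0 : (0 : ℝ) ≤ (n : ℝ) := Nat.cast_nonneg n
  have hn : (0 : ℝ) < (n : ℝ) + 1 := by linarith
  obtain ⟨a, ha⟩ : ∃ a : ℝ, a = 1 / (2 * ((n : ℝ) + 1)) := ⟨_, rfl⟩
  have hapos : 0 < a := by rw [ha]; positivity
  obtain ⟨B, hB⟩ := sumB C a hapos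
  have hB0 : 0 ≤ B := by simpa using hB 0
  have e1 := ev 2 (1 / (80 * ((n : ℝ) + 1))) (C * (4 * n + 2) ^ 2) η (by positivity) hη
  have e2 := ev C (a / 2) (C * (4 * n + 5) ^ C * B) η (by positivity) hη
  obtain ⟨A, hA⟩ := Filter.eventually_atTop.1 (e1.and e2)
  refine ⟨max A 1, le_max_right _ _, fun m hm => ?_⟩
  have hmA := (le_max_left A 1).trans hm
  have hm1 : (1 : ℝ) ≤ m := (le_max_right A 1).trans hm
  have hm0 : 0 < m := by linarith
  obtain ⟨h1, h2⟩ := hA m hmA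
  constructor
  · refine le_trans (le_of_le_of_eq ?_ rfl) h1
    rw [Real.rpow_two]
    have q : 4 * (n : ℝ) * m + 2 ≤ (4 * n + 2) * m := by nlinarith
    have q2 : (4 * (n : ℝ) * m + 2) ^ 2 ≤ ((4 * n + 2) * m) ^ 2 :=
      pow_le_pow_left₀ (by positivity) q 2
    have q3 : Real.exp (-(m / (80 * ((n : ℝ) + 1)))) = Real.exp (-(1 / (80 * ((n : ℝ) + 1))) * m) := by
      congr 1; ring
    rw [q3]
    calc C * (4 * (n : ℝ) * m + 2) ^ 2 * Real.exp (-(1 / (80 * ((n : ℝ) + 1))) * m)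
        ≤ C * ((4 * n + 2) * m) ^ 2 * Real.exp (-(1 / (80 * ((n : ℝ) + 1))) * m) := by gcongr
      _ = C * (4 * n + 2) ^ 2 * (m ^ 2 * Real.exp (-(1 / (80 * ((n : ℝ) + 1))) * m)) := by ring
  · intro N
    refine le_trans ?_ h2
    have key : ∀ R ∈ Finset.range N, C * (1 + m + ((R : ℝ) + 1) + (4 * n * m + 2)) ^ C *
        Real.exp (-((m + (R : ℝ) ^ 2 / m) / (2 * (n + 1)))) ≤
        C * (4 * n + 5) ^ C * (m ^ C * Real.exp (-(a / 2) * m)) *
          (((R : ℝ) + 1) ^ C * Real.exp (-a * R)) := by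
      intro R _
      have hR : (0 : ℝ) ≤ (R : ℝ) := Nat.cast_nonneg R
      have b1 : 1 + m + ((R : ℝ) + 1) + (4 * n * m + 2) ≤ (4 * n + 5) * m * ((R : ℝ) + 1) := by
        have c1 : 4 + m + 4 * (n : ℝ) * m ≤ (4 * n + 5) * m := by nlinarith
        have c2 : 0 ≤ 4 * (n : ℝ) * m := by positivity
        have c3 : (4 + m + 4 * (n : ℝ) * m) * ((R : ℝ) + 1) ≤ (4 * n + 5) * m * ((R : ℝ) + 1) :=
          mul_le_mul_of_nonneg_right c1 (by linarith)
        nlinarith [mul_nonneg c2 hR, mul_nonneg hm0.le hR]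
      have b2 : (1 + m + ((R : ℝ) + 1) + (4 * n * m + 2)) ^ C ≤
          (4 * n + 5) ^ C * m ^ C * ((R : ℝ) + 1) ^ C := by
        rw [← Real.mul_rpow (by positivity) (by positivity),
          ← Real.mul_rpow (by positivity) (by positivity)]
        exact Real.rpow_le_rpow (by positivity) b1 hC.le
      have b3 : Real.exp (-((m + (R : ℝ) ^ 2 / m) / (2 * (n + 1)))) ≤
          Real.exp (-(a / 2) * m) * Real.exp (-a * R) := by
        rw [← Real.exp_add]
        apply Real.exp_le_exp.2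
        have := expo m R a hm1 hapos.le
        refine le_trans (le_of_eq ?_) this
        rw [ha]; ring
      calc C * (1 + m + ((R : ℝ) + 1) + (4 * n * m + 2)) ^ C *
            Real.exp (-((m + (R : ℝ) ^ 2 / m) / (2 * (n + 1))))
          ≤ C * ((4 * n + 5) ^ C * m ^ C * ((R : ℝ) + 1) ^ C) *
            (Real.exp (-(a / 2) * m) * Real.exp (-a * R)) := by gcongr
        _ = _ := by ring
    refine (Finset.sum_le_sum key).trans ?_
    rw [← Finset.mul_sum]
    have c0 : 0 ≤ C * (4 * n + 5) ^ C * (m ^ C * Real.exp (-(a / 2) * m)) := by positivity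
    calc C * (4 * n + 5) ^ C * (m ^ C * Real.exp (-(a / 2) * m)) *
          ∑ R ∈ Finset.range N, (((R : ℝ) + 1) ^ C * Real.exp (-a * R))
        ≤ C * (4 * n + 5) ^ C * (m ^ C * Real.exp (-(a / 2) * m)) * B :=
          mul_le_mul_of_nonneg_left (hB N) c0
      _ = C * (4 * n + 5) ^ C * B * (m ^ C * Real.exp (-(a / 2) * m)) := by ring

end Pool.Agent.DBS
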