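import Pool.Agent.DBS.Targets2
import Pool.Agent.DBS.P_NUM

/-!
# Proof of `T_NU2` (edit of `P_NUM.lean`, helper79): the exponential version
-/

set_option autoImplicit false

namespace Pool.Agent.DBS

open Filter

namespace NU2_

/-- The sum over `R` (the second part of `P_NUM.lean`). -/
lemma sum_le (n : ℕ) (C a B m : ℝ) (hC : 0 < C) (ha : a = 1 / (2 * ((n : ℝ) + 1)))
    (hm1 : 1 ≤ m) (hB : ∀ N : ℕ,
      ∑ R ∈ Finset.range N, (((R : ℝ) + 1) ^ C * Real.exp (-a * R)) ≤ B) (N : ℕ) :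
    ∑ R ∈ Finset.range N, C * (1 + m + ((R : ℝ) + 1) + (4 * n * m + 2)) ^ C *
      Real.exp (-((m + (R : ℝ) ^ 2 / m) / (2 * (n + 1)))) ≤
    C * (4 * n + 5) ^ C * B * (m ^ C * Real.exp (-(a / 2) * m)) := by
  have hn0 : (0 : ℝ) ≤ (n : ℝ) := Nat.cast_nonneg n
  have hm0 : 0 < m := by linarith
  have hapos : 0 < a := by rw [ha]; positivity
  have key : ∀ R ∈ Finset.range N, C * (1 + m + ((R : ℝ) + 1) + (4 * n * m + 2)) ^ C *
      Real.exp (-((m + (R : ℝ) ^ 2 / m) / (2 * (n + 1)))) ≤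
      C * (4 * n + 5) ^ C * (m ^ C * Real.exp (-(a / 2) * m)) *
        (((R : ℝ) + 1) ^ C * Real.exp (-a * R)) := by
    intro R _
    have hR : (0 : ℝ) ≤ (R : ℝ) := Nat.cast_nonneg R
    have b1 : 1 + m + ((R : ℝ) + 1) + (4 * n * m + 2) ≤ (4 * n + 5) * m * ((R : ℝ) + 1) := by
      have c1 : 4 + m + 4 * (n : ℝ) * m ≤ (4 * n + 5) * m := by nlinarith
      have c2 : 0 ≤ 4 * (n : ℝ) * m := by positivity
      have c3 : (4 + m + 4 * (n : ℝ) * m) * ((R : ℝ) + 1) ≤ (4 * n + 5) * m * ((R : ℝ) + 1) :=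
        mul_le_mul_of_nonneg_right c1 (by linarith)
      nlinarith [mul_nonneg c2 hR, mul_nonneg hm0.le hR]
    have b2 : (1 + m + ((R : ℝ) + 1) + (4 * n * m + 2)) ^ C ≤
        (4 * n + 5) ^ C * m ^ C * ((R : ℝ) + 1) ^ C := by
      rw [← Real.mul_rpow (by positivity) (by positivity),
        ← Real.mul_rpow (by positivity) (by positivity)]
      exact Real.rpow_le_rpow (by positivity) b1 hC.le
    have b3 : Real.exp (-((m + (R : ℝ) ^ 2 / m) / (2 * (n + 1)))) ≤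
        Real.exp (-(a / 2) * m) * Real.exp (-a * R) := by
      rw [← Real.exp_add]
      apply Real.exp_le_exp.2
      have := NUM_.expo m R a hm1 hapos.le
      refine le_trans (le_of_eq ?_) this
      rw [ha]; ring
    calc C * (1 + m + ((R : ℝ) + 1) + (4 * n * m + 2)) ^ C *
          Real.exp (-((m + (R : ℝ) ^ 2 / m) / (2 * (n + 1))))
        ≤ C * ((4 * n + 5) ^ C * m ^ C * ((R : ℝ) + 1) ^ C) *
          (Real.exp (-(a / 2) * m) * Real.exp (-a * R)) := by gcongr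
      _ = _ := by ring
  refine (Finset.sum_le_sum key).trans ?_
  rw [← Finset.mul_sum]
  have c0 : 0 ≤ C * (4 * n + 5) ^ C * (m ^ C * Real.exp (-(a / 2) * m)) := by positivity
  calc C * (4 * n + 5) ^ C * (m ^ C * Real.exp (-(a / 2) * m)) *
        ∑ R ∈ Finset.range N, (((R : ℝ) + 1) ^ C * Real.exp (-a * R))
      ≤ C * (4 * n + 5) ^ C * (m ^ C * Real.exp (-(a / 2) * m)) * B :=
        mul_le_mul_of_nonneg_left (hB N) c0
    _ = C * (4 * n + 5) ^ C * B * (m ^ C * Real.exp (-(a / 2) * m)) := by ring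

end NU2_

open NU2_ NUM_ in
theorem p_NU2 : T_NU2 := by
  intro n C hC
  have hn0 : (0 : ℝ) ≤ (n : ℝ) := Nat.cast_nonneg n
  have hn : (0 : ℝ) < (n : ℝ) + 1 := by linarith
  obtain ⟨a, ha⟩ : ∃ a : ℝ, a = 1 / (2 * ((n : ℝ) + 1)) := ⟨_, rfl⟩
  have hapos : 0 < a := by rw [ha]; positivity
  obtain ⟨κ, hκ⟩ : ∃ κ : ℝ, κ = 1 / (160 * ((n : ℝ) + 1)) := ⟨_, rfl⟩
  have hκpos : 0 < κ := by rw [hκ]; positivity
  have haκ : a = 80 * κ := by
    rw [ha, hκ]
    field_simp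
    norm_num
  obtain ⟨B, hB⟩ := sumB C a hapos
  have e1 := ev 2 κ (C * (4 * n + 2) ^ 2) (1 / 4) hκpos (by norm_num)
  have e2 := ev C (a / 2 - κ) (C * (4 * n + 5) ^ C * B) (1 / 4) (by linarith) (by norm_num)
  obtain ⟨A, hA⟩ := Filter.eventually_atTop.1 (e1.and e2)
  refine ⟨max A 1, κ, le_max_right _ _, hκpos, fun m hm => ?_⟩
  have hmA := (le_max_left A 1).trans hm
  have hm1 : (1 : ℝ) ≤ m := (le_max_right A 1).trans hm
  have hm0 : 0 < m := by linarith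
  obtain ⟨h1, h2⟩ := hA m hmA
  have hE : 0 < Real.exp (-(κ * m)) := Real.exp_pos _
  constructor
  · rw [Real.rpow_two] at h1
    have q : 4 * (n : ℝ) * m + 2 ≤ (4 * n + 2) * m := by nlinarith
    have q2 : (4 * (n : ℝ) * m + 2) ^ 2 ≤ ((4 * n + 2) * m) ^ 2 :=
      pow_le_pow_left₀ (by positivity) q 2
    have q3 : Real.exp (-(m / (80 * ((n : ℝ) + 1)))) =
        Real.exp (-κ * m) * Real.exp (-(κ * m)) := by
      rw [← Real.exp_add]
      congr 1
      rw [hκ]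
      field_simp
      norm_num
    rw [q3]
    calc C * (4 * (n : ℝ) * m + 2) ^ 2 * (Real.exp (-κ * m) * Real.exp (-(κ * m)))
        ≤ C * ((4 * n + 2) * m) ^ 2 * (Real.exp (-κ * m) * Real.exp (-(κ * m))) := by gcongr
      _ = C * (4 * n + 2) ^ 2 * (m ^ 2 * Real.exp (-κ * m)) * Real.exp (-(κ * m)) := by ring
      _ ≤ 1 / 4 * Real.exp (-(κ * m)) := mul_le_mul_of_nonneg_right h1 hE.le
      _ = Real.exp (-(κ * m)) / 4 := by ring
  · intro N
    refine (sum_le n C a B m hC ha hm1 hB N).trans ?_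
    have q3 : Real.exp (-(a / 2) * m) =
        Real.exp (-(a / 2 - κ) * m) * Real.exp (-(κ * m)) := by
      rw [← Real.exp_add]
      congr 1
      ring
    rw [q3]
    calc C * (4 * (n : ℝ) + 5) ^ C * B *
          (m ^ C * (Real.exp (-(a / 2 - κ) * m) * Real.exp (-(κ * m))))
        = C * (4 * n + 5) ^ C * B * (m ^ C * Real.exp (-(a / 2 - κ) * m)) *
          Real.exp (-(κ * m)) := by ring
      _ ≤ 1 / 4 * Real.exp (-(κ * m)) := mul_le_mul_of_nonneg_right h2 hE.le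
      _ = Real.exp (-(κ * m)) / 4 := by ring

end Pool.Agent.DBS
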