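import Pool.Agent.DBS.Targets

/-!
# DBS: the sum of `min (a log p) 1 / p` over the primes (PSU)
-/

set_option autoImplicit false

namespace Pool.Agent.DBS

namespace PSU_

open Finset

/-- the summand of the telescoping bound -/
theorem tele (a : ℝ) (ha : 0 ≤ a) (J : ℕ) :
    ∑ j ∈ range J, a / (1 + a * ((j : ℝ) + 1)) ≤ Real.log (1 + a * J) := by
  induction J with
  | zero => simp
  | succ J ih =>
    rw [sum_range_succ]
    have h1 : 0 < 1 + a * (J : ℝ) := by positivity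
    have h2 : 0 < 1 + a * ((J : ℝ) + 1) := by positivity
    have h3 : a / (1 + a * ((J : ℝ) + 1)) ≤
        Real.log (1 + a * ((J : ℝ) + 1)) - Real.log (1 + a * J) := by
      rw [← Real.log_div h2.ne' h1.ne']
      have h4 := Real.one_sub_inv_le_log_of_pos (div_pos h2 h1)
      refine le_trans (le_of_eq ?_) h4
      rw [inv_div]
      field_simp
      ring
    push_cast
    linarith

/-- one minimum -/
theorem mn (a : ℝ) (ha : 0 ≤ a) (j : ℕ) :
    min (a * ((j : ℝ) + 2)) 1 ≤ 4 * (a * ((j : ℝ) + 1)) / (1 + a * ((j : ℝ) + 1)) := by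
  have hj : (0 : ℝ) ≤ j := Nat.cast_nonneg j
  have h0 : 0 ≤ a * ((j : ℝ) + 1) := by positivity
  have h1 : a * ((j : ℝ) + 2) ≤ 2 * (a * ((j : ℝ) + 1)) := by nlinarith
  generalize hy : a * ((j : ℝ) + 1) = y at *
  rw [le_div_iff₀ (by linarith)]
  rcases le_total y 1 with h | h
  · have h2 : min (a * ((j : ℝ) + 2)) 1 ≤ 2 * y := (min_le_left _ _).trans h1
    have h3 : 0 ≤ min (a * ((j : ℝ) + 2)) 1 := by
      refine le_min (by positivity) zero_le_one
    nlinarith
  · have h2 : min (a * ((j : ℝ) + 2)) 1 ≤ 1 := min_le_right _ _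
    nlinarith

/-- the number of primes in a dyadic block -/
theorem card (Y j : ℕ) :
    ((((Icc 1 Y).filter Nat.Prime).filter fun p => Nat.log 2 p = j + 1).card : ℝ) *
      ((j : ℝ) + 1) ≤ 4 * 2 ^ (j + 1) := by
  have h1 : ∀ p ∈ ((Icc 1 Y).filter Nat.Prime).filter fun p => Nat.log 2 p = j + 1,
      ((j : ℝ) + 1) * Real.log 2 ≤ Real.log p := by
    intro p hp
    rw [mem_filter, mem_filter, mem_Icc] at hp
    obtain ⟨⟨⟨h1, -⟩, -⟩, h2⟩ := hp
    have h3 : 2 ^ (j + 1) ≤ p := h2 ▸ Nat.pow_log_le_self 2 (by omega)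
    have h4 : ((2 : ℝ)) ^ (j + 1) ≤ p := by exact_mod_cast h3
    have h5 := Real.log_le_log (by positivity) h4
    rw [Real.log_pow] at h5
    push_cast at h5
    exact h5
  have h2 : ∑ p ∈ ((Icc 1 Y).filter Nat.Prime).filter (fun p => Nat.log 2 p = j + 1),
      Real.log p ≤ Chebyshev.theta ((2 : ℝ) ^ (j + 2)) := by
    unfold Chebyshev.theta
    refine sum_le_sum_of_subset_of_nonneg ?_ fun p _ _ => Real.log_natCast_nonneg p
    intro p hp
    rw [mem_filter, mem_filter, mem_Icc] at hp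
    obtain ⟨⟨⟨h1, -⟩, h3⟩, h2⟩ := hp
    rw [mem_filter, mem_Ioc]
    refine ⟨⟨by omega, ?_⟩, h3⟩
    have h4 : p < 2 ^ (j + 2) := by
      have := Nat.lt_pow_succ_log_self (b := 2) (by norm_num) p
      rwa [h2] at this
    apply Nat.le_floor
    exact_mod_cast h4.le
  have h3 := Chebyshev.theta_le_log4_mul_x (x := (2 : ℝ) ^ (j + 2)) (by positivity)
  have h4 : (((((Icc 1 Y).filter Nat.Prime).filter fun p => Nat.log 2 p = j + 1).card : ℝ)) *
      (((j : ℝ) + 1) * Real.log 2) ≤ Real.log 4 * 2 ^ (j + 2) := by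
    refine le_trans ?_ (h2.trans h3)
    rw [← nsmul_eq_mul]
    exact card_nsmul_le_sum _ _ _ h1
  have h5 : Real.log 4 = 2 * Real.log 2 := by
    rw [show (4 : ℝ) = 2 ^ 2 by norm_num, Real.log_pow]
    norm_num
  have h6 : 0 < Real.log 2 := Real.log_pos (by norm_num)
  rw [h5] at h4
  have h7 : (((((Icc 1 Y).filter Nat.Prime).filter fun p => Nat.log 2 p = j + 1).card : ℝ) *
      ((j : ℝ) + 1)) * Real.log 2 ≤ (4 * 2 ^ (j + 1)) * Real.log 2 := by
    rw [pow_succ] at h4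
    nlinarith
  exact le_of_mul_le_mul_right h7 h6

/-- one block -/
theorem block (Y : ℕ) (a : ℝ) (ha : 0 ≤ a) (j : ℕ) :
    ∑ p ∈ ((Icc 1 Y).filter Nat.Prime).filter (fun p => Nat.log 2 p = j + 1),
      min (a * Real.log p) 1 / (p : ℝ) ≤ 16 * (a / (1 + a * ((j : ℝ) + 1))) := by
  have hj : (0 : ℝ) ≤ j := Nat.cast_nonneg j
  have h1 : ∀ p ∈ ((Icc 1 Y).filter Nat.Prime).filter (fun p => Nat.log 2 p = j + 1),
      min (a * Real.log p) 1 / (p : ℝ) ≤ min (a * ((j : ℝ) + 2)) 1 / 2 ^ (j + 1) := by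
    intro p hp
    rw [mem_filter, mem_filter, mem_Icc] at hp
    obtain ⟨⟨⟨h1, -⟩, -⟩, h2⟩ := hp
    have h3 : 2 ^ (j + 1) ≤ p := h2 ▸ Nat.pow_log_le_self 2 (by omega)
    have h4 : p < 2 ^ (j + 2) := by
      have := Nat.lt_pow_succ_log_self (b := 2) (by norm_num) p
      rwa [h2] at this
    have h5 : ((2 : ℝ)) ^ (j + 1) ≤ p := by exact_mod_cast h3
    have h6 : (p : ℝ) ≤ (2 : ℝ) ^ (j + 2) := by exact_mod_cast h4.le
    have h7 : (0 : ℝ) < p := lt_of_lt_of_le (by positivity) h5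
    have h8 := Real.log_le_log h7 h6
    rw [Real.log_pow] at h8
    push_cast at h8
    have h9 : Real.log 2 ≤ 1 := by
      have := Real.log_two_lt_d9
      linarith
    have h10 : Real.log p ≤ (j : ℝ) + 2 := by nlinarith
    have h11 : 0 ≤ Real.log p := Real.log_natCast_nonneg p
    refine div_le_div₀ (le_min (by positivity) zero_le_one) ?_ (by positivity) h5
    exact min_le_min_right _ (mul_le_mul_of_nonneg_left h10 ha)
  refine (sum_le_card_nsmul _ _ _ h1).trans ?_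
  rw [nsmul_eq_mul]
  have h2 := card Y j
  have h3 := mn a ha j
  generalize ((((Icc 1 Y).filter Nat.Prime).filter fun p => Nat.log 2 p = j + 1).card : ℝ) = N
    at h2 ⊢
  have h4 : (0 : ℝ) < 2 ^ (j + 1) := by positivity
  have h5 : 0 < 1 + a * ((j : ℝ) + 1) := by positivity
  have h6 : 0 ≤ min (a * ((j : ℝ) + 2)) 1 := le_min (by positivity) zero_le_one
  have h7 : N ≤ 4 * 2 ^ (j + 1) / ((j : ℝ) + 1) := by
    rw [le_div_iff₀ (by positivity)]
    exact h2
  calc N * (min (a * ((j : ℝ) + 2)) 1 / 2 ^ (j + 1))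
      ≤ (4 * 2 ^ (j + 1) / ((j : ℝ) + 1)) * (min (a * ((j : ℝ) + 2)) 1 / 2 ^ (j + 1)) :=
        mul_le_mul_of_nonneg_right h7 (by positivity)
    _ = 4 / ((j : ℝ) + 1) * min (a * ((j : ℝ) + 2)) 1 := by field_simp
    _ ≤ 4 / ((j : ℝ) + 1) * (4 * (a * ((j : ℝ) + 1)) / (1 + a * ((j : ℝ) + 1))) :=
        mul_le_mul_of_nonneg_left h3 (by positivity)
    _ = 16 * (a / (1 + a * ((j : ℝ) + 1))) := by
        field_simp
        ring

/-- the statement with explicit constants -/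
theorem main (Y : ℕ) (a : ℝ) (hY : 2 ≤ Y) (ha : 0 ≤ a) :
    ∑ p ∈ (Icc 1 Y).filter Nat.Prime, min (a * Real.log p) 1 / (p : ℝ) ≤
      32 * Real.log (1 + a * Real.log Y) := by
  have h1 : ∀ p ∈ (Icc 1 Y).filter Nat.Prime, Nat.log 2 p ∈ range (Nat.log 2 Y + 1) := by
    intro p hp
    rw [mem_filter, mem_Icc] at hp
    rw [mem_range]
    have := Nat.log_mono_right (b := 2) hp.1.2
    omega
  rw [← sum_fiberwise_of_maps_to h1, sum_range_succ']
  have h2 : ((Icc 1 Y).filter Nat.Prime).filter (fun p => Nat.log 2 p = 0) = ∅ := by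
    ext p
    rw [mem_filter, mem_filter]
    constructor
    · rintro ⟨⟨-, h⟩, h3⟩
      have h4 := h.two_le
      rw [Nat.log_eq_zero_iff] at h3
      omega
    · intro h
      exact absurd h (notMem_empty p)
  rw [h2, sum_empty, add_zero]
  have h3 : ∑ j ∈ range (Nat.log 2 Y), ∑ p ∈ ((Icc 1 Y).filter Nat.Prime).filter
      (fun p => Nat.log 2 p = j + 1), min (a * Real.log p) 1 / (p : ℝ) ≤
      ∑ j ∈ range (Nat.log 2 Y), 16 * (a / (1 + a * ((j : ℝ) + 1))) :=
    sum_le_sum fun j _ => block Y a ha j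
  rw [← mul_sum] at h3
  have h4 := tele a ha (Nat.log 2 Y)
  have h5 : (Nat.log 2 Y : ℝ) ≤ 2 * Real.log Y := by
    have h6 : (2 : ℝ) ^ Nat.log 2 Y ≤ Y := by
      exact_mod_cast Nat.pow_log_le_self 2 (by omega)
    have h7 := Real.log_le_log (by positivity) h6
    rw [Real.log_pow] at h7
    have h8 := Real.log_two_gt_d9
    have h9 : (0 : ℝ) ≤ (Nat.log 2 Y : ℝ) := Nat.cast_nonneg _
    nlinarith
  have h6 : 0 ≤ Real.log Y := Real.log_natCast_nonneg Y
  have h7 : 0 ≤ a * Real.log Y := mul_nonneg ha h6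
  have h8 : Real.log (1 + a * (Nat.log 2 Y : ℝ)) ≤ 2 * Real.log (1 + a * Real.log Y) := by
    have h9 : 1 + a * (Nat.log 2 Y : ℝ) ≤ (1 + a * Real.log Y) ^ 2 := by
      have := mul_le_mul_of_nonneg_left h5 ha
      nlinarith
    have h10 := Real.log_le_log (by positivity) h9
    rw [Real.log_pow] at h10
    push_cast at h10
    exact h10
  linarith

end PSU_

/-- **PSU**: the sum of `min (a log p) 1 / p` over the primes `p ≤ Y`. -/
theorem p_PSU : T_PSU := by
  refine ⟨32, by norm_num, fun Y a hY ha => ?_⟩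
  have h1 := PSU_.main Y a hY ha
  linarith

end Pool.Agent.DBS
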