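import Pool.Agent.DBS.Targets

/-!
# DBS, SQS: the sum of `μ(q)² q^(1+2δ) / J(q)²`
-/

set_option autoImplicit false

namespace Pool.Agent.DBS

open Complex MeasureTheory Set Filter
open Pool.Agent.DBN Pool.Agent.DBC Pool.Agent.DBB
open scoped ENNReal

namespace SQS_

/-- one prime -/
theorem one_prime {p : ℕ} (hp : 2 ≤ p) {δ : ℝ} (hδ : 0 < δ) :
    ((p : ℝ) ^ (1 + δ) / ((p : ℝ) ^ (1 + δ) - 1)) ^ 2 ≤ 1 + 6 / (p : ℝ) := by
  have hp' : (2 : ℝ) ≤ p := by exact_mod_cast hp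
  have hp0 : (0 : ℝ) < p := by linarith
  have h1 : (p : ℝ) ≤ (p : ℝ) ^ (1 + δ) := by
    calc (p : ℝ) = (p : ℝ) ^ (1 : ℝ) := (Real.rpow_one _).symm
      _ ≤ _ := Real.rpow_le_rpow_of_exponent_le (by linarith) (by linarith)
  generalize (p : ℝ) ^ (1 + δ) = x at h1 ⊢
  generalize (p : ℝ) = y at hp' hp0 h1 ⊢
  have h2 : x / (x - 1) ≤ y / (y - 1) := by
    rw [div_le_div_iff₀ (by linarith) (by linarith)]
    nlinarith
  have h3 : 0 ≤ x / (x - 1) := div_nonneg (by linarith) (by linarith)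
  have h4 : (y / (y - 1)) ^ 2 ≤ 1 + 6 / y := by
    have h5 : 0 < (y - 1) ^ 2 := by
      have : 0 < y - 1 := by linarith
      positivity
    rw [div_pow, div_le_iff₀ h5]
    have h6 : (1 + 6 / y) * (y - 1) ^ 2 = ((y + 6) * (y - 1) ^ 2) / y := by
      field_simp
    rw [h6, le_div_iff₀ hp0]
    nlinarith [mul_nonneg (by linarith : 0 ≤ y - 2) (by linarith : 0 ≤ 4 * y - 3)]
  exact (pow_le_pow_left₀ h3 h2 2).trans h4

/-- one term -/
theorem term_le {δ : ℝ} (hδ : 0 < δ) {q : ℕ} (hq : 1 ≤ q) :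
    ((ArithmeticFunction.moebius q : ℤ) : ℝ) ^ 2 * (q : ℝ) ^ (1 + 2 * δ) / Jf δ q ^ 2 ≤
      (q : ℝ)⁻¹ * ∏ p ∈ q.primeFactors, (1 + 6 / (p : ℝ)) := by
  by_cases hs : Squarefree q
  · have hm : ((ArithmeticFunction.moebius q : ℤ) : ℝ) ^ 2 = 1 := by
      exact_mod_cast ArithmeticFunction.moebius_sq_eq_one_of_squarefree hs
    have hq0 : (0 : ℝ) < q := by exact_mod_cast hq
    have hprod : ∏ p ∈ q.primeFactors, (p : ℝ) = q := by
      rw [← Nat.cast_prod, Nat.prod_primeFactors_of_squarefree hs]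
    have h1 : (q : ℝ) ^ (1 + δ) = ∏ p ∈ q.primeFactors, (p : ℝ) ^ (1 + δ) := by
      rw [Real.finsetProd_rpow _ _ (fun p _ => Nat.cast_nonneg p), hprod]
    have h2 : (q : ℝ) ^ (1 + 2 * δ) = (q : ℝ)⁻¹ * ((q : ℝ) ^ (1 + δ)) ^ 2 := by
      rw [← Real.rpow_natCast, ← Real.rpow_mul hq0.le, ← Real.rpow_neg_one, ← Real.rpow_add hq0]
      congr 1
      push_cast
      ring
    rw [hm, one_mul, h2, mul_div_assoc, ← div_pow, h1]
    refine mul_le_mul_of_nonneg_left ?_ (by positivity)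
    unfold Jf
    rw [← Finset.prod_div_distrib, ← Finset.prod_pow]
    refine Finset.prod_le_prod (fun p _ => sq_nonneg _) fun p hp => ?_
    exact one_prime (Nat.prime_of_mem_primeFactors hp).two_le hδ
  · rw [ArithmeticFunction.moebius_eq_zero_of_not_squarefree hs]
    simp only [Int.cast_zero, ne_eq, OfNat.ofNat_ne_zero, not_false_eq_true, zero_pow, zero_mul,
      zero_div]
    positivity

/-- the multiples of `d` -/
theorem sum_dvd_le (Y d : ℕ) (hd : 1 ≤ d) :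
    ∑ q ∈ (Finset.Icc 1 Y).filter (fun q => d ∣ q), (q : ℝ)⁻¹ ≤
      (d : ℝ)⁻¹ * (1 + Real.log Y) := by
  have hsub : (Finset.Icc 1 Y).filter (fun q => d ∣ q) ⊆
      (Finset.Icc 1 Y).image (fun m => d * m) := by
    intro q hq
    rw [Finset.mem_filter, Finset.mem_Icc] at hq
    obtain ⟨⟨h1, h2⟩, m, rfl⟩ := hq
    rw [Finset.mem_image]
    refine ⟨m, Finset.mem_Icc.2 ⟨?_, ?_⟩, rfl⟩
    · rcases Nat.eq_zero_or_pos m with h | h
      · subst h
        simp at h1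
      · exact h
    · exact (Nat.le_mul_of_pos_left m hd).trans h2
  have h1 : ∑ q ∈ (Finset.Icc 1 Y).filter (fun q => d ∣ q), (q : ℝ)⁻¹ ≤
      ∑ m ∈ Finset.Icc 1 Y, ((d * m : ℕ) : ℝ)⁻¹ := by
    refine (Finset.sum_le_sum_of_subset_of_nonneg hsub fun _ _ _ => by positivity).trans ?_
    rw [Finset.sum_image]
    intro a _ b _ hab
    exact Nat.eq_of_mul_eq_mul_left hd hab
  refine h1.trans ?_
  have h2 : ∑ m ∈ Finset.Icc 1 Y, ((d * m : ℕ) : ℝ)⁻¹ =
      (d : ℝ)⁻¹ * ∑ m ∈ Finset.Icc 1 Y, (m : ℝ)⁻¹ := by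
    rw [Finset.mul_sum]
    refine Finset.sum_congr rfl fun m _ => ?_
    push_cast
    rw [mul_inv]
  rw [h2]
  refine mul_le_mul_of_nonneg_left ?_ (by positivity)
  have h3 := harmonic_le_one_add_log Y
  rw [harmonic_eq_sum_Icc] at h3
  push_cast at h3
  exact h3

end SQS_

open SQS_ in
theorem p_SQS : T_SQS := by
  refine ⟨Real.exp (6 * ∑' n : ℕ, 1 / (n : ℝ) ^ 2), Real.exp_pos _, ?_⟩
  intro δ Y hδ hY
  set P := (Finset.Icc 1 Y).filter Nat.Prime with hP
  have hlog : 0 ≤ 1 + Real.log Y := by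
    have : 0 ≤ Real.log Y := Real.log_natCast_nonneg Y
    linarith
  have hpr : ∀ S ∈ P.powerset, ∀ p ∈ S, Nat.Prime p := fun S hS p hp =>
    (Finset.mem_filter.1 (Finset.mem_powerset.1 hS hp)).2
  calc ∑ q ∈ Finset.Icc 1 Y, ((ArithmeticFunction.moebius q : ℤ) : ℝ) ^ 2 *
        (q : ℝ) ^ (1 + 2 * δ) / Jf δ q ^ 2
      ≤ ∑ q ∈ Finset.Icc 1 Y, (q : ℝ)⁻¹ * ∏ p ∈ q.primeFactors, (1 + 6 / (p : ℝ)) :=
        Finset.sum_le_sum fun q hq => term_le hδ (Finset.mem_Icc.1 hq).1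
    _ = ∑ q ∈ Finset.Icc 1 Y, ∑ S ∈ P.powerset,
          (if S ⊆ q.primeFactors then (q : ℝ)⁻¹ * ∏ p ∈ S, (6 / (p : ℝ)) else 0) := by
        refine Finset.sum_congr rfl fun q hq => ?_
        rw [Finset.prod_one_add, Finset.mul_sum, ← Finset.sum_filter]
        refine Finset.sum_congr ?_ fun _ _ => rfl
        ext S
        simp only [Finset.mem_powerset, Finset.mem_filter]
        refine ⟨fun h => ⟨h.trans ?_, h⟩, fun h => h.2⟩
        intro p hp
        have hq' := Finset.mem_Icc.1 hq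
        have hpp := Nat.prime_of_mem_primeFactors hp
        rw [hP, Finset.mem_filter, Finset.mem_Icc]
        exact ⟨⟨hpp.one_le, (Nat.le_of_dvd hq'.1 (Nat.dvd_of_mem_primeFactors hp)).trans hq'.2⟩,
          hpp⟩
    _ = ∑ S ∈ P.powerset, ∑ q ∈ Finset.Icc 1 Y,
          (if S ⊆ q.primeFactors then (q : ℝ)⁻¹ * ∏ p ∈ S, (6 / (p : ℝ)) else 0) :=
        Finset.sum_comm
    _ ≤ ∑ S ∈ P.powerset, (∏ p ∈ S, (6 / (p : ℝ) ^ 2)) * (1 + Real.log Y) := by
        refine Finset.sum_le_sum fun S hS => ?_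
        have hd : 1 ≤ ∏ p ∈ S, p := Finset.prod_pos fun p hp => (hpr S hS p hp).pos
        have h1 : ∀ q ∈ Finset.Icc 1 Y,
            (if S ⊆ q.primeFactors then (q : ℝ)⁻¹ * ∏ p ∈ S, (6 / (p : ℝ)) else 0) ≤
            (if (∏ p ∈ S, p) ∣ q then (q : ℝ)⁻¹ else 0) * ∏ p ∈ S, (6 / (p : ℝ)) := by
          intro q hq
          have hnn : 0 ≤ ∏ p ∈ S, (6 / (p : ℝ)) := Finset.prod_nonneg fun _ _ => by positivity
          by_cases hS' : S ⊆ q.primeFactors
          · have hdv : (∏ p ∈ S, p) ∣ q := by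
              refine Finset.prod_primes_dvd q (fun p hp => (hpr S hS p hp).prime) ?_
              exact fun p hp => Nat.dvd_of_mem_primeFactors (hS' hp)
            rw [if_pos hS', if_pos hdv]
          · rw [if_neg hS']
            refine mul_nonneg ?_ hnn
            split_ifs <;> positivity
        refine (Finset.sum_le_sum h1).trans ?_
        rw [← Finset.sum_mul, ← Finset.sum_filter]
        have h2 := sum_dvd_le Y _ hd
        have h3 : ∏ p ∈ S, (6 / (p : ℝ) ^ 2) =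
            (((∏ p ∈ S, p : ℕ) : ℝ))⁻¹ * ∏ p ∈ S, (6 / (p : ℝ)) := by
          rw [Nat.cast_prod, ← Finset.prod_inv_distrib, ← Finset.prod_mul_distrib]
          refine Finset.prod_congr rfl fun p hp => ?_
          have : (p : ℝ) ≠ 0 := by exact_mod_cast (hpr S hS p hp).ne_zero
          field_simp
        rw [h3]
        calc _ ≤ ((((∏ p ∈ S, p : ℕ) : ℝ))⁻¹ * (1 + Real.log Y)) * ∏ p ∈ S, (6 / (p : ℝ)) :=
              mul_le_mul_of_nonneg_right h2 (Finset.prod_nonneg fun _ _ => by positivity)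
          _ = _ := by ring
    _ = (∏ p ∈ P, (1 + 6 / (p : ℝ) ^ 2)) * (1 + Real.log Y) := by
        rw [Finset.prod_one_add, Finset.sum_mul]
    _ ≤ Real.exp (6 * ∑' n : ℕ, 1 / (n : ℝ) ^ 2) * (1 + Real.log Y) := by
        refine mul_le_mul_of_nonneg_right ?_ hlog
        calc ∏ p ∈ P, (1 + 6 / (p : ℝ) ^ 2) ≤ ∏ p ∈ P, Real.exp (6 * (1 / (p : ℝ) ^ 2)) := by
              refine Finset.prod_le_prod (fun p _ => by positivity) fun p _ => ?_
              have := Real.add_one_le_exp (6 * (1 / (p : ℝ) ^ 2))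
              calc 1 + 6 / (p : ℝ) ^ 2 = 6 * (1 / (p : ℝ) ^ 2) + 1 := by ring
                _ ≤ _ := this
          _ = Real.exp (6 * ∑ p ∈ P, 1 / (p : ℝ) ^ 2) := by
              rw [← Real.exp_sum, Finset.mul_sum]
          _ ≤ _ := by
              refine Real.exp_le_exp.2 (mul_le_mul_of_nonneg_left ?_ (by norm_num))
              refine Summable.sum_le_tsum P (fun _ _ => by positivity) ?_
              exact Real.summable_one_div_nat_pow.2 (by norm_num)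

end Pool.Agent.DBS
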