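import Pool.Agent.DBS.Targets

/-!
# SSB: the diagonal sum of Selberg's weights
-/

set_option autoImplicit false

namespace Pool.Agent.DBS

open Complex MeasureTheory Set Filter
open Pool.Agent.DBN Pool.Agent.DBC Pool.Agent.DBB
open scoped ENNReal

namespace SSB_

theorem yc_eq (δ : ℝ) (Y : ℕ) (v : ℂ) (η : ℝ) (q : ℕ) :
    yc (cv δ Y v) Y η q = ∑ k ∈ (Finset.Icc 1 Y).filter (fun k => q ∣ k),
      (la δ Y k : ℂ) * (k : ℂ) ^ ((v + δ - η) - (1 + (δ : ℂ))) := by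
  unfold yc cv
  refine Finset.sum_congr rfl fun k hk => ?_
  have hk1 : 1 ≤ k := (Finset.mem_Icc.1 (Finset.mem_filter.1 hk).1).1
  have hk0 : (k : ℂ) ≠ 0 := by
    exact_mod_cast (by omega : k ≠ 0)
  rw [mul_assoc, ← Complex.cpow_add _ _ hk0]
  congr 2
  ring

theorem ep_nonneg (δ : ℝ) (Y : ℕ) (w : ℂ) (hδ : 0 < δ) : 0 ≤ Ep δ Y w := by
  unfold Ep
  refine Finset.prod_nonneg fun p hp => ?_
  have hp1 : 1 ≤ p := (Finset.mem_Icc.1 (Finset.mem_filter.1 hp).1).1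
  have h1 : (1 : ℝ) ≤ (p : ℝ) ^ (1 + δ) :=
    Real.one_le_rpow (by exact_mod_cast hp1) (by linarith)
  have h2 : 0 ≤ ‖(p : ℂ) ^ w - 1‖ / ((p : ℝ) ^ (1 + δ) - 1) :=
    div_nonneg (norm_nonneg _) (by linarith)
  linarith

theorem mu_sq (q : ℕ) : (((ArithmeticFunction.moebius q : ℤ) : ℝ) ^ 2) ^ 2 =
    ((ArithmeticFunction.moebius q : ℤ) : ℝ) ^ 2 := by
  have h : ((ArithmeticFunction.moebius q : ℤ)) ^ 2 = if Squarefree q then 1 else 0 :=
    ArithmeticFunction.moebius_sq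
  have h' : ((ArithmeticFunction.moebius q : ℤ) : ℝ) ^ 2 = if Squarefree q then 1 else 0 := by
    have := congrArg (fun z : ℤ => (z : ℝ)) h
    push_cast at this
    exact this
  rw [h']
  split_ifs <;> norm_num

end SSB_

open SSB_

theorem p_SSB (hYQB : T_YQB) (hEPB : T_EPB) (hGLB : T_GLB) (hSQS : T_SQS) : T_SSB := by
  obtain ⟨CE, hCE, hE⟩ := hEPB
  obtain ⟨CS, hCS, hS⟩ := hSQS
  refine ⟨max (4 * CE ^ 2 * CS) (2 * CE), lt_max_of_lt_right (by positivity), ?_⟩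
  intro δ Y v η hδ hδ1 hY hYδ hη hv
  obtain ⟨w, hw⟩ : ∃ w : ℂ, w = v + δ - η := ⟨_, rfl⟩
  have hwre : w.re = v.re + δ - η := by
    rw [hw]
    simp
  have hwδ : w.re ≤ δ := by
    rw [hwre]
    linarith
  have hY1 : (1 : ℝ) ≤ Y := by exact_mod_cast (by omega : 1 ≤ Y)
  have hYpos : (0 : ℝ) < Y := by linarith
  have hlog : 0 ≤ Real.log Y := Real.log_nonneg hY1
  have hYd : (Y : ℝ) ^ (-δ) ≤ 1 / 2 := by
    rw [Real.rpow_neg hYpos.le, one_div]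
    exact inv_anti₀ (by norm_num) hYδ
  have hG := hGLB δ Y hδ (by omega)
  have hG1 : 1 / (2 * δ) ≤ Gf δ Y := by
    refine le_trans ?_ (hG.2.trans hG.1)
    rw [div_le_div_iff₀ (by positivity) hδ]
    nlinarith
  have hG0 : 0 < Gf δ Y := lt_of_lt_of_le (by positivity) hG1
  have hGi : 1 / Gf δ Y ≤ 2 * δ := by
    rw [div_le_iff₀ hG0]
    have := mul_le_mul_of_nonneg_left hG1 (by positivity : (0 : ℝ) ≤ 2 * δ)
    rwa [mul_one_div_cancel (by positivity)] at this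
  obtain ⟨E, hEd⟩ : ∃ E, E = Ep δ Y w := ⟨_, rfl⟩
  have hE0 : 0 ≤ E := by
    rw [hEd]
    exact ep_nonneg δ Y w hδ
  have hE1 : E ≤ CE * (1 + ‖w‖ * Real.log Y) ^ CE := by
    rw [hEd]
    exact hE δ Y w hδ hY hwδ
  have hwn : ‖w‖ ≤ ‖v‖ + δ + η := by
    rw [hw]
    refine (norm_sub_le _ _).trans ?_
    refine add_le_add ((norm_add_le _ _).trans ?_) ?_
    · simp [abs_of_pos hδ]
    · simp [abs_of_nonneg hη]
  obtain ⟨B, hB⟩ : ∃ B, B = 1 + (‖v‖ + δ + η) * Real.log Y := ⟨_, rfl⟩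
  have hB1 : 1 ≤ B := by
    rw [hB]
    have : 0 ≤ (‖v‖ + δ + η) * Real.log Y := by positivity
    linarith
  have hE2 : E ≤ CE * B ^ CE := by
    refine hE1.trans (mul_le_mul_of_nonneg_left (Real.rpow_le_rpow (by positivity) ?_ hCE.le)
      hCE.le)
    rw [hB]
    have := mul_le_mul_of_nonneg_right hwn hlog
    linarith
  have hterm : ∀ q ∈ Finset.Icc 1 Y, (q : ℝ) ^ (1 + η) * ‖yc (cv δ Y v) Y η q‖ ^ 2 ≤
      (E * (1 / Gf δ Y)) ^ 2 * (((ArithmeticFunction.moebius q : ℤ) : ℝ) ^ 2 *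
        (q : ℝ) ^ (1 + 2 * δ) / Jf δ q ^ 2) := by
    intro q hq
    obtain ⟨hq1, hqY⟩ := Finset.mem_Icc.1 hq
    have hq1' : (1 : ℝ) ≤ q := by exact_mod_cast hq1
    have hq0 : (0 : ℝ) < q := by linarith
    have h1 : ‖yc (cv δ Y v) Y η q‖ ≤ ((ArithmeticFunction.moebius q : ℤ) : ℝ) ^ 2 *
        (q : ℝ) ^ w.re / (Jf δ q * Gf δ Y) * E := by
      rw [yc_eq, ← hw, hEd]
      exact hYQB δ Y q w hδ (by omega) hq1
    have h2 := pow_le_pow_left₀ (norm_nonneg _) h1 2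
    have h3 := mul_le_mul_of_nonneg_left h2 (Real.rpow_nonneg hq0.le (1 + η))
    refine h3.trans ?_
    have h4 : (q : ℝ) ^ (1 + η) * ((q : ℝ) ^ w.re) ^ 2 ≤ (q : ℝ) ^ (1 + 2 * δ) := by
      rw [← Real.rpow_natCast, ← Real.rpow_mul hq0.le, ← Real.rpow_add hq0]
      refine Real.rpow_le_rpow_of_exponent_le hq1' ?_
      rw [hwre]
      push_cast
      linarith
    have h5 : (q : ℝ) ^ (1 + η) * (((ArithmeticFunction.moebius q : ℤ) : ℝ) ^ 2 *
        (q : ℝ) ^ w.re / (Jf δ q * Gf δ Y) * E) ^ 2 =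
        (E * (1 / Gf δ Y)) ^ 2 * ((((ArithmeticFunction.moebius q : ℤ) : ℝ) ^ 2) ^ 2 *
        ((q : ℝ) ^ (1 + η) * ((q : ℝ) ^ w.re) ^ 2) / Jf δ q ^ 2) := by
      simp only [div_eq_mul_inv, mul_inv, one_mul]
      ring
    rw [h5, mu_sq]
    refine mul_le_mul_of_nonneg_left ?_ (sq_nonneg _)
    refine div_le_div_of_nonneg_right ?_ (sq_nonneg _)
    exact mul_le_mul_of_nonneg_left h4 (sq_nonneg _)
  have hsum : SS (cv δ Y v) Y η ≤ (E * (1 / Gf δ Y)) ^ 2 * (CS * (1 + Real.log Y)) := by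
    unfold SS
    refine (Finset.sum_le_sum hterm).trans ?_
    rw [← Finset.mul_sum]
    exact mul_le_mul_of_nonneg_left (hS δ Y hδ (by omega)) (sq_nonneg _)
  refine hsum.trans ?_
  rw [← hB]
  have hB0 : 0 < B := by linarith
  have h6 : E * (1 / Gf δ Y) ≤ (CE * B ^ CE) * (2 * δ) :=
    mul_le_mul hE2 hGi (by positivity) (by positivity)
  have h7 := pow_le_pow_left₀ (by positivity) h6 2
  have h8 : (B ^ CE) ^ 2 = B ^ (2 * CE) := by
    rw [← Real.rpow_natCast, ← Real.rpow_mul hB0.le]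
    congr 1
    push_cast
    ring
  have h9 : B ^ (2 * CE) ≤ B ^ (max (4 * CE ^ 2 * CS) (2 * CE)) :=
    Real.rpow_le_rpow_of_exponent_le hB1 (le_max_right _ _)
  have h10 : 0 ≤ 1 + Real.log Y := by linarith
  calc (E * (1 / Gf δ Y)) ^ 2 * (CS * (1 + Real.log Y))
      ≤ ((CE * B ^ CE) * (2 * δ)) ^ 2 * (CS * (1 + Real.log Y)) :=
        mul_le_mul_of_nonneg_right h7 (by positivity)
    _ = (4 * CE ^ 2 * CS) * (δ ^ 2 * (1 + Real.log Y)) * (B ^ CE) ^ 2 := by ring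
    _ = (4 * CE ^ 2 * CS) * (δ ^ 2 * (1 + Real.log Y)) * B ^ (2 * CE) := by rw [h8]
    _ ≤ (max (4 * CE ^ 2 * CS) (2 * CE)) * (δ ^ 2 * (1 + Real.log Y)) *
        B ^ (max (4 * CE ^ 2 * CS) (2 * CE)) := by
        refine mul_le_mul (mul_le_mul_of_nonneg_right (le_max_left _ _) (by positivity)) h9
          (by positivity) (by positivity)
    _ = _ := by ring

end Pool.Agent.DBS
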