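import Pool.Agent.DBS.Targets

set_option autoImplicit false

/-!
# DBS, SSP: the quadratic form `SS` for shifts to the right, by Phragmen-Lindelof
-/

namespace Pool.Agent.DBS

open Complex MeasureTheory Set Filter
open Pool.Agent.DBN Pool.Agent.DBC Pool.Agent.DBB

namespace SSP_

lemma SS_eq (c : ℕ → ℂ) (Y : ℕ) :
    SS c Y 0 = ∑ q ∈ Finset.Icc 1 Y, (q : ℝ) * ‖yc c Y 0 q‖ ^ 2 := by
  unfold SS
  refine Finset.sum_congr rfl fun q _ => ?_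
  rw [add_zero, Real.rpow_one]

lemma cs (Y : ℕ) (y z : ℕ → ℂ) :
    ‖∑ q ∈ Finset.Icc 1 Y, (((q : ℝ) : ℂ) * (starRingEnd ℂ) (y q)) * z q‖ ^ 2 ≤
      (∑ q ∈ Finset.Icc 1 Y, (q : ℝ) * ‖y q‖ ^ 2) *
        ∑ q ∈ Finset.Icc 1 Y, (q : ℝ) * ‖z q‖ ^ 2 := by
  have h1 : ‖∑ q ∈ Finset.Icc 1 Y, (((q : ℝ) : ℂ) * (starRingEnd ℂ) (y q)) * z q‖ ≤
      ∑ q ∈ Finset.Icc 1 Y, (Real.sqrt q * ‖y q‖) * (Real.sqrt q * ‖z q‖) := by
    refine (norm_sum_le _ _).trans (Finset.sum_le_sum fun q _ => ?_)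
    rw [norm_mul, norm_mul, Complex.norm_real, Real.norm_of_nonneg (Nat.cast_nonneg q),
      RCLike.norm_conj]
    have h := Real.mul_self_sqrt (Nat.cast_nonneg (α := ℝ) q)
    refine le_of_eq ?_
    calc (q : ℝ) * ‖y q‖ * ‖z q‖ = (Real.sqrt q * Real.sqrt q) * ‖y q‖ * ‖z q‖ := by rw [h]
      _ = (Real.sqrt q * ‖y q‖) * (Real.sqrt q * ‖z q‖) := by ring
  have h2 := Finset.sum_mul_sq_le_sq_mul_sq (Finset.Icc 1 Y)
    (fun q : ℕ => Real.sqrt q * ‖y q‖) (fun q : ℕ => Real.sqrt q * ‖z q‖)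
  have h3 : ∀ w : ℕ → ℂ, ∑ q ∈ Finset.Icc 1 Y, (Real.sqrt q * ‖w q‖) ^ 2 =
      ∑ q ∈ Finset.Icc 1 Y, (q : ℝ) * ‖w q‖ ^ 2 := by
    intro w
    refine Finset.sum_congr rfl fun q _ => ?_
    rw [mul_pow, Real.sq_sqrt (Nat.cast_nonneg q)]
  rw [h3, h3] at h2
  exact (pow_le_pow_left₀ (norm_nonneg _) h1 2).trans h2

lemma diag (Y : ℕ) (y : ℕ → ℂ) :
    ∑ q ∈ Finset.Icc 1 Y, (((q : ℝ) : ℂ) * (starRingEnd ℂ) (y q)) * y q =
      ((∑ q ∈ Finset.Icc 1 Y, (q : ℝ) * ‖y q‖ ^ 2 : ℝ) : ℂ) := by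
  rw [Complex.ofReal_sum]
  refine Finset.sum_congr rfl fun q _ => ?_
  rw [mul_assoc, Complex.conj_mul']
  push_cast
  ring

lemma yc_diff (δ : ℝ) (Y q : ℕ) : Differentiable ℂ fun v : ℂ => yc (cv δ Y v) Y 0 q := by
  intro v
  unfold yc cv
  refine DifferentiableAt.fun_sum fun k hk => ?_
  have hk1 : 1 ≤ k := (Finset.mem_Icc.1 (Finset.mem_filter.1 hk).1).1
  have hk0 : (k : ℂ) ≠ 0 := by exact_mod_cast (by omega : k ≠ 0)
  exact ((differentiableAt_id.const_cpow (Or.inl hk0)).const_mul _).mul_const _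

lemma yc_bound (δ : ℝ) (Y q : ℕ) : ∃ B : ℝ, 0 ≤ B ∧ ∀ v : ℂ, 0 ≤ v.re →
    ‖yc (cv δ Y v) Y 0 q‖ ≤ B * (Y : ℝ) ^ v.re := by
  refine ⟨∑ k ∈ (Finset.Icc 1 Y).filter (fun k => q ∣ k),
    ‖(la δ Y k : ℂ)‖ * ‖(k : ℂ) ^ (-(1 + ((0 : ℝ) : ℂ)))‖, by positivity, fun v hv => ?_⟩
  unfold yc cv
  rw [Finset.sum_mul]
  refine (norm_sum_le _ _).trans (Finset.sum_le_sum fun k hk => ?_)
  obtain ⟨hk1, hk2⟩ := Finset.mem_Icc.1 (Finset.mem_filter.1 hk).1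
  have h1 : ‖(k : ℂ) ^ v‖ = (k : ℝ) ^ v.re := Complex.norm_natCast_cpow_of_pos (by omega) v
  have h2 : (k : ℝ) ^ v.re ≤ (Y : ℝ) ^ v.re :=
    Real.rpow_le_rpow (Nat.cast_nonneg k) (by exact_mod_cast hk2) hv
  rw [norm_mul, norm_mul, h1]
  calc ‖(la δ Y k : ℂ)‖ * (k : ℝ) ^ v.re * ‖(k : ℂ) ^ (-(1 + ((0 : ℝ) : ℂ)))‖
      = ‖(la δ Y k : ℂ)‖ * ‖(k : ℂ) ^ (-(1 + ((0 : ℝ) : ℂ)))‖ * (k : ℝ) ^ v.re := by ring
    _ ≤ _ := mul_le_mul_of_nonneg_left h2 (by positivity)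

/-- Phragmen-Lindelof -/
lemma pl (φ : ℂ → ℂ) (L B G : ℝ) (N : ℕ) (hL : 0 ≤ L) (hφ : Differentiable ℂ φ)
    (hB : ∀ v : ℂ, 0 ≤ v.re → ‖φ v‖ ≤ B * Real.exp (L * v.re))
    (hG : ∀ x : ℝ, ‖φ (x * I)‖ ≤ G * ‖1 + (x * I) * (L : ℂ)‖ ^ N) (v : ℂ) (hv : 0 ≤ v.re) :
    ‖φ v‖ ≤ G * (Real.exp (L * v.re) * ‖1 + v * (L : ℂ)‖ ^ N) := by
  have hone : ∀ z : ℂ, 0 ≤ z.re → 1 ≤ ‖1 + z * (L : ℂ)‖ := by
    intro z hz
    have h1 := Complex.abs_re_le_norm (1 + z * (L : ℂ))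
    have h2 : (1 + z * (L : ℂ)).re = 1 + z.re * L := by simp
    rw [h2] at h1
    have h3 : 0 ≤ z.re * L := mul_nonneg hz hL
    exact ((by linarith : (1 : ℝ) ≤ 1 + z.re * L).trans (le_abs_self _)).trans h1
  set g : ℂ → ℂ := fun z => φ z * cexp (-((L : ℂ) * z)) / (1 + z * (L : ℂ)) ^ N with hg
  have hgn : ∀ z : ℂ, ‖g z‖ = ‖φ z‖ * Real.exp (-(L * z.re)) / ‖1 + z * (L : ℂ)‖ ^ N := by
    intro z
    have h1 : (-((L : ℂ) * z)).re = -(L * z.re) := by simp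
    rw [hg]
    simp only
    rw [norm_div, norm_mul, norm_pow, Complex.norm_exp, h1]
  have hgB : ∀ z : ℂ, 0 ≤ z.re → ‖g z‖ ≤ B := by
    intro z hz
    rw [hgn z]
    have h1 : 1 ≤ ‖1 + z * (L : ℂ)‖ ^ N := one_le_pow₀ (hone z hz)
    have h2 : ‖φ z‖ * Real.exp (-(L * z.re)) ≤ B := by
      have h3 := mul_le_mul_of_nonneg_right (hB z hz) (Real.exp_pos (-(L * z.re))).le
      rw [mul_assoc, ← Real.exp_add, add_neg_cancel, Real.exp_zero, mul_one] at h3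
      exact h3
    exact (div_le_self (by positivity) h1).trans h2
  have hd : DiffContOnCl ℂ g {z : ℂ | 0 < z.re} := by
    refine DifferentiableOn.diffContOnCl ?_
    rw [Complex.closure_setOf_lt_re]
    intro z hz
    have hz' : 0 ≤ z.re := hz
    have hne : (1 + z * (L : ℂ)) ^ N ≠ 0 := by
      refine pow_ne_zero _ fun h => ?_
      have h1 := hone z hz'
      rw [h, norm_zero] at h1
      linarith
    have d1 : DifferentiableAt ℂ (fun z : ℂ => cexp (-((L : ℂ) * z))) z :=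
      ((differentiableAt_id.const_mul (L : ℂ)).neg).cexp
    have d2 : DifferentiableAt ℂ (fun z : ℂ => (1 + z * (L : ℂ)) ^ N) z :=
      ((differentiableAt_id.mul_const (L : ℂ)).const_add 1).pow N
    exact (((hφ z).mul d1).div d2 hne).differentiableWithinAt
  have hexp : ∃ c < (2 : ℝ), ∃ B' : ℝ, g =O[Bornology.cobounded ℂ ⊓ 𝓟 {z : ℂ | 0 < z.re}]
      fun z => Real.exp (B' * ‖z‖ ^ c) := by
    refine ⟨1, by norm_num, 0, Asymptotics.IsBigO.of_bound B ?_⟩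
    filter_upwards [mem_inf_of_right (mem_principal_self {z : ℂ | 0 < z.re})] with z hz
    rw [zero_mul, Real.exp_zero, norm_one, mul_one]
    exact hgB z (le_of_lt hz)
  have hre : IsBoundedUnder (· ≤ ·) atTop fun x : ℝ => ‖g x‖ := by
    refine isBoundedUnder_of_eventually_le (a := B) ?_
    filter_upwards [eventually_ge_atTop (0 : ℝ)] with x hx
    exact hgB x (by simpa using hx)
  have him : ∀ x : ℝ, ‖g (x * I)‖ ≤ G := by
    intro x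
    have h0 : (((x : ℂ) * I)).re = 0 := by simp
    have h1 : 1 ≤ ‖1 + (x * I) * (L : ℂ)‖ := hone _ (by rw [h0])
    rw [hgn, h0, mul_zero, neg_zero, Real.exp_zero, mul_one,
      div_le_iff₀ (by positivity)]
    exact hG x
  have hfin := PhragmenLindelof.right_half_plane_of_bounded_on_real hd hexp hre him hv
  have hp : 0 < ‖1 + v * (L : ℂ)‖ := lt_of_lt_of_le one_pos (hone v hv)
  rw [hgn v, div_le_iff₀ (by positivity)] at hfin
  have h4 := mul_le_mul_of_nonneg_right hfin (Real.exp_pos (L * v.re)).le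
  rw [mul_assoc, ← Real.exp_add, neg_add_cancel, Real.exp_zero, mul_one] at h4
  calc ‖φ v‖ ≤ G * ‖1 + v * (L : ℂ)‖ ^ N * Real.exp (L * v.re) := h4
    _ = _ := by ring

end SSP_

open SSP_ in
theorem p_SSP (hSSB : T_SSB) : T_SSP := by
  obtain ⟨C, hC, hS⟩ := hSSB
  obtain ⟨N, hN⟩ := exists_nat_ge C
  refine ⟨2 ^ N * C + 4 * N, by positivity, ?_⟩
  intro δ Y v hδ hδ1 hY hYδ hv
  set L : ℝ := Real.log Y with hL
  have hY1 : (1 : ℝ) < Y := by exact_mod_cast (by omega : 1 < Y)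
  have hLpos : 0 < L := Real.log_pos hY1
  have hYpos : (0 : ℝ) < Y := by linarith
  have hYexp : ∀ x : ℝ, (Y : ℝ) ^ x = Real.exp (L * x) := fun x =>
    Real.rpow_def_of_pos hYpos x
  set S0 : ℝ := SS (cv δ Y v) Y 0 with hS0
  have hS0nn : 0 ≤ S0 := by
    rw [hS0, SS_eq]
    positivity
  set D : ℝ := C * δ ^ 2 * (1 + L) with hD
  have hDpos : 0 < D := by positivity
  -- the bound on the imaginary axis
  have hax : ∀ x : ℝ, SS (cv δ Y (x * I)) Y 0 ≤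
      D * ((1 + δ * L) ^ (2 * N) * (1 + |x| * L) ^ (2 * N)) := by
    intro x
    have h0 : (((x : ℂ) * I)).re = 0 := by simp
    have h1 := hS δ Y (x * I) 0 hδ hδ1 hY hYδ le_rfl (by rw [h0]; simp)
    have h2 : ‖(x : ℂ) * I‖ = |x| := by simp
    rw [h2, add_zero] at h1
    refine h1.trans (mul_le_mul_of_nonneg_left ?_ hDpos.le)
    have h3 : (1 : ℝ) ≤ 1 + (|x| + δ) * L := by
      have : 0 ≤ (|x| + δ) * L := by positivity
      linarith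
    have h4 : (1 + (|x| + δ) * L) ^ C ≤ (1 + (|x| + δ) * L) ^ (2 * N) := by
      rw [← Real.rpow_natCast]
      refine Real.rpow_le_rpow_of_exponent_le h3 ?_
      push_cast
      have : (0 : ℝ) ≤ N := Nat.cast_nonneg N
      linarith
    refine h4.trans ?_
    rw [← mul_pow]
    refine pow_le_pow_left₀ (by linarith) ?_ _
    have : 0 ≤ δ * L * (|x| * L) := by positivity
    nlinarith
  -- the function
  set y0 : ℕ → ℂ := fun q => yc (cv δ Y v) Y 0 q with hy0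
  set φ : ℂ → ℂ := fun z => ∑ q ∈ Finset.Icc 1 Y,
    (((q : ℝ) : ℂ) * (starRingEnd ℂ) (y0 q)) * yc (cv δ Y z) Y 0 q with hφ
  have hφd : Differentiable ℂ φ := by
    intro z
    exact DifferentiableAt.fun_sum fun q _ => (yc_diff δ Y q z).const_mul _
  have hφv : φ v = (S0 : ℂ) := by
    rw [hS0, SS_eq]
    exact diag Y y0
  choose B hB0 hB using fun q => yc_bound δ Y q
  have hφB : ∀ z : ℂ, 0 ≤ z.re → ‖φ z‖ ≤
      (∑ q ∈ Finset.Icc 1 Y, ‖((q : ℝ) : ℂ) * (starRingEnd ℂ) (y0 q)‖ * B q) *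
        Real.exp (L * z.re) := by
    intro z hz
    rw [Finset.sum_mul]
    refine (norm_sum_le _ _).trans (Finset.sum_le_sum fun q _ => ?_)
    rw [norm_mul, mul_assoc, ← hYexp]
    exact mul_le_mul_of_nonneg_left (hB q z hz) (norm_nonneg _)
  have hφcs : ∀ z : ℂ, ‖φ z‖ ^ 2 ≤ S0 * SS (cv δ Y z) Y 0 := by
    intro z
    rw [hS0, SS_eq, SS_eq]
    exact cs Y y0 _
  set G : ℝ := Real.sqrt (S0 * (D * (1 + δ * L) ^ (2 * N) * 2 ^ N)) with hG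
  have hGsq : G ^ 2 = S0 * (D * (1 + δ * L) ^ (2 * N) * 2 ^ N) := Real.sq_sqrt (by positivity)
  have hφG : ∀ x : ℝ, ‖φ (x * I)‖ ≤ G * ‖1 + (x * I) * (L : ℂ)‖ ^ N := by
    intro x
    refine le_of_sq_le_sq ?_ (by positivity)
    have h1 : ‖1 + ((x : ℂ) * I) * (L : ℂ)‖ ^ 2 = 1 + x ^ 2 * L ^ 2 := by
      rw [← Complex.normSq_eq_norm_sq, Complex.normSq_apply]
      simp
      ring
    have h2 : (1 + |x| * L) ^ 2 ≤ 2 * (1 + x ^ 2 * L ^ 2) := by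
      have h3 : |x| ^ 2 = x ^ 2 := sq_abs x
      nlinarith [sq_nonneg (1 - |x| * L)]
    have h4 : (1 + |x| * L) ^ (2 * N) ≤ 2 ^ N * (1 + x ^ 2 * L ^ 2) ^ N := by
      rw [pow_mul, ← mul_pow]
      exact pow_le_pow_left₀ (by positivity) h2 N
    calc ‖φ (x * I)‖ ^ 2 ≤ S0 * SS (cv δ Y (x * I)) Y 0 := hφcs _
      _ ≤ S0 * (D * ((1 + δ * L) ^ (2 * N) * (1 + |x| * L) ^ (2 * N))) :=
          mul_le_mul_of_nonneg_left (hax x) hS0nn
      _ ≤ S0 * (D * ((1 + δ * L) ^ (2 * N) * (2 ^ N * (1 + x ^ 2 * L ^ 2) ^ N))) := by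
          gcongr
      _ = G ^ 2 * (1 + x ^ 2 * L ^ 2) ^ N := by rw [hGsq]; ring
      _ = (G * ‖1 + ((x : ℂ) * I) * (L : ℂ)‖ ^ N) ^ 2 := by
          rw [mul_pow, ← pow_mul, mul_comm N 2, pow_mul, h1]
  have hmain := pl φ L _ G N hLpos.le hφd hφB hφG v hv
  rw [hφv, Complex.norm_real, Real.norm_of_nonneg hS0nn] at hmain
  -- the square
  have hsq := pow_le_pow_left₀ hS0nn hmain 2
  have h5 : ‖1 + v * (L : ℂ)‖ ≤ 1 + ‖v‖ * L := by
    refine (norm_add_le _ _).trans ?_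
    rw [norm_one, norm_mul, Complex.norm_real, Real.norm_of_nonneg hLpos.le]
  have h6 : (Real.exp (L * v.re)) ^ 2 = (Y : ℝ) ^ (2 * v.re) := by
    rw [hYexp, ← Real.exp_nat_mul]
    congr 1
    push_cast
    ring
  set W : ℝ := 1 + (‖v‖ + δ) * L with hW
  have hW1 : 1 ≤ W := by
    have : 0 ≤ (‖v‖ + δ) * L := by positivity
    linarith
  have hWa : 1 + δ * L ≤ W := by
    have : 0 ≤ ‖v‖ * L := by positivity
    rw [hW]
    linarith [add_mul ‖v‖ δ L]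
  have hWb : 1 + ‖v‖ * L ≤ W := by
    have : 0 ≤ δ * L := by positivity
    rw [hW]
    linarith [add_mul ‖v‖ δ L]
  have h7 : S0 ^ 2 ≤ S0 * (2 ^ N * D * W ^ (4 * N) * (Y : ℝ) ^ (2 * v.re)) := by
    calc S0 ^ 2 ≤ (G * (Real.exp (L * v.re) * ‖1 + v * (L : ℂ)‖ ^ N)) ^ 2 := hsq
      _ = G ^ 2 * ((Real.exp (L * v.re)) ^ 2 * (‖1 + v * (L : ℂ)‖ ^ N) ^ 2) := by ring
      _ = S0 * (D * (1 + δ * L) ^ (2 * N) * 2 ^ N) *
          ((Y : ℝ) ^ (2 * v.re) * (‖1 + v * (L : ℂ)‖ ^ N) ^ 2) := by rw [hGsq, h6]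
      _ ≤ S0 * (D * W ^ (2 * N) * 2 ^ N) * ((Y : ℝ) ^ (2 * v.re) * (W ^ N) ^ 2) := by
          have h8 : (0 : ℝ) ≤ 1 + δ * L := by positivity
          have h9 := h5.trans hWb
          gcongr
      _ = S0 * (2 ^ N * D * W ^ (4 * N) * (Y : ℝ) ^ (2 * v.re)) := by ring
  have h10 : S0 ≤ 2 ^ N * D * W ^ (4 * N) * (Y : ℝ) ^ (2 * v.re) := by
    rcases hS0nn.eq_or_lt with h | h
    · rw [← h]
      positivity
    · rw [sq] at h7
      exact le_of_mul_le_mul_left h7 h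
  have h11 : W ^ (4 * N) ≤ W ^ (2 ^ N * C + 4 * N) := by
    rw [← Real.rpow_natCast]
    refine Real.rpow_le_rpow_of_exponent_le hW1 ?_
    push_cast
    have : 0 ≤ 2 ^ N * C := by positivity
    linarith
  refine h10.trans ?_
  refine mul_le_mul_of_nonneg_right ?_ (by positivity)
  have h12 : 2 ^ N * D ≤ (2 ^ N * C + 4 * N) * δ ^ 2 * (1 + L) := by
    have : 0 ≤ 4 * N * δ ^ 2 * (1 + L) := by positivity
    rw [hD]
    nlinarith
  exact mul_le_mul h12 h11 (by positivity) (by positivity)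

end Pool.Agent.DBS
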