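import Pool.Agent.DBS.Targets3

/-!
# DBS, target UNS: one exceptional set for all times
-/

set_option autoImplicit false

namespace Pool.Agent.DBS

open Complex MeasureTheory Set Filter
open Pool.Agent.DBN Pool.Agent.DBC Pool.Agent.DBB
open scoped ENNReal

namespace UNS_

/-- the sum of the exceptional measures -/
theorem sum_le {X a : ℝ} (hX : 0 ≤ X) (ha : 2 ≤ a) :
    ∑' j : ℕ, ENNReal.ofReal (X * Real.exp (-(a * ((j : ℝ) + 1)))) ≤
      ENNReal.ofReal (X * Real.exp (-(a / 2))) := by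
  have hr0 : 0 < Real.exp (-a) := Real.exp_pos _
  have he : 2 ≤ Real.exp (a / 2) := by
    have := Real.add_one_le_exp (a / 2)
    linarith
  have hr2 : Real.exp (-a) = (Real.exp (a / 2))⁻¹ * (Real.exp (a / 2))⁻¹ := by
    rw [← Real.exp_neg, ← Real.exp_add]
    congr 1
    ring
  have hi : (Real.exp (a / 2))⁻¹ ≤ 1 / 2 := by
    rw [one_div]
    exact inv_anti₀ (by norm_num) he
  have hi0 : 0 < (Real.exp (a / 2))⁻¹ := inv_pos.2 (Real.exp_pos _)
  have hr : Real.exp (-a) ≤ 1 / 4 := by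
    rw [hr2]
    nlinarith
  have hterm : ∀ j : ℕ, X * Real.exp (-(a * ((j : ℝ) + 1))) =
      X * Real.exp (-a) * Real.exp (-a) ^ j := by
    intro j
    rw [mul_assoc, ← Real.exp_nat_mul, ← Real.exp_add]
    congr 2
    ring
  have hs : HasSum (fun j : ℕ => X * Real.exp (-a) * Real.exp (-a) ^ j)
      (X * Real.exp (-a) * (1 - Real.exp (-a))⁻¹) :=
    (hasSum_geometric_of_lt_one hr0.le (by linarith)).mul_left _
  simp only [hterm]
  rw [← ENNReal.ofReal_tsum_of_nonneg (fun j => by positivity) hs.summable, hs.tsum_eq]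
  refine ENNReal.ofReal_le_ofReal ?_
  have h1 : (1 - Real.exp (-a))⁻¹ ≤ 2 := by
    rw [inv_le_comm₀ (by linarith) (by norm_num)]
    linarith
  have h2 : Real.exp (-(a / 2)) = (Real.exp (a / 2))⁻¹ := Real.exp_neg _
  rw [h2, mul_assoc]
  refine mul_le_mul_of_nonneg_left ?_ hX
  calc Real.exp (-a) * (1 - Real.exp (-a))⁻¹ ≤ Real.exp (-a) * 2 :=
        mul_le_mul_of_nonneg_left h1 hr0.le
    _ = (Real.exp (a / 2))⁻¹ * ((Real.exp (a / 2))⁻¹ * 2) := by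
        rw [hr2]
        ring
    _ ≤ (Real.exp (a / 2))⁻¹ * 1 := mul_le_mul_of_nonneg_left (by linarith) hi0.le
    _ = (Real.exp (a / 2))⁻¹ := mul_one _

theorem two_pow (j : ℕ) : (j : ℝ) + 1 ≤ 2 ^ j := by
  have h : j + 1 ≤ 2 ^ j := Nat.lt_two_pow_self
  exact_mod_cast h

end UNS_

open UNS_ in
theorem p_UNS (h1 : T_MON) (h2 : T_AR9) : T_UNS := by
  intro n c hc
  obtain ⟨A₀, κ₀, X₀, hA₀, hκ₀, H⟩ := h2 (4 * n + 4) c hc
  refine ⟨max A₀ (2 / κ₀), κ₀ / 2, max X₀ (Real.exp 1), lt_max_of_lt_left hA₀, by positivity,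
    fun s X hX hA hsc => ?_⟩
  have x1 : X₀ ≤ X := (le_max_left _ _).trans hX
  have x2 : Real.exp 1 ≤ X := (le_max_right _ _).trans hX
  have hX0 : 0 < X := lt_of_lt_of_le (Real.exp_pos _) x2
  have hL1 : 1 ≤ Real.log X := (Real.le_log_iff_exp_le hX0).2 x2
  have hX1 : 1 ≤ X := by
    have := Real.add_one_le_exp (1 : ℝ)
    linarith
  obtain ⟨L, hL⟩ : ∃ L : ℝ, Real.log X = L := ⟨_, rfl⟩
  rw [hL] at hA hsc hL1 ⊢
  have hL0 : 0 < L := by linarith
  have a1 : A₀ ≤ s * L ^ 2 := (le_max_left _ _).trans hA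
  have a2 : 2 / κ₀ ≤ s * L ^ 2 := (le_max_right _ _).trans hA
  have a3 : 2 ≤ κ₀ * (s * L ^ 2) := by
    rw [div_le_iff₀ hκ₀] at a2
    linarith
  have hm0 : 0 < s * L ^ 2 := by linarith
  have hs : 0 < s := by
    by_contra h
    have h3 : s * L ^ 2 ≤ 0 := mul_nonpos_of_nonpos_of_nonneg (not_lt.1 h) (sq_nonneg _)
    linarith
  obtain ⟨V, hV⟩ : ∃ V : ℕ → Set ℝ, V = fun j => {T : ℝ | X ≤ T ∧ T ≤ 2 * X ∧
    2 ^ j * s * L ≤ c ∧ ¬ RLv (4 * n + 4) (2 ^ j * s) T} := ⟨_, rfl⟩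
  have hVm : ∀ j, volume (V j) ≤
      ENNReal.ofReal (X * Real.exp (-(κ₀ * (s * L ^ 2) * ((j : ℝ) + 1)))) := by
    intro j
    rw [hV]
    by_cases hj : 2 ^ j * s * L ≤ c
    · have h3 : A₀ ≤ 2 ^ j * s * Real.log X ^ 2 := by
        rw [hL]
        have h4 : (1 : ℝ) ≤ 2 ^ j := one_le_pow₀ (by norm_num)
        nlinarith
      have h4 : 2 ^ j * s * Real.log X ≤ c := by
        rw [hL]
        exact hj
      have h5 := H (2 ^ j * s) X x1 h3 h4
      refine (measure_mono ?_).trans (h5.trans (ENNReal.ofReal_le_ofReal ?_))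
      · rintro T ⟨hT1, hT2, -, hT3⟩
        exact ⟨hT1, hT2, hT3⟩
      · refine mul_le_mul_of_nonneg_left (Real.exp_le_exp.2 ?_) hX0.le
        rw [hL]
        have h6 := two_pow j
        have h7 : κ₀ * (s * L ^ 2) * ((j : ℝ) + 1) ≤ κ₀ * (s * L ^ 2) * 2 ^ j :=
          mul_le_mul_of_nonneg_left h6 (by linarith)
        have h8 : κ₀ * (2 ^ j * s * L ^ 2) = κ₀ * (s * L ^ 2) * 2 ^ j := by ring
        linarith
    · have h3 : {T : ℝ | X ≤ T ∧ T ≤ 2 * X ∧ 2 ^ j * s * L ≤ c ∧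
          ¬ RLv (4 * n + 4) (2 ^ j * s) T} = ∅ := by
        ext T
        simp only [mem_empty_iff_false, iff_false]
        rintro ⟨-, -, h4, -⟩
        exact hj h4
      show volume {T : ℝ | X ≤ T ∧ T ≤ 2 * X ∧ 2 ^ j * s * L ≤ c ∧
          ¬ RLv (4 * n + 4) (2 ^ j * s) T} ≤ _
      rw [h3, measure_empty]
      exact zero_le
  have hsub : {T : ℝ | X ≤ T ∧ T ≤ 2 * X ∧ ∃ t : ℝ, s ≤ t ∧ t * Real.log T ≤ c ∧
      ¬ RLv n t T} ⊆ ⋃ j, V j := by
    rintro T ⟨hT1, hT2, t, ht1, ht2, ht3⟩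
    have ht0 : 0 < t := hs.trans_le ht1
    have h3 : 1 ≤ t / s := by
      rw [le_div_iff₀ hs]
      linarith
    obtain ⟨j, hj1, hj2⟩ := exists_nat_pow_near h3 (one_lt_two : (1 : ℝ) < 2)
    rw [le_div_iff₀ hs] at hj1
    rw [div_lt_iff₀ hs, pow_succ] at hj2
    rw [mem_iUnion]
    refine ⟨j, ?_⟩
    rw [hV]
    refine ⟨hT1, hT2, ?_, fun hR => ht3 (h1 n (2 ^ j * s) t T (hX1.trans hT1) hj1
      (by linarith) hR)⟩
    have h4 : L ≤ Real.log T := by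
      rw [← hL]
      exact Real.log_le_log hX0 hT1
    calc 2 ^ j * s * L ≤ t * L := mul_le_mul_of_nonneg_right hj1 hL0.le
      _ ≤ t * Real.log T := mul_le_mul_of_nonneg_left h4 ht0.le
      _ ≤ c := ht2
  refine (measure_mono hsub).trans ((measure_iUnion_le V).trans
    ((ENNReal.tsum_le_tsum hVm).trans ((sum_le hX0.le a3).trans (le_of_eq ?_))))
  congr 3
  ring

end Pool.Agent.DBS
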