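import Pool.Agent.DBS.Targets
import Pool.Agent.DBB.P_CZV

/-!
# DBS, VAC: mean square of a sum of sawtooth increments over `[Z, 2 Z]`
-/

set_option autoImplicit false

namespace Pool.Agent.DBS

open Complex MeasureTheory Set Filter
open Pool.Agent.DBN Pool.Agent.DBC Pool.Agent.DBB
open scoped ENNReal

namespace VAC_

/-- the product of two increments is integrable -/
theorem hint (H : ℝ) (k l : ℕ) (a b : ℝ) :
    IntervalIntegrable (fun x => ph H k x * ph H l x) volume a b := by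
  have hmeas : Measurable (fun x => ph H k x * ph H l x) :=
    (CZV_.measurable_ph H k).mul (CZV_.measurable_ph H l)
  have h2 : IntervalIntegrable (fun _ : ℝ => (1 : ℝ)) volume a b := intervalIntegrable_const
  have hb : ∀ x, ‖ph H k x * ph H l x‖ ≤ 1 := by
    intro x
    rw [Real.norm_eq_abs, abs_mul]
    calc |ph H k x| * |ph H l x| ≤ 1 * 1 :=
          mul_le_mul (CZV_.abs_ph_le H k x) (CZV_.abs_ph_le H l x) (abs_nonneg _) zero_le_one
      _ = 1 := one_mul 1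
  exact h2.mono_fun hmeas.aestronglyMeasurable
    (Filter.Eventually.of_forall fun x => by simpa using hb x)

/-- one pair -/
theorem pair (h1 : T_CRX) (k l : ℕ) (H Z : ℝ) (hk : 1 ≤ k) (hl : 1 ≤ l) (hH : 0 ≤ H)
    (hZ : 0 ≤ Z) : |(∫ x in Z..(2 * Z), ph H k x * ph H l x) -
      Z / (Nat.lcm k l : ℝ) * Ps H (Nat.gcd k l)| ≤ 2 * (Nat.lcm k l : ℝ) := by
  obtain ⟨hc, hc0, -, hc1⟩ := h1 k l H hk hl hH
  set f : ℝ → ℝ := fun x => ph H k x * ph H l x with hf
  have hlcm : 0 < Nat.lcm k l := Nat.lcm_pos (by omega) (by omega)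
  set m : ℝ := (Nat.lcm k l : ℝ) with hm
  have hm0 : 0 < m := by
    rw [hm]
    exact_mod_cast hlcm
  have hb : ∀ x, ‖f x‖ ≤ 1 := by
    intro x
    rw [hf, Real.norm_eq_abs, abs_mul]
    calc |ph H k x| * |ph H l x| ≤ 1 * 1 :=
          mul_le_mul (CZV_.abs_ph_le H k x) (CZV_.abs_ph_le H l x) (abs_nonneg _) zero_le_one
      _ = 1 := one_mul 1
  have hper : Function.Periodic f m := by
    intro x
    obtain ⟨q, hq⟩ := Nat.dvd_lcm_left k l
    obtain ⟨r, hr⟩ := Nat.dvd_lcm_right k l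
    have e1 : ph H k (x + m) = ph H k x := by
      rw [hm, hq]
      exact CZV_.ph_add H k q hk x
    have e2 : ph H l (x + m) = ph H l x := by
      rw [hm, hr]
      exact CZV_.ph_add H l r hl x
    simp only [hf, e1, e2]
  have hint : ∀ a b : ℝ, IntervalIntegrable f volume a b := fun a b => VAC_.hint H k l a b
  set N : ℕ := ⌊Z / m⌋₊ with hN
  have hN1 : (N : ℝ) ≤ Z / m := Nat.floor_le (by positivity)
  have hN2 : Z / m < N + 1 := Nat.lt_floor_add_one _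
  have hN3 : (N : ℝ) * m ≤ Z := (le_div_iff₀ hm0).1 hN1
  have hN4 : Z < (N + 1) * m := (div_lt_iff₀ hm0).1 hN2
  have hsplit : ∫ x in Z..(2 * Z), f x =
      (∫ x in Z..(Z + N * m), f x) + ∫ x in (Z + N * m)..(2 * Z), f x :=
    (intervalIntegral.integral_add_adjacent_intervals (hint _ _) (hint _ _)).symm
  have hfirst : ∫ x in Z..(Z + N * m), f x = N * ∫ x in (0 : ℝ)..m, f x := by
    have h3 := hper.intervalIntegral_add_zsmul_eq (N : ℤ) Z hint
    have h4 := hper.intervalIntegral_add_eq Z 0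
    rw [h4, zero_add] at h3
    simpa using h3
  have hsecond : ‖∫ x in (Z + N * m)..(2 * Z), f x‖ ≤ 1 * |2 * Z - (Z + N * m)| :=
    intervalIntegral.norm_integral_le_of_norm_le_const fun x _ => hb x
  rw [one_mul, Real.norm_eq_abs] at hsecond
  have hl2 : |2 * Z - (Z + N * m)| ≤ m := by
    rw [abs_le]
    constructor <;> linarith
  have hg : (Nat.gcd k l : ℝ) ≤ m := by
    rw [hm]
    exact_mod_cast (Nat.gcd_le_left l (by omega)).trans (Nat.le_of_dvd hlcm (Nat.dvd_lcm_left k l))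
  have hc' : ∫ x in (0 : ℝ)..m, f x = Ps H (Nat.gcd k l) := hc
  rw [hsplit, hfirst, hc']
  have h5 : (N : ℝ) * Ps H (Nat.gcd k l) + (∫ x in (Z + N * m)..(2 * Z), f x) -
      Z / m * Ps H (Nat.gcd k l) =
      -((Z / m - N) * Ps H (Nat.gcd k l)) + ∫ x in (Z + N * m)..(2 * Z), f x := by ring
  rw [h5]
  refine (abs_add_le _ _).trans ?_
  rw [abs_neg]
  have h6 : |(Z / m - N) * Ps H (Nat.gcd k l)| ≤ m := by
    rw [abs_of_nonneg (mul_nonneg (by linarith) hc0)]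
    calc (Z / m - N) * Ps H (Nat.gcd k l) ≤ 1 * m :=
          mul_le_mul (by linarith) (hc1.trans hg) hc0 zero_le_one
      _ = m := one_mul m
  linarith [hsecond.trans hl2]

/-- the square of the modulus of a finite sum -/
theorem nsq (s : Finset ℕ) (a : ℕ → ℂ) :
    ‖∑ k ∈ s, a k‖ ^ 2 = ∑ k ∈ s, ∑ l ∈ s, (a k * (starRingEnd ℂ) (a l)).re := by
  have h1 : ((‖∑ k ∈ s, a k‖ ^ 2 : ℝ) : ℂ) = (∑ k ∈ s, a k) * (starRingEnd ℂ) (∑ k ∈ s, a k) := by
    rw [Complex.mul_conj, Complex.normSq_eq_norm_sq]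
  have h2 := congrArg Complex.re h1
  rw [Complex.ofReal_re] at h2
  rw [h2, map_sum, Finset.sum_mul_sum, Complex.re_sum]
  exact Finset.sum_congr rfl fun k _ => Complex.re_sum _ _

/-- the main part -/
theorem main (c : ℕ → ℂ) (Y : ℕ) (H Z : ℝ) (W : ℕ → ℝ)
    (hW : ∀ g : ℕ, 1 ≤ g → ∑ q ∈ g.divisors, W q = g * Ps H g) :
    ∑ k ∈ Finset.Icc 1 Y, ∑ l ∈ Finset.Icc 1 Y, (c k * (starRingEnd ℂ) (c l)).re *
      (Z / (Nat.lcm k l : ℝ) * Ps H (Nat.gcd k l)) =
    Z * ∑ q ∈ Finset.Icc 1 Y, W q * ‖yc c Y 0 q‖ ^ 2 := by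
  obtain ⟨a, ha⟩ : ∃ a : ℕ → ℂ, ∀ k, a k = c k * (k : ℂ)⁻¹ := ⟨_, fun _ => rfl⟩
  have e1 : ∀ q : ℕ, ‖yc c Y 0 q‖ ^ 2 = ∑ k ∈ Finset.Icc 1 Y, ∑ l ∈ Finset.Icc 1 Y,
      if q ∣ k ∧ q ∣ l then (a k * (starRingEnd ℂ) (a l)).re else 0 := by
    intro q
    have e2 : yc c Y 0 q = ∑ k ∈ (Finset.Icc 1 Y).filter (fun k => q ∣ k), a k := by
      unfold yc
      refine Finset.sum_congr rfl fun k _ => ?_
      rw [ha, Complex.ofReal_zero, add_zero, Complex.cpow_neg_one]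
    rw [e2, nsq, Finset.sum_filter]
    refine Finset.sum_congr rfl fun k _ => ?_
    by_cases hk : q ∣ k
    · rw [if_pos hk, Finset.sum_filter]
      refine Finset.sum_congr rfl fun l _ => ?_
      by_cases hl : q ∣ l
      · rw [if_pos hl, if_pos ⟨hk, hl⟩]
      · rw [if_neg hl, if_neg fun h => hl h.2]
    · rw [if_neg hk]
      exact (Finset.sum_eq_zero fun l _ => if_neg fun h => hk h.1).symm
  have e3 : ∑ q ∈ Finset.Icc 1 Y, W q * ‖yc c Y 0 q‖ ^ 2 =
      ∑ k ∈ Finset.Icc 1 Y, ∑ l ∈ Finset.Icc 1 Y, ∑ q ∈ Finset.Icc 1 Y,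
        W q * (if q ∣ k ∧ q ∣ l then (a k * (starRingEnd ℂ) (a l)).re else 0) := by
    rw [Finset.sum_congr rfl fun q _ => by rw [e1 q, Finset.mul_sum]]
    rw [Finset.sum_comm]
    refine Finset.sum_congr rfl fun k _ => ?_
    rw [Finset.sum_congr rfl fun q _ => by rw [Finset.mul_sum]]
    exact Finset.sum_comm
  rw [e3, Finset.mul_sum]
  refine Finset.sum_congr rfl fun k hk => ?_
  rw [Finset.mul_sum]
  refine Finset.sum_congr rfl fun l hl => ?_
  rw [Finset.mem_Icc] at hk hl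
  have hg : 1 ≤ Nat.gcd k l := Nat.gcd_pos_of_pos_left _ (by omega)
  have e4 : ∑ q ∈ Finset.Icc 1 Y,
      W q * (if q ∣ k ∧ q ∣ l then (a k * (starRingEnd ℂ) (a l)).re else 0) =
      (∑ q ∈ (Nat.gcd k l).divisors, W q) * (a k * (starRingEnd ℂ) (a l)).re := by
    rw [Finset.sum_mul]
    have e5 : (Nat.gcd k l).divisors = (Finset.Icc 1 Y).filter fun q => q ∣ k ∧ q ∣ l := by
      ext q
      rw [Nat.mem_divisors, Finset.mem_filter, Finset.mem_Icc, Nat.dvd_gcd_iff]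
      constructor
      · rintro ⟨h, -⟩
        exact ⟨⟨Nat.pos_of_dvd_of_pos h.1 (by omega), (Nat.le_of_dvd (by omega) h.1).trans hk.2⟩, h⟩
      · rintro ⟨-, h⟩
        exact ⟨h, by omega⟩
    rw [e5, Finset.sum_filter]
    refine Finset.sum_congr rfl fun q _ => ?_
    by_cases hq : q ∣ k ∧ q ∣ l
    · rw [if_pos hq, if_pos hq]
    · rw [if_neg hq, if_neg hq, mul_zero]
  rw [e4, hW _ hg]
  have hk0 : (k : ℝ) ≠ 0 := by
    have : (0 : ℝ) < k := by exact_mod_cast (by omega : 0 < k)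
    exact this.ne'
  have hl0 : (l : ℝ) ≠ 0 := by
    have : (0 : ℝ) < l := by exact_mod_cast (by omega : 0 < l)
    exact this.ne'
  have e6 : (a k * (starRingEnd ℂ) (a l)).re = (c k * (starRingEnd ℂ) (c l)).re / (k * l) := by
    have e7 : a k * (starRingEnd ℂ) (a l) =
        (c k * (starRingEnd ℂ) (c l)) * (((k : ℝ)⁻¹ * (l : ℝ)⁻¹ : ℝ) : ℂ) := by
      rw [ha, ha, map_mul, map_inv₀, Complex.conj_natCast]
      push_cast
      ring
    rw [e7, Complex.re_mul_ofReal]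
    field_simp
  have e8 : (Nat.gcd k l : ℝ) * (Nat.lcm k l : ℝ) = k * l := by exact_mod_cast Nat.gcd_mul_lcm k l
  have hL : (Nat.lcm k l : ℝ) ≠ 0 := by
    have : 0 < Nat.lcm k l := Nat.lcm_pos (by omega) (by omega)
    have : (0 : ℝ) < (Nat.lcm k l : ℝ) := by exact_mod_cast this
    exact this.ne'
  have hg0 : (Nat.gcd k l : ℝ) ≠ 0 := by
    have : (0 : ℝ) < (Nat.gcd k l : ℝ) := by exact_mod_cast hg
    exact this.ne'
  rw [e6, ← e8]
  field_simp

end VAC_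

open VAC_ in
theorem p_VAC (h1 : T_CRX) (h2 : T_WQQ) : T_VAC := by
  intro c Y H Z hH hZ
  obtain ⟨W, hW, hWs⟩ := h2 H hH
  have e1 : ∀ x : ℝ, ‖∑ k ∈ Finset.Icc 1 Y, c k * (ph H k x : ℂ)‖ ^ 2 =
      ∑ k ∈ Finset.Icc 1 Y, ∑ l ∈ Finset.Icc 1 Y, (c k * (starRingEnd ℂ) (c l)).re *
        (ph H k x * ph H l x) := by
    intro x
    rw [nsq]
    refine Finset.sum_congr rfl fun k _ => Finset.sum_congr rfl fun l _ => ?_
    have e2 : c k * (ph H k x : ℂ) * (starRingEnd ℂ) (c l * (ph H l x : ℂ)) =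
        (c k * (starRingEnd ℂ) (c l)) * ((ph H k x * ph H l x : ℝ) : ℂ) := by
      rw [map_mul, Complex.conj_ofReal]
      push_cast
      ring
    rw [e2, Complex.re_mul_ofReal]
  have e3 : (∫ x in Z..(2 * Z), ‖∑ k ∈ Finset.Icc 1 Y, c k * (ph H k x : ℂ)‖ ^ 2) =
      ∑ k ∈ Finset.Icc 1 Y, ∑ l ∈ Finset.Icc 1 Y, (c k * (starRingEnd ℂ) (c l)).re *
        ∫ x in Z..(2 * Z), ph H k x * ph H l x := by
    rw [intervalIntegral.integral_congr fun x _ => e1 x, intervalIntegral.integral_finsetSum]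
    · refine Finset.sum_congr rfl fun k _ => ?_
      rw [intervalIntegral.integral_finsetSum]
      · exact Finset.sum_congr rfl fun l _ => intervalIntegral.integral_const_mul _ _
      · intro l _
        exact (hint H k l _ _).const_mul _
    · intro k _
      have e5 : (fun x => ∑ l ∈ Finset.Icc 1 Y, (c k * (starRingEnd ℂ) (c l)).re *
          (ph H k x * ph H l x)) = ∑ l ∈ Finset.Icc 1 Y,
          fun x => (c k * (starRingEnd ℂ) (c l)).re * (ph H k x * ph H l x) := by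
        funext x
        rw [Finset.sum_apply]
      rw [e5]
      exact IntervalIntegrable.sum _ fun l _ => (hint H k l _ _).const_mul _
  rw [e3]
  have e4 : ∑ k ∈ Finset.Icc 1 Y, ∑ l ∈ Finset.Icc 1 Y, (c k * (starRingEnd ℂ) (c l)).re *
        (∫ x in Z..(2 * Z), ph H k x * ph H l x) ≤
      ∑ k ∈ Finset.Icc 1 Y, ∑ l ∈ Finset.Icc 1 Y, ((c k * (starRingEnd ℂ) (c l)).re *
        (Z / (Nat.lcm k l : ℝ) * Ps H (Nat.gcd k l)) + ‖c k‖ * ‖c l‖ * (2 * (Y : ℝ) ^ 2)) := by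
    refine Finset.sum_le_sum fun k hk => Finset.sum_le_sum fun l hl => ?_
    rw [Finset.mem_Icc] at hk hl
    have h3 := pair h1 k l H Z hk.1 hl.1 hH hZ
    have h4 : (Nat.lcm k l : ℝ) ≤ (Y : ℝ) ^ 2 := by
      have h5 : Nat.lcm k l ≤ k * l :=
        Nat.le_of_dvd (Nat.mul_pos (by omega) (by omega)) (Nat.lcm_dvd_mul k l)
      have h6 : k * l ≤ Y * Y := Nat.mul_le_mul hk.2 hl.2
      have h7 : (Nat.lcm k l : ℝ) ≤ ((Y * Y : ℕ) : ℝ) := by exact_mod_cast h5.trans h6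
      push_cast at h7
      nlinarith
    have h8 : (c k * (starRingEnd ℂ) (c l)).re * ((∫ x in Z..(2 * Z), ph H k x * ph H l x) -
        Z / (Nat.lcm k l : ℝ) * Ps H (Nat.gcd k l)) ≤ ‖c k‖ * ‖c l‖ * (2 * (Y : ℝ) ^ 2) := by
      refine (le_abs_self _).trans ?_
      rw [abs_mul]
      refine mul_le_mul ?_ (h3.trans (by linarith)) (abs_nonneg _) (by positivity)
      refine (Complex.abs_re_le_norm _).trans (le_of_eq ?_)
      rw [norm_mul, RCLike.norm_conj]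
    linarith
  refine e4.trans ?_
  simp only [Finset.sum_add_distrib]
  rw [main c Y H Z W hWs]
  refine add_le_add ?_ (le_of_eq ?_)
  · rw [mul_assoc]
    refine mul_le_mul_of_nonneg_left ?_ hZ
    unfold SS
    rw [Finset.mul_sum]
    refine Finset.sum_le_sum fun q _ => ?_
    rw [add_zero, Real.rpow_one]
    have h9 := (hW q).2
    nlinarith [sq_nonneg ‖yc c Y 0 q‖]
  · have h10 : ∀ k ∈ Finset.Icc 1 Y, ∑ l ∈ Finset.Icc 1 Y, ‖c k‖ * ‖c l‖ * (2 * (Y : ℝ) ^ 2) =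
        ‖c k‖ * ((∑ l ∈ Finset.Icc 1 Y, ‖c l‖) * (2 * (Y : ℝ) ^ 2)) := by
      intro k _
      rw [Finset.sum_mul, Finset.mul_sum]
      exact Finset.sum_congr rfl fun l _ => by ring
    rw [Finset.sum_congr rfl h10, ← Finset.sum_mul]
    ring

end Pool.Agent.DBS
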