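import Pool.Agent.DBS.Targets
import Pool.Agent.DBB.P_COR

/-! DBS, block WQQ: the Moebius transform of `g Ps(g)` is nonnegative. -/

set_option autoImplicit false

namespace Pool.Agent.DBS

open MeasureTheory Set Filter
open Pool.Agent.DBB

namespace WQQ_

theorem sum_moebius (n : ℕ) :
    ∑ t ∈ n.divisors, ((ArithmeticFunction.moebius t : ℤ) : ℝ) = if n = 1 then 1 else 0 := by
  have h : ((ArithmeticFunction.zeta : ArithmeticFunction ℤ) *
      ArithmeticFunction.moebius : ArithmeticFunction ℤ) n = (1 : ArithmeticFunction ℤ) n := by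
    rw [ArithmeticFunction.coe_zeta_mul_moebius]
  rw [ArithmeticFunction.coe_zeta_mul_apply, ArithmeticFunction.one_apply] at h
  have h2 : ((∑ t ∈ n.divisors, ArithmeticFunction.moebius t : ℤ) : ℝ) =
      ((if n = 1 then 1 else 0 : ℤ) : ℝ) := by
    rw [h]
  push_cast at h2
  rw [h2]

theorem inner (q r : ℕ) (hq : 1 ≤ q) (hr : r ∣ q) :
    ∑ d ∈ q.divisors.filter (fun d => r ∣ d), ((ArithmeticFunction.moebius (q / d) : ℤ) : ℝ) =
      if r = q then 1 else 0 := by
  obtain ⟨n, rfl⟩ := hr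
  have hn : 1 ≤ n := by
    rcases Nat.eq_zero_or_pos n with h | h
    · subst h
      simp at hq
    · exact h
  have hr1 : 1 ≤ r := by
    rcases Nat.eq_zero_or_pos r with h | h
    · subst h
      simp at hq
    · exact h
  have hiff : (r = r * n) ↔ (n = 1) := by
    constructor
    · intro h
      have : r * 1 = r * n := by rw [mul_one]; exact h
      exact (Nat.eq_of_mul_eq_mul_left (by omega) this).symm
    · intro h
      rw [h, mul_one]
  have hif : (if r = r * n then (1 : ℝ) else 0) = if n = 1 then 1 else 0 := by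
    by_cases h : n = 1
    · rw [if_pos h, if_pos (hiff.mpr h)]
    · rw [if_neg h, if_neg (fun h' => h (hiff.mp h'))]
  rw [hif, ← sum_moebius n]
  refine Finset.sum_bij' (fun d _ => r * n / d) (fun t _ => r * n / t) ?_ ?_ ?_ ?_ ?_
  · intro d hd
    have hd' := Finset.mem_filter.mp hd
    have hd1 := (Nat.mem_divisors.mp hd'.1).1
    obtain ⟨e, rfl⟩ := hd'.2
    have he : e ∣ n := Nat.dvd_of_mul_dvd_mul_left (by omega) hd1
    rw [Nat.mem_divisors]
    refine ⟨?_, by omega⟩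
    rw [Nat.mul_div_mul_left _ _ (by omega)]
    exact Nat.div_dvd_of_dvd he
  · intro t ht
    have ht' := (Nat.mem_divisors.mp ht).1
    have htm : t ∣ r * n := dvd_mul_of_dvd_right ht' r
    rw [Finset.mem_filter, Nat.mem_divisors]
    refine ⟨⟨Nat.div_dvd_of_dvd htm, by omega⟩, ?_⟩
    rw [Nat.mul_div_assoc _ ht']
    exact dvd_mul_right r _
  · intro d hd
    have hd' := Finset.mem_filter.mp hd
    exact Nat.div_div_self (Nat.mem_divisors.mp hd'.1).1 (by omega)
  · intro t ht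
    have ht' := (Nat.mem_divisors.mp ht).1
    have htm : t ∣ r * n := dvd_mul_of_dvd_right ht' r
    exact Nat.div_div_self htm (by omega)
  · intro d _
    rfl

theorem bd (H : ℝ) (k l : ℕ) (x : ℝ) : |ph H k x * ph H l x| ≤ 1 := by
  rw [abs_mul]
  exact mul_le_one₀ (COR_.abs_le H k x) (abs_nonneg _) (COR_.abs_le H l x)

theorem pint (hCRX : T_CRX) (H : ℝ) (hH : 0 ≤ H) (q d e : ℕ) (hq : 1 ≤ q) (hd : d ∣ q)
    (he : e ∣ q) :
    (d : ℝ) * e * ∫ x in (0 : ℝ)..(q : ℝ), ph H d x * ph H e x =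
      q * ((Nat.gcd d e : ℝ) * Ps H (Nat.gcd d e)) := by
  have hd1 : 1 ≤ d := Nat.pos_of_dvd_of_pos hd hq
  have he1 : 1 ≤ e := Nat.pos_of_dvd_of_pos he hq
  obtain ⟨n, hn⟩ : Nat.lcm d e ∣ q := Nat.lcm_dvd hd he
  obtain ⟨a, ha⟩ := Nat.dvd_lcm_left d e
  obtain ⟨b, hb⟩ := Nat.dvd_lcm_right d e
  have hqR : (q : ℝ) = n * (Nat.lcm d e : ℝ) := by
    rw [hn]; push_cast; ring
  have h1 : ∫ x in (0 : ℝ)..(q : ℝ), ph H d x * ph H e x = n * Ps H (Nat.gcd d e) := by
    rw [hqR, COR_.ave (fun x => ph H d x * ph H e x) ((COR_.meas H d).mul (COR_.meas H e))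
      (bd H d e)]
    have h2 : ∀ x : ℝ, ∑ j ∈ Finset.range n, ph H d (x + j * (Nat.lcm d e : ℝ)) *
        ph H e (x + j * (Nat.lcm d e : ℝ)) = n * (ph H d x * ph H e x) := by
      intro x
      have h3 : ∀ j ∈ Finset.range n, ph H d (x + j * (Nat.lcm d e : ℝ)) *
          ph H e (x + j * (Nat.lcm d e : ℝ)) = ph H d x * ph H e x := by
        intro j _
        have e1 : x + j * (Nat.lcm d e : ℝ) = x + ((j * a : ℕ) : ℝ) * d := by
          rw [ha]; push_cast; ring
        have e2 : x + j * (Nat.lcm d e : ℝ) = x + ((j * b : ℕ) : ℝ) * e := by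
          rw [hb]; push_cast; ring
        have e3 : ph H d (x + j * (Nat.lcm d e : ℝ)) = ph H d x := by
          rw [e1]; exact COR_.per H d hd1 x _
        have e4 : ph H e (x + j * (Nat.lcm d e : ℝ)) = ph H e x := by
          rw [e2]; exact COR_.per H e he1 x _
        rw [e3, e4]
      rw [Finset.sum_congr rfl h3, Finset.sum_const, Finset.card_range, nsmul_eq_mul]
    rw [intervalIntegral.integral_congr (g := fun x => (n : ℝ) * (ph H d x * ph H e x))
      (fun x _ => h2 x), intervalIntegral.integral_const_mul,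
      (hCRX d e H hd1 he1 hH).1]
  rw [h1, hqR]
  have h4 : (d : ℝ) * e = (Nat.gcd d e : ℝ) * (Nat.lcm d e : ℝ) := by
    exact_mod_cast (Nat.gcd_mul_lcm d e).symm
  rw [h4]; ring

theorem sqint (H : ℝ) (q : ℕ) (D : Finset ℕ) (a : ℕ → ℝ) :
    ∫ x in (0 : ℝ)..(q : ℝ), (∑ d ∈ D, a d * (d * ph H d x)) ^ 2 =
      ∑ d ∈ D, ∑ e ∈ D, a d * a e *
        ((d : ℝ) * e * ∫ x in (0 : ℝ)..(q : ℝ), ph H d x * ph H e x) := by
  have h1 : ∀ x : ℝ, (∑ d ∈ D, a d * (d * ph H d x)) ^ 2 =
      ∑ p ∈ D ×ˢ D, (a p.1 * a p.2 * (p.1 * p.2)) * (ph H p.1 x * ph H p.2 x) := by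
    intro x
    rw [sq, Finset.sum_mul_sum, Finset.sum_product]
    refine Finset.sum_congr rfl fun d _ => Finset.sum_congr rfl fun e _ => ?_
    ring
  rw [intervalIntegral.integral_congr (fun x _ => h1 x), intervalIntegral.integral_finsetSum]
  · rw [Finset.sum_product]
    refine Finset.sum_congr rfl fun d _ => Finset.sum_congr rfl fun e _ => ?_
    rw [intervalIntegral.integral_const_mul]
    ring
  · intro p _
    exact (COR_.ii _ ((COR_.meas H p.1).mul (COR_.meas H p.2)) (bd H p.1 p.2) _ _).const_mul _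

/-- the Moebius transform -/
noncomputable def W (H : ℝ) (q : ℕ) : ℝ :=
  ∑ d ∈ q.divisors, ((ArithmeticFunction.moebius (q / d) : ℤ) : ℝ) * ((d : ℝ) * Ps H d)

theorem inv (H : ℝ) : ∀ g : ℕ, 0 < g → ∑ q ∈ g.divisors, W H q = g * Ps H g := by
  have h := (ArithmeticFunction.sum_eq_iff_sum_mul_moebius_eq (R := ℝ)
    (f := W H) (g := fun g : ℕ => (g : ℝ) * Ps H g)).2
  refine h fun n _ => ?_
  exact Nat.sum_divisorsAntidiagonal'
    (fun i j => ((ArithmeticFunction.moebius i : ℤ) : ℝ) * ((j : ℝ) * Ps H j))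

theorem gcdsum (H : ℝ) (q d e : ℕ) (hq : 1 ≤ q) (hd : d ∣ q) (he : e ∣ q) :
    (Nat.gcd d e : ℝ) * Ps H (Nat.gcd d e) =
      ∑ r ∈ q.divisors, W H r * ((if r ∣ d then 1 else 0) * (if r ∣ e then 1 else 0)) := by
  have hd1 : 1 ≤ d := Nat.pos_of_dvd_of_pos hd hq
  have hg : 0 < Nat.gcd d e := Nat.gcd_pos_of_pos_left _ hd1
  rw [← inv H _ hg]
  have hset : (Nat.gcd d e).divisors = q.divisors.filter (fun r => r ∣ d ∧ r ∣ e) := by
    ext r
    rw [Nat.mem_divisors, Finset.mem_filter, Nat.mem_divisors, Nat.dvd_gcd_iff]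
    constructor
    · rintro ⟨h1, _⟩
      exact ⟨⟨h1.1.trans hd, by omega⟩, h1⟩
    · rintro ⟨_, h1⟩
      exact ⟨h1, by omega⟩
  rw [hset, Finset.sum_filter]
  refine Finset.sum_congr rfl fun r _ => ?_
  by_cases h1 : r ∣ d <;> by_cases h2 : r ∣ e <;> simp [h1, h2]

theorem nonneg (hCRX : T_CRX) (H : ℝ) (hH : 0 ≤ H) (q : ℕ) : 0 ≤ W H q := by
  rcases Nat.eq_zero_or_pos q with h | hq
  · rw [h]; simp [W]
  have hqR : (0 : ℝ) < q := by exact_mod_cast hq
  have h0 : 0 ≤ ∫ x in (0 : ℝ)..(q : ℝ), (∑ d ∈ q.divisors,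
      ((ArithmeticFunction.moebius (q / d) : ℤ) : ℝ) * (d * ph H d x)) ^ 2 :=
    intervalIntegral.integral_nonneg hqR.le fun x _ => sq_nonneg _
  rw [sqint H q q.divisors (fun d => ((ArithmeticFunction.moebius (q / d) : ℤ) : ℝ))] at h0
  have h1 : ∑ d ∈ q.divisors, ∑ e ∈ q.divisors,
      ((ArithmeticFunction.moebius (q / d) : ℤ) : ℝ) *
        ((ArithmeticFunction.moebius (q / e) : ℤ) : ℝ) *
        ((d : ℝ) * e * ∫ x in (0 : ℝ)..(q : ℝ), ph H d x * ph H e x) = q * W H q := by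
    have h2 : ∀ d ∈ q.divisors, ∀ e ∈ q.divisors,
        ((ArithmeticFunction.moebius (q / d) : ℤ) : ℝ) *
        ((ArithmeticFunction.moebius (q / e) : ℤ) : ℝ) *
        ((d : ℝ) * e * ∫ x in (0 : ℝ)..(q : ℝ), ph H d x * ph H e x) =
        ∑ r ∈ q.divisors, q * (W H r *
          ((((ArithmeticFunction.moebius (q / d) : ℤ) : ℝ) * (if r ∣ d then 1 else 0)) *
          (((ArithmeticFunction.moebius (q / e) : ℤ) : ℝ) * (if r ∣ e then 1 else 0)))) := by
      intro d hd e he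
      rw [pint hCRX H hH q d e hq (Nat.dvd_of_mem_divisors hd) (Nat.dvd_of_mem_divisors he),
        gcdsum H q d e hq (Nat.dvd_of_mem_divisors hd) (Nat.dvd_of_mem_divisors he),
        Finset.mul_sum, Finset.mul_sum]
      refine Finset.sum_congr rfl fun r _ => ?_
      ring
    rw [Finset.sum_congr rfl fun d hd => Finset.sum_congr rfl fun e he => h2 d hd e he]
    have h3 : ∀ d ∈ q.divisors, ∑ e ∈ q.divisors, ∑ r ∈ q.divisors, q * (W H r *
          ((((ArithmeticFunction.moebius (q / d) : ℤ) : ℝ) * (if r ∣ d then 1 else 0)) *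
          (((ArithmeticFunction.moebius (q / e) : ℤ) : ℝ) * (if r ∣ e then 1 else 0)))) =
        ∑ r ∈ q.divisors, ∑ e ∈ q.divisors, q * (W H r *
          ((((ArithmeticFunction.moebius (q / d) : ℤ) : ℝ) * (if r ∣ d then 1 else 0)) *
          (((ArithmeticFunction.moebius (q / e) : ℤ) : ℝ) * (if r ∣ e then 1 else 0)))) :=
      fun d _ => Finset.sum_comm
    rw [Finset.sum_congr rfl h3, Finset.sum_comm]
    have h4 : ∀ r ∈ q.divisors, ∑ d ∈ q.divisors, ∑ e ∈ q.divisors, q * (W H r *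
          ((((ArithmeticFunction.moebius (q / d) : ℤ) : ℝ) * (if r ∣ d then 1 else 0)) *
          (((ArithmeticFunction.moebius (q / e) : ℤ) : ℝ) * (if r ∣ e then 1 else 0)))) =
        if r = q then q * W H r else 0 := by
      intro r hr
      have h5 := inner q r hq (Nat.dvd_of_mem_divisors hr)
      rw [Finset.sum_filter] at h5
      have h6 : ∑ d ∈ q.divisors,
          (((ArithmeticFunction.moebius (q / d) : ℤ) : ℝ) * (if r ∣ d then 1 else 0)) =
          if r = q then 1 else 0 := by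
        rw [← h5]
        refine Finset.sum_congr rfl fun d _ => ?_
        by_cases h : r ∣ d <;> simp [h]
      have h7 : ∑ d ∈ q.divisors, ∑ e ∈ q.divisors, q * (W H r *
          ((((ArithmeticFunction.moebius (q / d) : ℤ) : ℝ) * (if r ∣ d then 1 else 0)) *
          (((ArithmeticFunction.moebius (q / e) : ℤ) : ℝ) * (if r ∣ e then 1 else 0)))) =
          q * (W H r * ((∑ d ∈ q.divisors,
          (((ArithmeticFunction.moebius (q / d) : ℤ) : ℝ) * (if r ∣ d then 1 else 0))) *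
          ∑ e ∈ q.divisors,
          (((ArithmeticFunction.moebius (q / e) : ℤ) : ℝ) * (if r ∣ e then 1 else 0)))) := by
        rw [Finset.sum_mul_sum, Finset.mul_sum, Finset.mul_sum]
        refine Finset.sum_congr rfl fun d _ => ?_
        rw [Finset.mul_sum, Finset.mul_sum]
      rw [h7, h6]
      by_cases h : r = q <;> simp [h]
    rw [Finset.sum_congr rfl h4, Finset.sum_ite_eq' q.divisors q (fun r => q * W H r),
      if_pos (Nat.mem_divisors.2 ⟨dvd_rfl, by omega⟩)]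
  rw [h1] at h0
  exact nonneg_of_mul_nonneg_right h0 hqR

end WQQ_

open WQQ_ in
theorem p_WQQ (hCRX : T_CRX) : T_WQQ := by
  intro H hH
  refine ⟨W H, fun q => ⟨nonneg hCRX H hH q, ?_⟩, fun g hg => inv H g hg⟩
  rcases Nat.eq_zero_or_pos q with h | hq
  · rw [h]; simp [W]
  have h1 : W H q ≤ ∑ r ∈ q.divisors, W H r :=
    Finset.single_le_sum (f := fun r => W H r) (fun r _ => nonneg hCRX H hH r)
      (Nat.mem_divisors.2 ⟨dvd_rfl, by omega⟩)
  rw [inv H q hq] at h1
  refine h1.trans (mul_le_mul_of_nonneg_left ?_ (Nat.cast_nonneg q))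
  have h2 := (hCRX q q H hq hq hH).2.2.1
  rwa [Nat.gcd_self] at h2

end Pool.Agent.DBS
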