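import Pool.Agent.DBS.Targets

/-!
# DBS, YQB: the sums over multiples for Selberg's weights
-/

set_option autoImplicit false

namespace Pool.Agent.DBS

open Complex MeasureTheory Set Filter
open Pool.Agent.DBN Pool.Agent.DBC Pool.Agent.DBB
open scoped ENNReal

namespace YQB_

theorem den_pos {δ : ℝ} (hδ : 0 < δ) {p : ℕ} (hp : p.Prime) : 0 < (p : ℝ) ^ (1 + δ) - 1 := by
  have h2 : (1 : ℝ) < p := by exact_mod_cast hp.one_lt
  have := Real.one_lt_rpow h2 (show 0 < 1 + δ by linarith)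
  linarith

theorem Jf_pos {δ : ℝ} (hδ : 0 < δ) (r : ℕ) : 0 < Jf δ r := by
  unfold Jf
  exact Finset.prod_pos fun p hp => den_pos hδ (Nat.prime_of_mem_primeFactors hp)

theorem Gf_pos {δ : ℝ} (hδ : 0 < δ) {Y : ℕ} (hY : 1 ≤ Y) : 0 < Gf δ Y := by
  unfold Gf
  refine Finset.sum_pos' (fun r _ => div_nonneg (sq_nonneg _) (Jf_pos hδ r).le) ⟨1, ?_, ?_⟩
  · simp [hY]
  · simp [Jf]

/-- the factor of a prime -/
noncomputable def xp (δ : ℝ) (w : ℂ) (p : ℕ) : ℝ := ‖(p : ℂ) ^ w - 1‖ / ((p : ℝ) ^ (1 + δ) - 1)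

theorem xp_nonneg {δ : ℝ} (hδ : 0 < δ) (w : ℂ) {p : ℕ} (hp : p.Prime) : 0 ≤ xp δ w p :=
  div_nonneg (norm_nonneg _) (den_pos hδ hp).le

/-- the product over the primes of `m`, for squarefree `m` -/
noncomputable def FF (δ : ℝ) (w : ℂ) (m : ℕ) : ℝ :=
  if Squarefree m then ∏ p ∈ m.primeFactors, xp δ w p else 0

theorem FF_nonneg {δ : ℝ} (hδ : 0 < δ) (w : ℂ) (m : ℕ) : 0 ≤ FF δ w m := by
  unfold FF
  split_ifs
  · exact Finset.prod_nonneg fun p hp => xp_nonneg hδ w (Nat.prime_of_mem_primeFactors hp)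
  · exact le_rfl

theorem sum_FF {δ : ℝ} (hδ : 0 < δ) (w : ℂ) (Y : ℕ) :
    ∑ m ∈ Finset.Icc 1 Y, FF δ w m ≤ Ep δ Y w := by
  unfold FF
  rw [← Finset.sum_filter]
  have h1 : Ep δ Y w = ∑ t ∈ ((Finset.Icc 1 Y).filter Nat.Prime).powerset, ∏ p ∈ t, xp δ w p := by
    unfold Ep
    exact Finset.prod_one_add (f := xp δ w) _
  rw [h1]
  have hinj : Set.InjOn Nat.primeFactors
      (((Finset.Icc 1 Y).filter (fun m => Squarefree m) : Finset ℕ) : Set ℕ) := by
    intro m hm m' hm' h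
    rw [Finset.mem_coe, Finset.mem_filter] at hm hm'
    rw [← Nat.prod_primeFactors_of_squarefree hm.2, ← Nat.prod_primeFactors_of_squarefree hm'.2, h]
  rw [← Finset.sum_image (f := fun t => ∏ p ∈ t, xp δ w p) hinj]
  refine Finset.sum_le_sum_of_subset_of_nonneg ?_ ?_
  · intro t ht
    obtain ⟨m, hm, rfl⟩ := Finset.mem_image.1 ht
    rw [Finset.mem_filter, Finset.mem_Icc] at hm
    rw [Finset.mem_powerset]
    intro p hp
    rw [Finset.mem_filter, Finset.mem_Icc]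
    have h2 := Nat.prime_of_mem_primeFactors hp
    exact ⟨⟨h2.one_lt.le, (Nat.le_of_mem_primeFactors hp).trans hm.1.2⟩, h2⟩
  · intro t ht _
    rw [Finset.mem_powerset] at ht
    exact Finset.prod_nonneg fun p hp => xp_nonneg hδ w (Finset.mem_filter.1 (ht hp)).2

theorem sum_div {δ : ℝ} (hδ : 0 < δ) (w : ℂ) (Y q : ℕ) (hq : 1 ≤ q) :
    ∑ r ∈ (Finset.Icc 1 Y).filter (fun r => q ∣ r), FF δ w (r / q) ≤
      ∑ m ∈ Finset.Icc 1 Y, FF δ w m := by
  have hinj : Set.InjOn (fun r => r / q)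
      (((Finset.Icc 1 Y).filter (fun r => q ∣ r) : Finset ℕ) : Set ℕ) := by
    intro r hr r' hr' h
    rw [Finset.mem_coe, Finset.mem_filter] at hr hr'
    have h1 : r / q = r' / q := h
    rw [← Nat.div_mul_cancel hr.2, ← Nat.div_mul_cancel hr'.2, h1]
  rw [← Finset.sum_image (f := FF δ w) hinj]
  refine Finset.sum_le_sum_of_subset_of_nonneg ?_ fun m _ _ => FF_nonneg hδ w m
  intro m hm
  obtain ⟨r, hr, rfl⟩ := Finset.mem_image.1 hm
  rw [Finset.mem_filter, Finset.mem_Icc] at hr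
  rw [Finset.mem_Icc]
  refine ⟨?_, (Nat.div_le_self r q).trans hr.1.2⟩
  exact Nat.div_pos (Nat.le_of_dvd hr.1.1 hr.2) hq

theorem term {δ : ℝ} (hδ : 0 < δ) {Y : ℕ} (hY : 1 ≤ Y) {q : ℕ} (hq : 1 ≤ q) (w : ℂ) {r : ℕ}
    (hr : 1 ≤ r) (hqr : q ∣ r) :
    ‖(zf δ Y r : ℂ) * ((q : ℂ) ^ w * ∏ p ∈ (r / q).primeFactors, ((p : ℂ) ^ w - 1))‖ ≤
      ((ArithmeticFunction.moebius q : ℤ) : ℝ) ^ 2 * (q : ℝ) ^ w.re / (Jf δ q * Gf δ Y) *
        FF δ w (r / q) := by
  have hG := Gf_pos hδ hY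
  have hJq := Jf_pos hδ q
  by_cases hsq : Squarefree r
  · obtain ⟨m, rfl⟩ := hqr
    have hm : q * m / q = m := Nat.mul_div_cancel_left m hq
    rw [hm]
    obtain ⟨hcop, hsq1, hsq2⟩ := (Nat.squarefree_mul_iff).1 hsq
    have hJm := Jf_pos hδ m
    have hJ : Jf δ (q * m) = Jf δ q * Jf δ m := by
      unfold Jf
      rw [hcop.primeFactors_mul, Finset.prod_union hcop.disjoint_primeFactors]
    have hmu : |((ArithmeticFunction.moebius (q * m) : ℤ) : ℝ)| = 1 := by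
      have := ArithmeticFunction.abs_moebius_eq_one_of_squarefree hsq
      exact_mod_cast this
    have hmq : ((ArithmeticFunction.moebius q : ℤ) : ℝ) ^ 2 = 1 := by
      have := ArithmeticFunction.abs_moebius_eq_one_of_squarefree hsq1
      rw [← sq_abs]
      have h2 : |((ArithmeticFunction.moebius q : ℤ) : ℝ)| = 1 := by exact_mod_cast this
      rw [h2, one_pow]
    have hF : FF δ w m = (∏ p ∈ m.primeFactors, ‖(p : ℂ) ^ w - 1‖) / Jf δ m := by
      unfold FF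
      rw [if_pos hsq2]
      unfold xp Jf
      rw [Finset.prod_div_distrib]
    rw [norm_mul, norm_mul, norm_prod, Complex.norm_natCast_cpow_of_pos hq, Complex.norm_real,
      hF, hmq]
    have hz : ‖zf δ Y (q * m)‖ = 1 / (Jf δ q * Jf δ m * Gf δ Y) := by
      unfold zf
      rw [hJ, norm_div, Real.norm_eq_abs, hmu, Real.norm_eq_abs, abs_of_pos (by positivity)]
    rw [hz]
    apply le_of_eq
    field_simp
  · have hz : zf δ Y r = 0 := by
      unfold zf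
      rw [ArithmeticFunction.moebius_eq_zero_of_not_squarefree hsq]
      simp
    rw [hz]
    simp only [Complex.ofReal_zero, zero_mul, norm_zero]
    have := FF_nonneg hδ w (r / q)
    positivity

end YQB_

open YQB_

/-- The sums over multiples. -/
theorem p_YQB (hINV : T_INV) : T_YQB := by
  intro δ Y q w hδ hY hq
  rw [hINV δ Y q w hδ hq]
  have hA : 0 ≤ ((ArithmeticFunction.moebius q : ℤ) : ℝ) ^ 2 * (q : ℝ) ^ w.re /
      (Jf δ q * Gf δ Y) := by
    have hG := Gf_pos hδ hY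
    have hJq := Jf_pos hδ q
    positivity
  calc ‖∑ r ∈ (Finset.Icc 1 Y).filter (fun r => q ∣ r), (zf δ Y r : ℂ) *
        ((q : ℂ) ^ w * ∏ p ∈ (r / q).primeFactors, ((p : ℂ) ^ w - 1))‖
      ≤ ∑ r ∈ (Finset.Icc 1 Y).filter (fun r => q ∣ r),
        ((ArithmeticFunction.moebius q : ℤ) : ℝ) ^ 2 * (q : ℝ) ^ w.re / (Jf δ q * Gf δ Y) *
          FF δ w (r / q) := by
        refine (norm_sum_le _ _).trans (Finset.sum_le_sum fun r hr => ?_)
        rw [Finset.mem_filter, Finset.mem_Icc] at hr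
        exact term hδ hY hq w hr.1.1 hr.2
    _ = ((ArithmeticFunction.moebius q : ℤ) : ℝ) ^ 2 * (q : ℝ) ^ w.re / (Jf δ q * Gf δ Y) *
        ∑ r ∈ (Finset.Icc 1 Y).filter (fun r => q ∣ r), FF δ w (r / q) := by
        rw [Finset.mul_sum]
    _ ≤ _ := mul_le_mul_of_nonneg_left ((sum_div hδ w Y q hq).trans (sum_FF hδ w Y)) hA

end Pool.Agent.DBS
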