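import Pool.Agent.DBS.Targets

set_option autoImplicit false

/-!
# DBS, target ZPB: `ζ` is at most `C Im s` for `Re s ≥ 1/2`, `Im s ≥ 2`
-/

namespace Pool.Agent.DBS

open Complex MeasureTheory Set Filter

theorem p_ZPB : T_ZPB := by
  obtain ⟨C₁, hC₁, h₁⟩ := Pool.Agent.Lib.ZetaCrude.norm_zeta_le_crude
  obtain ⟨C₂, hC₂, h₂⟩ := Pool.Agent.Lib.ZetaCrude.norm_zeta_le_of_two_le
  refine ⟨3 * C₁ + C₂, by linarith, fun s hs hi => ?_⟩
  have hi0 : 0 ≤ s.im := by linarith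
  rcases le_or_gt 2 s.re with h | h
  · have h3 := h₂ s h
    nlinarith [mul_nonneg (by linarith : (0 : ℝ) ≤ C₁) hi0,
      mul_nonneg (by linarith : (0 : ℝ) ≤ C₂) (by linarith : (0 : ℝ) ≤ s.im - 1)]
  · have h4 : |(s - 1).im| ≤ ‖s - 1‖ := Complex.abs_im_le_norm _
    have h5 : (s - 1).im = s.im := by simp
    rw [h5, abs_of_nonneg hi0] at h4
    have h6 : ‖s‖ ≤ |s.re| + |s.im| := Complex.norm_le_abs_re_add_abs_im s
    rw [abs_of_nonneg (by linarith : (0 : ℝ) ≤ s.re), abs_of_nonneg hi0] at h6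
    have h7 := h₁ s (by linarith) (by linarith)
    have h8 : ‖s‖ ≤ 2 * s.im := by linarith
    have h9 : C₁ * (1 + ‖s‖) ≤ C₁ * (3 * s.im) :=
      mul_le_mul_of_nonneg_left (by linarith) (by linarith)
    nlinarith [mul_nonneg (by linarith : (0 : ℝ) ≤ C₂) hi0]

end Pool.Agent.DBS
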