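import Pool.Agent.DBB.All4
import Pool.Agent.DBS.P_CRX
import Pool.Agent.DBS.P_WQQ
import Pool.Agent.DBS.P_VAC
import Pool.Agent.DBS.P_LA1
import Pool.Agent.DBS.P_INV
import Pool.Agent.DBS.P_YQB
import Pool.Agent.DBS.P_PSU
import Pool.Agent.DBS.P_EPB
import Pool.Agent.DBS.P_GLB
import Pool.Agent.DBS.P_SQS
import Pool.Agent.DBS.P_DGE
import Pool.Agent.DBS.P_CLO
import Pool.Agent.DBS.P_SSB
import Pool.Agent.DBS.P_SSP
import Pool.Agent.DBS.P_GXC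
import Pool.Agent.DBS.P_GXD
import Pool.Agent.DBS.P_LTC
import Pool.Agent.DBS.P_LTD
import Pool.Agent.DBS.P_MFC
import Pool.Agent.DBS.P_GMS
import Pool.Agent.DBS.P_CLS
import Pool.Agent.DBS.P_MOM
import Pool.Agent.DBS.P_FEQ
import Pool.Agent.DBS.P_MO2
import Pool.Agent.DBS.P_BSF
import Pool.Agent.DBS.P_BSM
import Pool.Agent.DBS.P_ZPB
import Pool.Agent.DBS.P_MSB
import Pool.Agent.DBS.P_NUM
import Pool.Agent.DBS.P_AR6
import Pool.Agent.DBS.P_AR7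
import Pool.Agent.DBS.P_NU2
import Pool.Agent.DBS.P_AR8
import Pool.Agent.DBS.P_AR9
import Pool.Agent.DBS.P_MON
import Pool.Agent.DBS.P_UNS
import Pool.Agent.DBC.S_PL

/-!
# DBS: the arithmetic part, all targets together
-/

set_option autoImplicit false

namespace Pool.Agent.DBS

open Pool.Agent.DBC Pool.Agent.DBA Pool.Agent.DBB

theorem vac : T_VAC := p_VAC p_CRX (p_WQQ p_CRX)

theorem ssb : T_SSB := p_SSB (p_YQB p_INV) (p_EPB p_PSU) p_GLB p_SQS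

theorem gms : T_GMS := p_GMS s_PL p_MFC (p_LTC p_GXD) (p_LTD vac p_GXC)

theorem cls : T_CLS := p_CLS gms p_LA1 (p_CLO p_LA1 p_INV p_GLB) ssb

theorem mom : T_MOM := p_MOM gms p_LA1 p_DGE ssb (p_SSP ssb)

theorem mo2 : T_MO2 := p_MO2 mom p_FEQ

theorem ar7 : T_AR7 :=
  p_AR7 (p_AR6 (p_BSF cls p_DSC p_MRK) (p_BSM mo2 p_DSC) p_ZPB (p_MSB p_LA1) p_NUM) ar4

theorem ar9 : T_AR9 :=
  p_AR9 (p_AR8 (p_BSF cls p_DSC p_MRK) (p_BSM mo2 p_DSC) p_ZPB (p_MSB p_LA1) p_NU2) ar4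

theorem uns : T_UNS := p_UNS p_MON ar9

end Pool.Agent.DBS
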