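import Pool.Agent.DBS.Targets3

set_option autoImplicit false

/-! One exceptional set for all times (`T_SC8`). -/

namespace Pool.Agent.DBS

open Complex MeasureTheory Set Filter
open Pool.Agent.DBN Pool.Agent.DBC Pool.Agent.DBB
open scoped ENNReal

theorem p_SC8 (h1 : Pool.Agent.DBB.T_DG5) (h2 : T_UNS) : T_SC8 := by
  intro c hc K ε hK hε
  obtain ⟨n, hn⟩ := h1 c K ε hc hK hε
  obtain ⟨A, κ, X₀, hA, hκ, H⟩ := h2 n c hc
  refine ⟨A, κ, max X₀ n, hA, hκ, fun s X hX hAs hsc => ?_⟩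
  have hX1 : X₀ ≤ X := (le_max_left _ _).trans hX
  have hX2 : (n : ℝ) ≤ X := (le_max_right _ _).trans hX
  refine (measure_mono ?_).trans (H s X hX1 hAs hsc)
  rintro T ⟨hT1, hT2, t, hst, htc, hno⟩
  exact ⟨hT1, hT2, t, hst, htc, fun hR => hno (hn t T (hX2.trans hT1) htc hR)⟩

end Pool.Agent.DBS
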