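import Pool.Agent.DBS.Targets4

/-!
# DBS, target CVR: covering by cells of length `R`
-/

set_option autoImplicit false

namespace Pool.Agent.DBS

open Complex MeasureTheory Set Filter
open Pool.Agent.DBN Pool.Agent.DBC Pool.Agent.DBB
open scoped ENNReal

namespace CVR_

theorem disj {R : ℝ} (hR : 0 < R) (i j : ℤ) (h : i ≠ j) :
    Disjoint (Ico ((i : ℝ) * R) (((i : ℝ) + 1) * R)) (Ico ((j : ℝ) * R) (((j : ℝ) + 1) * R)) := by
  rw [Set.disjoint_left]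
  rintro x ⟨h1, h2⟩ ⟨h3, h4⟩
  apply h
  have a : (i : ℝ) < j + 1 := lt_of_mul_lt_mul_right (h1.trans_lt h4) hR.le
  have b : (j : ℝ) < i + 1 := lt_of_mul_lt_mul_right (h3.trans_lt h2) hR.le
  have a' : i < j + 1 := by exact_mod_cast a
  have b' : j < i + 1 := by exact_mod_cast b
  omega

theorem cell {R T : ℝ} (hR : 0 < R) {i : ℤ} (h : ⌊T / R⌋ = i) :
    (i : ℝ) * R ≤ T ∧ T < ((i : ℝ) + 1) * R := by
  obtain ⟨h1, h2⟩ := Int.floor_eq_iff.1 h
  exact ⟨(le_div_iff₀ hR).1 h1, (div_lt_iff₀ hR).1 h2⟩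

theorem count {R V : ℝ} {B : Set ℝ} (hR : 0 < R) (hV : 0 ≤ V) (J : Finset ℤ)
    (hJ : ∀ j ∈ J, Ico ((j : ℝ) * R) (((j : ℝ) + 1) * R) ⊆ B)
    (hB : volume B ≤ ENNReal.ofReal V) : (J.card : ℝ) * R ≤ V := by
  have h1 : volume (⋃ j ∈ J, Ico ((j : ℝ) * R) (((j : ℝ) + 1) * R)) =
      ∑ j ∈ J, volume (Ico ((j : ℝ) * R) (((j : ℝ) + 1) * R)) :=
    measure_biUnion_finset (fun i _ j _ h => disj hR i j h) fun j _ => measurableSet_Ico
  have h2 : ∀ j ∈ J, volume (Ico ((j : ℝ) * R) (((j : ℝ) + 1) * R)) = ENNReal.ofReal R := by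
    intro j _
    rw [Real.volume_Ico]
    congr 1
    ring
  rw [Finset.sum_congr rfl h2, Finset.sum_const, nsmul_eq_mul] at h1
  have h3 : volume (⋃ j ∈ J, Ico ((j : ℝ) * R) (((j : ℝ) + 1) * R)) ≤ volume B :=
    measure_mono (Set.iUnion₂_subset hJ)
  have h4 : ENNReal.ofReal ((J.card : ℝ) * R) ≤ ENNReal.ofReal V := by
    rw [ENNReal.ofReal_mul (Nat.cast_nonneg _), ENNReal.ofReal_natCast, ← h1]
    exact h3.trans hB
  rwa [ENNReal.ofReal_le_ofReal_iff hV] at h4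

end CVR_

open CVR_ in
/-- CVR. -/
theorem p_CVR : T_CVR := by
  intro R V M B w F hR hV hM hB hF hw
  obtain ⟨k, hk⟩ : ∃ k : ℂ → ℤ, k = fun z => ⌊z.re / 2 / R⌋ := ⟨_, rfl⟩
  have hkz : ∀ z, ⌊z.re / 2 / R⌋ = k z := fun z => by rw [hk]
  have hcard : ((F.image k).card : ℝ) * R ≤ V := by
    refine count hR hV (F.image k) (fun i hi => ?_) hB
    obtain ⟨z, hz, rfl⟩ := Finset.mem_image.1 hi
    obtain ⟨h1, h2⟩ := cell hR (hkz z)
    refine Set.Subset.trans ?_ (hF z hz)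
    rintro x ⟨h3, h4⟩
    constructor <;> nlinarith
  have hsum := Finset.sum_fiberwise_of_maps_to (s := F) (t := F.image k) (g := k)
    (fun z hz => Finset.mem_image_of_mem k hz) w
  have hfib : ∀ i ∈ F.image k, ((∑ z ∈ F with k z = i, w z : ℕ) : ℝ) ≤ M := by
    intro i hi
    obtain ⟨z, hz, rfl⟩ := Finset.mem_image.1 hi
    refine le_trans ?_ (hw z hz)
    have h1 : ∑ z' ∈ F with k z' = k z, w z' ≤
        ∑ z' ∈ F with |z'.re / 2 - z.re / 2| ≤ R, w z' := by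
      refine Finset.sum_le_sum_of_subset ?_
      intro z' hz'
      obtain ⟨h2, h3⟩ := Finset.mem_filter.1 hz'
      refine Finset.mem_filter.2 ⟨h2, ?_⟩
      obtain ⟨h4, h5⟩ := cell hR (hkz z)
      obtain ⟨h6, h7⟩ := cell hR (hkz z')
      rw [h3] at h6 h7
      rw [abs_le]
      constructor <;> linarith
    exact_mod_cast h1
  have h1 : ((∑ z ∈ F, w z : ℕ) : ℝ) ≤ ((F.image k).card : ℝ) * M := by
    rw [← hsum, Nat.cast_sum, ← nsmul_eq_mul, ← Finset.sum_const]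
    exact Finset.sum_le_sum hfib
  refine h1.trans (mul_le_mul_of_nonneg_right ?_ hM)
  rw [le_div_iff₀ hR]
  exact hcard

end Pool.Agent.DBS
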