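import Pool.Agent.DBS.Targets5
import Pool.Agent.DBB.P_DG5
import Pool.Agent.DBN.PhiC
import Pool.Agent.DBN.ZS

/-!
# DGR: the diagonal argument with two times
-/

set_option autoImplicit false

namespace Pool.Agent.DBS

open Complex MeasureTheory Set Filter
open Pool.Agent.DBN Pool.Agent.DBC Pool.Agent.DBB

namespace DGR_

theorem pt_eq (z : ℂ) : (1 / 2 + I * z / 2 : ℂ) = Pool.Agent.DBC.pt (-z.im / 2) (z.re / 2) := by
  apply Complex.ext
  · simp [Pool.Agent.DBC.pt]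
  · simp [Pool.Agent.DBC.pt]

theorem pt_neg (x τ : ℝ) :
    Pool.Agent.DBC.pt x τ = 1 - (starRingEnd ℂ) (Pool.Agent.DBC.pt (-x) τ) := by
  apply Complex.ext
  · simp [Pool.Agent.DBC.pt]
    ring
  · simp [Pool.Agent.DBC.pt]

theorem flow_neg {t x τ : ℝ} (h : flow t (Pool.Agent.DBC.pt (-x) τ) ≠ 0) :
    flow t (Pool.Agent.DBC.pt x τ) ≠ 0 := by
  rw [pt_neg, flow_one_sub, flow_conj]
  intro h0
  exact h ((map_eq_zero _).1 h0)

theorem pos {t t' T x a k : ℝ} (hT : 2 ≤ T) (hk : T ^ (-2 : ℝ) ≤ k) :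
    0 < k * EF t t' T x a := by
  have h1 : 0 < k := (Real.rpow_pos_of_pos (by linarith) _).trans_le hk
  have h2 : 0 < size T := by
    unfold size
    exact mul_pos (Real.rpow_pos_of_pos (by linarith) _) (Real.exp_pos _)
  unfold EF
  exact mul_pos h1 (mul_pos h2 (Real.exp_pos _))

end DGR_

theorem p_DGR (h1 : Pool.Agent.DBB.T_LOR) (h2 : Pool.Agent.DBB.T_JNR) : T_DGR := by
  intro c₂ K hcc hK
  by_contra hcon
  push Not at hcon
  have hcon2 : ∀ n : ℕ, ∃ t t' T : ℝ, (n : ℝ) ≤ T ∧ 0 < t ∧ t ≤ t' ∧ t' * Real.log T ≤ c₂ ∧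
      RLv n t' T ∧ ((∀ z : ℂ, |z.re - 2 * T| ≤ K * (t' * Real.log T) →
        t' * Real.log T / K ≤ |z.im| → |z.im| ≤ K * (t' * Real.log T) → H t z ≠ 0) →
        ((n : ℝ) + 1) * (t' * Real.log T ^ 2) <
          (zeroCount (H t) (2 * T) (K * (t' * Real.log T)) : ℝ)) := by
    intro n
    exact hcon n ((n : ℝ) + 1) (by positivity)
  choose t t' T hn ht0 htt hup hL hno using hcon2
  choose ht hm ν hν hu hl using hL
  have hyp := DG5_.hyp hcc ht hm hν hu hl hup
  have hK0 : 0 < K := by linarith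
  obtain ⟨T₀, hT0, hA⟩ := h1 _ c₂ hyp K (1 / (2 * K)) 1 hK0 (by positivity) one_pos
  obtain ⟨C, T₁, hC, hT1, hB⟩ := h2 _ c₂ hyp K hK0
  obtain ⟨n, hnn⟩ := exists_nat_ge (max T₀ (max T₁ C))
  have hn0 : T₀ ≤ T n := ((le_max_left _ _).trans hnn).trans (hn n)
  have hn1 : T₁ ≤ T n :=
    (((le_max_left _ _).trans (le_max_right _ _)).trans hnn).trans (hn n)
  have hnC : C ≤ n := ((le_max_right _ _).trans (le_max_right _ _)).trans hnn
  have hmem : (t' n, T n, ν n) ∈ range fun n => (t' n, T n, ν n) := ⟨n, rfl⟩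
  have hT2 : 2 ≤ T n := hT0.trans hn0
  have key : ∀ x τ : ℝ, 1 / (2 * K) * (t' n * Real.log (T n)) ≤ x →
      x ≤ K * (t' n * Real.log (T n)) → |τ - T n| ≤ K * (t' n * Real.log (T n)) →
      flow (t n) (Pool.Agent.DBC.pt x τ) ≠ 0 := by
    intro x τ hx hx2 hτ
    have h := hA (t n) (t' n) (T n) (ν n) x τ hmem hn0 (ht0 n) (htt n) hx hx2 hτ
    exact norm_pos_iff.1 ((DGR_.pos hT2 (hν n)).trans_le h)
  have hR : 0 ≤ t' n * Real.log (T n) :=
    mul_nonneg (ht n).le (Real.log_nonneg (by linarith))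
  have hKR : 0 ≤ K * (t' n * Real.log (T n)) := mul_nonneg hK0.le hR
  have hlt := hno n ?_
  · have h := hB (t n) (t' n) (T n) (ν n) hmem hn1 (ht0 n) (htt n)
    have h3 : 0 ≤ t' n * Real.log (T n) ^ 2 := mul_nonneg (ht n).le (sq_nonneg _)
    have h4 : C * (t' n * Real.log (T n) ^ 2) ≤
        ((n : ℝ) + 1) * (t' n * Real.log (T n) ^ 2) :=
      mul_le_mul_of_nonneg_right (by linarith) h3
    linarith
  · intro z hz1 hz2 hz3
    have hz4 : 1 / (2 * K) * (t' n * Real.log (T n)) ≤ |z.im| / 2 := by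
      have e : 1 / (2 * K) * (t' n * Real.log (T n)) = t' n * Real.log (T n) / K / 2 := by
        field_simp
      rw [e]
      linarith
    have hz5 : |z.im| / 2 ≤ K * (t' n * Real.log (T n)) := by
      have := abs_nonneg z.im
      linarith
    have hz6 : |z.re / 2 - T n| ≤ K * (t' n * Real.log (T n)) := by
      have e : z.re / 2 - T n = (z.re - 2 * T n) / 2 := by ring
      rw [e, abs_div, abs_of_pos (two_pos : (0 : ℝ) < 2)]
      have := abs_nonneg (z.re - 2 * T n)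
      linarith
    rw [H_eq_flow, DGR_.pt_eq]
    refine div_ne_zero ?_ (by norm_num)
    rcases le_total 0 z.im with him | him
    · apply DGR_.flow_neg
      rw [abs_of_nonneg him] at hz4 hz5
      refine key _ _ ?_ ?_ hz6
      · linarith
      · linarith
    · rw [abs_of_nonpos him] at hz4 hz5
      exact key _ _ hz4 hz5 hz6

end Pool.Agent.DBS
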