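import Pool.Agent.DBS.Targets4

set_option autoImplicit false

/-! The final sum for the number of exceptional zeros (`T_FWS`). -/

namespace Pool.Agent.DBS

open Complex MeasureTheory Set Filter
open Pool.Agent.DBN Pool.Agent.DBC Pool.Agent.DBB
open scoped ENNReal

namespace FWS_

theorem rlv_mono {n' n : ℕ} {s T : ℝ} (hn : n' ≤ n) (hT : 1 ≤ T) (h : RLv n s T) :
    RLv n' s T := by
  obtain ⟨hs, hm, ν, hν, hu, hl⟩ := h
  have hnn : (n' : ℝ) ≤ n := by exact_mod_cast hn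
  have hn0 : (0 : ℝ) ≤ n' := Nat.cast_nonneg n'
  have hn1 : (0 : ℝ) < (n' : ℝ) + 1 := by linarith
  have hT0 : 0 ≤ T := by linarith
  have hν0 : 0 ≤ ν := (Real.rpow_nonneg hT0 _).trans hν
  have hm0 : 0 ≤ mt s T := (Nat.cast_nonneg n).trans hm
  have hl0 : 0 ≤ s * Real.log T := mul_nonneg hs.le (Real.log_nonneg hT)
  have hdiv : ∀ x : ℝ, 0 ≤ x → x / ((n : ℝ) + 1) ≤ x / ((n' : ℝ) + 1) := fun x hx =>
    div_le_div_of_nonneg_left hx hn1 (by linarith)
  have hmul : (n' : ℝ) * (s * Real.log T) ≤ n * (s * Real.log T) :=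
    mul_le_mul_of_nonneg_right hnn hl0
  refine ⟨hs, hnn.trans hm, ν, hν, ?_, ?_⟩
  · intro w hw1 hw2
    refine (hu w hw1 (hw2.trans hnn)).trans (mul_le_mul_of_nonneg_left
      (Real.exp_le_exp.2 (hdiv _ ?_)) hν0)
    exact add_nonneg hm0 (div_nonneg (sq_nonneg _) hs.le)
  · intro w hw1 hw2 hw3
    refine le_trans (mul_le_mul_of_nonneg_left (Real.exp_le_exp.2 ?_) hν0)
      (hl w ((hdiv _ hl0).trans hw1) (hw2.trans hmul) (hw3.trans hmul))
    exact neg_le_neg (hdiv _ hm0)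

theorem bx_mono {n' n : ℕ} {s X : ℝ} (hn : n' ≤ n) (hX : 2 ≤ X) : BX n' s X ⊆ BX n s X := by
  rintro T ⟨h1, h2, h3⟩
  exact ⟨h1, h2, fun h => h3 (rlv_mono hn (by linarith) h)⟩

theorem geo {x : ℝ} (hx : 1 ≤ x) (N : ℕ) :
    ∑ i ∈ Finset.range N, Real.exp (-(2 ^ i * x)) ≤ 2 * Real.exp (-x) := by
  have he : Real.exp (-x) ≤ 1 / 2 := by
    have h1 : (2 : ℝ) ≤ Real.exp x := by
      have := Real.add_one_le_exp x
      linarith
    rw [Real.exp_neg, one_div]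
    exact inv_anti₀ (by norm_num) h1
  have he0 : 0 ≤ Real.exp (-x) := (Real.exp_pos _).le
  have h2 : ∀ i ∈ Finset.range N, Real.exp (-(2 ^ i * x)) ≤
      Real.exp (-x) * (1 / 2 : ℝ) ^ i := by
    intro i _
    have h3 : ((i : ℝ) + 1) ≤ 2 ^ i := by
      have : i + 1 ≤ 2 ^ i := Nat.succ_le_of_lt Nat.lt_two_pow_self
      exact_mod_cast this
    have h4 : Real.exp (-(2 ^ i * x)) ≤ Real.exp (-x) ^ (i + 1) := by
      rw [← Real.exp_nat_mul]
      refine Real.exp_le_exp.2 ?_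
      push_cast
      have := mul_le_mul_of_nonneg_right h3 (by linarith : (0 : ℝ) ≤ x)
      linarith
    refine h4.trans ?_
    rw [pow_succ, mul_comm]
    exact mul_le_mul_of_nonneg_left (pow_le_pow_left₀ he0 he i) he0
  refine (Finset.sum_le_sum h2).trans ?_
  rw [← Finset.mul_sum, mul_comm]
  exact mul_le_mul_of_nonneg_right (sum_geometric_two_le N) he0

theorem fin {C κ m X L : ℝ} (hC : 0 < C) (hκ : 0 < κ) (hX : 0 ≤ X) (hL : 0 ≤ L)
    (h1 : 1 / κ ≤ m) (h2 : 4 * C / κ ≤ m) (N : ℕ) :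
    ∑ i ∈ Finset.range N, C * (X * Real.exp (-(κ * (2 ^ i * m))) * L) ≤
      X * L * Real.exp (-(κ / 2 * m)) := by
  have h3 : 1 ≤ κ * m := by
    rw [div_le_iff₀ hκ] at h1
    linarith
  have h4 : 4 * C ≤ κ * m := by
    rw [div_le_iff₀ hκ] at h2
    linarith
  have h5 : ∑ i ∈ Finset.range N, C * (X * Real.exp (-(κ * (2 ^ i * m))) * L) =
      C * (X * L) * ∑ i ∈ Finset.range N, Real.exp (-(2 ^ i * (κ * m))) := by
    rw [Finset.mul_sum]
    refine Finset.sum_congr rfl fun i _ => ?_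
    have : κ * (2 ^ i * m) = 2 ^ i * (κ * m) := by ring
    rw [this]
    ring
  rw [h5]
  have h6 := geo h3 N
  have hXL : 0 ≤ X * L := mul_nonneg hX hL
  have h7 : 2 * C ≤ Real.exp (κ / 2 * m) := by
    have := Real.add_one_le_exp (κ / 2 * m)
    linarith
  have h8 : Real.exp (-(κ * m)) = Real.exp (-(κ / 2 * m)) * Real.exp (-(κ / 2 * m)) := by
    rw [← Real.exp_add]
    congr 1
    ring
  have h9 : 2 * C * Real.exp (-(κ / 2 * m)) ≤ 1 := by
    rw [Real.exp_neg, ← div_eq_mul_inv, div_le_one (Real.exp_pos _)]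
    exact h7
  calc C * (X * L) * ∑ i ∈ Finset.range N, Real.exp (-(2 ^ i * (κ * m)))
      ≤ C * (X * L) * (2 * Real.exp (-(κ * m))) :=
        mul_le_mul_of_nonneg_left h6 (mul_nonneg hC.le hXL)
    _ = X * L * Real.exp (-(κ / 2 * m)) * (2 * C * Real.exp (-(κ / 2 * m))) := by
        rw [h8]
        ring
    _ ≤ X * L * Real.exp (-(κ / 2 * m)) * 1 :=
        mul_le_mul_of_nonneg_left h9 (mul_nonneg hXL (Real.exp_pos _).le)
    _ = X * L * Real.exp (-(κ / 2 * m)) := mul_one _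

end FWS_

open FWS_ Classical in
theorem p_FWS (h1 : T_MXN) (h2 : T_CIN) (h3 : T_LVL) (h4 : T_LVT) : T_FWS := by
  intro c hc K hK
  have hb : 0 < 4 * (K + c) := by linarith
  obtain ⟨n₁, X₁, hX₁, H₁⟩ := h2 c K hc hK
  obtain ⟨n₂, C₁, X₂, hC₁, hX₂, H₂⟩ := h3 (4 * (K + c)) hb
  obtain ⟨C₂, X₃, hC₂, hX₃, H₃⟩ := h4 K (4 * (K + c)) c K hK (by linarith) hc hK
  obtain ⟨A₀, κ₀, X₄, hA₀, hκ₀, hX₄, H₄⟩ := h1 (max n₁ n₂) (4 * (K + c)) hb
  refine ⟨max A₀ (max (1 / κ₀) (4 * (C₁ + C₂) / κ₀)), κ₀ / 2,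
    max (max X₁ X₂) (max (max X₃ X₄) (2 * (4 * (K + c)))), lt_of_lt_of_le hA₀ (le_max_left _ _),
    by linarith, ?_⟩
  intro t X hX hA htc F hF
  have a1 : A₀ ≤ t * Real.log X ^ 2 := (le_max_left _ _).trans hA
  have a2 : 1 / κ₀ ≤ t * Real.log X ^ 2 :=
    ((le_max_left _ _).trans (le_max_right _ _)).trans hA
  have a3 : 4 * (C₁ + C₂) / κ₀ ≤ t * Real.log X ^ 2 :=
    ((le_max_right _ _).trans (le_max_right _ _)).trans hA
  have x1 : X₁ ≤ X := ((le_max_left _ _).trans (le_max_left _ _)).trans hX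
  have x2 : X₂ ≤ X := ((le_max_right _ _).trans (le_max_left _ _)).trans hX
  have x3 : X₃ ≤ X :=
    (((le_max_left _ _).trans (le_max_left _ _)).trans (le_max_right _ _)).trans hX
  have x4 : X₄ ≤ X :=
    (((le_max_right _ _).trans (le_max_left _ _)).trans (le_max_right _ _)).trans hX
  have x5 : 2 * (4 * (K + c)) ≤ X := ((le_max_right _ _).trans (le_max_right _ _)).trans hX
  have hX2 : 2 ≤ X := hX₁.trans x1
  have hX0 : 0 ≤ X := by linarith
  clear hX hA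
  generalize hLdef : Real.log X = L at *
  have hL : 0 < L := by
    rw [← hLdef]
    exact Real.log_pos (by linarith)
  have hm0 : 0 < t * L ^ 2 := lt_of_lt_of_le hA₀ a1
  have ht : 0 < t := by
    by_contra h
    have : t * L ^ 2 ≤ 0 := mul_nonpos_of_nonpos_of_nonneg (not_lt.1 h) (by positivity)
    linarith
  have hq : 0 < t * L := mul_pos ht hL
  -- the number of levels
  have hex : ∃ j : ℕ, K ≤ 2 ^ j * (t * L) := by
    obtain ⟨j, hj⟩ := pow_unbounded_of_one_lt (K / (t * L)) (by norm_num : (1 : ℝ) < 2)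
    refine ⟨j, ?_⟩
    rw [div_lt_iff₀ hq] at hj
    exact hj.le
  obtain ⟨J, hJK, hJb⟩ : ∃ J : ℕ, K ≤ 2 ^ J * (t * L) ∧ 2 ^ J * (t * L) ≤ 2 * K + c := by
    refine ⟨Nat.find hex, Nat.find_spec hex, ?_⟩
    rcases Nat.eq_zero_or_pos (Nat.find hex) with h0 | h0
    · rw [h0, pow_zero, one_mul]
      linarith
    · have h5 : ¬ K ≤ 2 ^ (Nat.find hex - 1) * (t * L) := Nat.find_min hex (by omega)
      have h6 : (2 : ℝ) ^ (Nat.find hex) = 2 * 2 ^ (Nat.find hex - 1) := by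
        rw [← pow_succ']
        congr 1
        omega
      rw [h6]
      push Not at h5
      linarith
  have hRJ : ∀ i : ℕ, i ≤ J → (2 : ℝ) ^ i * (t * L) ≤ 2 * K + c := fun i hi =>
    (mul_le_mul_of_nonneg_right (pow_le_pow_right₀ (by norm_num) hi) hq.le).trans hJb
  -- the levels
  set n := max n₁ n₂ with hn
  let P : ℂ → ℕ → Prop := fun z i => |z.im| ≤ 2 * (2 ^ i * (t * L)) ∧
    Icc (z.re / 2 - 2 ^ i * (t * L)) (z.re / 2 + 2 ^ i * (t * L)) ⊆ BX n (2 ^ i * t) X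
  let lev : ℂ → ℕ := fun z => Nat.findGreatest (P z) J
  have hlevJ : ∀ z, lev z ≤ J := fun z => Nat.findGreatest_le J
  have hP : ∀ z ∈ F, P z (lev z) := by
    intro z hz
    obtain ⟨z1, z2, z3, z4, z5⟩ := hF z hz
    obtain ⟨j, hj1, hj2, hj3⟩ := H₁ t X z x1 ht (by rw [hLdef]; exact htc) z1 z2 z3 z4 z5
    rw [hLdef] at hj1 hj2 hj3
    have hjJ : j ≤ J := by
      rcases hj1 with h | h
      · omega
      · by_contra hc2
        have h6 : (2 : ℝ) ^ (J + 1) * (t * L) ≤ 2 ^ j * (t * L) :=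
          mul_le_mul_of_nonneg_right (pow_le_pow_right₀ (by norm_num) (by omega)) hq.le
        rw [pow_succ'] at h6
        linarith
    exact Nat.findGreatest_spec (P := P z) hjJ
      ⟨hj2, hj3.trans (bx_mono (le_max_left _ _) hX2)⟩
  have hnP : ∀ z ∈ F, lev z < J → ¬ P z (lev z + 1) := fun z _ hz =>
    Nat.findGreatest_is_greatest (P := P z) (Nat.lt_succ_self _) hz
  -- the volumes
  have hvol : ∀ i : ℕ, i ≤ J → volume (BX n (2 ^ i * t) X) ≤
      ENNReal.ofReal (X * Real.exp (-(κ₀ * (2 ^ i * (t * L ^ 2))))) := by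
    intro i hi
    have h5 : (1 : ℝ) ≤ 2 ^ i := one_le_pow₀ (by norm_num)
    have h6 := H₄ (2 ^ i * t) X x4 (by
      rw [hLdef]
      have := mul_le_mul_of_nonneg_right h5 hm0.le
      rw [one_mul, ← mul_assoc] at this
      exact a1.trans this) (by
      rw [hLdef, mul_assoc]
      exact (hRJ i hi).trans (by linarith))
    rw [hLdef] at h6
    rw [mul_assoc (2 ^ i) t (L ^ 2)] at h6
    exact h6
  have hV0 : ∀ i : ℕ, 0 ≤ X * Real.exp (-(κ₀ * (2 ^ i * (t * L ^ 2)))) := fun i =>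
    mul_nonneg hX0 (Real.exp_pos _).le
  -- one level
  have hlow : ∀ i : ℕ, i < J →
      ((∑ z ∈ F with lev z = i, analyticOrderNatAt (H t) z : ℕ) : ℝ) ≤
        C₁ * (X * Real.exp (-(κ₀ * (2 ^ i * (t * L ^ 2)))) * L) := by
    intro i hi
    have h5 : (1 : ℝ) ≤ 2 ^ i := one_le_pow₀ (by norm_num)
    have h6 : t ≤ 2 ^ i * t := by
      have := mul_le_mul_of_nonneg_right h5 ht.le
      linarith
    have h7 : 2 * (2 ^ i * t) * L = 2 ^ (i + 1) * (t * L) := by ring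
    have h8 : (2 : ℝ) ^ (i + 1) * (t * L) ≤ 2 * K + c := hRJ (i + 1) hi
    have h9 := H₂ t (2 ^ i * t) X (X * Real.exp (-(κ₀ * (2 ^ i * (t * L ^ 2)))))
      (BX n (2 ^ i * t) X) (F.filter (fun z => lev z = i)) x2 ht h6
      (by rw [hLdef, h7]; linarith) (hV0 i) (hvol i hi.le)
    rw [hLdef] at h9
    refine h9 ?_
    intro z hz
    rw [Finset.mem_filter] at hz
    obtain ⟨hz, hzi⟩ := hz
    obtain ⟨z1, z2, z3, z4, z5⟩ := hF z hz
    have hPz := hP z hz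
    have hnPz := hnP z hz (by rw [hzi]; exact hi)
    rw [hzi] at hPz hnPz
    obtain ⟨p1, p2⟩ := hPz
    refine ⟨z1, z2, z3, by rw [mul_assoc (2 ^ i) t L]; exact p1,
      by rw [mul_assoc (2 ^ i) t L]; exact p2, ?_⟩
    have h10 : |z.im| ≤ 2 * (2 ^ (i + 1) * (t * L)) := by
      refine p1.trans ?_
      rw [pow_succ']
      have : 0 ≤ 2 ^ i * (t * L) := by positivity
      linarith
    have h11 : ¬ Icc (z.re / 2 - 2 ^ (i + 1) * (t * L)) (z.re / 2 + 2 ^ (i + 1) * (t * L)) ⊆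
        BX n (2 ^ (i + 1) * t) X := fun h => hnPz ⟨h10, h⟩
    rw [Set.not_subset] at h11
    obtain ⟨T, hT1, hT2⟩ := h11
    obtain ⟨hT3, hT4⟩ := hT1
    have h12 : X / 2 ≤ T := by linarith
    have h13 : T ≤ 4 * X := by linarith
    have h14 : RLv n (2 ^ (i + 1) * t) T := by
      by_contra h
      exact hT2 ⟨h12, h13, h⟩
    refine ⟨T, ?_, ?_⟩
    · have h15 : 2 * (2 ^ i * t * L) = 2 ^ (i + 1) * (t * L) := by ring
      rw [h15, abs_le]
      constructor <;> linarith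
    · have h16 : 2 * (2 ^ i * t) = 2 ^ (i + 1) * t := by ring
      rw [h16]
      exact rlv_mono (le_max_right _ _) (by linarith) h14
  have htop : ((∑ z ∈ F with lev z = J, analyticOrderNatAt (H t) z : ℕ) : ℝ) ≤
      C₂ * (X * Real.exp (-(κ₀ * (2 ^ J * (t * L ^ 2)))) * L) := by
    have h9 := H₃ t (2 ^ J * (t * L)) X (X * Real.exp (-(κ₀ * (2 ^ J * (t * L ^ 2)))))
      (BX n (2 ^ J * t) X) (F.filter (fun z => lev z = J)) x3 ht (by rw [hLdef]; exact htc)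
      hJK (by linarith) (hV0 J) (hvol J le_rfl)
    rw [hLdef] at h9
    refine h9 ?_
    intro z hz
    rw [Finset.mem_filter] at hz
    obtain ⟨hz, hzi⟩ := hz
    obtain ⟨z1, z2, z3, z4, z5⟩ := hF z hz
    have hPz := hP z hz
    rw [hzi] at hPz
    exact ⟨z1, z2, z3, z4, hPz.2⟩
  -- the sum
  have hsum : (∑ z ∈ F, analyticOrderNatAt (H t) z : ℕ) =
      ∑ i ∈ Finset.range (J + 1), ∑ z ∈ F with lev z = i, analyticOrderNatAt (H t) z :=
    (Finset.sum_fiberwise_of_maps_to (fun z _ => Finset.mem_range.2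
      (Nat.lt_succ_of_le (hlevJ z))) _).symm
  rw [hsum, Nat.cast_sum]
  refine le_trans (Finset.sum_le_sum (g := fun i : ℕ =>
    (C₁ + C₂) * (X * Real.exp (-(κ₀ * (2 ^ i * (t * L ^ 2)))) * L)) ?_)
    (fin (add_pos hC₁ hC₂) hκ₀ hX0 hL.le a2 a3 (J + 1))
  intro i hi
  rw [Finset.mem_range] at hi
  have hVL : 0 ≤ X * Real.exp (-(κ₀ * (2 ^ i * (t * L ^ 2)))) * L := mul_nonneg (hV0 i) hL.le
  rcases Nat.lt_succ_iff_lt_or_eq.1 hi with h | h
  · refine (hlow i h).trans ?_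
    exact mul_le_mul_of_nonneg_right (by linarith) hVL
  · subst h
    refine htop.trans ?_
    exact mul_le_mul_of_nonneg_right (by linarith) hVL

end Pool.Agent.DBS
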