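import Pool.Agent.DBS.Targets4

/-!
# DBS: one level of the counting of exceptional zeros (`T_LVL`)
-/

set_option autoImplicit false

namespace Pool.Agent.DBS

open Complex MeasureTheory Set Filter
open Pool.Agent.DBN Pool.Agent.DBC Pool.Agent.DBB

namespace LVL_

lemma log_bounds (X T : ℝ) (hX : 4 ≤ X) (h1 : X / 2 ≤ T) (h2 : T ≤ 4 * X) :
    Real.log X / 2 ≤ Real.log T ∧ Real.log T ≤ 2 * Real.log X := by
  have hX0 : 0 < X := by linarith
  have hT0 : 0 < T := by linarith
  constructor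
  · have h3 : Real.log X ≤ Real.log (T ^ 2) := by
      apply Real.log_le_log hX0
      nlinarith
    rw [Real.log_pow] at h3
    push_cast at h3
    linarith
  · have h3 : Real.log T ≤ Real.log (X ^ 2) := by
      apply Real.log_le_log hT0
      nlinarith
    rw [Real.log_pow] at h3
    push_cast at h3
    linarith

lemma norm_bd (z z' : ℂ) (T R : ℝ) (h1 : |z'.re / 2 - z.re / 2| ≤ R)
    (h2 : |T - z.re / 2| ≤ 2 * R) (h3 : |z'.im| ≤ 2 * R) : ‖z' - 2 * (T : ℂ)‖ ≤ 8 * R := by
  have h4 := Complex.norm_le_abs_re_add_abs_im (z' - 2 * (T : ℂ))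
  have h5 : (z' - 2 * (T : ℂ)).re = z'.re - 2 * T := by simp
  have h6 : (z' - 2 * (T : ℂ)).im = z'.im := by simp
  rw [h5, h6] at h4
  have h7 : |z'.re - 2 * T| ≤ 6 * R := by
    rw [abs_le] at h1 h2 ⊢
    constructor <;> linarith [h1.1, h1.2, h2.1, h2.2]
  linarith

end LVL_

theorem p_LVL (h1 : T_DGR) (h2 : Pool.Agent.DBA.T_ORD) (h3 : T_CVR) : T_LVL := by
  intro b hb
  obtain ⟨n, C₀, hC₀, hD⟩ := h1 (2 * b) 16 (by linarith) (by norm_num)
  refine ⟨n, 8 * C₀, 4 + 4 * b + 2 * n, by linarith, ?_, ?_⟩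
  · have : (0 : ℝ) ≤ n := Nat.cast_nonneg n
    linarith
  intro t t' X V B F hX ht htt hb2 hV hvol hF
  have hn0 : (0 : ℝ) ≤ n := Nat.cast_nonneg n
  have hX4 : 4 ≤ X := by linarith
  have hL : 0 < Real.log X := Real.log_pos (by linarith)
  have ht' : 0 < t' := lt_of_lt_of_le ht htt
  have hR : 0 < t' * Real.log X := mul_pos ht' hL
  have hM : 0 ≤ 8 * C₀ * (t' * Real.log X) * Real.log X := by positivity
  have hmain := h3 (t' * Real.log X) V (8 * C₀ * (t' * Real.log X) * Real.log X) B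
    (fun z => analyticOrderNatAt (H t) z) F hR hV hM hvol
    (fun z hz => (hF z hz).2.2.2.2.1) ?_
  · calc ((∑ z ∈ F, analyticOrderNatAt (H t) z : ℕ) : ℝ)
        ≤ V / (t' * Real.log X) * (8 * C₀ * (t' * Real.log X) * Real.log X) := hmain
      _ = 8 * C₀ * (V * Real.log X) := by
          field_simp
  · intro z hz
    obtain ⟨_, hz1, hz2, _, _, T, hT1, hT2⟩ := hF z hz
    have hTa : X / 2 ≤ T := by
      rw [abs_le] at hT1
      linarith [hT1.1]
    have hTb : T ≤ 4 * X := by
      rw [abs_le] at hT1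
      linarith [hT1.2]
    obtain ⟨hl1, hl2⟩ := LVL_.log_bounds X T hX4 hTa hTb
    have hlT0 : 0 < Real.log T := by linarith
    have hc : 2 * t' * Real.log T ≤ 2 * b := by
      have : 2 * t' * Real.log T ≤ 2 * t' * (2 * Real.log X) :=
        mul_le_mul_of_nonneg_left hl2 (by linarith)
      linarith
    have hcount := (hD t (2 * t') T (by linarith) ht (by linarith) hc hT2).2
    have hord := h2 t (2 * (T : ℂ)) (16 * (2 * t' * Real.log T))
      (F.filter (fun z' => |z'.re / 2 - z.re / 2| ≤ t' * Real.log X)) ?_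
    · have hsq : Real.log T ^ 2 ≤ 4 * Real.log X ^ 2 := by nlinarith
      calc ((∑ z' ∈ F with |z'.re / 2 - z.re / 2| ≤ t' * Real.log X,
            analyticOrderNatAt (H t) z' : ℕ) : ℝ)
          ≤ (zeroCount (H t) (2 * (T : ℂ)) (16 * (2 * t' * Real.log T)) : ℝ) := hord
        _ ≤ C₀ * (2 * t' * Real.log T ^ 2) := hcount
        _ ≤ C₀ * (2 * t' * (4 * Real.log X ^ 2)) :=
            mul_le_mul_of_nonneg_left
              (mul_le_mul_of_nonneg_left hsq (by linarith)) hC₀.le
        _ = 8 * C₀ * (t' * Real.log X) * Real.log X := by ring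
    · intro z' hz'
      rw [Finset.mem_filter] at hz'
      have h8 := LVL_.norm_bd z z' T (t' * Real.log X) hz'.2 hT1 (hF z' hz'.1).2.2.2.1
      have h9 : t' * Real.log X ≤ 2 * (t' * Real.log T) := by
        have : t' * (Real.log X / 2) ≤ t' * Real.log T := mul_le_mul_of_nonneg_left hl1 ht'.le
        linarith
      have h10 : 0 < t' * Real.log T := mul_pos ht' hlT0
      linarith

end Pool.Agent.DBS
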