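import Pool.Agent.DBS.Targets4

/-!
# DBS: LVT, the top level (MP_4e5e8a_nt)
-/

set_option autoImplicit false

namespace Pool.Agent.DBS

open Complex MeasureTheory Set Filter
open Pool.Agent.DBN Pool.Agent.DBC Pool.Agent.DBB
open scoped ENNReal

/-- LVT: the top level. -/
theorem p_LVT (h1 : Pool.Agent.DBB.T_JN3) (h2 : Pool.Agent.DBA.T_ORD) (h3 : T_CVR) : T_LVT := by
  intro a b c K ha hab hc hK
  have hb : 0 < b := lt_of_lt_of_le ha hab
  obtain ⟨C₁, T₀, hC₁, hT₀, h1⟩ := h1 (2 * c) (2 * b + K) (by positivity) (by positivity)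
  refine ⟨2 * C₁ / a, max T₀ 2, by positivity, le_max_right _ _, ?_⟩
  intro t R X V B F hX ht htX haR hRb hV hB hF
  have hX2 : 2 ≤ X := (le_max_right _ _).trans hX
  have hXT : T₀ ≤ X := (le_max_left _ _).trans hX
  have hR : 0 < R := lt_of_lt_of_le ha haR
  have hL : 0 < Real.log X := Real.log_pos (by linarith)
  have hM : 0 ≤ 2 * C₁ * Real.log X := by positivity
  have key := h3 R V (2 * C₁ * Real.log X) B (fun z => analyticOrderNatAt (H t) z) F hR hV hM hB
    (fun z hz => (hF z hz).2.2.2.2) ?_
  · refine key.trans ?_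
    calc V / R * (2 * C₁ * Real.log X) ≤ V / a * (2 * C₁ * Real.log X) := by gcongr
      _ = 2 * C₁ / a * (V * Real.log X) := by ring
  · intro z hz
    obtain ⟨_, hz1, hz2, _, _⟩ := hF z hz
    have hlog : Real.log (z.re / 2) ≤ 2 * Real.log X := by
      have e : 2 * Real.log X = Real.log (X * X) := by
        rw [Real.log_mul (by positivity) (by positivity)]
        ring
      rw [e]
      refine Real.log_le_log (by linarith) ?_
      nlinarith
    have hJ := h1 t (z.re / 2) (hXT.trans hz1) ht ?_
    · have hO := h2 t (2 * ((z.re / 2 : ℝ) : ℂ)) (2 * b + K)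
        (F.filter fun z' => |z'.re / 2 - z.re / 2| ≤ R) ?_
      · refine hO.trans (hJ.trans ?_)
        calc C₁ * Real.log (z.re / 2) ≤ C₁ * (2 * Real.log X) := by gcongr
          _ = 2 * C₁ * Real.log X := by ring
      · intro z' hz'
        rw [Finset.mem_filter] at hz'
        obtain ⟨hz'F, hz'R⟩ := hz'
        have him := (hF z' hz'F).2.2.2.1
        refine (Complex.norm_le_abs_re_add_abs_im _).trans ?_
        have e1 : (z' - 2 * ((z.re / 2 : ℝ) : ℂ)).re = 2 * (z'.re / 2 - z.re / 2) := by
          simp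
          ring
        have e2 : (z' - 2 * ((z.re / 2 : ℝ) : ℂ)).im = z'.im := by
          simp
        rw [e1, e2, abs_mul, abs_two]
        linarith
    · calc t * Real.log (z.re / 2) ≤ t * (2 * Real.log X) := by gcongr
        _ = 2 * (t * Real.log X) := by ring
        _ ≤ 2 * c := by linarith

end Pool.Agent.DBS
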