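import Pool.Agent.DBS.Targets4

/-!
# DBS, target `T_MXN`: measure of the bad heights in `[X / 2, 4 X]` (edit of DBB/P_MX4)
-/

set_option autoImplicit false

namespace Pool.Agent.DBS

open Complex MeasureTheory Set Filter
open Pool.Agent.DBN Pool.Agent.DBC Pool.Agent.DBB

theorem p_MXN (h1 : T_AR9) : T_MXN := by
  intro n c hc
  obtain ⟨A₀, κ₀, X₀, hA₀, hκ₀, h⟩ := h1 n (2 * c) (by linarith)
  have hAp : 0 < 4 * A₀ + 16 / κ₀ := by positivity
  refine ⟨4 * A₀ + 16 / κ₀, κ₀ / 8, max 4 (2 * |X₀|), hAp, by positivity, ?_, ?_⟩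
  · exact le_trans (by norm_num) (le_max_left (4 : ℝ) _)
  intro t X hX ht1 ht2
  have hX4 : 4 ≤ X := (le_max_left _ _).trans hX
  have hX3 : 2 * |X₀| ≤ X := (le_max_right _ _).trans hX
  have hX0 : 0 < X := by linarith
  have hXb : 0 ≤ |X₀| := abs_nonneg _
  have hXa : X₀ ≤ |X₀| := le_abs_self _
  obtain ⟨L, hL⟩ : ∃ L : ℝ, L = Real.log X := ⟨_, rfl⟩
  rw [← hL] at ht1 ht2 ⊢
  have hlog20 : 0 < Real.log 2 := Real.log_pos (by norm_num)
  have hl4 : 2 * Real.log 2 ≤ L := by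
    have h1 : Real.log 4 ≤ Real.log X := Real.log_le_log (by norm_num) hX4
    have h2 : Real.log 4 = 2 * Real.log 2 := by
      rw [show (4 : ℝ) = 2 ^ 2 by norm_num, Real.log_pow]
      norm_num
    linarith
  have hL0 : 0 < L := by linarith
  have hm0 : 0 < t * L ^ 2 := lt_of_lt_of_le hAp ht1
  have ht0 : 0 ≤ t := by
    by_contra hn
    push Not at hn
    have h1 : t * L ^ 2 < 0 := mul_neg_of_neg_of_pos hn (by positivity)
    linarith
  have hκ1 : 0 < 16 / κ₀ := by positivity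
  have hm1 : 16 / κ₀ ≤ t * L ^ 2 := by linarith
  have hm2 : 16 ≤ κ₀ * (t * L ^ 2) := by
    rw [div_le_iff₀ hκ₀] at hm1
    linarith
  have hm3 : 4 * A₀ ≤ t * L ^ 2 := by linarith
  have key : ∀ Y : ℝ, X / 2 ≤ Y → Y ≤ 2 * X →
      volume {T : ℝ | Y ≤ T ∧ T ≤ 2 * Y ∧ ¬ RLv n t T} ≤
        ENNReal.ofReal (2 * X * Real.exp (-(κ₀ * (t * L ^ 2) / 4))) := by
    intro Y h1 h2
    have hY0 : 0 < Y := by linarith
    have h3 : L / 2 ≤ Real.log Y := by
      have h4 : Real.log (X / 2) ≤ Real.log Y := Real.log_le_log (by linarith) h1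
      rw [Real.log_div hX0.ne' (by norm_num), ← hL] at h4
      linarith
    have h4 : Real.log Y ≤ 2 * L := by
      have h5 : Real.log Y ≤ Real.log (2 * X) := Real.log_le_log hY0 h2
      rw [Real.log_mul (by norm_num) hX0.ne', ← hL] at h5
      linarith
    have h5 : L ^ 2 / 4 ≤ Real.log Y ^ 2 := by nlinarith
    have h6 : t * (L ^ 2 / 4) ≤ t * Real.log Y ^ 2 := mul_le_mul_of_nonneg_left h5 ht0
    have h7 : A₀ ≤ t * Real.log Y ^ 2 := by linarith
    have h8 : t * Real.log Y ≤ 2 * c := by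
      have := mul_le_mul_of_nonneg_left h4 ht0
      linarith
    refine (h t Y (by linarith) h7 h8).trans (ENNReal.ofReal_le_ofReal ?_)
    refine mul_le_mul h2 (Real.exp_le_exp.2 ?_) (Real.exp_pos _).le (by linarith)
    rw [neg_le_neg_iff]
    have h11 := mul_le_mul_of_nonneg_left h6 hκ₀.le
    linarith
  have hs : BX n t X ⊆
      ({T : ℝ | X / 2 ≤ T ∧ T ≤ 2 * (X / 2) ∧ ¬ RLv n t T} ∪
      {T : ℝ | X ≤ T ∧ T ≤ 2 * X ∧ ¬ RLv n t T}) ∪
      {T : ℝ | 2 * X ≤ T ∧ T ≤ 2 * (2 * X) ∧ ¬ RLv n t T} := by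
    intro T hT
    obtain ⟨h1, h2, h3⟩ := hT
    rcases le_total T X with h4 | h4
    · exact Or.inl (Or.inl ⟨h1, by linarith, h3⟩)
    · rcases le_total T (2 * X) with h5 | h5
      · exact Or.inl (Or.inr ⟨h4, h5, h3⟩)
      · exact Or.inr ⟨h5, by linarith, h3⟩
  have p0 : 0 ≤ 2 * X * Real.exp (-(κ₀ * (t * L ^ 2) / 4)) := by positivity
  refine (measure_mono hs).trans ((measure_union_le _ _).trans
    ((add_le_add (measure_union_le _ _) le_rfl).trans
    ((add_le_add (add_le_add (key (X / 2) (by linarith) (by linarith))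
      (key X (by linarith) (by linarith))) (key (2 * X) (by linarith) (by linarith))).trans ?_)))
  rw [← ENNReal.ofReal_add p0 p0, ← ENNReal.ofReal_add (by linarith) p0]
  refine ENNReal.ofReal_le_ofReal ?_
  have h7 : Real.exp (-(κ₀ / 8 * (t * L ^ 2))) =
      Real.exp (κ₀ * (t * L ^ 2) / 8) * Real.exp (-(κ₀ * (t * L ^ 2) / 4)) := by
    rw [← Real.exp_add]
    congr 1
    ring
  have h8 : (6 : ℝ) ≤ Real.exp (κ₀ * (t * L ^ 2) / 8) := by
    have h9 : Real.exp 2 ≤ Real.exp (κ₀ * (t * L ^ 2) / 8) := Real.exp_le_exp.2 (by linarith)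
    have h10 : Real.exp 2 = Real.exp 1 * Real.exp 1 := by
      rw [← Real.exp_add]
      norm_num
    have h11 := Real.exp_one_gt_d9
    nlinarith
  rw [h7]
  have h9 : 0 < Real.exp (-(κ₀ * (t * L ^ 2) / 4)) := Real.exp_pos _
  have h10 := mul_le_mul_of_nonneg_right h8 h9.le
  have h11 := mul_le_mul_of_nonneg_left h10 hX0.le
  linarith

end Pool.Agent.DBS
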