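import Pool.Agent.DBS.All
import Pool.Agent.DBB.AllL5
import Pool.Agent.DBB.P_FLW
import Pool.Agent.DBB.P_BD7
import Pool.Agent.DBB.P_OAR
import Pool.Agent.DBB.P_NER
import Pool.Agent.DBB.P_LOR
import Pool.Agent.DBB.P_UPR
import Pool.Agent.DBB.P_JNR
import Pool.Agent.DBS.P_DGR
import Pool.Agent.DBS.P_MXN
import Pool.Agent.DBS.P_CIN
import Pool.Agent.DBS.P_CVR
import Pool.Agent.DBS.P_LVL
import Pool.Agent.DBS.P_LVT
import Pool.Agent.DBS.P_FWS

/-!
# DBS: the number of exceptional zeros, all targets together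
-/

set_option autoImplicit false

namespace Pool.Agent.DBS

open Pool.Agent.DBC Pool.Agent.DBA Pool.Agent.DBB

theorem bd7 : T_BD7 := p_BD7 bd5

theorem oar : T_OAR := p_OAR bd7

theorem ner : T_NER := p_NER q_BCL (q_SDH q_SD1 q_SD2 q_SD3) p_XB5

theorem lor : T_LOR := p_LOR p_FLW p_IGR ner oar

theorem upr : T_UPR := p_UPR p_FLW bd7

theorem jnr : T_JNR := p_JNR lor upr

theorem dgr : T_DGR := p_DGR lor jnr

theorem fewS : ∀ c : ℝ, 0 < c → FewS c :=
  p_FWS (p_MXN ar9) (p_CIN dg5 dgr) (p_LVL dgr p_ORD p_CVR) (p_LVT jn3 p_ORD p_CVR)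

end Pool.Agent.DBS
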