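import Pool.Agent.DBS.Targets6
import Pool.Agent.DBS.P_CIN
import Pool.Agent.DBB.Targets5

/-!
# DBS-CIG: a zero which is not real or not simple lies in an interval of bad heights

(MP_4e5e8a_nt, project DBS, version 8.)
-/

set_option autoImplicit false

namespace Pool.Agent.DBS

open Complex MeasureTheory Set Filter
open Pool.Agent.DBN Pool.Agent.DBC Pool.Agent.DBB

theorem p_CIG (h1 : Pool.Agent.DBB.T_DG5) (h2 : T_DGR) : T_CIG := by
  intro c K hc hK
  obtain ⟨n1, H1⟩ := h1 (2 * c) 8 1 (by linarith) (by norm_num) one_pos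
  obtain ⟨n2, C, hC, H2⟩ := h2 (4 * K + 4 * c) 8 (by linarith) (by norm_num)
  refine ⟨max n1 n2, 4 + 2 * ((max n1 n2 : ℕ) : ℝ) + 4 * c + 4 * K, ?_, ?_⟩
  · have : (0 : ℝ) ≤ ((max n1 n2 : ℕ) : ℝ) := Nat.cast_nonneg _
    linarith
  intro t X z hX ht htc hz hz1 hz2 hz3 hz4
  have hN : (0 : ℝ) ≤ ((max n1 n2 : ℕ) : ℝ) := Nat.cast_nonneg _
  have hX4 : 4 ≤ X := by linarith
  have hXc : 4 * c ≤ X := by linarith
  have hXK : 4 * K ≤ X := by linarith
  have hXn : 2 * ((max n1 n2 : ℕ) : ℝ) ≤ X := by linarith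
  have hL : 0 < Real.log X := Real.log_pos (by linarith)
  have hq : 0 < t * Real.log X := mul_pos ht hL
  have n1le : (n1 : ℝ) ≤ ((max n1 n2 : ℕ) : ℝ) := by exact_mod_cast le_max_left n1 n2
  have n2le : (n2 : ℝ) ≤ ((max n1 n2 : ℕ) : ℝ) := by exact_mod_cast le_max_right n1 n2
  by_cases hcase : |z.im| ≤ 2 * (t * Real.log X)
  · refine ⟨0, Or.inl rfl, ?_⟩
    rw [pow_zero, one_mul, one_mul]
    rintro T ⟨hT1, hT2⟩
    have hTa : X / 2 ≤ T := by linarith
    have hTb : T ≤ 4 * X := by linarith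
    refine ⟨hTa, hTb, fun hR => ?_⟩
    obtain ⟨l1, l2⟩ := CIN_.logs hX4 hTa hTb
    have hR1 : RLv n1 t T := CIN_.mono (le_max_left n1 n2) (by linarith) hR
    have hcr := H1 t T (by linarith) (by nlinarith) hR1
    have hre : |z.re - 2 * T| ≤ 2 * (t * Real.log X) := by
      rw [abs_le]; constructor <;> linarith
    have hnorm : ‖z - 2 * T‖ ≤ 8 * (t * Real.log T) := by
      have hn := Complex.norm_le_abs_re_add_abs_im (z - 2 * T)
      have e1 : (z - 2 * (T : ℂ)).re = z.re - 2 * T := by simp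
      have e2 : (z - 2 * (T : ℂ)).im = z.im := by simp
      rw [e1, e2] at hn
      have : t * (Real.log X / 2) ≤ t * Real.log T := mul_le_mul_of_nonneg_left l1 ht.le
      linarith
    obtain ⟨g1, g2⟩ := hcr.1 z hnorm hz
    exact g2 (hz4 g1)
  · push Not at hcase
    have hx1 : (1 : ℝ) ≤ |z.im| / (t * Real.log X) := by
      rw [le_div_iff₀ hq]
      linarith
    obtain ⟨j, hj1, hj2⟩ := exists_nat_pow_near hx1 (one_lt_two : (1 : ℝ) < 2)
    rw [le_div_iff₀ hq] at hj1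
    rw [div_lt_iff₀ hq] at hj2
    have hj3 : |z.im| ≤ 2 * (2 ^ j * (t * Real.log X)) := by
      have : (2 : ℝ) ^ (j + 1) * (t * Real.log X) = 2 * (2 ^ j * (t * Real.log X)) := by
        rw [pow_succ]; ring
      linarith
    have hRK : 2 ^ j * (t * Real.log X) ≤ K := hj1.trans hz3
    refine ⟨j, Or.inr hRK, ?_⟩
    rintro T ⟨hT1, hT2⟩
    have hTa : X / 2 ≤ T := by linarith
    have hTb : T ≤ 4 * X := by linarith
    refine ⟨hTa, hTb, fun hR => ?_⟩
    obtain ⟨l1, l2⟩ := CIN_.logs hX4 hTa hTb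
    have hR1 : RLv n2 (2 ^ j * t) T := CIN_.mono (le_max_right n1 n2) (by linarith) hR
    have hp : (1 : ℝ) ≤ 2 ^ j := one_le_pow₀ one_le_two
    have hpt : 0 < (2 : ℝ) ^ j * t := by positivity
    have m1 : (2 : ℝ) ^ j * t * (Real.log X / 2) ≤ 2 ^ j * t * Real.log T :=
      mul_le_mul_of_nonneg_left l1 hpt.le
    have m2 : (2 : ℝ) ^ j * t * Real.log T ≤ 2 ^ j * t * (2 * Real.log X) :=
      mul_le_mul_of_nonneg_left l2 hpt.le
    have m3 : 0 < (2 : ℝ) ^ j * (t * Real.log X) := by positivity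
    have hre : |z.re - 2 * T| ≤ 2 * (2 ^ j * (t * Real.log X)) := by
      rw [abs_le]; constructor <;> linarith
    refine (H2 t (2 ^ j * t) T (by linarith) ht (by nlinarith) (by linarith) hR1).1 z ?_ ?_ ?_ hz
    · linarith
    · linarith
    · linarith

end Pool.Agent.DBS
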