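import Pool.Agent.DBS.Targets6
import Pool.Agent.DBS.P_CVR

/-!
# DBS, target CVW: covering by long windows
-/

set_option autoImplicit false

namespace Pool.Agent.DBS

open Complex MeasureTheory Set Filter
open Pool.Agent.DBN Pool.Agent.DBC Pool.Agent.DBB
open scoped ENNReal

open CVR_ in
/-- CVW. -/
theorem p_CVW : T_CVW := by
  intro r W V B hr hW hV hB
  have hcard : ∀ F : Finset ℤ,
      (∀ j ∈ F, Ico ((j : ℝ) * r) (((j : ℝ) + 1) * r) ⊆ B) → (F.card : ℝ) * r ≤ V :=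
    fun F hF => count hr hV F hF hB
  have hfin : {j : ℤ | Ico ((j : ℝ) * r) (((j : ℝ) + 1) * r) ⊆ B}.Finite := by
    by_contra hinf
    obtain ⟨F, hF, hF'⟩ := Set.Infinite.exists_subset_card_eq hinf (⌊V / r⌋₊ + 1)
    have h2 := hcard F fun j hj => hF hj
    rw [hF'] at h2
    have h3 := Nat.lt_floor_add_one (V / r)
    rw [div_lt_iff₀ hr] at h3
    push_cast at h2
    linarith
  have hJ : (hfin.toFinset.card : ℝ) * r ≤ V :=
    hcard hfin.toFinset fun j hj => (Set.Finite.mem_toFinset hfin).1 hj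
  have hsub : {T : ℝ | ∃ y : ℝ, |T - y| ≤ W ∧ Icc (y - r) (y + r) ⊆ B} ⊆
      ⋃ j ∈ hfin.toFinset, Icc ((j : ℝ) * r - W) (((j : ℝ) + 1) * r + W) := by
    rintro T ⟨y, h1, h2⟩
    obtain ⟨h3, h4⟩ := cell (T := y) hr rfl
    obtain ⟨h5, h6⟩ := abs_le.1 h1
    refine mem_iUnion₂.2 ⟨⌊y / r⌋, (Set.Finite.mem_toFinset hfin).2 fun x hx => h2 ?_, ?_⟩
    · obtain ⟨h7, h8⟩ := hx
      constructor <;> nlinarith
    · constructor <;> linarith
  calc volume {T : ℝ | ∃ y : ℝ, |T - y| ≤ W ∧ Icc (y - r) (y + r) ⊆ B} ≤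
      volume (⋃ j ∈ hfin.toFinset, Icc ((j : ℝ) * r - W) (((j : ℝ) + 1) * r + W)) :=
        measure_mono hsub
    _ ≤ ∑ j ∈ hfin.toFinset, volume (Icc ((j : ℝ) * r - W) (((j : ℝ) + 1) * r + W)) :=
      measure_biUnion_finset_le _ _
    _ = ∑ j ∈ hfin.toFinset, ENNReal.ofReal (r + 2 * W) := by
      refine Finset.sum_congr rfl fun j _ => ?_
      rw [Real.volume_Icc]
      congr 1
      ring
    _ = ENNReal.ofReal (hfin.toFinset.card * (r + 2 * W)) := by
      rw [Finset.sum_const, nsmul_eq_mul, ENNReal.ofReal_mul (by positivity),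
        ENNReal.ofReal_natCast]
    _ ≤ ENNReal.ofReal ((1 + 2 * W / r) * V) := by
      refine ENNReal.ofReal_le_ofReal ?_
      have h7 : ∀ N : ℝ, N * (r + 2 * W) = (1 + 2 * W / r) * (N * r) := by
        intro N
        field_simp
      rw [h7]
      exact mul_le_mul_of_nonneg_left hJ (by positivity)

end Pool.Agent.DBS
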