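import Pool.Agent.DBS.Targets6
import Pool.Agent.DBS.P_CIN

/-!
# DBS-GPG: a gap of the wrong size lies in an interval of bad heights

(MP_4e5e8a_nt, project DBS, version 8.)
-/

set_option autoImplicit false

namespace Pool.Agent.DBS

open Complex MeasureTheory Set Filter
open Pool.Agent.DBN Pool.Agent.DBC Pool.Agent.DBB

/-- heights in `[X / 2, 4 X]` and `[X, 2 X]` have nearly the same logarithm -/
theorem GPG_.logd {X T T' : ℝ} (hX : 0 < X) (h1 : X / 2 ≤ T') (h2 : T' ≤ 4 * X) (h3 : X ≤ T)
    (h4 : T ≤ 2 * X) : Real.log T' - Real.log T ≤ 3 ∧ Real.log T - Real.log T' ≤ 3 := by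
  have hT : 0 < T := by linarith
  have hT' : 0 < T' := by linarith
  have l4 : Real.log 4 ≤ 3 := by
    have := Real.log_le_sub_one_of_pos (show (0 : ℝ) < 4 by norm_num)
    linarith
  constructor
  · have h : Real.log T' ≤ Real.log (4 * T) := Real.log_le_log hT' (by linarith)
    rw [Real.log_mul (by norm_num) hT.ne'] at h
    linarith
  · have h : Real.log T ≤ Real.log (4 * T') := Real.log_le_log hT (by linarith)
    rw [Real.log_mul (by norm_num) hT'.ne'] at h
    linarith

theorem p_GPG (h1 : Pool.Agent.DBB.T_DG5) : T_GPG := by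
  intro c ε hc hε
  have he1 : 0 < min (ε / 2) 1 := lt_min (by linarith) one_pos
  obtain ⟨n1, H1⟩ := h1 (2 * c) 12 (min (ε / 2) 1) (by linarith) (by norm_num) he1
  have hE : 0 < Real.exp (168 / ε) := Real.exp_pos _
  have hN : (0 : ℝ) ≤ ((max n1 14 : ℕ) : ℝ) := Nat.cast_nonneg _
  refine ⟨max n1 14, Real.exp (168 / ε) + 4 + 2 * ((max n1 14 : ℕ) : ℝ) + 8 * c, by linarith, ?_⟩
  intro t X T x hX ht htc hT1 hT2 hx1 hx2 hcase
  have hX4 : 4 ≤ X := by linarith
  have hX0 : 0 < X := by linarith
  have hXc : 8 * c ≤ X := by linarith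
  have hXn : 2 * ((max n1 14 : ℕ) : ℝ) ≤ X := by linarith
  have hXe : Real.exp (168 / ε) ≤ X := by linarith
  have hL : 168 / ε ≤ Real.log X := (Real.le_log_iff_exp_le hX0).2 hXe
  have hL0 : 0 < Real.log X := lt_of_lt_of_le (by positivity) hL
  have hLe : 168 ≤ Real.log X * ε := by
    rwa [div_le_iff₀ hε] at hL
  have n1le : (n1 : ℝ) ≤ ((max n1 14 : ℕ) : ℝ) := by exact_mod_cast le_max_left n1 14
  have n14 : (14 : ℝ) ≤ ((max n1 14 : ℕ) : ℝ) := by exact_mod_cast le_max_right n1 14
  rintro T' ⟨hT'1, hT'2⟩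
  have hTa : X / 2 ≤ T' := by linarith
  have hTb : T' ≤ 4 * X := by linarith
  refine ⟨hTa, hTb, fun hR => ?_⟩
  obtain ⟨l1, l2⟩ := CIN_.logs hX4 hTa hTb
  obtain ⟨d1, d2⟩ := GPG_.logd hX0 hTa hTb hT1 hT2
  have hR1 : RLv n1 t T' := CIN_.mono (le_max_left n1 14) (by linarith) hR
  have hcr := H1 t T' (by linarith) (by nlinarith) hR1
  have hm : (14 : ℝ) ≤ t * Real.log T' ^ 2 := n14.trans hR.2.1
  have hl' : 0 < Real.log T' := by linarith
  have hlT : Real.log X ≤ Real.log T := Real.log_le_log hX0 hT1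
  have hlT0 : 0 < Real.log T := by linarith
  have hq : 0 < t * Real.log T' := mul_pos ht hl'
  have hqL : t * Real.log X ≤ 2 * (t * Real.log T') := by
    have : t * (Real.log X / 2) ≤ t * Real.log T' := mul_le_mul_of_nonneg_left l1 ht.le
    linarith
  have hxT : |x - 2 * T'| ≤ 4 * (t * Real.log T') := by
    rw [abs_le]; constructor <;> linarith
  have hpi : Real.pi < 3.15 := Real.pi_lt_d2
  have hpi0 : 0 < Real.pi := Real.pi_pos
  have he2 : min (ε / 2) 1 ≤ ε / 2 := min_le_left _ _
  have he3 : min (ε / 2) 1 ≤ 1 := min_le_right _ _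
  rcases hcase with ⟨y, hxy, hx0, hy0, hgap⟩ | hno
  · have hu : 0 < y - x := by linarith
    have hu1 : y - x ≤ ε / 6 := by
      by_contra hcon
      push Not at hcon
      have h5 : ε / 6 * Real.log T < (y - x) * Real.log T := mul_lt_mul_of_pos_right hcon hlT0
      have h6 : ε / 6 * Real.log X ≤ ε / 6 * Real.log T :=
        mul_le_mul_of_nonneg_left hlT (by linarith)
      nlinarith
    have h7 : (y - x) * Real.log T' ≤ (y - x) * Real.log T + (y - x) * 3 := by
      rw [← mul_add]
      exact mul_le_mul_of_nonneg_left (by linarith) hu.le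
    have h8 : (y - x) * Real.log T' < 4 * Real.pi - ε / 2 := by linarith
    have h9 : y - x ≤ t * Real.log T' := by
      by_contra hcon
      push Not at hcon
      have h10 : t * Real.log T' * Real.log T' < (y - x) * Real.log T' :=
        mul_lt_mul_of_pos_right hcon hl'
      nlinarith
    have hyT : |y - 2 * T'| ≤ 12 * (t * Real.log T') := by
      rw [abs_le] at hxT ⊢
      constructor <;> linarith [hxT.1, hxT.2]
    have h11 := hcr.2.1 x y (by linarith) hyT hxy hx0 hy0
    linarith
  · obtain ⟨y, hxy, hy1, hy0⟩ := hcr.2.2 x (by linarith)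
    have hu : 0 ≤ y - x := by linarith
    have hu1 : y - x ≤ ε / 6 := by
      by_contra hcon
      push Not at hcon
      have h5 : ε / 6 * Real.log T' < (y - x) * Real.log T' := mul_lt_mul_of_pos_right hcon hl'
      have h6 : ε / 6 * (Real.log X / 2) ≤ ε / 6 * Real.log T' :=
        mul_le_mul_of_nonneg_left l1 (by linarith)
      nlinarith
    have h7 : (y - x) * Real.log T ≤ (y - x) * Real.log T' + (y - x) * 3 := by
      rw [← mul_add]
      exact mul_le_mul_of_nonneg_left (by linarith) hu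
    exact hno y hxy (by linarith) hy0

end Pool.Agent.DBS
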