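import Pool.Agent.DBS.Targets6
import Pool.Agent.DBS.P_CIN

/-!
# DBS, target INB: a failure of `CrysR` gives an interval of bad heights
-/

set_option autoImplicit false

namespace Pool.Agent.DBS

open Complex MeasureTheory Set Filter
open Pool.Agent.DBN Pool.Agent.DBC Pool.Agent.DBB

theorem INB_.bx_mono {n' n : ℕ} {s X : ℝ} (hn : n' ≤ n) (hX : 2 ≤ X) :
    BX n' s X ⊆ BX n s X := by
  rintro T ⟨h1, h2, h3⟩
  exact ⟨h1, h2, fun h => h3 (CIN_.mono hn (by linarith) h)⟩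

theorem p_INB (h1 : T_CIG) (h2 : T_GPG) : T_INB := by
  intro c K ε hc hK hε
  obtain ⟨n1, X1, hX1, H1⟩ := h1 c K hc hK
  obtain ⟨n2, X2, hX2, H2⟩ := h2 c ε hc hε
  refine ⟨max n1 n2, max X1 X2, hX1.trans (le_max_left _ _), ?_⟩
  intro t X T R hX ht htc hT1 hT2 hR hRX hcr
  have x1 : X1 ≤ X := (le_max_left _ _).trans hX
  have x2 : X2 ≤ X := (le_max_right _ _).trans hX
  have x3 : 2 ≤ X := hX1.trans x1
  have gap : ∀ x : ℝ, |x - 2 * T| ≤ R →
      ((∃ y : ℝ, x < y ∧ H t x = 0 ∧ H t y = 0 ∧ (y - x) * Real.log T < 4 * Real.pi - ε) ∨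
        ∀ y : ℝ, x ≤ y → (y - x) * Real.log T ≤ 4 * Real.pi + ε → H t y ≠ 0) →
      ∃ (j : ℕ) (y : ℝ), (j = 0 ∨ 2 ^ j * (t * Real.log X) ≤ K) ∧ |T - y| ≤ R / 2 ∧
        Icc (y - 2 ^ j * (t * Real.log X)) (y + 2 ^ j * (t * Real.log X)) ⊆
          BX (max n1 n2) (2 ^ j * t) X := by
    intro x hx hg
    have hx' := abs_le.1 hx
    refine ⟨0, x / 2, Or.inl rfl, ?_, ?_⟩
    · rw [abs_le]
      constructor <;> linarith
    · rw [pow_zero, one_mul, one_mul]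
      exact (H2 t X T x x2 ht htc hT1 hT2 (by linarith) (by linarith) hg).trans
        (INB_.bx_mono (le_max_right _ _) x3)
  by_cases hz : ∀ z : ℂ, |z.re - 2 * T| ≤ R → |z.im| ≤ K → H t z = 0 →
      z.im = 0 ∧ deriv (H t) z ≠ 0
  · by_cases hg : ∀ x y : ℝ, |x - 2 * T| ≤ R → |y - 2 * T| ≤ R → x < y → H t x = 0 →
        H t y = 0 → 4 * Real.pi - ε ≤ (y - x) * Real.log T
    · by_cases hg2 : ∀ x : ℝ, |x - 2 * T| ≤ R → ∃ y : ℝ, x ≤ y ∧
          (y - x) * Real.log T ≤ 4 * Real.pi + ε ∧ H t y = 0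
      · exact absurd ⟨hz, hg, hg2⟩ hcr
      · push Not at hg2
        obtain ⟨x, hx, hx2⟩ := hg2
        exact gap x hx (Or.inr hx2)
    · push Not at hg
      obtain ⟨x, y, hx, hy, hxy, e1, e2, e3⟩ := hg
      exact gap x hx (Or.inl ⟨y, hxy, e1, e2, e3⟩)
  · push Not at hz
    obtain ⟨z, z1, z2, z3, z4⟩ := hz
    have hz' := abs_le.1 z1
    obtain ⟨j, hj, hB⟩ := H1 t X z x1 ht htc z3 (by linarith) (by linarith) z2 z4
    refine ⟨j, z.re / 2, hj, ?_, hB.trans (INB_.bx_mono (le_max_left _ _) x3)⟩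
    rw [abs_le]
    constructor <;> linarith

end Pool.Agent.DBS
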