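import Pool.Agent.DBS.Targets6
import Pool.Agent.DBS.P_UNS
import Pool.Agent.DBS.P_CIN

/-!
# DBS, target UAL: long windows at all times, one exceptional set
-/

set_option autoImplicit false

namespace Pool.Agent.DBS

open Complex MeasureTheory Set Filter
open Pool.Agent.DBN Pool.Agent.DBC Pool.Agent.DBB
open scoped ENNReal

namespace UAL_

theorem small {κ c m L X : ℝ} (hκ : 0 < κ) (hc : 0 < c) (hk : κ ≤ 1 / (2 * c)) (hL : 0 < L)
    (hX : X = Real.exp L) (hm : m ≤ c * L) (h16 : 16 * c ^ 2 ≤ X) :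
    Real.exp (κ * m) * c ≤ X / 4 := by
  have h1 : κ * m ≤ L / 2 := by
    calc κ * m ≤ κ * (c * L) := by gcongr
      _ ≤ 1 / (2 * c) * (c * L) := by gcongr
      _ = L / 2 := by field_simp
  obtain ⟨e, he⟩ : ∃ e : ℝ, e = Real.exp (L / 2) := ⟨_, rfl⟩
  have he0 : 0 < e := by rw [he]; positivity
  have he2 : e ^ 2 = X := by
    rw [he, hX, ← Real.exp_nat_mul]
    congr 1
    push_cast
    ring
  have h2 : Real.exp (κ * m) ≤ e := by
    rw [he]
    exact Real.exp_le_exp.2 h1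
  have h3 : 4 * c ≤ e := by
    by_contra h
    push Not at h
    have : e ^ 2 < (4 * c) ^ 2 := by gcongr
    nlinarith
  calc Real.exp (κ * m) * c ≤ e * c := by gcongr
    _ ≤ X / 4 := by nlinarith

theorem num {κ κ₀ m X : ℝ} (hk : κ ≤ κ₀ / 8) (hκ₀ : 0 < κ₀) (hm0 : 0 < m)
    (hm : 16 ≤ κ₀ * m) (hX : 0 ≤ X) :
    5 * Real.exp (κ * m) * X * Real.exp (-(κ₀ * m / 2)) ≤ X * Real.exp (-(κ * m)) := by
  have h1 : κ * m ≤ κ₀ / 8 * m := by gcongr
  have h2 : 5 ≤ Real.exp (κ₀ * m / 4) := by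
    have := Real.add_one_le_exp (κ₀ * m / 4)
    linarith
  have h3 : Real.exp (κ₀ * m / 4) * Real.exp (κ * m) * Real.exp (-(κ₀ * m / 2)) ≤
      Real.exp (-(κ * m)) := by
    rw [← Real.exp_add, ← Real.exp_add]
    refine Real.exp_le_exp.2 ?_
    linarith
  calc 5 * Real.exp (κ * m) * X * Real.exp (-(κ₀ * m / 2))
      = X * (5 * Real.exp (κ * m) * Real.exp (-(κ₀ * m / 2))) := by ring
    _ ≤ X * (Real.exp (κ₀ * m / 4) * Real.exp (κ * m) * Real.exp (-(κ₀ * m / 2))) := by gcongr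
    _ ≤ X * Real.exp (-(κ * m)) := by gcongr

end UAL_

open UAL_ in
theorem p_UAL (h1 : T_INB) (h2 : T_MON) (h3 : T_MXN) (h4 : T_CVW) : T_UAL := by
  intro c hc K ε hK hε
  obtain ⟨n, X₁, hX₁, H1⟩ := h1 c K ε hc hK hε
  obtain ⟨A₀, κ₀, X₂, hA₀, hκ₀, hX₂, H3⟩ := h3 (4 * n + 4) (K + c) (by linarith)
  obtain ⟨κ, hκd⟩ : ∃ κ : ℝ, κ = min (κ₀ / 8) (1 / (2 * c)) := ⟨_, rfl⟩
  have hκ0 : 0 < κ := by rw [hκd]; exact lt_min (by positivity) (by positivity)
  have hκ1 : κ ≤ κ₀ / 8 := by rw [hκd]; exact min_le_left _ _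
  have hκ2 : κ ≤ 1 / (2 * c) := by rw [hκd]; exact min_le_right _ _
  refine ⟨max A₀ (16 / κ₀), κ, max (max X₁ X₂) (max 4 (16 * c ^ 2)), lt_max_of_lt_left hA₀, hκ0,
    fun s X hX hA hsc => ?_⟩
  have x1 : X₁ ≤ X := ((le_max_left _ _).trans (le_max_left _ _)).trans hX
  have x2 : X₂ ≤ X := ((le_max_right _ _).trans (le_max_left _ _)).trans hX
  have x3 : 4 ≤ X := ((le_max_left _ _).trans (le_max_right _ _)).trans hX
  have x4 : 16 * c ^ 2 ≤ X := ((le_max_right _ _).trans (le_max_right _ _)).trans hX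
  have hX0 : 0 < X := by linarith
  have hL0 : 0 < Real.log X := Real.log_pos (by linarith)
  obtain ⟨L, hL⟩ : ∃ L : ℝ, Real.log X = L := ⟨_, rfl⟩
  have hXe : X = Real.exp L := by rw [← hL, Real.exp_log hX0]
  rw [hL] at hA hsc hL0 ⊢
  obtain ⟨m, hm⟩ : ∃ m : ℝ, s * L ^ 2 = m := ⟨_, rfl⟩
  rw [hm] at hA ⊢
  have a1 : A₀ ≤ m := (le_max_left _ _).trans hA
  have a2 : 16 / κ₀ ≤ m := (le_max_right _ _).trans hA
  have a3 : 16 ≤ κ₀ * m := by
    rw [div_le_iff₀ hκ₀] at a2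
    linarith
  have hm0 : 0 < m := by linarith
  have hs : 0 < s := by
    by_contra h
    have h3 : s * L ^ 2 ≤ 0 := mul_nonpos_of_nonpos_of_nonneg (not_lt.1 h) (sq_nonneg _)
    linarith
  have hmc : m ≤ c * L := by
    rw [← hm]
    calc s * L ^ 2 = s * L * L := by ring
      _ ≤ c * L := by gcongr
  obtain ⟨e, he⟩ : ∃ e : ℝ, Real.exp (κ * m) = e := ⟨_, rfl⟩
  have he1 : 1 ≤ e := by
    rw [← he]
    exact Real.one_le_exp (by positivity)
  have hsmall : e * c ≤ X / 4 := by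
    rw [← he]
    exact small hκ0 hc hκ2 hL0 hXe hmc x4
  obtain ⟨V, hV⟩ : ∃ V : ℕ → Set ℝ, V = fun i => {T : ℝ | 2 ^ i * s * L ≤ K + c ∧
    ∃ y : ℝ, |T - y| ≤ 2 * e * (2 ^ i * s * L) ∧
      Icc (y - 2 ^ i * s * L) (y + 2 ^ i * s * L) ⊆ BX (4 * n + 4) (2 ^ i * s) X} := ⟨_, rfl⟩
  have hVm : ∀ i, volume (V i) ≤
      ENNReal.ofReal (5 * e * X * Real.exp (-(κ₀ * m * ((i : ℝ) + 1)))) := by
    intro i
    rw [hV]
    have hr : 0 < 2 ^ i * s * L := by positivity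
    by_cases hi : 2 ^ i * s * L ≤ K + c
    · have h5 : A₀ ≤ 2 ^ i * s * Real.log X ^ 2 := by
        rw [hL]
        have h6 : (1 : ℝ) ≤ 2 ^ i := one_le_pow₀ (by norm_num)
        have h7 : 2 ^ i * s * L ^ 2 = 2 ^ i * m := by rw [← hm]; ring
        rw [h7]
        nlinarith
      have h6 : 2 ^ i * s * Real.log X ≤ K + c := by
        rw [hL]
        exact hi
      have h7 := H3 (2 ^ i * s) X x2 h5 h6
      have h8 := h4 (2 ^ i * s * L) (2 * e * (2 ^ i * s * L)) _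
        (BX (4 * n + 4) (2 ^ i * s) X) hr (by positivity) (by positivity) h7
      refine (measure_mono ?_).trans (h8.trans (ENNReal.ofReal_le_ofReal ?_))
      · rintro T ⟨-, hT⟩
        exact hT
      · rw [hL]
        have h9 : 1 + 2 * (2 * e * (2 ^ i * s * L)) / (2 ^ i * s * L) ≤ 5 * e := by
          have : 2 * (2 * e * (2 ^ i * s * L)) / (2 ^ i * s * L) = 4 * e := by
            field_simp
            ring
          rw [this]
          linarith
        have h10 := UNS_.two_pow i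
        have h11 : κ₀ * m * ((i : ℝ) + 1) ≤ κ₀ * (2 ^ i * s * L ^ 2) := by
          have h12 : κ₀ * (2 ^ i * s * L ^ 2) = κ₀ * m * 2 ^ i := by rw [← hm]; ring
          rw [h12]
          exact mul_le_mul_of_nonneg_left h10 (by linarith)
        calc (1 + 2 * (2 * e * (2 ^ i * s * L)) / (2 ^ i * s * L)) *
              (X * Real.exp (-(κ₀ * (2 ^ i * s * L ^ 2))))
            ≤ 5 * e * (X * Real.exp (-(κ₀ * m * ((i : ℝ) + 1)))) := by
              have h13 : Real.exp (-(κ₀ * (2 ^ i * s * L ^ 2))) ≤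
                  Real.exp (-(κ₀ * m * ((i : ℝ) + 1))) := Real.exp_le_exp.2 (by linarith)
              have h14 : 0 ≤ 1 + 2 * (2 * e * (2 ^ i * s * L)) / (2 ^ i * s * L) := by
                positivity
              gcongr
          _ = _ := by ring
    · have h5 : {T : ℝ | 2 ^ i * s * L ≤ K + c ∧
          ∃ y : ℝ, |T - y| ≤ 2 * e * (2 ^ i * s * L) ∧
            Icc (y - 2 ^ i * s * L) (y + 2 ^ i * s * L) ⊆ BX (4 * n + 4) (2 ^ i * s) X} = ∅ := by
        ext T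
        simp only [mem_empty_iff_false, iff_false]
        rintro ⟨h6, -⟩
        exact hi h6
      show volume {T : ℝ | 2 ^ i * s * L ≤ K + c ∧
          ∃ y : ℝ, |T - y| ≤ 2 * e * (2 ^ i * s * L) ∧
            Icc (y - 2 ^ i * s * L) (y + 2 ^ i * s * L) ⊆ BX (4 * n + 4) (2 ^ i * s) X} ≤ _
      rw [h5, measure_empty]
      exact zero_le
  have hsub : {T : ℝ | X ≤ T ∧ T ≤ 2 * X ∧ ∃ t : ℝ, s ≤ t ∧ t * Real.log T ≤ c ∧
      ¬ CrysR (Real.exp (κ * m) * (t * Real.log T)) K ε t T} ⊆ ⋃ i, V i := by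
    rintro T ⟨hT1, hT2, t, ht1, ht2, ht3⟩
    have ht0 : 0 < t := hs.trans_le ht1
    rw [he] at ht3
    have hlT : L ≤ Real.log T := by
      rw [← hL]
      exact Real.log_le_log hX0 hT1
    have hlT2 : Real.log T ≤ 2 * L := by
      rw [← hL]
      exact (CIN_.logs x3 (by linarith) (by linarith)).2
    have htL : t * Real.log X ≤ c := by
      rw [hL]
      exact (mul_le_mul_of_nonneg_left hlT ht0.le).trans ht2
    have hlT0 : 0 ≤ Real.log T := hL0.le.trans hlT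
    have hR0 : 0 ≤ e * (t * Real.log T) := by positivity
    have hR1 : e * (t * Real.log T) ≤ X / 4 :=
      le_trans (mul_le_mul_of_nonneg_left ht2 (by linarith)) hsmall
    obtain ⟨j, y, hj, hy, hB⟩ := H1 t X T (e * (t * Real.log T)) x1 ht0 htL hT1 hT2 hR0 hR1 ht3
    rw [hL] at hj hB htL
    have hp : (1 : ℝ) ≤ 2 ^ j := one_le_pow₀ one_le_two
    have htt : t ≤ 2 ^ j * t := by nlinarith
    have h5 : 1 ≤ 2 ^ j * t / s := by
      rw [le_div_iff₀ hs]
      linarith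
    obtain ⟨i, hi1, hi2⟩ := exists_nat_pow_near h5 (one_lt_two : (1 : ℝ) < 2)
    rw [le_div_iff₀ hs] at hi1
    rw [div_lt_iff₀ hs, pow_succ] at hi2
    rw [mem_iUnion]
    refine ⟨i, ?_⟩
    rw [hV]
    have h6 : 2 ^ i * s * L ≤ 2 ^ j * (t * L) := by
      calc 2 ^ i * s * L ≤ 2 ^ j * t * L := mul_le_mul_of_nonneg_right hi1 hL0.le
        _ = 2 ^ j * (t * L) := by ring
    have h7 : 2 ^ j * (t * L) ≤ K + c := by
      rcases hj with hj | hj
      · rw [hj, pow_zero, one_mul]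
        linarith
      · linarith
    refine ⟨h6.trans h7, y, hy.trans ?_, ?_⟩
    · calc e * (t * Real.log T) / 2 ≤ e * (t * (2 * L)) / 2 := by gcongr
        _ = e * (t * L) := by ring
        _ ≤ e * (2 ^ i * 2 * s * L) := by
            have : t ≤ 2 ^ i * 2 * s := by linarith
            gcongr
        _ = 2 * e * (2 ^ i * s * L) := by ring
    · intro T' hT'
      have hT'' : T' ∈ Icc (y - 2 ^ j * (t * L)) (y + 2 ^ j * (t * L)) :=
        ⟨by linarith [hT'.1], by linarith [hT'.2]⟩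
      obtain ⟨g1, g2, g3⟩ := hB hT''
      exact ⟨g1, g2, fun hR => g3 (h2 n (2 ^ i * s) (2 ^ j * t) T' (by linarith) hi1
        (by linarith) hR)⟩
  refine (measure_mono hsub).trans ((measure_iUnion_le V).trans
    ((ENNReal.tsum_le_tsum hVm).trans ((UNS_.sum_le (by positivity) (by linarith)).trans
      (ENNReal.ofReal_le_ofReal ?_))))
  rw [← he]
  exact num hκ1 hκ₀ hm0 a3 hX0.le

end Pool.Agent.DBS
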