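import Pool.Agent.DBS.AllF
import Pool.Agent.DBS.P_MON
import Pool.Agent.DBS.P_CIG
import Pool.Agent.DBS.P_GPG
import Pool.Agent.DBS.P_INB
import Pool.Agent.DBS.P_CVW
import Pool.Agent.DBS.P_UAL

/-!
# DBS: long windows on the time scale `1 / (log X)²`, all targets together
-/

set_option autoImplicit false

namespace Pool.Agent.DBS

open Pool.Agent.DBC Pool.Agent.DBA Pool.Agent.DBB

theorem uniAll : ∀ c : ℝ, 0 < c → UniAll c :=
  p_UAL (p_INB (p_CIG dg5 dgr) (p_GPG dg5)) p_MON (p_MXN ar9) p_CVW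

end Pool.Agent.DBS
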