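import Pool.Agent.DBS.P_DGR
import Pool.Agent.DBB.AllL5
import Pool.Agent.DBB.P_FLW
import Pool.Agent.DBB.P_BD7
import Pool.Agent.DBB.P_OAR
import Pool.Agent.DBB.P_NER
import Pool.Agent.DBB.P_LOR
import Pool.Agent.DBB.P_UPR
import Pool.Agent.DBB.P_JNR

/-!
# DBS: the local part with two times together
-/

set_option autoImplicit false

namespace Pool.Agent.DBS

open Pool.Agent.DBC Pool.Agent.DBB

theorem r_bd : T_BD7 := p_BD7 bd5

theorem r_oa : T_OAR := p_OAR r_bd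

theorem r_ne : T_NER := p_NER q_BCL (q_SDH q_SD1 q_SD2 q_SD3) p_XB5

theorem r_lo : T_LOR := p_LOR p_FLW p_IGR r_ne r_oa

theorem r_up : T_UPR := p_UPR p_FLW r_bd

theorem r_jn : T_JNR := p_JNR r_lo r_up

theorem dgr : T_DGR := p_DGR r_lo r_jn

end Pool.Agent.DBS
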