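import Pool.Agent.DBB.Defs

/-!
# The flow on the time scale `1 / (log T)²`: definitions

(MP_4e5e8a_nt, addition to DBNFlow, project DBS.) `mt t T = t (log T)²`.
-/

set_option autoImplicit false

namespace Pool.Agent.DBS

open Complex MeasureTheory Set Filter
open Pool.Agent.DBN Pool.Agent.DBC Pool.Agent.DBB

/-- bounds for `ζ` near the height `T`, on the scale of the time `t`, relative to a constant `κ` -/
def Rv (n : ℕ) (t T : ℝ) : Prop := 0 < t ∧ (n : ℝ) ≤ mt t T ∧ ∃ κ : ℝ, 0 < κ ∧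
  (∀ s : ℂ, |s.im - T| ≤ n * (t * Real.log T) → 1 / 2 ≤ s.re →
    ‖riemannZeta s‖ ≤ κ * Real.exp ((mt t T + (s.re - 1 / 2) ^ 2 / t) / (n + 1))) ∧
  (∀ s : ℂ, |s.im - T| ≤ n * (t * Real.log T) → 1 / 2 + t * Real.log T / (n + 1) ≤ s.re →
    s.re ≤ 1 / 2 + n * (t * Real.log T) →
    κ * Real.exp (-(mt t T / (n + 1))) ≤ ‖riemannZeta s‖)

/-- all zeros `z` of `H_t` with `|z - 2 T| ≤ K t log T` are real and simple, and their distances are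
`(4 π + O(ε)) / log T` -/
def CrysS (K ε t T : ℝ) : Prop :=
  (∀ z : ℂ, ‖z - 2 * T‖ ≤ K * (t * Real.log T) → H t z = 0 → z.im = 0 ∧ deriv (H t) z ≠ 0) ∧
  (∀ x y : ℝ, |x - 2 * T| ≤ K * (t * Real.log T) → |y - 2 * T| ≤ K * (t * Real.log T) → x < y →
    H t x = 0 → H t y = 0 → 4 * Real.pi - ε ≤ (y - x) * Real.log T) ∧
  (∀ x : ℝ, |x - 2 * T| ≤ K * (t * Real.log T) → ∃ y : ℝ, x ≤ y ∧
    (y - x) * Real.log T ≤ 4 * Real.pi + ε ∧ H t y = 0)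

/-- the local part: the bounds `Rv` near one height `T` give `CrysS` -/
def T_LOC : Prop := ∀ c K ε : ℝ, 0 < c → 0 < K → 0 < ε → ∃ (n : ℕ) (T₀ : ℝ), ∀ t T : ℝ, T₀ ≤ T →
  t * Real.log T ≤ c → Rv n t T → CrysS K ε t T

/-- for `A / (log X)² ≤ t ≤ c / log X`: at all heights `T` in `[X, 2 X]` outside a set of measure
`η X` the zeros of `H_t` near `2 T` are real, simple and regularly spaced -/
def Scale (c : ℝ) : Prop :=
  ∀ K ε η : ℝ, 0 < K → 0 < ε → 0 < η → ∃ A X₀ : ℝ, 0 < A ∧ ∀ t X : ℝ, X₀ ≤ X →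
    A / Real.log X ^ 2 ≤ t → t * Real.log X ≤ c →
    volume {T : ℝ | X ≤ T ∧ T ≤ 2 * X ∧ ¬ CrysS K ε t T} ≤ ENNReal.ofReal (η * X)

/-- for `A / (log X)² ≤ t ≤ c / log X` the function `H_t` has at least
`(1 - ε) X log X / (2 π)` real simple zeros in `[2 X, 4 X]` -/
def ManyReal3 (c : ℝ) : Prop :=
  ∀ ε : ℝ, 0 < ε → ∃ A X₀ : ℝ, 0 < A ∧ ∀ t X : ℝ, X₀ ≤ X →
    A / Real.log X ^ 2 ≤ t → t * Real.log X ≤ c →
    ∃ F : Finset ℝ, (∀ x ∈ F, H t x = 0 ∧ deriv (H t) x ≠ 0 ∧ 2 * X ≤ x ∧ x ≤ 4 * X) ∧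
      (1 - ε) * (X * Real.log X / (2 * Real.pi)) ≤ (F.card : ℝ)

end Pool.Agent.DBS
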