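import Pool.Agent.DBS.Targets2

set_option autoImplicit false

/-! Regular zeros on the time scale `1 / (log X)²` (target `T_SC6`). -/

namespace Pool.Agent.DBS.SC6_

open Complex MeasureTheory Set Filter
open Pool.Agent.DBN Pool.Agent.DBC Pool.Agent.DBB

theorem tl {t X T c : ℝ} (hX : 2 ≤ X) (ht : 0 ≤ t) (h1 : X ≤ T) (h2 : T ≤ 2 * X)
    (hc : t * Real.log X ≤ c) : t * Real.log T ≤ 2 * c := by
  have hX0 : 0 < X := by linarith
  have hT0 : 0 < T := by linarith
  have h3 : Real.log T ≤ Real.log (2 * X) := Real.log_le_log hT0 h2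
  rw [Real.log_mul (by norm_num) hX0.ne'] at h3
  have h4 : Real.log 2 ≤ Real.log X := Real.log_le_log (by norm_num) hX
  calc t * Real.log T ≤ t * (2 * Real.log X) := mul_le_mul_of_nonneg_left (by linarith) ht
    _ = 2 * (t * Real.log X) := by ring
    _ ≤ 2 * c := by linarith

theorem main (h1 : T_DG5) (h2 : T_AR9) : T_SC6 := by
  intro c hc K ε hK hε
  obtain ⟨n, hn⟩ := h1 (2 * c) K ε (by positivity) hK hε
  obtain ⟨A, κ, X1, hA, hκ, hX⟩ := h2 n c hc
  refine ⟨A, κ, max X1 (max (n : ℝ) 2), hA, hκ, ?_⟩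
  intro t X hXX hAt htc
  have m1 : X1 ≤ X := le_trans (le_max_left _ _) hXX
  have m2 : (n : ℝ) ≤ X := le_trans (le_trans (le_max_left _ _) (le_max_right _ _)) hXX
  have m3 : 2 ≤ X := le_trans (le_trans (le_max_right _ _) (le_max_right _ _)) hXX
  have ht : 0 ≤ t := by
    by_contra hcon
    have h3 : t * Real.log X ^ 2 ≤ 0 :=
      mul_nonpos_of_nonpos_of_nonneg (not_le.1 hcon).le (sq_nonneg _)
    linarith
  refine (measure_mono ?_).trans (hX t X m1 hAt htc)
  rintro T ⟨hT1, hT2, hcr⟩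
  refine ⟨hT1, hT2, fun hR => hcr ?_⟩
  exact hn t T (m2.trans hT1) (tl m3 ht hT1 hT2 htc) hR

end Pool.Agent.DBS.SC6_

namespace Pool.Agent.DBS

open Pool.Agent.DBB in
theorem p_SC6 (h1 : T_DG5) (h2 : T_AR9) : T_SC6 := SC6_.main h1 h2

end Pool.Agent.DBS
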