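import Pool.Agent.DBS.Targets2

/-!
# One exceptional set for all times `t ≥ t₀`

(MP_4e5e8a_nt, addition to DBNFlow.) `T_SCU` from `T_DG5` and `T_AR9`: the bounds `RLv` at the time
`s` with the level `2 n + 2` give those at the times `s ≤ t ≤ 2 s` with the level `n`; the
exceptional sets of the times `2^j t₀` are united.
-/

set_option autoImplicit false

namespace Pool.Agent.DBS

open Complex MeasureTheory Set Filter
open Pool.Agent.DBN Pool.Agent.DBC Pool.Agent.DBB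
open scoped ENNReal

/-- for `t₀ ≥ A / (log X)²`: at all heights `T` in `[X, 2 X]` outside a set of measure
`X exp (-κ t₀ (log X)²)` the zeros `z` of `H_t` with `|z - 2 T| ≤ K t log T` are real, simple and
regularly spaced at ALL times `t` with `t₀ ≤ t ≤ c / log X` -/
def ScaleU (c : ℝ) : Prop :=
  ∀ K ε : ℝ, 0 < K → 0 < ε → ∃ A κ X₀ : ℝ, 0 < A ∧ 0 < κ ∧ ∀ t₀ X : ℝ, X₀ ≤ X →
    A ≤ t₀ * Real.log X ^ 2 →
    volume {T : ℝ | X ≤ T ∧ T ≤ 2 * X ∧ ∃ t : ℝ, t₀ ≤ t ∧ t * Real.log X ≤ c ∧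
      ¬ CrysS K ε t T} ≤ ENNReal.ofReal (X * Real.exp (-(κ * (t₀ * Real.log X ^ 2))))

/-- SCU (from DBB DG5, AR9). -/
def T_SCU : Prop := ∀ c : ℝ, 0 < c → ScaleU c

namespace SCU_

/-- the bounds at the time `s` give those at the times in `[s, 2 s]` -/
theorem mon {n : ℕ} {s t T : ℝ} (hT : 1 ≤ T) (h1 : s ≤ t) (h2 : t ≤ 2 * s)
    (h : RLv (2 * n + 2) s T) : RLv n t T := by
  obtain ⟨hs, hn, ν, hν, hu, hl⟩ := h
  have hL : 0 ≤ Real.log T := Real.log_nonneg hT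
  have hn0 : (0 : ℝ) ≤ n := Nat.cast_nonneg n
  have ht : 0 < t := hs.trans_le h1
  push_cast at hn hu hl
  have hmt : mt s T ≤ mt t T := mul_le_mul_of_nonneg_right h1 (sq_nonneg _)
  have hms : 0 ≤ mt s T := mul_nonneg hs.le (sq_nonneg _)
  have hT0 : 0 < T := by linarith
  have hν0 : 0 < ν := (Real.rpow_pos_of_pos hT0 _).trans_le hν
  refine ⟨ht, by linarith, ν, hν, ?_, ?_⟩
  · intro w hw1 hw2
    refine (hu w hw1 (by linarith)).trans
      (mul_le_mul_of_nonneg_left (Real.exp_le_exp.2 ?_) hν0.le)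
    have e1 : ‖w‖ ^ 2 / s ≤ 2 * (‖w‖ ^ 2 / t) := by
      rw [← mul_div_assoc, div_le_div_iff₀ hs ht]
      nlinarith [mul_le_mul_of_nonneg_left h2 (sq_nonneg ‖w‖)]
    have e2 : 0 ≤ ‖w‖ ^ 2 / t := by positivity
    rw [div_le_div_iff₀ (by positivity) (by positivity)]
    calc (mt s T + ‖w‖ ^ 2 / s) * ((n : ℝ) + 1)
        ≤ (mt t T + 2 * (‖w‖ ^ 2 / t)) * ((n : ℝ) + 1) :=
          mul_le_mul_of_nonneg_right (by linarith) (by linarith)
      _ ≤ (mt t T + ‖w‖ ^ 2 / t) * (2 * (n : ℝ) + 2 + 1) := by nlinarith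
  · intro w hw1 hw2 hw3
    have hsL : 0 ≤ s * Real.log T := mul_nonneg hs.le hL
    have htL : t * Real.log T ≤ 2 * (s * Real.log T) := by
      have := mul_le_mul_of_nonneg_right h2 hL
      linarith
    have hst : s * Real.log T ≤ t * Real.log T := mul_le_mul_of_nonneg_right h1 hL
    have e3 : (n : ℝ) * (t * Real.log T) ≤ (2 * (n : ℝ) + 2) * (s * Real.log T) := by
      have := mul_le_mul_of_nonneg_left htL hn0
      nlinarith
    have e4 : s * Real.log T / (2 * (n : ℝ) + 2 + 1) ≤ t * Real.log T / ((n : ℝ) + 1) :=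
      div_le_div₀ (hsL.trans hst) hst (by linarith) (by linarith)
    have e5 : mt s T / (2 * (n : ℝ) + 2 + 1) ≤ mt t T / ((n : ℝ) + 1) :=
      div_le_div₀ (hms.trans hmt) hmt (by linarith) (by linarith)
    refine le_trans ?_ (hl w (e4.trans hw1) (hw2.trans e3) (hw3.trans e3))
    exact mul_le_mul_of_nonneg_left (Real.exp_le_exp.2 (by linarith)) hν0.le

/-- the sum of the measures -/
theorem tsum_le {X a : ℝ} (hX : 0 ≤ X) (ha : 2 ≤ a) :
    ∑' j : ℕ, ENNReal.ofReal (X * Real.exp (-(a * 2 ^ j))) ≤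
      ENNReal.ofReal (X * Real.exp (-(a / 2))) := by
  obtain ⟨r, hr⟩ : ∃ r : ℝ, r = Real.exp (-(a / 2)) := ⟨_, rfl⟩
  have hr0 : 0 < r := hr ▸ Real.exp_pos _
  have hr2 : r ≤ 1 / 2 := by
    rw [hr, Real.exp_neg, one_div]
    refine inv_anti₀ (by norm_num) ?_
    have := Real.add_one_le_exp (a / 2)
    linarith
  have hterm : ∀ j : ℕ, X * Real.exp (-(a * 2 ^ j)) ≤ X * (r * (1 / 2) * (1 / 2) ^ j) := by
    intro j
    refine mul_le_mul_of_nonneg_left ?_ hX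
    have h1 : Real.exp (-(a * 2 ^ j)) ≤ r ^ (j + 2) := by
      rw [hr, ← Real.exp_nat_mul]
      refine Real.exp_le_exp.2 ?_
      have h2 : ((j : ℝ) + 1) ≤ 2 ^ j := by
        have := Nat.lt_two_pow_self (n := j)
        have h3 : j + 1 ≤ 2 ^ j := this
        exact_mod_cast h3
      push_cast
      nlinarith [mul_le_mul_of_nonneg_left h2 (by linarith : (0 : ℝ) ≤ a),
        (Nat.cast_nonneg j : (0 : ℝ) ≤ (j : ℝ))]
    refine h1.trans ?_
    have h4 : r ^ (j + 2) = r * r * r ^ j := by ring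
    rw [h4]
    have h5 : r ^ j ≤ (1 / 2) ^ j := pow_le_pow_left₀ hr0.le hr2 j
    exact mul_le_mul (mul_le_mul_of_nonneg_left hr2 hr0.le) h5 (pow_nonneg hr0.le _)
      (by positivity)
  have hsum : HasSum (fun j : ℕ => X * (r * (1 / 2) * (1 / 2) ^ j)) (X * r) := by
    have h6 := (hasSum_geometric_two).mul_left (X * (r * (1 / 2)))
    have e1 : (fun j : ℕ => X * (r * (1 / 2) * (1 / 2) ^ j)) =
        fun j : ℕ => X * (r * (1 / 2)) * (1 / 2) ^ j := by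
      funext j
      ring
    have e2 : X * r = X * (r * (1 / 2)) * 2 := by ring
    rw [e1, e2]
    exact h6
  calc ∑' j : ℕ, ENNReal.ofReal (X * Real.exp (-(a * 2 ^ j)))
      ≤ ∑' j : ℕ, ENNReal.ofReal (X * (r * (1 / 2) * (1 / 2) ^ j)) :=
        ENNReal.tsum_le_tsum fun j => ENNReal.ofReal_le_ofReal (hterm j)
    _ = ENNReal.ofReal (∑' j : ℕ, X * (r * (1 / 2) * (1 / 2) ^ j)) :=
        (ENNReal.ofReal_tsum_of_nonneg (fun j => by positivity) hsum.summable).symm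
    _ = ENNReal.ofReal (X * Real.exp (-(a / 2))) := by rw [hsum.tsum_eq, hr]

/-- the exceptional set for all times -/
theorem aru (h : T_AR9) (n : ℕ) (c : ℝ) (hc : 0 < c) :
    ∃ A κ X₀ : ℝ, 0 < A ∧ 0 < κ ∧ ∀ t₀ X : ℝ, X₀ ≤ X → A ≤ t₀ * Real.log X ^ 2 →
      volume {T : ℝ | X ≤ T ∧ T ≤ 2 * X ∧ ∃ t : ℝ, t₀ ≤ t ∧ t * Real.log X ≤ c ∧ ¬ RLv n t T} ≤
        ENNReal.ofReal (X * Real.exp (-(κ * (t₀ * Real.log X ^ 2)))) := by
  obtain ⟨A, κ, X₀, hA, hκ, H⟩ := h (2 * n + 2) c hc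
  refine ⟨max A (2 / κ), κ / 2, max X₀ 1, lt_max_of_lt_left hA, by positivity, ?_⟩
  intro t₀ X hX hm
  have hX0 : X₀ ≤ X := (le_max_left _ _).trans hX
  have hX1 : 1 ≤ X := (le_max_right _ _).trans hX
  have hmA : A ≤ t₀ * Real.log X ^ 2 := (le_max_left _ _).trans hm
  have hmκ : 2 ≤ κ * (t₀ * Real.log X ^ 2) := by
    have h1 := (le_max_right _ _).trans hm
    rw [div_le_iff₀ hκ] at h1
    linarith
  have ht0 : 0 < t₀ := by
    by_contra hcon
    have h3 : t₀ * Real.log X ^ 2 ≤ 0 :=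
      mul_nonpos_of_nonpos_of_nonneg (not_lt.1 hcon) (by positivity)
    linarith
  obtain ⟨S, hS⟩ : ∃ S : ℕ → Set ℝ, S = fun j : ℕ => {T : ℝ | X ≤ T ∧ T ≤ 2 * X ∧
    2 ^ j * t₀ * Real.log X ≤ c ∧ ¬ RLv (2 * n + 2) (2 ^ j * t₀) T} := ⟨_, rfl⟩
  have hsub : {T : ℝ | X ≤ T ∧ T ≤ 2 * X ∧ ∃ t : ℝ, t₀ ≤ t ∧ t * Real.log X ≤ c ∧
      ¬ RLv n t T} ⊆ ⋃ j : ℕ, S j := by
    rintro T ⟨hT1, hT2, t, htt, htc, hR⟩
    have h1 : 1 ≤ t / t₀ := by rwa [le_div_iff₀ ht0, one_mul]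
    obtain ⟨j, hj1, hj2⟩ := exists_nat_pow_near h1 (by norm_num : (1 : ℝ) < 2)
    rw [le_div_iff₀ ht0] at hj1
    rw [div_lt_iff₀ ht0] at hj2
    rw [mem_iUnion]
    refine ⟨j, ?_⟩
    rw [hS]
    refine ⟨hT1, hT2, ?_, fun hR2 => hR (mon (hX1.trans hT1) hj1 ?_ hR2)⟩
    · exact (mul_le_mul_of_nonneg_right hj1 (Real.log_nonneg hX1)).trans htc
    · have : (2 : ℝ) ^ (j + 1) * t₀ = 2 * (2 ^ j * t₀) := by ring
      linarith
  have hmeas : ∀ j : ℕ, volume (S j) ≤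
      ENNReal.ofReal (X * Real.exp (-(κ * (t₀ * Real.log X ^ 2) * 2 ^ j))) := by
    intro j
    by_cases hj : 2 ^ j * t₀ * Real.log X ≤ c
    · have hp : (1 : ℝ) ≤ 2 ^ j := one_le_pow₀ (by norm_num)
      have h2 : A ≤ 2 ^ j * t₀ * Real.log X ^ 2 := by
        have h3 : 0 ≤ t₀ * Real.log X ^ 2 := by positivity
        nlinarith
      have h4 := H (2 ^ j * t₀) X hX0 h2 hj
      refine (measure_mono ?_).trans (h4.trans (le_of_eq ?_))
      · rw [hS]
        rintro T ⟨hT1, hT2, -, hT3⟩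
        exact ⟨hT1, hT2, hT3⟩
      · congr 3
        ring
    · have h5 : S j = ∅ := by
        rw [hS]
        ext T
        simp only [mem_empty_iff_false, iff_false]
        rintro ⟨-, -, h6, -⟩
        exact hj h6
      rw [h5, measure_empty]
      exact bot_le
  refine (measure_mono hsub).trans ((measure_iUnion_le _).trans
    ((ENNReal.tsum_le_tsum hmeas).trans ((tsum_le (by linarith) hmκ).trans (le_of_eq ?_))))
  congr 3
  ring

end SCU_

open SCU_ in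
theorem p_SCU (h1 : T_DG5) (h2 : T_AR9) : T_SCU := by
  intro c hc K ε hK hε
  obtain ⟨n, hn⟩ := h1 (2 * c) K ε (by positivity) hK hε
  obtain ⟨A, κ, X₀, hA, hκ, H⟩ := aru h2 n c hc
  refine ⟨A, κ, max X₀ (max n 2), hA, hκ, ?_⟩
  intro t₀ X hX hm
  have hX0 : X₀ ≤ X := (le_max_left _ _).trans hX
  have hXn : (n : ℝ) ≤ X := ((le_max_left _ _).trans (le_max_right _ _)).trans hX
  have hX2 : 2 ≤ X := ((le_max_right _ _).trans (le_max_right _ _)).trans hX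
  refine (measure_mono ?_).trans (H t₀ X hX0 hm)
  rintro T ⟨hT1, hT2, t, htt, htc, hC⟩
  refine ⟨hT1, hT2, t, htt, htc, fun hR => hC (hn t T (hXn.trans hT1) ?_ hR)⟩
  have ht : 0 < t := hR.1
  have hT0 : 0 < T := by linarith
  have h3 : Real.log T ≤ 2 * Real.log X := by
    have h4 : Real.log T ≤ Real.log (2 * X) := Real.log_le_log hT0 hT2
    rw [Real.log_mul (by norm_num) (by linarith)] at h4
    have h5 : Real.log 2 ≤ Real.log X := Real.log_le_log (by norm_num) hX2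
    linarith
  have h6 := mul_le_mul_of_nonneg_left h3 ht.le
  linarith

end Pool.Agent.DBS
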