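import Pool.Agent.DBB.Defs5
import Pool.Agent.DBB.Targets2
import Pool.Agent.DBB.Targets4
import Pool.Agent.DBA.Targets
import Pool.Agent.DBC.Targets5

/-!
# The flow on the time scale `1 / (log X)²`: targets of the arithmetic part

(MP_4e5e8a_nt, addition to DBNFlow, project DBS, owner helper11.) Selberg's weights `la δ Y k`,
`Ms δ Y s = ∑_{k ≤ Y} la k k^(-s)`; mean square of `ζ (s + v) Ms s` without loss of a logarithm.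
Deliver `theorem p_X : T_X` (targets named in brackets are hypotheses, in this order) in the NEW file
`Pool/Agent/DBS/P_X.lean` which imports this file, namespace `Pool.Agent.DBS`, helper lemmas in the
sub-namespace `X_`. `C` may be anything. `ph H k x = {(x + H)/k} - {x/k}` (DBB/Targets2).
-/

set_option autoImplicit false

namespace Pool.Agent.DBS

open Complex MeasureTheory Set Filter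
open Pool.Agent.DBN Pool.Agent.DBC Pool.Agent.DBB
open scoped ENNReal

/-! ### 0. Definitions -/

/-- `∏_{p | r} (p^(1+δ) - 1)` -/
noncomputable def Jf (δ : ℝ) (r : ℕ) : ℝ := ∏ p ∈ r.primeFactors, ((p : ℝ) ^ (1 + δ) - 1)

/-- `∑_{r ≤ Y} μ(r)² / J(r)` -/
noncomputable def Gf (δ : ℝ) (Y : ℕ) : ℝ :=
  ∑ r ∈ Finset.Icc 1 Y, ((ArithmeticFunction.moebius r : ℤ) : ℝ) ^ 2 / Jf δ r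

/-- `μ(r) / (J(r) G)` -/
noncomputable def zf (δ : ℝ) (Y r : ℕ) : ℝ :=
  ((ArithmeticFunction.moebius r : ℤ) : ℝ) / (Jf δ r * Gf δ Y)

/-- Selberg's weights `k^(1+δ) ∑_{k | r ≤ Y} μ(r/k) z(r)` -/
noncomputable def la (δ : ℝ) (Y k : ℕ) : ℝ :=
  (k : ℝ) ^ (1 + δ) * ∑ r ∈ (Finset.Icc 1 Y).filter (fun r => k ∣ r),
    ((ArithmeticFunction.moebius (r / k) : ℤ) : ℝ) * zf δ Y r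

/-- `∑_{k ≤ Y} c k k^(-s)` -/
noncomputable def Pc (c : ℕ → ℂ) (Y : ℕ) (s : ℂ) : ℂ :=
  ∑ k ∈ Finset.Icc 1 Y, c k * (k : ℂ) ^ (-s)

/-- the mollifier -/
noncomputable def Ms (δ : ℝ) (Y : ℕ) (s : ℂ) : ℂ := Pc (fun k => (la δ Y k : ℂ)) Y s

/-- the shifted coefficients: `Pc (cv δ Y v) Y s = Ms δ Y (s - v)` -/
noncomputable def cv (δ : ℝ) (Y : ℕ) (v : ℂ) (k : ℕ) : ℂ := (la δ Y k : ℂ) * (k : ℂ) ^ v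

/-- `∑_{k | n, k ≤ Y} c k` -/
noncomputable def al (c : ℕ → ℂ) (Y n : ℕ) : ℂ :=
  ∑ k ∈ (Finset.Icc 1 Y).filter (fun k => k ∣ n), c k

/-- `∑_{q | k ≤ Y} c k / k^(1+η)` -/
noncomputable def yc (c : ℕ → ℂ) (Y : ℕ) (η : ℝ) (q : ℕ) : ℂ :=
  ∑ k ∈ (Finset.Icc 1 Y).filter (fun k => q ∣ k), c k * (k : ℂ) ^ (-(1 + (η : ℂ)))

/-- `∑_{q ≤ Y} q^(1+η) |y_q|²` -/
noncomputable def SS (c : ℕ → ℂ) (Y : ℕ) (η : ℝ) : ℝ :=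
  ∑ q ∈ Finset.Icc 1 Y, (q : ℝ) ^ (1 + η) * ‖yc c Y η q‖ ^ 2

/-- `∏_{p ≤ Y} (1 + |p^w - 1| / (p^(1+δ) - 1))` -/
noncomputable def Ep (δ : ℝ) (Y : ℕ) (w : ℂ) : ℝ :=
  ∏ p ∈ (Finset.Icc 1 Y).filter Nat.Prime, (1 + ‖(p : ℂ) ^ w - 1‖ / ((p : ℝ) ^ (1 + δ) - 1))

/-- `∫_0^g ph H g x² dx` -/
noncomputable def Ps (H : ℝ) (g : ℕ) : ℝ := ∫ x in (0 : ℝ)..(g : ℝ), ph H g x ^ 2

/-- `-∑_{k ≤ Y} c k {1 / (k t)} - c 1 1_{t ≤ 1}`, with Mellin transform `(ζ Pc - c 1) / s` -/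
noncomputable def Gc (c : ℕ → ℂ) (Y : ℕ) (t : ℝ) : ℂ :=
  -(∑ k ∈ Finset.Icc 1 Y, c k * ((Int.fract (1 / (k * t)) : ℝ) : ℂ)) - if t ≤ 1 then c 1 else 0

/-- the difference of `Gc` for the ratio `1 + θ` -/
noncomputable def Dc (c : ℕ → ℂ) (Y : ℕ) (θ t : ℝ) : ℂ :=
  Gc c Y (Real.exp (-Real.log (1 + θ)) * t) - Gc c Y t

/-! ### A. The variance of the sawtooth sums, diagonalised -/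

/-- CRX (30 min, edit of DBB/P_COR.lean: its proof shows the equality). -/
def T_CRX : Prop := ∀ (k l : ℕ) (H : ℝ), 1 ≤ k → 1 ≤ l → 0 ≤ H →
  (∫ x in (0 : ℝ)..(Nat.lcm k l : ℝ), ph H k x * ph H l x) = Ps H (Nat.gcd k l) ∧
  0 ≤ Ps H (Nat.gcd k l) ∧ Ps H (Nat.gcd k l) ≤ H ∧ Ps H (Nat.gcd k l) ≤ (Nat.gcd k l : ℝ)

/-- WQQ (from CRX; 50 min). PROOF. `W q = ∑_{d | q} μ(q/d) d Ps(d)`; Moebius inversion gives the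
last claim. `0 ≤ ∫_0^q (∑_{d | q} μ(q/d) d ph H d x)² dx = ∑_{d, e | q} μ(q/d) μ(q/e) d e (q/lcm d e)
Ps(gcd d e) = q ∑_{d, e | q} μ(q/d) μ(q/e) f(gcd d e)`, `f g = g Ps(g) = ∑_{r | g} W r`, and this is
`q ∑_r W r (∑_{r | d | q} μ(q/d))² = q W q`. So `W q ≥ 0`, and `W q ≤ ∑_{r | q} W r = q Ps(q) ≤ q H`.
(`ph H d` has period `d`, hence `q`: the integral over `[0, q]` of `ph d ph e` is `q/lcm` times that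
over `[0, lcm]`.) `W 0 = 0`. -/
def T_WQQ : Prop := ∀ H : ℝ, 0 ≤ H → ∃ W : ℕ → ℝ, (∀ q : ℕ, 0 ≤ W q ∧ W q ≤ q * H) ∧
  ∀ g : ℕ, 1 ≤ g → ∑ q ∈ g.divisors, W q = g * Ps H g

/-- VAC (from CRX, WQQ; 50 min, compare DBB/P_CZV.lean). PROOF. For a pair `k, l` with `ℓ = lcm`,
`g = gcd`: `|∫_Z^{2Z} ph k ph l - (Z/ℓ) Ps(g)| ≤ 2 ℓ ≤ 2 Y²` (`⌊Z/ℓ⌋` periods, `|ph| ≤ 1`, `Ps(g) ≤ g`).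
Main part: `Z ∑ c_k conj(c_l) Ps(g)/ℓ = Z ∑ (c_k/k) conj(c_l/l) g Ps(g) = Z ∑_q W_q |∑_{q | k} c_k/k|²
≤ Z H ∑ q |y_q|²`. -/
def T_VAC : Prop := ∀ (c : ℕ → ℂ) (Y : ℕ) (H Z : ℝ), 0 ≤ H → 0 ≤ Z →
  (∫ x in Z..(2 * Z), ‖∑ k ∈ Finset.Icc 1 Y, c k * (ph H k x : ℂ)‖ ^ 2) ≤
    Z * H * SS c Y 0 + 2 * (Y : ℝ) ^ 2 * (∑ k ∈ Finset.Icc 1 Y, ‖c k‖) ^ 2

/-! ### B. Selberg's weights -/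

/-- LA1 (20 min). PROOF. `Jf > 0`, `Gf ≥ 1`; `la 1 = ∑ μ(r) z(r) = ∑ μ²/(J G) = 1`; `|∑ μ(r/k) z(r)| ≤
∑ |z(r)| = ∑ μ²/(J G) = 1`. -/
def T_LA1 : Prop := ∀ (δ : ℝ) (Y : ℕ), 0 < δ → 1 ≤ Y → la δ Y 1 = 1 ∧
  ∀ k : ℕ, 1 ≤ k → |la δ Y k| ≤ (k : ℝ) ^ (1 + δ)

/-- INV (40 min). PROOF. Interchange: `∑_{q | r} z(r) ∑_{q | k | r} μ(r/k) k^w`; for `z(r) ≠ 0`, `r` is
squarefree, `k = q k'`, `k' | r/q`, and `∑_{k' | n} μ(n/k') k'^w = ∏_{p | n} (p^w - 1)` for squarefree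
`n` (multiplicative; `ArithmeticFunction.IsMultiplicative.prodPrimeFactors_one_add_of_squarefree` or
induction). -/
def T_INV : Prop := ∀ (δ : ℝ) (Y q : ℕ) (w : ℂ), 0 < δ → 1 ≤ q →
  ∑ k ∈ (Finset.Icc 1 Y).filter (fun k => q ∣ k), (la δ Y k : ℂ) * (k : ℂ) ^ (w - (1 + (δ : ℂ))) =
  ∑ r ∈ (Finset.Icc 1 Y).filter (fun r => q ∣ r), (zf δ Y r : ℂ) *
    ((q : ℂ) ^ w * ∏ p ∈ (r / q).primeFactors, ((p : ℂ) ^ w - 1))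

/-- YQB (from INV; 40 min). PROOF. `r = q m` squarefree: `q`, `m` squarefree and coprime, `|z(r)| =
1/(J(q) J(m) G)`, and `∑_{m ≤ Y, squarefree} ∏_{p | m} |p^w - 1|/(p^(1+δ) - 1) ≤ Ep δ Y w` (expand the
product over the sets of primes `≤ Y`, `Finset.prod_one_add`). If `q` is not squarefree all `z(r)`
vanish. -/
def T_YQB : Prop := ∀ (δ : ℝ) (Y q : ℕ) (w : ℂ), 0 < δ → 1 ≤ Y → 1 ≤ q →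
  ‖∑ k ∈ (Finset.Icc 1 Y).filter (fun k => q ∣ k),
    (la δ Y k : ℂ) * (k : ℂ) ^ (w - (1 + (δ : ℂ)))‖ ≤
  ((ArithmeticFunction.moebius q : ℤ) : ℝ) ^ 2 * (q : ℝ) ^ w.re / (Jf δ q * Gf δ Y) * Ep δ Y w

/-- PSU (50 min). PROOF. The number of primes in `(2^j, 2^(j+1)]` is at most `C 2^j/j` (Chebyshev;
`primorial_le_4_pow`), so these primes contribute at most `C min(a (j+1), 1)/j` (`j ≥ 1`), and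
`∑_{j ≤ log₂ Y} min(a (j + 1), 1)/j ≤ C + C log (1 + a log Y)` (`j ≤ 1/a`: at most `2 a` each;
`j > 1/a`: `∑ 1/j ≤ log`). The prime `2` contributes at most `1`. -/
def T_PSU : Prop := ∃ C : ℝ, 0 < C ∧ ∀ (Y : ℕ) (a : ℝ), 2 ≤ Y → 0 ≤ a →
  ∑ p ∈ (Finset.Icc 1 Y).filter Nat.Prime, min (a * Real.log p) 1 / (p : ℝ) ≤
    C + C * Real.log (1 + a * Real.log Y)

/-- EPB (from PSU; 30 min). PROOF. `1 + x ≤ e^x`; `|p^w - 1| ≤ 2 p^δ` and `≤ |w| log p p^δ`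
(`Re w ≤ δ`), `p^(1+δ) - 1 ≥ p^(1+δ)/2`: the exponent is at most `4 ∑ min(|w| log p, 1)/p`. -/
def T_EPB : Prop := ∃ C : ℝ, 0 < C ∧ ∀ (δ : ℝ) (Y : ℕ) (w : ℂ), 0 < δ → 2 ≤ Y → w.re ≤ δ →
  Ep δ Y w ≤ C * (1 + ‖w‖ * Real.log Y) ^ C

/-- GLB (40 min). PROOF. `∑_{n ≤ Y} n^(-1-δ) ≤ Gf`: the sum over the `n` with radical `r` (the product
of the primes dividing `n`) is at most `∏_{p | r} 1/(p^(1+δ) - 1) = 1/J(r)` (geometric series), and the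
radical of `n ≤ Y` is at most `Y`. `∑_{n ≤ Y} n^(-1-δ) ≥ ∫_1^Y x^(-1-δ) dx`. Give both. -/
def T_GLB : Prop := ∀ (δ : ℝ) (Y : ℕ), 0 < δ → 1 ≤ Y →
  ∑ n ∈ Finset.Icc 1 Y, (n : ℝ) ^ (-(1 + δ)) ≤ Gf δ Y ∧
  (1 - (Y : ℝ) ^ (-δ)) / δ ≤ ∑ n ∈ Finset.Icc 1 Y, (n : ℝ) ^ (-(1 + δ))

/-- SQS (40 min). PROOF. For squarefree `q`: `q^(1+2δ)/J(q)² = q⁻¹ ∏_{p | q} (1 - p^(-1-δ))^(-2) ≤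
q⁻¹ ∏ (1 - 1/p)^(-2) ≤ q⁻¹ ∏_{p | q} (1 + 8/p)... ` (for `p ≥ 2` `(1 - 1/p)^(-2) ≤ 1 + 6/p`), `= q⁻¹
∑_{d | q} 6^ω(d)/d`; so the sum is at most `(1 + log Y) ∑_d μ²(d) 6^ω(d)/d²`, and the last series
converges (`6^ω(d) ≤ C d^(1/2)`; or as an Euler product `≤ exp (6 ∑ 1/p²)`). -/
def T_SQS : Prop := ∃ C : ℝ, 0 < C ∧ ∀ (δ : ℝ) (Y : ℕ), 0 < δ → 1 ≤ Y →
  ∑ q ∈ Finset.Icc 1 Y, ((ArithmeticFunction.moebius q : ℤ) : ℝ) ^ 2 * (q : ℝ) ^ (1 + 2 * δ) /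
    Jf δ q ^ 2 ≤ C * (1 + Real.log Y)

/-- DGE (50 min). PROOF. `∑_{n ≤ N} ≤ ∑_{n ≥ 1}`, which is `∑_{k, l} c_k conj(c_l) ∑_{lcm | n}
n^(-1-η) = Z ∑_{k, l} c_k conj(c_l) (k l)^(-1-η) (gcd k l)^(1+η)`, `Z = ∑ n^(-1-η) ≤ 1 + 1/η`, and
`(gcd k l)^(1+η) = ∑_{q | k, q | l} J q`, `J q = ∑_{d | q} μ(q/d) d^(1+η)`, `0 ≤ J q ≤ q^(1+η)`
(multiplicative, or: `J = q^(1+η) ∏_{p | q} (1 - p^(-1-η))`). So it is `Z ∑_q J q |y_q|²`. -/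
def T_DGE : Prop := ∀ (c : ℕ → ℂ) (Y N : ℕ) (η : ℝ), 0 < η →
  ∑ n ∈ Finset.Icc 1 N, ‖al c Y n‖ ^ 2 * (n : ℝ) ^ (-(1 + η)) ≤ (1 + 1 / η) * SS c Y η

/-- CLO (from LA1, INV, GLB; 60 min). PROOF. As DGE, exactly: `∑_{n ≥ 1} a(n)² n^(-1-δ) = Z ∑_q J q
|y_q|²` with `y_q = z(q)` (INV with `w = 0`) and `J q = Jf δ q` for squarefree `q`; so it is
`Z ∑ μ²/(J G²) = Z/G`, and `Z = ∑_{n ≤ Y} + ∑_{n > Y} ≤ G + Y^(-δ)/δ`, `δ G ≥ 1 - Y^(-δ) ≥ 1/2`: `Z/G ≤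
1 + 2 Y^(-δ)`. The term `n = 1` is `(la 1)² = 1`. -/
def T_CLO : Prop := ∀ (δ : ℝ) (Y N : ℕ), 0 < δ → 1 ≤ Y → 2 ≤ (Y : ℝ) ^ δ →
  ∑ n ∈ Finset.Icc 2 N, ‖al (fun k => (la δ Y k : ℂ)) Y n‖ ^ 2 * (n : ℝ) ^ (-(1 + δ)) ≤
    2 * (Y : ℝ) ^ (-δ)

/-- SSB (from YQB, EPB, GLB, SQS; 40 min). PROOF. `yc (cv δ Y v) Y η q` is the sum of YQB with
`w = v + δ - η`, `Re w ≤ δ`; `q^(1+η) q^(2 Re w) = q^(1+2δ) q^(2 Re v - η) ≤ q^(1+2δ)`; `1/G ≤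
δ/(1 - Y^(-δ)) ≤ 2 δ`. So `SS ≤ 4 δ² Ep² C (1 + log Y)`, `‖w‖ ≤ ‖v‖ + δ + η`. -/
def T_SSB : Prop := ∃ C : ℝ, 0 < C ∧ ∀ (δ : ℝ) (Y : ℕ) (v : ℂ) (η : ℝ), 0 < δ → δ ≤ 1 → 2 ≤ Y →
  2 ≤ (Y : ℝ) ^ δ → 0 ≤ η → 2 * v.re ≤ η →
  SS (cv δ Y v) Y η ≤ C * δ ^ 2 * (1 + Real.log Y) * (1 + (‖v‖ + δ + η) * Real.log Y) ^ C

/-- SSP (from SSB; 60 min). PROOF. Phragmen-Lindelof. Let `b q` be complex numbers with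
`∑ |b q|² ≤ 1` and `φ v = ∑_q b_q √q yc (cv δ Y v) Y 0 q`, an exponential polynomial `∑_k β_k k^v` in
`v`. On `Re v = 0`: `|φ| ≤ √(SS) ≤ M (1 + |v| log Y)^N`, `M² = C δ² (1 + log Y) (1 + δ log Y)^C`,
`N` natural, `N ≥ C/2` (`1 + a + b ≤ (1 + a)(1 + b)`). Let `g v = φ v Y^(-v) (1 + v log Y)^(-N)`: it is
analytic and bounded for `Re v ≥ 0` (`|k^v| ≤ Y^(Re v)`, `|1 + v log Y| ≥ 1`), and `≤ 2^N M` on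
`Re v = 0` (`|1 + v log Y| ≥ (1 + |v| log Y)/√2`), so everywhere
(`PhragmenLindelof.right_half_plane_of_bounded_on_real`). Choose `b` (the normalised vector
conjugate to `√q y_q` at the given `v`). -/
def T_SSP : Prop := ∃ C : ℝ, 0 < C ∧ ∀ (δ : ℝ) (Y : ℕ) (v : ℂ), 0 < δ → δ ≤ 1 → 2 ≤ Y →
  2 ≤ (Y : ℝ) ^ δ → 0 ≤ v.re →
  SS (cv δ Y v) Y 0 ≤
    C * δ ^ 2 * (1 + Real.log Y) * (1 + (‖v‖ + δ) * Real.log Y) ^ C * (Y : ℝ) ^ (2 * v.re)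

/-! ### C. The mean square -/

/-- GXC (15 min, edit of DBB/P_GXA.lean). -/
def T_GXC : Prop := ∀ (c : ℕ → ℂ) (Y : ℕ) (θ x : ℝ), 0 ≤ θ → 1 ≤ x →
  Dc c Y θ (1 / x) = -∑ k ∈ Finset.Icc 1 Y, c k * (ph (θ * x) k x : ℂ)

/-- GXD (30 min, edit of DBB/P_GXB.lean). PROOF. As there, with `y = yc c Y 0 1 = ∑ c_k/k` in place
of `∑ μ(k)/k`, `al c Y 1 = c 1`. -/
def T_GXD : Prop := ∀ (c : ℕ → ℂ) (Y : ℕ) (X θ t : ℝ), 1 ≤ Y → 1 ≤ X → 0 < θ → 3 * θ * X ≤ 1 →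
  1 / X ≤ t → ‖Dc c Y θ t‖ ^ 2 ≤ 2 * ∑ n ∈ Finset.Icc 2 ⌊2 * X⌋₊, ‖al c Y n‖ ^ 2 *
    (if 1 / (n : ℝ) < t ∧ t ≤ (1 + θ) / n then 1 else 0) + 2 * (‖yc c Y 0 1‖ * θ / t) ^ 2

/-- LTC (from GXD; 30 min, edit of DBB/P_LT2.lean without the use of AM2). -/
def T_LTC : Prop := ∃ C : ℝ, 0 < C ∧ ∀ (c : ℕ → ℂ) (Y : ℕ) (X θ σ : ℝ), 1 ≤ Y → 1 ≤ X → 0 < θ →
  3 * θ * X ≤ 1 → 1 / 2 ≤ σ → σ ≤ 3 / 4 →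
  ∫⁻ t in Ici (1 / X), ENNReal.ofReal (t ^ (2 * σ - 1) * ‖Dc c Y θ t‖ ^ 2) ≤
    ENNReal.ofReal (C * (θ * ∑ n ∈ Finset.Icc 2 ⌊2 * X⌋₊, ‖al c Y n‖ ^ 2 * (n : ℝ) ^ (-(2 * σ)) +
      ‖yc c Y 0 1‖ ^ 2 * θ ^ 2 * X ^ (2 - 2 * σ)))

/-- LTD (from VAC, GXC; 50 min, edit of DBB/P_LT3.lean). PROOF. As there: the dyadic block at
`Z = 2^j X` is at most `Z^(-2σ-1) (8 θ₀² Z² S + 8 θ₀ Y^10)`, `S = SS c Y 0` (`∑ ‖c k‖ ≤ Y⁴`). Use it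
for `Z ≤ X²` (at most `3 (1 + log X)` blocks, `Z^(1-2σ) ≤ X^(1-2σ)`, `∑ Z^(-2σ-1) ≤ 2 X^(-2)`), and for
`x > X²` the bound `Y⁴` for the sum: `∫_{X²}^∞ x^(-2σ-1) Y⁸ dx ≤ Y⁸ X^(-2)`. -/
def T_LTD : Prop := ∃ C : ℝ, 0 < C ∧ ∀ (c : ℕ → ℂ) (Y : ℕ) (X θ₀ σ : ℝ), 1 ≤ Y → 1 ≤ X →
  0 < θ₀ → θ₀ ≤ 1 → 1 / 2 ≤ σ → σ ≤ 3 / 4 →
  (∀ k : ℕ, 1 ≤ k → k ≤ Y → ‖c k‖ ≤ (Y : ℝ) ^ 3) →
  ∫⁻ θ in Icc θ₀ (2 * θ₀), ∫⁻ t in Ioo 0 (1 / X),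
    ENNReal.ofReal (t ^ (2 * σ - 1) * ‖Dc c Y θ t‖ ^ 2) ≤
    ENNReal.ofReal (C * θ₀ * (θ₀ * X ^ (1 - 2 * σ) * (1 + Real.log X) * SS c Y 0 +
      (Y : ℝ) ^ 10 / X ^ 2))

/-- MFC (30 min, edit of DBC/S_MF.lean: complex coefficients). -/
def T_MFC : Prop := ∀ (c : ℕ → ℂ) (Y : ℕ) (h : ℝ), 1 ≤ Y → 0 < h →
  NBL.Adm (fun t : ℝ => Gc c Y (Real.exp (-h) * t) - Gc c Y t) ∧
  ∀ s : ℂ, 0 < s.re → s.re < 1 →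
    mellin (fun t : ℝ => Gc c Y (Real.exp (-h) * t) - Gc c Y t) s =
      (exp (h * s) - 1) * ((riemannZeta s * Pc c Y s - c 1) / s)

/-- GMS (from DBC Y_PL, MFC, LTC, LTD; 50 min, edit of DBB/P_MM2.lean). PROOF. `θ₀ = 1/(6 X)`; the
integral is at most `C X² (1/θ₀) ∫_{θ₀}^{2θ₀} ∫_0^∞ t^(2σ-1) ‖Dc‖² dt dθ ≤ C' X² (θ₀ D + y² θ₀²
X^(2-2σ) + θ₀ X^(1-2σ) (1 + log X) S + Y^10/X²)`, `y² = ‖yc c Y 0 1‖² ≤ S` (the term `q = 1`),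
`Y^10 ≤ X^(1/2)`. -/
def T_GMS : Prop := ∃ C : ℝ, 0 < C ∧ ∀ (c : ℕ → ℂ) (Y : ℕ) (X σ : ℝ), 1 ≤ Y → 4 ≤ X →
  (Y : ℝ) ^ 20 ≤ X → 1 / 2 ≤ σ → σ ≤ 3 / 4 →
  (∀ k : ℕ, 1 ≤ k → k ≤ Y → ‖c k‖ ≤ (Y : ℝ) ^ 3) →
  (∫ τ in X..(2 * X), ‖riemannZeta (Pool.Agent.DBA.pt σ τ) * Pc c Y (Pool.Agent.DBA.pt σ τ) -
    c 1‖ ^ 2) ≤
    C * X * (∑ n ∈ Finset.Icc 2 ⌊2 * X⌋₊, ‖al c Y n‖ ^ 2 * (n : ℝ) ^ (-(2 * σ)) +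
      X ^ (-(2 * σ - 1)) * (1 + Real.log X) * SS c Y 0 + X ^ (-(1 / 2) : ℝ))

/-- CLS (from GMS, LA1, CLO, SSB; 40 min). PROOF. `c k = la k = cv δ Y 0 k`; `n^(-2σ) ≤ n^(-1-δ)`,
CLO; SSB with `v = η = 0`: `X^(-(2σ-1)) (1 + log X) SS ≤ X^(-δ) C (δ log X)² (1 + δ log X)^C ≤
C' X^(-δ/2) ≤ C' Y^(-δ)` (`Y² ≤ X`; `(1 + log X)(1 + log Y) ≤ 4 (log X)²`), `X^(-1/2) ≤ Y^(-δ)`. -/
def T_CLS : Prop := ∃ C : ℝ, 0 < C ∧ ∀ (δ : ℝ) (Y : ℕ) (X σ : ℝ), 0 < δ → δ ≤ 1 → 2 ≤ Y →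
  2 ≤ (Y : ℝ) ^ δ → 8 ≤ X → (Y : ℝ) ^ 20 ≤ X → (1 + δ) / 2 ≤ σ → σ ≤ 3 / 4 →
  (∫ τ in X..(2 * X), ‖riemannZeta (Pool.Agent.DBA.pt σ τ) * Ms δ Y (Pool.Agent.DBA.pt σ τ) -
    1‖ ^ 2) ≤ C * X * (Y : ℝ) ^ (-δ)

/-- MOM (from GMS, LA1, DGE, SSB, SSP; 60 min). PROOF. `c = cv δ Y v`: `Pc c Y s = Ms δ Y (s - v)`,
`c 1 = 1`, `‖c k‖ ≤ Y² Y^(1/4)`. `η = 2σ - 1 + 1/log X`, `0 < η ≤ 1`, `n^(-2σ) ≤ e² n^(-1-η)` for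
`n ≤ 2 X`; `2 Re v ≤ 2σ - 1 ≤ η`. DGE and SSB: the first sum is at most `e² (1 + log X) C δ²
(1 + log Y) (1 + (‖v‖ + δ + η) log Y)^C ≤ C' (δ log X)² (1 + ...)^C`. The second: SSB with `η = 0` if
`Re v ≤ 0`, SSP if `Re v ≥ 0` (`Y^(2 Re v) X^(-(2σ-1)) ≤ 1`). `|F|² ≤ 2 |F - 1|² + 2`. -/
def T_MOM : Prop := ∃ C : ℝ, 0 < C ∧ ∀ (δ : ℝ) (Y : ℕ) (X σ : ℝ) (v : ℂ), 0 < δ → δ ≤ 1 →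
  2 ≤ Y → 2 ≤ (Y : ℝ) ^ δ → 8 ≤ X → (Y : ℝ) ^ 20 ≤ X → 1 / 2 ≤ σ → σ ≤ 3 / 4 → ‖v‖ ≤ 1 →
  v.re ≤ σ - 1 / 2 →
  (∫ τ in X..(2 * X), ‖riemannZeta (Pool.Agent.DBA.pt σ τ) *
    Ms δ Y (Pool.Agent.DBA.pt σ τ - v)‖ ^ 2) ≤
    C * X * (1 + (‖v‖ + δ + (σ - 1 / 2)) * Real.log X) ^ C

/-- FEQ (30 min). PROOF. Functional equation; `‖xi s‖ = ‖xi (1 - s)‖ = ‖xi (1 - conj s)‖` and the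
two-sided comparison of `‖xi (1/2 + i T + w)‖` with `size T T^(Re w/2) ‖ζ‖` (`xi_two`, see the proofs
DBC/S_XU.lean, DBB/P_XU2.lean) for `w = ±(1/2 - σ)`: `T^(1/2 - σ) ≤ e`. -/
def T_FEQ : Prop := ∃ C τ₀ : ℝ, 0 < C ∧ 4 ≤ τ₀ ∧ ∀ σ τ : ℝ, τ₀ ≤ τ →
  1 / 2 - 1 / Real.log τ ≤ σ → σ ≤ 1 / 2 →
  ‖riemannZeta (Pool.Agent.DBA.pt σ τ)‖ ≤ C * ‖riemannZeta (Pool.Agent.DBA.pt (1 - σ) τ)‖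

/-- MO2 (from MOM, FEQ; 25 min). PROOF. `σ ≥ 1/2`: MOM with `v = (σ - σ') - i y`. `σ < 1/2`: FEQ, and
MOM at `1 - σ`. -/
def T_MO2 : Prop := ∃ C X₀ : ℝ, 0 < C ∧ 8 ≤ X₀ ∧ ∀ (δ : ℝ) (Y : ℕ) (X σ σ' y : ℝ), X₀ ≤ X →
  0 < δ → δ ≤ 1 → 2 ≤ Y → 2 ≤ (Y : ℝ) ^ δ → (Y : ℝ) ^ 20 ≤ X →
  1 / 2 - 1 / Real.log (2 * X) ≤ σ → σ ≤ 3 / 4 → 1 / 2 ≤ σ' → σ' ≤ 3 / 4 → |y| ≤ 1 / 2 →
  (∫ τ in X..(2 * X), ‖riemannZeta (Pool.Agent.DBA.pt σ τ) *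
    Ms δ Y (Pool.Agent.DBA.pt σ' (τ + y))‖ ^ 2) ≤
    C * X * (1 + (δ + |y| + |σ - 1 / 2| + |σ' - 1 / 2|) * Real.log X) ^ C

/-! ### D. From mean values to most heights -/

/-- BSF (from CLS, DBA DSC, DBA MRK; 50 min, compare DBB/P_FS4.lean). PROOF. `r = 1/L`, `L = log X`;
MRK for `g = ζ Ms - 1`, `a = 1/2 + δ/2`, `b = 1/2 + (S + 1)/L` (`≤ 3/4`), window `(S + 1)/L`,
`V = 2 C X Y^(-δ)` (CLS at `X/2`, `X`, `2 X`; `Y^20 ≤ X^(1/2) ≤ X/2`), `λ = r²/(4 C')`, `C'` of DSC: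
measure at most `6 ((S + 1)/L)² V 4 C' L²`. Outside, DSC in the squares of half side `r`. (If
`b < a` there is no such `w`.) -/
def T_BSF : Prop := ∃ C X₀ : ℝ, 0 < C ∧ ∀ (δ : ℝ) (Y : ℕ) (X S : ℝ), X₀ ≤ X → 0 < δ → δ ≤ 1 →
  2 ≤ Y → 2 ≤ (Y : ℝ) ^ δ → (Y : ℝ) ^ 40 ≤ X → 1 ≤ S → S + 1 ≤ Real.log X / 8 →
  volume {T : ℝ | X ≤ T ∧ T ≤ 2 * X ∧ ∃ w : ℂ, δ / 2 + 1 / Real.log X ≤ w.re ∧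
    ‖w‖ ≤ S / Real.log X ∧
    1 / 2 < ‖riemannZeta (1 / 2 + T * I + w) * Ms δ Y (1 / 2 + T * I + w) - 1‖} ≤
  ENNReal.ofReal (C * X * S ^ 2 * (Y : ℝ) ^ (-δ))

/-- BSM (from MO2, DBA DSC; 60 min). PROOF. `r = 1/(4 L)`. DSC for `ζ` in the square of half side `r`
around `s = 1/2 + i T + w` and for `Ms` around `s' = 1/2 + i T + w'`: `r⁴ ‖ζ s Ms s'‖² ≤ C² F(T)`,
`F(T) = ∫_{a}^{b} ∫_{-U}^{U} ∫_{a'}^{b'} ∫_{-U'}^{U'} ‖ζ (x + i (T + u)) Ms (x' + i (T + u'))‖²`,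
`a = 1/2 - r`, `b = 1/2 + (R + 1)/L`, `U = (R + 1)/L`, `a' = 1/2`, `b' = 1/2 + (S + 1)/L`,
`U' = (S + 1)/L`. Tonelli and MO2 (`τ = T + u ∈ [X/2, 4 X]`, `y = u' - u`, `|y| ≤ 1/4`):
`∫_X^{2X} F ≤ C X ((R + 1)/L)² ((S + 1)/L)² (1 + δ L + R + S)^C'`. Markov. -/
def T_BSM : Prop := ∃ C X₀ : ℝ, 0 < C ∧ ∀ (δ : ℝ) (Y : ℕ) (X R S lam : ℝ), X₀ ≤ X → 0 < δ →
  δ ≤ 1 → 2 ≤ Y → 2 ≤ (Y : ℝ) ^ δ → (Y : ℝ) ^ 40 ≤ X → 1 ≤ R → R + 1 ≤ Real.log X / 8 →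
  1 ≤ S → S + 1 ≤ Real.log X / 8 → 0 < lam →
  volume {T : ℝ | X ≤ T ∧ T ≤ 2 * X ∧ ∃ w w' : ℂ, 0 ≤ w.re ∧ ‖w‖ ≤ R / Real.log X ∧
    1 / Real.log X ≤ w'.re ∧ ‖w'‖ ≤ S / Real.log X ∧
    lam < ‖riemannZeta (1 / 2 + T * I + w) * Ms δ Y (1 / 2 + T * I + w')‖ ^ 2} ≤
  ENNReal.ofReal (C * X * (1 + δ * Real.log X + R + S) ^ C / lam)

/-- ZPB (20 min; in the library, search `riemannZeta` with a polynomial bound, e.g. DBA / DBN). -/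
def T_ZPB : Prop := ∃ C : ℝ, 0 < C ∧ ∀ s : ℂ, 1 / 2 ≤ s.re → 2 ≤ s.im → ‖riemannZeta s‖ ≤ C * s.im

/-- MSB (from LA1; 10 min). -/
def T_MSB : Prop := ∀ (δ : ℝ) (Y : ℕ) (s : ℂ), 0 < δ → δ ≤ 1 → 1 ≤ Y → 0 ≤ s.re →
  ‖Ms δ Y s‖ ≤ (Y : ℝ) ^ 3

/-- NUM (50 min). PROOF. The terms with `R ≤ 8 (n + 1) m` number at most `8 (n + 1) m + 1` and each is
at most `C (K m)^C exp (-m/(2 (n + 1)))`; for `R ≥ 8 (n + 1) m` the exponent is at least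
`R²/(2 (n + 1) m) ≥ 4 R ≥ 2 R + 2 m` and `(1 + .. )^C exp (-R)` is bounded by a constant `C''`
(`m ≤ R`), so these terms sum to at most `C'' exp (-m)`. -/
def T_NUM : Prop := ∀ (n : ℕ) (C η : ℝ), 0 < C → 0 < η → ∃ A : ℝ, 1 ≤ A ∧ ∀ m : ℝ, A ≤ m →
  C * (4 * n * m + 2) ^ 2 * Real.exp (-(m / (80 * (n + 1)))) ≤ η ∧
  ∀ N : ℕ, ∑ R ∈ Finset.range N, C * (1 + m + (R + 1) + (4 * n * m + 2)) ^ C *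
    Real.exp (-((m + (R : ℝ) ^ 2 / m) / (2 * (n + 1)))) ≤ η

/-- AR6 (from BSF, BSM, ZPB, MSB, NUM; 70 min). PROOF. `L = log X`, `m = t L²`, `Y = ⌊X^(1/40)⌋`,
`δ = t L/(n + 1)`, `S = 4 n m + 2`, so `δ L = m/(n + 1)`, `δ/2 + 1/L ≤ t L/(n + 1)` for `m ≥ 2 (n + 1)`,
`Y^(-δ) ≤ 2 exp (-m/(40 (n + 1)))`, `2 ≤ Y^δ`. Exceptional sets: that of BSF with `S`; for all natural
`R` with `R + 2 ≤ L/8` that of BSM with `R + 1`, `S`, `λ_R = exp ((m + R²/m)/(2 (n + 1)))`. Their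
measure is at most `η X` (NUM, `A` large). Outside, let `w₁ = t L` and `ν = 1/‖Ms (1/2 + i T + w₁)‖`
(`Ms ≠ 0` by the first set, `1/ν ≤ Y³ ≤ X`). UPPER: `‖w‖ ≤ 1/16`: `R = ⌊‖w‖ L⌋`, `‖ζ Ms(w₁)‖ ≤
exp ((m + R²/m)/(4 (n + 1)))`, `R²/m ≤ ‖w‖²/t`, `m ≤ mt t T`. `‖w‖ ≥ 1/16`: ZPB, `‖ζ‖ ≤ C (2 X + n)`,
and `‖w‖²/(t (n + 1)) ≥ L²/(256 m (n + 1)) ≥ 4 L` as `m ≤ D log log X`. LOWER: `‖w‖ ≤ 2 n t log T ≤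
S/L`, `Re w ≥ δ/2 + 1/L`: `‖ζ(w) Ms(w)‖ ≥ 1/2`, `‖ζ(w₁) Ms(w₁)‖ ≥ 1/2`, `‖ζ(w₁) Ms(w)‖ ≤
exp (2 m/(4 (n + 1)))` (`R = ⌊m⌋`): `‖ζ(w)‖ ≥ 1/(2 ‖Ms(w)‖) ≥ ‖ζ(w₁)‖ exp (-m/(2 (n + 1)))/2 ≥
(ν/4) exp (-m/(2 (n + 1))) ≥ ν exp (-m/(n + 1))` for `m` large. -/
def T_AR6 : Prop := ∀ (n : ℕ) (D η : ℝ), 0 < D → 0 < η → ∃ A X₀ : ℝ, 0 < A ∧ ∀ t X : ℝ,
  X₀ ≤ X → A ≤ t * Real.log X ^ 2 → t * Real.log X ^ 2 ≤ D * Real.log (Real.log X) →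
  volume {T : ℝ | X ≤ T ∧ T ≤ 2 * X ∧ ¬ RLv n t T} ≤ ENNReal.ofReal (η * X)

/-- AR7 (from AR6, DBB AR4; 35 min). PROOF. `K = n + 2 + 2 n c`, `a = 1/(n + 1)` in AR4: `A₁`, `κ`. For
`m = t (log X)² ≥ A₁ log log X` the set is contained in the set of AR4: `ν = 1` (`T^(-2) ≤ 1`),
`m ≤ mt t T`, `t log X ≤ t log T ≤ 2 c`; its measure is `X exp (-κ m) ≤ η X` (`m → ∞`). For `m ≤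
A₁ log log X`: AR6 with `D = A₁`. -/
def T_AR7 : Prop := ∀ (n : ℕ) (c η : ℝ), 0 < c → 0 < η → ∃ A X₀ : ℝ, 0 < A ∧ ∀ t X : ℝ,
  X₀ ≤ X → A ≤ t * Real.log X ^ 2 → t * Real.log X ≤ c →
  volume {T : ℝ | X ≤ T ∧ T ≤ 2 * X ∧ ¬ RLv n t T} ≤ ENNReal.ofReal (η * X)

end Pool.Agent.DBS
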