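import Pool.Agent.DBS.Targets
import Pool.Agent.DBB.Targets5

/-!
# The time scale `1 / (log X)²`: exceptional sets of measure `X exp (-κ t (log X)²)`

(MP_4e5e8a_nt, addition to DBNFlow, project DBS, owner helper11.) Edits of the landed files P_NUM,
P_AR6, P_AR7 (DBS) and P_SC5 (DBB). Deliver `theorem p_X : T_X` (targets named in brackets are
hypotheses, in this order) in the NEW file `Pool/Agent/DBS/P_X.lean` which imports this file,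
namespace `Pool.Agent.DBS`, helper lemmas in the sub-namespace `X_`.
-/

set_option autoImplicit false

namespace Pool.Agent.DBS

open Complex MeasureTheory Set Filter
open Pool.Agent.DBN Pool.Agent.DBC Pool.Agent.DBB
open scoped ENNReal

/-- for `A / (log X)² ≤ t ≤ c / log X`: at all heights `T` in `[X, 2 X]` outside a set of measure
`X exp (-κ t (log X)²)` the zeros `z` of `H_t` with `|z - 2 T| ≤ K t log T` are real, simple and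
regularly spaced -/
def ScaleE (c : ℝ) : Prop :=
  ∀ K ε : ℝ, 0 < K → 0 < ε → ∃ A κ X₀ : ℝ, 0 < A ∧ 0 < κ ∧ ∀ t X : ℝ, X₀ ≤ X →
    A ≤ t * Real.log X ^ 2 → t * Real.log X ≤ c →
    volume {T : ℝ | X ≤ T ∧ T ≤ 2 * X ∧ ¬ CrysS K ε t T} ≤
      ENNReal.ofReal (X * Real.exp (-(κ * (t * Real.log X ^ 2))))

/-- NU2 (30 min, edit of P_NUM.lean). PROOF. As NUM: the first is at most `C (K' m)² exp (-m/(80
(n + 1)))`, the sum at most `C' (K' m)^C' exp (-m/(2 (n + 1))) + C'' exp (-m)`; `κ = 1/(160 (n + 1))`,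
`A` large. -/
def T_NU2 : Prop := ∀ (n : ℕ) (C : ℝ), 0 < C → ∃ A κ : ℝ, 1 ≤ A ∧ 0 < κ ∧ ∀ m : ℝ, A ≤ m →
  C * (4 * n * m + 2) ^ 2 * Real.exp (-(m / (80 * (n + 1)))) ≤ Real.exp (-(κ * m)) / 4 ∧
  ∀ N : ℕ, ∑ R ∈ Finset.range N, C * (1 + m + (R + 1) + (4 * n * m + 2)) ^ C *
    Real.exp (-((m + (R : ℝ) ^ 2 / m) / (2 * (n + 1)))) ≤ Real.exp (-(κ * m)) / 4

/-- AR8 (from BSF, BSM, ZPB, MSB, NU2; 20 min, edit of P_AR6.lean with `exp (-(κ m))` for `η`). -/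
def T_AR8 : Prop := ∀ (n : ℕ) (D : ℝ), 0 < D → ∃ A κ X₀ : ℝ, 0 < A ∧ 0 < κ ∧ ∀ t X : ℝ,
  X₀ ≤ X → A ≤ t * Real.log X ^ 2 → t * Real.log X ^ 2 ≤ D * Real.log (Real.log X) →
  volume {T : ℝ | X ≤ T ∧ T ≤ 2 * X ∧ ¬ RLv n t T} ≤
    ENNReal.ofReal (X * Real.exp (-(κ * (t * Real.log X ^ 2))))

/-- AR9 (from AR8, DBB AR4; 15 min, edit of P_AR7.lean; the minimum of the two `κ`). -/
def T_AR9 : Prop := ∀ (n : ℕ) (c : ℝ), 0 < c → ∃ A κ X₀ : ℝ, 0 < A ∧ 0 < κ ∧ ∀ t X : ℝ,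
  X₀ ≤ X → A ≤ t * Real.log X ^ 2 → t * Real.log X ≤ c →
  volume {T : ℝ | X ≤ T ∧ T ≤ 2 * X ∧ ¬ RLv n t T} ≤
    ENNReal.ofReal (X * Real.exp (-(κ * (t * Real.log X ^ 2))))

/-- SC6 (from DBB DG5, AR9; 15 min, edit of DBB/P_SC5.lean). -/
def T_SC6 : Prop := ∀ c : ℝ, 0 < c → ScaleE c

end Pool.Agent.DBS
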