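import Pool.Agent.DBS.Targets2

/-!
# The time scale `1 / (log X)²`: one exceptional set for all times

(MP_4e5e8a_nt, addition to DBNFlow, project DBS, idea of helper95.) Deliver `theorem p_X : T_X`
(targets named in brackets are hypotheses, in this order) in the NEW file `Pool/Agent/DBS/P_X.lean`
which imports this file, namespace `Pool.Agent.DBS`, helper lemmas in the sub-namespace `X_`.
-/

set_option autoImplicit false

namespace Pool.Agent.DBS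

open Complex MeasureTheory Set Filter
open Pool.Agent.DBN Pool.Agent.DBC Pool.Agent.DBB
open scoped ENNReal

/-- for `A / (log X)² ≤ s ≤ c / log X`: at all heights `T` in `[X, 2 X]` outside a set of measure
`X exp (-κ s (log X)²)` the zeros `z` of `H_t` with `|z - 2 T| ≤ K t log T` are real, simple and
regularly spaced, at all times `t` with `s ≤ t ≤ c / log T` -/
def UniS (c : ℝ) : Prop :=
  ∀ K ε : ℝ, 0 < K → 0 < ε → ∃ A κ X₀ : ℝ, 0 < A ∧ 0 < κ ∧ ∀ s X : ℝ, X₀ ≤ X →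
    A ≤ s * Real.log X ^ 2 → s * Real.log X ≤ c →
    volume {T : ℝ | X ≤ T ∧ T ≤ 2 * X ∧ ∃ t : ℝ, s ≤ t ∧ t * Real.log T ≤ c ∧
      ¬ CrysS K ε t T} ≤ ENNReal.ofReal (X * Real.exp (-(κ * (s * Real.log X ^ 2))))

/-- MON (20 min). PROOF. `L = log T ≥ 0`, `n' = 4 n + 4`. `mt s T ≤ mt t T`, `1/s ≤ 2/t`, so
`(mt s T + ‖w‖²/s)/(n' + 1) ≤ 2 (mt t T + ‖w‖²/t)/(n' + 1) ≤ (mt t T + ‖w‖²/t)/(n + 1)`. The box
`t L/(n + 1) ≤ Re w ≤ n t L`, `|Im w| ≤ n t L` is contained in that of `s` for `n'`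
(`n t ≤ 2 n s ≤ n' s`), and `exp (-(mt s T)/(n' + 1)) ≥ exp (-(mt t T)/(n + 1))`; `ν ≥ T⁻² > 0`. -/
def T_MON : Prop := ∀ (n : ℕ) (s t T : ℝ), 1 ≤ T → s ≤ t → t ≤ 2 * s → RLv (4 * n + 4) s T →
  RLv n t T

/-- UNS (from MON, AR9; 45 min). PROOF. AR9 for `4 n + 4`: `A₀`, `κ₀`; `m = s L²`, `L = log X`. Let
`T` be in the set, `t` as there, and `j` natural with `2^j s ≤ t < 2^(j+1) s`; by MON
`¬ RLv (4 n + 4) (2^j s) T`, and `2^j s L ≤ t log T ≤ c`. So the set is contained in the union over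
all `j` with `2^j s L ≤ c` of the sets of AR9 for the times `2^j s`, and its measure is at most
`X ∑_j exp (-κ₀ 2^j m) ≤ X ∑_j exp (-κ₀ (j + 1) m) ≤ 2 X exp (-κ₀ m) ≤ X exp (-κ₀ m/2)` for `m ≥ A`,
`A` large (`κ₀ A ≥ 2`; `measure_iUnion_le`, `2^j ≥ j + 1`). `κ = κ₀/2`. -/
def T_UNS : Prop := ∀ (n : ℕ) (c : ℝ), 0 < c → ∃ A κ X₀ : ℝ, 0 < A ∧ 0 < κ ∧ ∀ s X : ℝ,
  X₀ ≤ X → A ≤ s * Real.log X ^ 2 → s * Real.log X ≤ c →
  volume {T : ℝ | X ≤ T ∧ T ≤ 2 * X ∧ ∃ t : ℝ, s ≤ t ∧ t * Real.log T ≤ c ∧ ¬ RLv n t T} ≤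
    ENNReal.ofReal (X * Real.exp (-(κ * (s * Real.log X ^ 2))))

/-- SC8 (from DBB DG5, UNS; 15 min, edit of DBB/P_SC5.lean). `n` from DG5 with `c₂ = c`,
`X ≥ n`. -/
def T_SC8 : Prop := ∀ c : ℝ, 0 < c → UniS c

end Pool.Agent.DBS
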