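import Pool.Agent.DBS.Targets3
import Pool.Agent.DBA.Targets3
import Pool.Agent.DBB.Targets3

/-!
# The time scale `1 / (log X)²`: the number of exceptional zeros (counting part)

(MP_4e5e8a_nt, addition to DBNFlow, project DBS, version 7.) Deliver `theorem p_X : T_X`
(targets named in brackets are hypotheses, in this order) in the NEW file
`Pool/Agent/DBS/P_X.lean` which imports this file, namespace `Pool.Agent.DBS`, helper lemmas in the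
sub-namespace `X_`. Notation: `L = log X`, `m = t L²`, `R_i = 2^i t L`, `T_z = Re z / 2`.
-/

set_option autoImplicit false

namespace Pool.Agent.DBS

open Complex MeasureTheory Set Filter
open Pool.Agent.DBN Pool.Agent.DBC Pool.Agent.DBB
open scoped ENNReal

/-- for `A / (log X)² ≤ t ≤ c / log X` at most `X log X exp (-κ t (log X)²)` zeros `z` of `H_t`
with `X ≤ Re z / 2 ≤ 2 X`, `|Im z| ≤ K` are not real or not simple (counted with multiplicity) -/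
def FewS (c : ℝ) : Prop :=
  ∀ K : ℝ, 0 < K → ∃ A κ X₀ : ℝ, 0 < A ∧ 0 < κ ∧ ∀ t X : ℝ, X₀ ≤ X →
    A ≤ t * Real.log X ^ 2 → t * Real.log X ≤ c → ∀ F : Finset ℂ,
      (∀ z ∈ F, H t z = 0 ∧ X ≤ z.re / 2 ∧ z.re / 2 ≤ 2 * X ∧ |z.im| ≤ K ∧
        (z.im = 0 → deriv (H t) z = 0)) →
      ((∑ z ∈ F, analyticOrderNatAt (H t) z : ℕ) : ℝ) ≤
        X * Real.log X * Real.exp (-(κ * (t * Real.log X ^ 2)))

/-- the bad heights in `[X / 2, 4 X]` for the time `t` -/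
def BX (n : ℕ) (t X : ℝ) : Set ℝ := {T : ℝ | X / 2 ≤ T ∧ T ≤ 4 * X ∧ ¬ RLv n t T}

/-- DGR (from the local part, see `Pool/Agent/DBB/Targets6.lean`): a height which is good for the
time `t' ≥ t` gives a zero-free region and a bound for the number of zeros of `H_t` at the distance
`t' log T`. -/
def T_DGR : Prop := ∀ c₂ K : ℝ, 0 < c₂ → 1 ≤ K → ∃ (n : ℕ) (C : ℝ), 0 < C ∧ ∀ t t' T : ℝ,
  (n : ℝ) ≤ T → 0 < t → t ≤ t' → t' * Real.log T ≤ c₂ → RLv n t' T →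
  (∀ z : ℂ, |z.re - 2 * T| ≤ K * (t' * Real.log T) → t' * Real.log T / K ≤ |z.im| →
    |z.im| ≤ K * (t' * Real.log T) → H t z ≠ 0) ∧
  (zeroCount (H t) (2 * T) (K * (t' * Real.log T)) : ℝ) ≤ C * (t' * Real.log T ^ 2)

/-- MXN (from AR9; 25 min, edit of DBB/P_MX4.lean). PROOF. `BX` is contained in the union of the
three sets of AR9 for `Y = X/2`, `X`, `2 X`, the same `t` and the constant `2 c`
(`t log Y ≤ 2 t L ≤ 2 c`, `A₀ ≤ t (log Y)²` follows from `4 A₀ ≤ t L²`, `log Y ≥ L/2`), and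
`Y exp (-κ₀ t (log Y)²) ≤ 2 X exp (-κ₀ t L²/4)`. `6 exp (-κ₀ m/4) ≤ exp (-κ₀ m/8)` for
`m ≥ A`, `A` large (`κ₀ A ≥ 16`). -/
def T_MXN : Prop := ∀ (n : ℕ) (c : ℝ), 0 < c → ∃ A κ X₀ : ℝ, 0 < A ∧ 0 < κ ∧ 2 ≤ X₀ ∧
  ∀ t X : ℝ, X₀ ≤ X → A ≤ t * Real.log X ^ 2 → t * Real.log X ≤ c →
    volume (BX n t X) ≤ ENNReal.ofReal (X * Real.exp (-(κ * (t * Real.log X ^ 2))))

/-- CIN (from DBB DG5, DGR; 40 min). PROOF. `n` is the maximum of the two levels of DG5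
(`c₂ = 2 c`, `K = 8`, `ε = 1`) and DGR (`c₂ = 4 K + 4 c`, `K = 8`); RLv for `n` implies RLv for
smaller levels (a lemma `n' ≤ n → RLv n t T → RLv n' t T`; used in P_AR8 / P_DG5, monotone in
every field, `0 < t`, `mt ≥ 0`). `q = t L > 0`; for `X` large and `X/2 ≤ T ≤ 4 X`:
`L/2 ≤ log T ≤ 2 L` and `n ≤ T`. Case `|Im z| ≤ 2 q`: `j = 0`. Let `|T - T_z| ≤ q` (`q ≤ c`, so
`X/2 ≤ T ≤ 4 X` for `X ≥ 2 c`). If `RLv n t T`, DG5 gives `CrysS 8 1 t T`, and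
`‖z - 2 T‖ ≤ 2 q + 2 q ≤ 8 t log T`, so `z` is real and simple: contradiction. Case
`|Im z| > 2 q`: `j ≥ 1` with `2^j q ≤ |Im z| < 2^(j+1) q` (for instance `j = ⌊log₂ (|Im z|/q)⌋`,
or `Nat.find`), `t' = 2^j t`, `R = 2^j q ≤ K`. Let `|T - T_z| ≤ R` (`X ≥ 2 K`), if `RLv n t' T`
then DGR with `t' log T ≤ 2 R ≤ 2 K`, `R/2 ≤ t' log T`: `|Re z - 2 T| ≤ 2 R ≤ 8 t' log T`,
`t' log T/8 ≤ R ≤ |Im z| ≤ 2 R ≤ 8 t' log T`: contradiction. -/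
def T_CIN : Prop := ∀ c K : ℝ, 0 < c → 0 < K → ∃ (n : ℕ) (X₀ : ℝ), 2 ≤ X₀ ∧
  ∀ (t X : ℝ) (z : ℂ), X₀ ≤ X → 0 < t → t * Real.log X ≤ c → H t z = 0 →
    X ≤ z.re / 2 → z.re / 2 ≤ 2 * X → |z.im| ≤ K → (z.im = 0 → deriv (H t) z = 0) →
    ∃ j : ℕ, (j = 0 ∨ 2 ^ j * (t * Real.log X) ≤ K) ∧
      |z.im| ≤ 2 * (2 ^ j * (t * Real.log X)) ∧
      Icc (z.re / 2 - 2 ^ j * (t * Real.log X)) (z.re / 2 + 2 ^ j * (t * Real.log X)) ⊆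
        BX n (2 ^ j * t) X

/-- CVR (30 min). Covering. PROOF. `k(z) = ⌊(Re z/2)/R⌋`, `S` the image of `F` under `k`. For
`k ∈ S` the cell `[k R, (k+1) R)` is contained in `[T_z - R, T_z + R] ⊆ B`; the cells are disjoint of
measure `R`, so `card S * R ≤ V` (`measure_biUnion_finset`, as in DBA/P_CVJ.lean). The sum over `F`
is the sum over `k ∈ S` of the sums over the fibres (`Finset.sum_fiberwise_of_maps_to`); each fibre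
is contained in the set of the `z' ∈ F` with `|T_z' - T_z| ≤ R` for an element `z` of it. -/
def T_CVR : Prop := ∀ (R V M : ℝ) (B : Set ℝ) (w : ℂ → ℕ) (F : Finset ℂ), 0 < R → 0 ≤ V → 0 ≤ M →
  volume B ≤ ENNReal.ofReal V → (∀ z ∈ F, Icc (z.re / 2 - R) (z.re / 2 + R) ⊆ B) →
  (∀ z ∈ F, ((∑ z' ∈ F with |z'.re / 2 - z.re / 2| ≤ R, w z' : ℕ) : ℝ) ≤ M) →
  ((∑ z ∈ F, w z : ℕ) : ℝ) ≤ V / R * M

/-- LVL (from DGR, DBA ORD, CVR; 40 min). One level. PROOF. `n`, `C₀` from DGR with `c₂ = 2 b`,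
`K = 16`. `R = t' L` (`t' ≥ t` is the time of the level), the next level is `2 t'`. For `z ∈ F` let
`T ∉ BX n (2 t') X`, `|T - T_z| ≤ 2 R`, so `X/2 ≤ T ≤ 4 X` (`X ≥ 4 b`) and `RLv n (2 t') T`; all
`z' ∈ F` with `|T_z' - T_z| ≤ R` have `‖z' - 2 T‖ ≤ 6 R + 2 R ≤ 16 (2 t' log T)`
(`log T ≥ L/2`), so ORD and DGR (b) bound their sum by
`C₀ 2 t' (log T)² ≤ 8 C₀ t' L² = 8 C₀ R L`. CVR with `M = 8 C₀ R L`: at most `8 C₀ V L`. -/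
def T_LVL : Prop := ∀ b : ℝ, 0 < b → ∃ (n : ℕ) (C X₀ : ℝ), 0 < C ∧ 2 ≤ X₀ ∧
  ∀ (t t' X V : ℝ) (B : Set ℝ) (F : Finset ℂ), X₀ ≤ X → 0 < t → t ≤ t' →
    2 * t' * Real.log X ≤ b → 0 ≤ V → volume B ≤ ENNReal.ofReal V →
    (∀ z ∈ F, H t z = 0 ∧ X ≤ z.re / 2 ∧ z.re / 2 ≤ 2 * X ∧ |z.im| ≤ 2 * (t' * Real.log X) ∧
      Icc (z.re / 2 - t' * Real.log X) (z.re / 2 + t' * Real.log X) ⊆ B ∧
      ∃ T : ℝ, |T - z.re / 2| ≤ 2 * (t' * Real.log X) ∧ RLv n (2 * t') T) →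
    ((∑ z ∈ F, analyticOrderNatAt (H t) z : ℕ) : ℝ) ≤ C * (V * Real.log X)

/-- LVT (from DBB JN3, DBA ORD, CVR; 30 min). The top level. PROOF. As LVL, with JN3 (`c₂ = 2 c`,
radius `2 b + K`) at `T = T_z`: `‖z' - 2 T_z‖ ≤ 2 R + K`, the sum is at most
`C log T_z ≤ 2 C L`; CVR gives `V/R * 2 C L ≤ (2 C/a) V L`. -/
def T_LVT : Prop := ∀ a b c K : ℝ, 0 < a → a ≤ b → 0 < c → 0 < K → ∃ C X₀ : ℝ, 0 < C ∧ 2 ≤ X₀ ∧
  ∀ (t R X V : ℝ) (B : Set ℝ) (F : Finset ℂ), X₀ ≤ X → 0 < t → t * Real.log X ≤ c →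
    a ≤ R → R ≤ b → 0 ≤ V → volume B ≤ ENNReal.ofReal V →
    (∀ z ∈ F, H t z = 0 ∧ X ≤ z.re / 2 ∧ z.re / 2 ≤ 2 * X ∧ |z.im| ≤ K ∧
      Icc (z.re / 2 - R) (z.re / 2 + R) ⊆ B) →
    ((∑ z ∈ F, analyticOrderNatAt (H t) z : ℕ) : ℝ) ≤ C * (V * Real.log X)

/-- FWS (from MXN, CIN, LVL, LVT; 60 min). PROOF. `b = 4 (K + c)`; `n` the maximum of the levels of
CIN and LVL (`BX` is monotone in `n`: `BX n ⊆ BX n'` for `n ≤ n'`, since RLv for `n'` implies RLv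
for `n`); MXN for `n`, `c := b`: `A₀`, `κ₀`. Let `m = t L² ≥ A ≥ max A₀ 1`, `q = t L`, `J` the least
natural number with `K ≤ 2^J q`; so `K ≤ R_J ≤ 2 K + c` (`J = 0` or `R_(J-1) < K`). For `z ∈ F` let
`P i` be: `|Im z| ≤ 2 R_i` and `Icc (T_z - R_i) (T_z + R_i) ⊆ BX n (2^i t) X`. CIN gives `j ≤ J` with
`P j` (`j = 0` or `R_j ≤ K ≤ R_J`). `i(z) = Nat.findGreatest P J`: `P (i(z))`, and if `i(z) < J` then
not `P (i(z) + 1)`, so some `T ∈ Icc (T_z - 2 R_i) (T_z + 2 R_i)` (`R_(i+1) = 2 R_i`) is not in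
`BX n (2^(i+1) t) X`, and `X/2 ≤ T ≤ 4 X` (`2 R_i ≤ b ≤ X/2`), so `RLv n (2 · 2^i t) T`. The sum
over `F` is the sum over `i ≤ J` of the sums over the `z` with `i(z) = i`; LVL (`t' = 2^i t`, `i < J`,
`2 R_i ≤ 2 K + c... ≤ b`) and LVT (`i = J`, `R = R_J`, `a = K`) with
`V = X exp (-κ₀ 2^i m)` (MXN, `2^i m ≥ A₀`, `R_i ≤ b`) bound it by
`(C₁ + C₂) X L ∑_i exp (-κ₀ 2^i m) ≤ C X L ∑_i exp (-κ₀ (i + 1) m) ≤ 2 C X L exp (-κ₀ m)`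
(`κ₀ m ≥ 1`), which is at most `X L exp (-κ₀ m/2)` for `A` large. -/
def T_FWS : Prop := ∀ c : ℝ, 0 < c → FewS c

end Pool.Agent.DBS
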