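import Pool.Agent.DBS.Targets4
import Pool.Agent.DBB.Targets7

/-!
# DGR: the diagonal argument with two times

(MP_4e5e8a_nt.) Job DGR: file `Pool/Agent/DBS/P_DGR.lean` (imports this file and
`Pool.Agent.DBB.P_DG5`), namespace `Pool.Agent.DBS`, deliver
`theorem p_DGR (h1 : Pool.Agent.DBB.T_LOR) (h2 : Pool.Agent.DBB.T_JNR) : T_DGR`.
PROOF (30 min, edit of DBB/P_DG5.lean). Suppose not; take the level `n` and the constant
`C = n + 1`: this gives `t n`, `t' n`, `T n`, `ν n` (of `RLv n (t' n) (T n)`), for which (a) or (b)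
fails. `G` is the set of the triples `(t' n, T n, ν n)`; `HypR G c₂` is `DBB.DG5_.hyp`. Let `T₀` be
from LOR (`K`, `δ = 1/(2 K)`, `ε = 1`) and `C`, `T₀'` from JNR (`K`). For `n` with `n ≥ T₀`, `T₀'`,
`C`: (b) holds by JNR. (a): `H t z = flow t (1/2 + I z/2)/8` (`H_eq_flow`), and
`1/2 + I z/2 = pt x τ` with `x = -Im z/2`, `τ = Re z/2`; `|τ - T| ≤ K R`,
`R/(2 K) ≤ |x| ≤ K R`. If `x > 0`: LOR, `k EF > 0` (`k ≥ T⁻² > 0`, `size T > 0`). If `x < 0`:
`flow t (pt x τ)` is the conjugate of `flow t (pt (-x) τ)` (`flow_conj` in DBN/ZS.lean, and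
`flow t (1 - s) = flow t s`; `pt x τ = 1 - conj (pt (-x) τ)`), so it is also nonzero.
-/
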