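import Pool.Agent.DBS.Targets4

/-!
# Long windows on the time scale `1 / (log X)²`

(MP_4e5e8a_nt, addition to DBNFlow, version 8.) Deliver `theorem p_X : T_X` (targets named in
brackets are hypotheses, in this order) in the NEW file `Pool/Agent/DBS/P_X.lean` which imports
this file, namespace `Pool.Agent.DBS`, helper lemmas in the sub-namespace `X_`. Here `L = log X`,
`m = s L²`.
-/

set_option autoImplicit false

namespace Pool.Agent.DBS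

open Complex MeasureTheory Set Filter
open Pool.Agent.DBN Pool.Agent.DBC Pool.Agent.DBB
open scoped ENNReal

/-- for `A / (log X)² ≤ s ≤ c / log X`: for all `T` in `[X, 2 X]` outside a set of measure
`X exp (-κ s (log X)²)` the zeros of `H_t` with `|Re z - 2 T| ≤ exp (κ s (log X)²) t log T`,
`|Im z| ≤ K` are as in `CrysR`, at all times `t` with `s ≤ t ≤ c / log T` -/
def UniAll (c : ℝ) : Prop :=
  ∀ K ε : ℝ, 0 < K → 0 < ε → ∃ A κ X₀ : ℝ, 0 < A ∧ 0 < κ ∧ ∀ s X : ℝ, X₀ ≤ X →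
    A ≤ s * Real.log X ^ 2 → s * Real.log X ≤ c →
    volume {T : ℝ | X ≤ T ∧ T ≤ 2 * X ∧ ∃ t : ℝ, s ≤ t ∧ t * Real.log T ≤ c ∧
      ¬ CrysR (Real.exp (κ * (s * Real.log X ^ 2)) * (t * Real.log T)) K ε t T} ≤
    ENNReal.ofReal (X * Real.exp (-(κ * (s * Real.log X ^ 2))))

/-- CVW (25 min; compare P_CVR.lean and DBA/P_COV.lean). Covering. PROOF. `S` = the set of the
integers `k` with `[k r, (k + 1) r) ⊆ B`: these cells are disjoint subsets of `B` of measure `r`, so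
`S` is finite and `card S * r ≤ V`. If `|T - y| ≤ W`, `Icc (y - r) (y + r) ⊆ B` and
`k = ⌊y/r⌋`, then `k ∈ S` (`y - r ≤ k r`, `(k + 1) r ≤ y + r`) and
`T ∈ Icc (k r - W) ((k + 1) r + W)`, an interval of the measure `r + 2 W`. So the measure is at
most `card S (r + 2 W) ≤ V (1 + 2 W/r)` (`measure_biUnion_finset_le`). -/
def T_CVW : Prop := ∀ (r W V : ℝ) (B : Set ℝ), 0 < r → 0 ≤ W → 0 ≤ V →
  volume B ≤ ENNReal.ofReal V →
  volume {T : ℝ | ∃ y : ℝ, |T - y| ≤ W ∧ Icc (y - r) (y + r) ⊆ B} ≤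
    ENNReal.ofReal ((1 + 2 * W / r) * V)

/-- CIG (from DBB DG5, DGR; edit of P_CIN.lean, `Re z/2` in a larger interval). -/
def T_CIG : Prop := ∀ c K : ℝ, 0 < c → 0 < K → ∃ (n : ℕ) (X₀ : ℝ), 2 ≤ X₀ ∧
  ∀ (t X : ℝ) (z : ℂ), X₀ ≤ X → 0 < t → t * Real.log X ≤ c → H t z = 0 →
    3 / 4 * X ≤ z.re / 2 → z.re / 2 ≤ 9 / 4 * X → |z.im| ≤ K → (z.im = 0 → deriv (H t) z = 0) →
    ∃ j : ℕ, (j = 0 ∨ 2 ^ j * (t * Real.log X) ≤ K) ∧
      Icc (z.re / 2 - 2 ^ j * (t * Real.log X)) (z.re / 2 + 2 ^ j * (t * Real.log X)) ⊆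
        BX n (2 ^ j * t) X

/-- GPG (from DBB DG5; 35 min). The gaps. PROOF. Let `T'` be in the interval, `X/2 ≤ T' ≤ 4 X` for
`X ≥ 8 c + 8` (`t log X ≤ c`); suppose `RLv n t T'`; `n` from DG5 with `c₂ = 2 c`, `K = 12`,
`ε₁ = min (ε/2) 1` (`log T' ≤ 2 log X`, so `t log T' ≤ 2 c`), `n ≥ 14`: `CrysS 12 ε₁ t T'`, and
`14 ≤ mt t T' = (t log T') log T'`. `|x - 2 T'| ≤ 2 t L ≤ 4 t log T'` (`L ≤ 2 log T'`). For
large `X` `(4 π + ε) |log T'/log T - 1| ≤ ε/4` (`|log T' - log T| ≤ 3` as `1/4 ≤ T'/T ≤ 4`,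
`log T ≥ L`), in the two forms which are used:
if `u log T < 4 π - ε` then `u log T' < 4 π - ε₁` (`u ≥ 0`), and if `u log T' ≤ 4 π + ε₁`,
`u ≥ 0`, then `u log T ≤ 4 π + ε`. First claim: `y = x + u`, `u log T' ≤ 4 π ≤ 14 ≤ t (log T')²`, so
`|y - 2 T'| ≤ 4 t log T' + t log T' ≤ 12 t log T'`: the second part of CrysS contradicts. Second
claim: the third part of CrysS. -/
def T_GPG : Prop := ∀ c ε : ℝ, 0 < c → 0 < ε → ∃ (n : ℕ) (X₀ : ℝ), 2 ≤ X₀ ∧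
  ∀ t X T x : ℝ, X₀ ≤ X → 0 < t → t * Real.log X ≤ c → X ≤ T → T ≤ 2 * X →
    3 / 4 * X ≤ x / 2 → x / 2 ≤ 9 / 4 * X →
    ((∃ y : ℝ, x < y ∧ H t x = 0 ∧ H t y = 0 ∧ (y - x) * Real.log T < 4 * Real.pi - ε) ∨
      ∀ y : ℝ, x ≤ y → (y - x) * Real.log T ≤ 4 * Real.pi + ε → H t y ≠ 0) →
    Icc (x / 2 - t * Real.log X) (x / 2 + t * Real.log X) ⊆ BX n t X

/-- INB (from CIG, GPG; 25 min). PROOF. `n` = the maximum of the two levels (`CIN_.mono` in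
P_CIN.lean: RLv for a level implies RLv for smaller ones, so `BX n' ⊆ BX n` for `n' ≤ n`). The
three parts of CrysR: (1) a zero `z` with `|Re z - 2 T| ≤ R`, `|Im z| ≤ K`, not real or not
simple: CIG, `y = Re z/2` (`|Re z/2 - T| ≤ R/2 ≤ X/8`). (2), (3): GPG with `y = x/2`, `j = 0`. -/
def T_INB : Prop := ∀ c K ε : ℝ, 0 < c → 0 < K → 0 < ε → ∃ (n : ℕ) (X₀ : ℝ), 2 ≤ X₀ ∧
  ∀ t X T R : ℝ, X₀ ≤ X → 0 < t → t * Real.log X ≤ c → X ≤ T → T ≤ 2 * X → 0 ≤ R →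
    R ≤ X / 4 → ¬ CrysR R K ε t T →
    ∃ (j : ℕ) (y : ℝ), (j = 0 ∨ 2 ^ j * (t * Real.log X) ≤ K) ∧ |T - y| ≤ R / 2 ∧
      Icc (y - 2 ^ j * (t * Real.log X)) (y + 2 ^ j * (t * Real.log X)) ⊆ BX n (2 ^ j * t) X

/-- UAL (from INB, MON, MXN, CVW; 45 min, helper34). -/
def T_UAL : Prop := ∀ c : ℝ, 0 < c → UniAll c

end Pool.Agent.DBS
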